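import Pool.Agent.MP_ca1109_lc.Xp.Defs

/-!
# Row SPb: strings of small bias and averages
-/

namespace Pool.Agent.MP_ca1109_lc.Xp

open Finset Pool.Agent.H66 Pool.Agent.MP_ca1109_lc.Mpg Pool.Agent.MP_ca1109_lc.Agp
open Pool.Agent.MP_ca1109_lc.Dnf (Cube ch one)

variable {n : ℕ}

section SPb

variable {B B' δ : ℝ} {f g : Cube n → ℂ}

/-! ## Averages -/

theorem spb_av_mul {Ω : Type*} [Fintype Ω] (c : ℂ) (f : Ω → ℂ) :
    av (fun a => c * f a) = c * av f := by
  unfold av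
  rw [← Finset.mul_sum, mul_div_assoc]

theorem spb_av_sum {Ω ι : Type*} [Fintype Ω] (s : Finset ι) (f : ι → Ω → ℂ) :
    av (fun a => ∑ i ∈ s, f i a) = ∑ i ∈ s, av (f i) := by
  unfold av
  rw [Finset.sum_comm, Finset.sum_div]

theorem spb_avg_ofReal {Ω : Type*} [Fintype Ω] (f : Ω → ℝ) :
    av (fun a => ((f a : ℝ) : ℂ)) = ((avg f : ℝ) : ℂ) := by
  unfold av avg
  push_cast
  rfl

theorem spb_avg_E (f : Cube n → ℝ) : avg f = Dnf.E f := by
  unfold avg Dnf.E
  simp

theorem spb_ch_empty {Ω : Type*} [Fintype Ω] [Nonempty Ω] (Y : Ω → Cube n) :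
    avg (fun ω => ch ∅ (Y ω)) = 1 := by
  simp only [Dnf.ch_empty]
  exact avg_const 1

/-! ## Shifts -/

theorem spb_sg_xor (a b : Bool) : Dnf.sg (xor a b) = (-Dnf.sg b) * Dnf.sg a := by
  cases a <;> cases b <;> simp [Dnf.sg]

theorem spb_ch_xo (S : Finset (Fin n)) (s x : Cube n) :
    ch S (xo x s) = (∏ i ∈ S, -Dnf.sg (s i)) * ch S x := by
  unfold ch xo
  rw [← prod_mul_distrib]
  exact prod_congr rfl fun i _ => spb_sg_xor _ _

theorem spb_abs_prod (S : Finset (Fin n)) (s : Cube n) : |∏ i ∈ S, -Dnf.sg (s i)| = 1 := by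
  rw [abs_prod]
  refine prod_eq_one fun i _ => ?_
  rw [abs_neg, Dnf.sg_abs]

theorem Bias.xo {Ω : Type*} [Fintype Ω] {Y : Ω → Cube n} (h : Bias δ Y) (s : Cube n) :
    Bias δ (fun ω => Xp.xo (Y ω) s) := by
  intro S hS
  have h1 : (fun ω => ch S (Xp.xo (Y ω) s)) =
      fun ω => (∏ i ∈ S, -Dnf.sg (s i)) * ch S (Y ω) := by
    funext ω
    exact spb_ch_xo S s (Y ω)
  rw [h1, avg_mul_left, abs_mul, spb_abs_prod, one_mul]
  exact h S hS

theorem Bias.unif : Bias 0 (fun x : Cube n => x) := by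
  intro S hS
  have h1 : avg (fun x : Cube n => ch S x) = Dnf.E (ch S) := spb_avg_E _
  rw [h1, Dnf.E_ch, if_neg hS, abs_zero]

theorem Bias.mono {Ω : Type*} [Fintype Ω] {Y : Ω → Cube n} {δ' : ℝ} (h : Bias δ Y) (hδ : δ ≤ δ') :
    Bias δ' Y := fun S hS => (h S hS).trans hδ

theorem fool {Ω : Type*} [Fintype Ω] [Nonempty Ω] {Y : Ω → Cube n} (hδ : 0 ≤ δ) (hY : Bias δ Y)
    (hf : Sp B f) : ‖av (fun ω => f (Y ω)) - av f‖ ≤ δ * B := by
  obtain ⟨c, hc, hB⟩ := hf
  have h1 : av (fun ω => f (Y ω)) = ∑ S, c S * ((avg fun ω => ch S (Y ω) : ℝ) : ℂ) := by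
    have : (fun ω => f (Y ω)) = fun ω => ∑ S, c S * ((ch S (Y ω) : ℝ) : ℂ) := by
      funext ω
      exact hc (Y ω)
    rw [this, spb_av_sum]
    refine sum_congr rfl fun S _ => ?_
    rw [spb_av_mul, spb_avg_ofReal]
  have h2 : av f = ∑ S, c S * ((avg fun x : Cube n => ch S x : ℝ) : ℂ) := by
    have : f = fun x => ∑ S, c S * ((ch S x : ℝ) : ℂ) := by
      funext x
      exact hc x
    rw [this, spb_av_sum]
    refine sum_congr rfl fun S _ => ?_
    rw [spb_av_mul, spb_avg_ofReal]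
  rw [h1, h2, ← sum_sub_distrib]
  have h3 : ∀ S : Finset (Fin n), ‖c S * ((avg fun ω => ch S (Y ω) : ℝ) : ℂ) -
      c S * ((avg fun x : Cube n => ch S x : ℝ) : ℂ)‖ ≤ δ * ‖c S‖ := by
    intro S
    rw [← mul_sub, norm_mul, mul_comm δ]
    refine mul_le_mul_of_nonneg_left ?_ (norm_nonneg _)
    rw [← Complex.ofReal_sub, Complex.norm_real, Real.norm_eq_abs]
    by_cases hS : S = ∅
    · subst hS
      rw [spb_ch_empty, spb_ch_empty, sub_self, abs_zero]
      exact hδ
    · have h4 := Bias.unif S hS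
      have h5 : avg (fun x : Cube n => ch S x) = 0 := abs_eq_zero.1 (le_antisymm h4 (abs_nonneg _))
      rw [h5, sub_zero]
      exact hY S hS
  refine (norm_sum_le _ _).trans ?_
  refine (sum_le_sum fun S _ => h3 S).trans ?_
  rw [← mul_sum]
  exact mul_le_mul_of_nonneg_left hB hδ

theorem fool_real {Ω : Type*} [Fintype Ω] [Nonempty Ω] {Y : Ω → Cube n} (hδ : 0 ≤ δ)
    (hY : Bias δ Y) {f : Cube n → ℝ} (hf : Sp B fun x => ((f x : ℝ) : ℂ)) :
    |(avg fun ω => f (Y ω)) - avg f| ≤ δ * B := by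
  have h := fool hδ hY hf
  rw [spb_avg_ofReal (fun ω => f (Y ω)), spb_avg_ofReal f, ← Complex.ofReal_sub, Complex.norm_real,
    Real.norm_eq_abs] at h
  exact h

theorem spb_mon_prod (S : Finset (Fin n)) (x : Cube n) :
    mon S x = ∏ i, if i ∈ S then (if x i = true then (1 : ℝ) else 0) else 1 := by
  unfold mon
  by_cases h : Tr S x
  · rw [Dnf.one_true h]
    symm
    refine prod_eq_one fun i _ => ?_
    split_ifs with h1 h2
    · rfl
    · exact absurd (h i h1) h2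
    · rfl
  · rw [Dnf.one_false h]
    symm
    unfold Tr at h
    push Not at h
    obtain ⟨i, hi, hx⟩ := h
    refine prod_eq_zero (mem_univ i) ?_
    rw [if_pos hi, if_neg hx]

theorem avg_mon (S : Finset (Fin n)) : avg (mon S) = (1 / 2) ^ S.card := by
  have h1 : mon S = fun x : Cube n =>
      ∏ i, if i ∈ S then (if x i = true then (1 : ℝ) else 0) else 1 := by
    funext x
    exact spb_mon_prod S x
  rw [h1]
  unfold avg
  have h2 := (prod_univ_sum (fun _ : Fin n => (univ : Finset Bool))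
    (fun i b => (if i ∈ S then (if b = true then (1 : ℝ) else 0) else 1))).symm
  rw [Fintype.piFinset_univ] at h2
  rw [h2]
  have h3 : ∀ i : Fin n, ∑ b : Bool, (if i ∈ S then (if b = true then (1 : ℝ) else 0) else 1) =
      2 * (if i ∈ S then 1 / 2 else 1) := by
    intro i
    rw [Fintype.sum_bool]
    by_cases hS : i ∈ S <;> simp [hS]; norm_num
  simp_rw [h3]
  rw [prod_mul_distrib, prod_const, prod_ite_mem, univ_inter, prod_const]
  simp

theorem spb_sp_mon (S : Finset (Fin n)) : Sp 1 (fun x => ((mon S x : ℝ) : ℂ)) := by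
  refine ⟨fun T => if T ⊆ S then (((1 / 2 : ℝ) ^ S.card : ℝ) : ℂ) else 0, ?_, ?_⟩
  · intro x
    have h1 : mon S x = ∏ i ∈ S, ((1 / 2 : ℝ) * (1 + Dnf.sg (x i))) := by
      rw [spb_mon_prod, prod_ite_mem, univ_inter]
      refine prod_congr rfl fun i _ => ?_
      cases x i <;> simp [Dnf.sg]; norm_num
    have h2 : mon S x = ∑ T ∈ S.powerset, (1 / 2 : ℝ) ^ S.card * ch T x := by
      rw [h1, prod_mul_distrib, prod_const, prod_one_add, mul_sum]
      rfl
    change ((mon S x : ℝ) : ℂ) = ∑ T : Finset (Fin n),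
      (if T ⊆ S then (((1 / 2 : ℝ) ^ S.card : ℝ) : ℂ) else 0) * ((ch T x : ℝ) : ℂ)
    rw [h2, Complex.ofReal_sum, ← sum_filter_add_sum_filter_not univ (fun T => T ⊆ S)]
    have h3 : (univ.filter fun T => T ⊆ S) = S.powerset := by
      ext T
      simp
    rw [h3]
    have h4 : ∑ T ∈ univ.filter (fun T => ¬ T ⊆ S),
        (if T ⊆ S then (((1 / 2 : ℝ) ^ S.card : ℝ) : ℂ) else 0) * ((ch T x : ℝ) : ℂ) = 0 := by
      refine sum_eq_zero fun T hT => ?_
      rw [mem_filter] at hT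
      rw [if_neg hT.2, zero_mul]
    rw [h4, add_zero]
    refine sum_congr rfl fun T hT => ?_
    rw [mem_powerset] at hT
    rw [if_pos hT, Complex.ofReal_mul]
  · have h1 : ∀ T : Finset (Fin n), ‖if T ⊆ S then (((1 / 2 : ℝ) ^ S.card : ℝ) : ℂ) else 0‖ =
        if T ⊆ S then (1 / 2 : ℝ) ^ S.card else 0 := by
      intro T
      split_ifs
      · rw [Complex.norm_real, Real.norm_eq_abs, abs_of_nonneg (by positivity)]
      · exact norm_zero
    simp_rw [h1]
    rw [← sum_filter]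
    have h3 : (univ.filter fun T => T ⊆ S) = S.powerset := by
      ext T
      simp
    rw [h3, sum_const, card_powerset, nsmul_eq_mul, Nat.cast_pow, ← mul_pow]
    norm_num

theorem avg_mon_bias {Ω : Type*} [Fintype Ω] [Nonempty Ω] {Y : Ω → Cube n} (hδ : 0 ≤ δ)
    (hY : Bias δ Y) (S : Finset (Fin n)) :
    |(avg fun ω => Xp.mon S (Y ω)) - (1 / 2) ^ S.card| ≤ δ := by
  have h := fool_real hδ hY (spb_sp_mon S)
  rw [avg_mon, mul_one] at h
  exact h

theorem spb_xo_xo (x s : Cube n) : xo (xo x s) s = x := by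
  funext i
  simp [xo]

/-- The shift as a permutation of the cube. -/
def spb_equiv (s : Cube n) : Cube n ≃ Cube n where
  toFun x := xo x s
  invFun x := xo x s
  left_inv x := spb_xo_xo x s
  right_inv x := spb_xo_xo x s

theorem avg_xo (f : Cube n → ℝ) (s : Cube n) : avg (fun x => f (Xp.xo x s)) = avg f :=
  avg_equiv (spb_equiv s) f

theorem av_xo (f : Cube n → ℂ) (s : Cube n) : av (fun x => f (Xp.xo x s)) = av f := by
  unfold av
  rw [← Equiv.sum_comp (spb_equiv s) f]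
  rfl

end SPb

end Pool.Agent.MP_ca1109_lc.Xp
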