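import Pool.Agent.MP_ca1109_lc.Xp.Defs

/-!
# Calculus of spectral norms of complex functions
-/

namespace Pool.Agent.MP_ca1109_lc.Xp

open Finset Pool.Agent.MP_ca1109_lc.Dnf

variable {n : ℕ} {ι : Type*}

theorem Sp.nonneg {B : ℝ} {f : Cube n → ℂ} (h : Sp B f) : 0 ≤ B := by
  obtain ⟨c, -, hc⟩ := h
  exact (Finset.sum_nonneg fun _ _ => norm_nonneg _).trans hc

theorem Sp.mono {B B' : ℝ} {f : Cube n → ℂ} (h : Sp B f) (hB : B ≤ B') : Sp B' f := by
  obtain ⟨c, h1, h2⟩ := h
  exact ⟨c, h1, h2.trans hB⟩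

theorem Sp.congr' {B : ℝ} {f g : Cube n → ℂ} (h : Sp B f) (hfg : ∀ x, g x = f x) : Sp B g := by
  obtain ⟨c, h1, h2⟩ := h
  exact ⟨c, fun x => (hfg x).trans (h1 x), h2⟩

theorem Sp.of_eq {B : ℝ} {f g : Cube n → ℂ} (h : Sp B f) (hfg : ∀ x, f x = g x) : Sp B g :=
  h.congr' fun x => (hfg x).symm

theorem Sp.add {B B' : ℝ} {f g : Cube n → ℂ} (hf : Sp B f) (hg : Sp B' g) :
    Sp (B + B') fun x => f x + g x := by
  obtain ⟨c, h1, h2⟩ := hf
  obtain ⟨d, h3, h4⟩ := hg
  refine ⟨fun S => c S + d S, fun x => ?_, ?_⟩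
  · dsimp only
    rw [h1, h3, ← Finset.sum_add_distrib]
    exact Finset.sum_congr rfl fun S _ => by ring
  · calc ∑ S, ‖c S + d S‖ ≤ ∑ S, (‖c S‖ + ‖d S‖) := Finset.sum_le_sum fun S _ => norm_add_le _ _
      _ = ∑ S, ‖c S‖ + ∑ S, ‖d S‖ := Finset.sum_add_distrib
      _ ≤ B + B' := add_le_add h2 h4

theorem Sp.smul {B : ℝ} (z : ℂ) {f : Cube n → ℂ} (hf : Sp B f) : Sp (‖z‖ * B) fun x => z * f x := by
  obtain ⟨c, h1, h2⟩ := hf
  refine ⟨fun S => z * c S, fun x => ?_, ?_⟩
  · dsimp only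
    rw [h1, Finset.mul_sum]
    exact Finset.sum_congr rfl fun S _ => by ring
  · simp only [norm_mul]
    rw [← Finset.mul_sum]
    exact mul_le_mul_of_nonneg_left h2 (norm_nonneg _)

theorem Sp.neg {B : ℝ} {f : Cube n → ℂ} (hf : Sp B f) : Sp B fun x => - f x := by
  have h := hf.smul (-1)
  rw [norm_neg, norm_one, one_mul] at h
  exact h.congr' fun x => by ring

theorem Sp.sub {B B' : ℝ} {f g : Cube n → ℂ} (hf : Sp B f) (hg : Sp B' g) :
    Sp (B + B') fun x => f x - g x :=
  (hf.add hg.neg).congr' fun x => by ring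

theorem Sp.const (z : ℂ) : Sp ‖z‖ (fun _ : Cube n => z) := by
  classical
  refine ⟨fun S => if S = ∅ then z else 0, fun x => ?_, ?_⟩
  · rw [Finset.sum_eq_single ∅]
    · dsimp only
      rw [if_pos rfl, ch_empty]
      simp
    · intro S _ hS
      dsimp only
      rw [if_neg hS, zero_mul]
    · intro h
      exact absurd (Finset.mem_univ _) h
  · rw [Finset.sum_eq_single ∅]
    · dsimp only
      rw [if_pos rfl]
    · intro S _ hS
      dsimp only
      rw [if_neg hS, norm_zero]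
    · intro h
      exact absurd (Finset.mem_univ _) h

theorem Sp.sum {ι : Type*} (s : Finset ι) (B : ι → ℝ) (f : ι → Cube n → ℂ)
    (h : ∀ i ∈ s, Sp (B i) (f i)) : Sp (∑ i ∈ s, B i) (fun x => ∑ i ∈ s, f i x) := by
  classical
  induction s using Finset.induction_on with
  | empty =>
    have := Sp.const (n := n) 0
    rw [norm_zero] at this
    simpa using this
  | insert i s hi ih =>
    rw [Finset.sum_insert hi]
    refine ((h i (Finset.mem_insert_self _ _)).add
      (ih fun j hj => h j (Finset.mem_insert_of_mem hj))).congr' fun x => ?_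
    rw [Finset.sum_insert hi]

theorem Sp.ch_mul {B : ℝ} {f : Cube n → ℂ} (hf : Sp B f) (T : Finset (Fin n)) :
    Sp B fun x => ((ch T x : ℝ) : ℂ) * f x := by
  classical
  obtain ⟨c, h1, h2⟩ := hf
  let e : Finset (Fin n) ≃ Finset (Fin n) :=
    { toFun := fun S => symmDiff T S
      invFun := fun S => symmDiff T S
      left_inv := fun S => by simp
      right_inv := fun S => by simp }
  refine ⟨fun S => c (symmDiff T S), fun x => ?_, ?_⟩
  · dsimp only
    rw [h1, Finset.mul_sum, ← Equiv.sum_comp e]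
    refine Finset.sum_congr rfl fun S _ => ?_
    show ((ch T x : ℝ) : ℂ) * (c (symmDiff T S) * ((ch (symmDiff T S) x : ℝ) : ℂ)) = _
    have h3 : ch T x * ch (symmDiff T S) x = ch S x := by
      rw [Dnf.ch_mul]
      simp
    have h4 : ((ch T x : ℝ) : ℂ) * ((ch (symmDiff T S) x : ℝ) : ℂ) = ((ch S x : ℝ) : ℂ) := by
      rw [← h3]
      push_cast
      ring
    calc ((ch T x : ℝ) : ℂ) * (c (symmDiff T S) * ((ch (symmDiff T S) x : ℝ) : ℂ))
        = c (symmDiff T S) * (((ch T x : ℝ) : ℂ) * ((ch (symmDiff T S) x : ℝ) : ℂ)) := by ring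
      _ = _ := by rw [h4]
  · refine le_trans (le_of_eq ?_) h2
    exact Equiv.sum_comp e fun S => ‖c S‖

theorem Sp.mul {B B' : ℝ} {f g : Cube n → ℂ} (hf : Sp B f) (hg : Sp B' g) :
    Sp (B * B') fun x => f x * g x := by
  obtain ⟨c, h1, h2⟩ := hf
  have hB' := hg.nonneg
  have h := Sp.sum (Finset.univ : Finset (Finset (Fin n))) (fun S => ‖c S‖ * B')
    (fun S x => c S * (((ch S x : ℝ) : ℂ) * g x)) fun S _ => (hg.ch_mul S).smul (c S)
  refine (h.mono ?_).congr' fun x => ?_
  · rw [← Finset.sum_mul]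
    exact mul_le_mul_of_nonneg_right h2 hB'
  · rw [h1, Finset.sum_mul]
    exact Finset.sum_congr rfl fun S _ => by ring

theorem Sp.prod {ι : Type*} (s : Finset ι) (B : ι → ℝ) (f : ι → Cube n → ℂ)
    (h : ∀ i ∈ s, Sp (B i) (f i)) : Sp (∏ i ∈ s, B i) (fun x => ∏ i ∈ s, f i x) := by
  classical
  induction s using Finset.induction_on with
  | empty =>
    have := Sp.const (n := n) 1
    rw [norm_one] at this
    simpa using this
  | insert i s hi ih =>
    rw [Finset.prod_insert hi]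
    refine ((h i (Finset.mem_insert_self _ _)).mul
      (ih fun j hj => h j (Finset.mem_insert_of_mem hj))).congr' fun x => ?_
    rw [Finset.prod_insert hi]

theorem Sp.pow {B : ℝ} {f : Cube n → ℂ} (hf : Sp B f) (k : ℕ) : Sp (B ^ k) fun x => f x ^ k := by
  have h := Sp.prod (Finset.range k) (fun _ => B) (fun _ => f) fun _ _ => hf
  rw [Finset.prod_const, Finset.card_range] at h
  exact h.congr' fun x => by rw [Finset.prod_const, Finset.card_range]

/-- Real functions. -/
theorem Sp_real (f : Cube n → ℝ) : Sp (L1 f) fun x => ((f x : ℝ) : ℂ) := by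
  refine ⟨fun S => ((fc f S : ℝ) : ℂ), fun x => ?_, ?_⟩
  · have h := inversion f x
    calc ((f x : ℝ) : ℂ) = ((∑ S, fc f S * ch S x : ℝ) : ℂ) := by rw [← h]
      _ = _ := by push_cast; rfl
  · refine le_of_eq ?_
    unfold L1
    exact Finset.sum_congr rfl fun S _ => by rw [Complex.norm_real, Real.norm_eq_abs]

theorem Sp.conj {B : ℝ} {f : Cube n → ℂ} (hf : Sp B f) :
    Sp B fun x => (starRingEnd ℂ) (f x) := by
  obtain ⟨c, h1, h2⟩ := hf
  refine ⟨fun S => (starRingEnd ℂ) (c S), fun x => ?_, ?_⟩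
  · dsimp only
    rw [h1, map_sum]
    refine Finset.sum_congr rfl fun S _ => ?_
    rw [map_mul, Complex.conj_ofReal]
  · simpa using h2

/-- The spectral norm of the real part. -/
theorem Sp.L1_re {B : ℝ} {f : Cube n → ℝ} (hf : Sp B fun x => ((f x : ℝ) : ℂ)) : L1 f ≤ B := by
  obtain ⟨c, h1, h2⟩ := hf
  have h3 : f = fun x => ∑ S, (c S).re * ch S x := by
    funext x
    have h := congrArg Complex.re (h1 x)
    rw [Complex.ofReal_re, Complex.re_sum] at h
    rw [h]
    refine Finset.sum_congr rfl fun S _ => ?_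
    rw [Complex.re_mul_ofReal]
  refine le_trans ?_ h2
  unfold L1
  refine Finset.sum_le_sum fun S _ => ?_
  rw [h3, fc_poly]
  exact Complex.abs_re_le_norm _

theorem Sp.mon (m : Finset (Fin n)) : Sp 1 (fun x => ((mon m x : ℝ) : ℂ)) :=
  (Sp_real (Xp.mon m)).mono (L1_term (⟨m, fun _ => true⟩ : Term n))

theorem ch_xo (S : Finset (Fin n)) (x s : Cube n) :
    ch S (xo x s) = (-1) ^ S.card * ch S s * ch S x := by
  unfold ch xo
  rw [← Finset.prod_const, ← Finset.prod_mul_distrib, ← Finset.prod_mul_distrib]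
  refine Finset.prod_congr rfl fun i _ => ?_
  unfold sg
  rcases x i with _ | _ <;> rcases s i with _ | _ <;> norm_num

theorem Sp.xo {B : ℝ} {f : Cube n → ℂ} (s : Cube n) (hf : Sp B f) : Sp B (fun x => f (Xp.xo x s)) := by
  obtain ⟨c, h1, h2⟩ := hf
  refine ⟨fun S => c S * (((-1) ^ S.card * ch S s : ℝ) : ℂ), fun x => ?_, ?_⟩
  · dsimp only
    rw [h1]
    refine Finset.sum_congr rfl fun S _ => ?_
    rw [ch_xo]
    push_cast
    ring
  · refine le_trans (le_of_eq (Finset.sum_congr rfl fun S _ => ?_)) h2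
    rw [norm_mul, Complex.norm_real, Real.norm_eq_abs, abs_mul, abs_pow, abs_neg, abs_one, one_pow,
      ch_abs, one_mul, mul_one]

theorem Sp.bit (i : Fin n) (b : Bool) : Sp 1 (fun x : Cube n => ((one (x i = b) : ℝ) : ℂ)) := by
  refine ((Sp_real (⟨{i}, fun _ => b⟩ : Term n).f).mono (L1_term _)).congr' fun x => ?_
  congr 1
  unfold Term.f
  congr 1
  refine propext ⟨fun h j hj => ?_, fun h => h i (Finset.mem_singleton_self i)⟩
  rw [Finset.mem_singleton.1 hj]
  exact h

theorem Sp.eq2 (i j : Fin n) (hij : i ≠ j) :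
    Sp 1 (fun x : Cube n => ((one (x i = x j) : ℝ) : ℂ)) := by
  have h1 := (Sp_real (ch {i, j} : Cube n → ℝ)).smul (1 / 2)
  have h2 := (Sp.const (n := n) 1).smul (1 / 2)
  refine ((h1.add h2).mono ?_).congr' fun x => ?_
  · rw [L1_ch]
    norm_num
  · have h3 : ch {i, j} x = sg (x i) * sg (x j) := by
      unfold ch
      rw [Finset.prod_pair hij]
    rw [h3]
    by_cases h : x i = x j
    · rw [one_true h, h, sg_mul_self]
      norm_num
    · rw [one_false h]
      have : sg (x i) * sg (x j) = -1 := by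
        unfold sg
        rcases hi : x i with _ | _ <;> rcases hj : x j with _ | _
        · exact absurd (hi.trans hj.symm) h
        · norm_num
        · norm_num
        · exact absurd (hi.trans hj.symm) h
      rw [this]
      norm_num

end Pool.Agent.MP_ca1109_lc.Xp
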