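import Pool.Agent.MP_ca1109_lc.Xp.Defs

namespace Pool.Agent.MP_ca1109_lc.Xp

open Finset Pool.Agent.H66 Pool.Agent.MP_ca1109_lc.Mpg Pool.Agent.MP_ca1109_lc.Agp
open Pool.Agent.MP_ca1109_lc.Dnf (Cube ch one)

variable {n : ℕ}

/-! ## GN: the generator -/

/-- The output of the generator. -/
def gx {L B : ℕ} (y : Cube n) (η : Fin L → Finset (Fin n)) (h : Fin n → Fin B)
    (v : Fin L → Fin B → Bool) : Cube n :=
  fun i => xor (y i) (decide ((∑ l, if i ∈ η l ∧ v l (h i) = true then 1 else 0) % 2 = 1))

theorem gx_update {L B : ℕ} (y : Cube n) (η : Fin L → Finset (Fin n)) (h : Fin n → Fin B)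
    (v : Fin L → Fin B → Bool) (l : Fin L) (u : Fin B → Bool) :
    gx y η h (Function.update v l u) =
      mv (xo y (gx (fun _ => false) η h (Function.update v l fun _ => false))) (η l) h u := by
  funext i
  unfold gx mv xo
  beta_reduce
  rw [← add_sum_erase univ _ (mem_univ l), ← add_sum_erase univ _ (mem_univ l)]
  have h1 : ∀ w : Fin B → Bool, (∑ x ∈ univ.erase l,
      if i ∈ η x ∧ Function.update v l w x (h i) = true then 1 else 0) =
      ∑ x ∈ univ.erase l, if i ∈ η x ∧ v x (h i) = true then 1 else 0 := by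
    intro w
    refine sum_congr rfl fun x hx => ?_
    rw [Function.update_of_ne (ne_of_mem_erase hx)]
  rw [h1, h1, Function.update_self, Function.update_self]
  generalize (∑ x ∈ univ.erase l, if i ∈ η x ∧ v x (h i) = true then 1 else 0) = s
  generalize y i = b
  have h2 : s % 2 = 0 ∨ s % 2 = 1 := Nat.mod_two_eq_zero_or_one s
  by_cases hi : i ∈ η l
  · rcases hu : u (h i) with _ | _
    · rcases h2 with h2 | h2 <;> simp [hi, h2]
    · rcases h2 with h2 | h2
      · have h3 : (1 + s) % 2 = 1 := by omega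
        simp [hi, h2, h3]
      · have h3 : (1 + s) % 2 = 0 := by omega
        simp [hi, h2, h3]
  · rcases h2 with h2 | h2 <;> simp [hi, h2]

theorem gx_xo {L B : ℕ} (y : Cube n) (η : Fin L → Finset (Fin n)) (h : Fin n → Fin B)
    (v : Fin L → Fin B → Bool) : gx y η h v = xo y (gx (fun _ => false) η h v) := by
  funext i
  unfold gx xo
  simp

theorem av_update {L B : ℕ} (l : Fin L) (F : (Fin L → Fin B → Bool) → ℂ) :
    av F = av fun v => av fun u => F (Function.update v l u) := by
  have hinv : Function.Involutive fun p : (Fin L → Fin B → Bool) × (Fin B → Bool) =>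
      (Function.update p.1 l p.2, p.1 l) := by
    rintro ⟨v, u⟩
    simp
  have h1 : ∑ p : (Fin L → Fin B → Bool) × (Fin B → Bool), F (Function.update p.1 l p.2) =
      ∑ p : (Fin L → Fin B → Bool) × (Fin B → Bool), F p.1 :=
    Equiv.sum_comp (hinv.toPerm _) fun p : (Fin L → Fin B → Bool) × (Fin B → Bool) => F p.1
  rw [Fintype.sum_prod_type, Fintype.sum_prod_type] at h1
  simp only [sum_const, nsmul_eq_mul] at h1
  unfold av
  rw [← Finset.sum_div, h1]
  have hc : ((Fintype.card (Fin B → Bool) : ℕ) : ℂ) ≠ 0 := by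
    exact_mod_cast Fintype.card_ne_zero
  rw [← Finset.mul_sum, Finset.card_univ, mul_div_cancel_left₀ _ hc]

end Pool.Agent.MP_ca1109_lc.Xp
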