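import Pool.Agent.MP_ca1109_lc.Xp.SP

namespace Pool.Agent.MP_ca1109_lc.Xp

open Finset Pool.Agent.H66 Pool.Agent.MP_ca1109_lc.Mpg Pool.Agent.MP_ca1109_lc.Agp
open Pool.Agent.MP_ca1109_lc.Dnf (Cube ch one)

variable {n : ℕ}

/-! ## SR: the source (e, H): blocks of `L + s` bits -/

/-- The random sets: the first `l` bits of the block are true. -/
def eta {n L s : ℕ} (Z : Cube (n * (L + s))) (l : ℕ) : Finset (Fin n) :=
  univ.filter fun i => ∀ t : Fin (L + s), (t : ℕ) < l → Z (finProdFinEquiv (i, t)) = true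

/-- The hash values: the last `s` bits of the block, in binary. -/
def hsh {n L s : ℕ} (Z : Cube (n * (L + s))) (i : Fin n) : Fin (2 ^ s) :=
  finFunctionFinEquiv fun b : Fin s =>
    finTwoEquiv.symm (Z (finProdFinEquiv (i, Fin.natAdd L b)))

/-- The first `l` positions of the blocks in `D`. -/
def srS (n L s l : ℕ) (D : Finset (Fin n)) : Finset (Fin (n * (L + s))) :=
  (D ×ˢ (univ.filter fun t : Fin (L + s) => (t : ℕ) < l)).map finProdFinEquiv.toEmbedding

theorem sr_mem {n L s l : ℕ} {D : Finset (Fin n)} {i : Fin n} {t : Fin (L + s)} :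
    finProdFinEquiv (i, t) ∈ srS n L s l D ↔ i ∈ D ∧ (t : ℕ) < l := by
  unfold srS
  rw [mem_map]
  constructor
  · rintro ⟨⟨i', t'⟩, h, he⟩
    rw [mem_product, mem_filter] at h
    have he' : (i', t') = (i, t) := finProdFinEquiv.injective he
    rw [Prod.mk.injEq] at he'
    obtain ⟨rfl, rfl⟩ := he'
    exact ⟨h.1, h.2.2⟩
  · rintro ⟨h1, h2⟩
    exact ⟨(i, t), mem_product.2 ⟨h1, mem_filter.2 ⟨mem_univ _, h2⟩⟩, rfl⟩

theorem sr_sub {n L s : ℕ} (z : Cube (n * (L + s))) (l : ℕ) (D : Finset (Fin n)) :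
    D ⊆ eta z l ↔ Tr (srS n L s l D) z := by
  constructor
  · intro h c hc
    obtain ⟨⟨i, t⟩, rfl⟩ := finProdFinEquiv.surjective c
    rw [sr_mem] at hc
    exact (mem_filter.1 (h hc.1)).2 t hc.2
  · intro h i hi
    exact mem_filter.2 ⟨mem_univ _, fun t ht => h _ (sr_mem.2 ⟨hi, ht⟩)⟩

theorem sr_card {n L s l : ℕ} (hl : l ≤ L) (D : Finset (Fin n)) :
    (srS n L s l D).card = l * D.card := by
  unfold srS
  rw [card_map, card_product, Fin.card_filter_val_lt, min_eq_right (by omega), mul_comm]

/-- The flip of one bit. -/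
def srE {N : ℕ} (j : Fin N) : Cube N ≃ Cube N :=
  Function.Involutive.toPerm (fl j) fun x => by
    unfold fl
    rw [Function.update_idem, Function.update_self, Bool.not_not, Function.update_eq_self]

theorem sr_half {N : ℕ} (g : Cube N → ℝ) (a a' : Fin N) (haa : a ≠ a')
    (hg : ∀ x, g (fl a x) = g x) :
    avg (fun x => g x * one (x a = x a')) = 1 / 2 * avg g := by
  have h1 : avg (fun x => g x * one (x a = x a')) =
      avg fun x => g x - g x * one (x a = x a') := by
    rw [← avg_equiv (srE a)]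
    congr 1
    funext x
    have h2 : (srE a x) = fl a x := rfl
    rw [h2, hg]
    have h3 : fl a x a = !(x a) := Function.update_self _ _ _
    have h4 : fl a x a' = x a' := Function.update_of_ne haa.symm _ _
    rw [h3, h4]
    rcases hx : x a with _ | _ <;> rcases hy : x a' with _ | _ <;> simp [one]
  rw [avg_sub] at h1
  linarith

theorem sr_prod {N : ℕ} {ι : Type*} [DecidableEq ι] (S : Finset (Fin N)) (a a' : ι → Fin N)
    (ha : Function.Injective a) (haa : ∀ b c, a b ≠ a' c) (haS : ∀ b, a b ∉ S) (U : Finset ι) :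
    avg (fun x => mon S x * ∏ b ∈ U, one (x (a b) = x (a' b))) =
      (1 / 2) ^ U.card * (1 / 2) ^ S.card := by
  induction U using Finset.induction_on with
  | empty => simp [avg_mon]
  | insert b U hb ih =>
    have h1 := sr_half (fun x => mon S x * ∏ b ∈ U, one (x (a b) = x (a' b))) (a b) (a' b)
      (haa b b) (fun x => by
        have h2 : mon S (fl (a b) x) = mon S x := by
          unfold mon
          congr 1
          refine propext (forall_congr' fun i => forall_congr' fun hi => ?_)
          have h3 : i ≠ a b := fun h => haS b (h ▸ hi)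
          rw [show fl (a b) x i = x i from Function.update_of_ne h3 _ _]
        have h4 : ∀ c ∈ U, one (fl (a b) x (a c) = fl (a b) x (a' c)) = one (x (a c) = x (a' c)) := by
          intro c hc
          have h5 : a c ≠ a b := fun h => hb (ha h ▸ hc)
          rw [show fl (a b) x (a c) = x (a c) from Function.update_of_ne h5 _ _,
            show fl (a b) x (a' c) = x (a' c) from Function.update_of_ne (haa b c).symm _ _]
        change mon S (fl (a b) x) * ∏ c ∈ U, one (fl (a b) x (a c) = fl (a b) x (a' c)) = _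
        rw [h2, prod_congr rfl h4])
    rw [ih] at h1
    rw [card_insert_of_notMem hb, pow_succ, mul_right_comm, mul_comm (_ * _) (1 / 2 : ℝ), ← h1]
    congr 1
    funext x
    rw [prod_insert hb]
    ring

theorem sr_hsh {n L s : ℕ} (z : Cube (n * (L + s))) (i j : Fin n) :
    hsh z i = hsh z j ↔ ∀ b : Fin s,
      z (finProdFinEquiv (i, Fin.natAdd L b)) = z (finProdFinEquiv (j, Fin.natAdd L b)) := by
  unfold hsh
  rw [finFunctionFinEquiv.apply_eq_iff_eq, funext_iff]
  exact forall_congr' fun b => finTwoEquiv.symm.apply_eq_iff_eq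

theorem sr_one_forall {ι : Type*} [Fintype ι] (p : ι → Prop) :
    one (∀ b, p b) = ∏ b, one (p b) := by
  by_cases h : ∀ b, p b
  · rw [Dnf.one_true h, prod_congr rfl fun b _ => Dnf.one_true (h b), prod_const_one]
  · rw [Dnf.one_false h]
    obtain ⟨b, hb⟩ := not_forall.1 h
    exact (prod_eq_zero (mem_univ b) (Dnf.one_false hb)).symm

theorem src_of_bias {Ω : Type*} [Fintype Ω] [Nonempty Ω] {n L s : ℕ} {δ : ℝ} (hδ : 0 ≤ δ)
    (Z : Ω → Cube (n * (L + s))) (hZ : Bias δ Z) (l : ℕ) (hl : l ≤ L) :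
    Src ((1 / 2 : ℝ) ^ l) δ (fun ω => eta (Z ω) l) (fun ω => hsh (Z ω)) := by
  constructor
  · intro D
    have h1 := avg_mon_bias hδ hZ (srS n L s l D)
    rw [sr_card hl, pow_mul] at h1
    have h2 : (fun ω => mon (srS n L s l D) (Z ω)) = fun ω => one (D ⊆ eta (Z ω) l) := by
      funext ω
      unfold mon
      rw [← propext (sr_sub (Z ω) l D)]
    rwa [h2] at h1
  · intro i j hij
    let S := srS n L s l {i, j}
    let a : Fin s → Fin (n * (L + s)) := fun b => finProdFinEquiv (i, Fin.natAdd L b)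
    let a' : Fin s → Fin (n * (L + s)) := fun b => finProdFinEquiv (j, Fin.natAdd L b)
    have haa : ∀ b c, a b ≠ a' c := by
      intro b c h
      have h1 := finProdFinEquiv.injective h
      rw [Prod.mk.injEq] at h1
      exact hij h1.1
    have ha : Function.Injective a := by
      intro b c h
      have h1 := finProdFinEquiv.injective h
      rw [Prod.mk.injEq] at h1
      exact (Fin.natAdd_injective _ _) h1.2
    have haS : ∀ b, a b ∉ S := by
      intro b h
      have h1 := (sr_mem.1 h).2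
      rw [Fin.val_natAdd] at h1
      omega
    have hf : ∀ ω, one (i ∈ eta (Z ω) l ∧ j ∈ eta (Z ω) l ∧ hsh (Z ω) i = hsh (Z ω) j) =
        mon S (Z ω) * ∏ b, one (Z ω (a b) = Z ω (a' b)) := by
      intro ω
      rw [← sr_one_forall, mon, ← Dnf.one_and]
      congr 1
      refine propext ?_
      rw [← sr_sub, ← sr_hsh, ← and_assoc, insert_subset_iff, singleton_subset_iff]
    have hsp : Sp 1 fun x : Cube (n * (L + s)) =>
        ((mon S x * ∏ b, one (x (a b) = x (a' b)) : ℝ) : ℂ) := by
      have h1 := (Sp.mon S).mul (Sp.prod univ (fun _ => (1 : ℝ)) _ fun b _ =>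
        Sp.eq2 (a b) (a' b) (haa b b))
      rw [prod_const_one, mul_one] at h1
      refine h1.of_eq fun x => ?_
      push_cast
      rfl
    have h1 := fool_real hδ hZ hsp
    rw [sr_prod S a a' ha haa haS univ, card_univ, Fintype.card_fin, mul_one, sr_card hl,
      card_pair hij] at h1
    rw [show (fun ω => one (i ∈ eta (Z ω) l ∧ j ∈ eta (Z ω) l ∧ hsh (Z ω) i = hsh (Z ω) j)) =
      fun ω => mon S (Z ω) * ∏ b, one (Z ω (a b) = Z ω (a' b)) from funext hf]
    have h2 := (abs_le.1 h1).2
    have h3 : ((1 / 2 : ℝ) ^ l) ^ 2 / ((2 ^ s : ℕ) : ℝ) = (1 / 2) ^ s * (1 / 2) ^ (l * 2) := by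
      rw [← pow_mul, Nat.cast_pow, Nat.cast_ofNat, one_div_pow 2 s]
      ring
    rw [h3]
    linarith

end Pool.Agent.MP_ca1109_lc.Xp
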