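import Pool.Agent.MP_ca1109_lc.Xp.GX
import Pool.Agent.MP_ca1109_lc.Xp.SR
import Pool.Agent.MP_ca1109_lc.Hyb.E3
import Pool.Agent.MP_ca1109_lc.Hyb.E4

/-!
# The generator
-/

namespace Pool.Agent.MP_ca1109_lc.Xp

open Finset Pool.Agent.H66 Pool.Agent.MP_ca1109_lc.Mpg Pool.Agent.MP_ca1109_lc.Agp
open Pool.Agent.MP_ca1109_lc.Dnf (Cube ch one)

variable {n : ℕ}

/-! ### The ingredients, on natural numbers -/

/-- The number of levels. -/
def gL (r n : ℕ) : ℕ := Nat.clog 2 n + r + 1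

/-- The length of the second string. -/
def gN (r s n : ℕ) : ℕ := n * (gL r n + s)

/-- The number of values of the true random bits. -/
def gV (r s n : ℕ) : ℕ := 2 ^ (gL r n * 2 ^ s)

/-- The bit `t` of the block `i` of the second string. -/
def gZ (r s : ℕ) (G : ℕ → ℕ → ℕ → Bool) (n p i t : ℕ) : Bool :=
  G (gN r s n) p (t + (gL r n + s) * i)

/-- The hash value. -/
def gH (r s : ℕ) (G : ℕ → ℕ → ℕ → Bool) (n p i : ℕ) : ℕ → ℕ
  | 0 => 0
  | b + 1 => gH r s G n p i b + (if gZ r s G n p i (gL r n + b) then 1 else 0) * 2 ^ b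

/-- The levels which change the bit `i`. -/
def gT (r s : ℕ) (G : ℕ → ℕ → ℕ → Bool) (n p v i l : ℕ) : Bool :=
  ((List.range l).filter fun t => !gZ r s G n p i t).isEmpty &&
    decide (v / 2 ^ (gH r s G n p i s + 2 ^ s * l) % 2 = 1)

/-- The number of seeds of the second string. -/
def gM (r s : ℕ) (E : ℕ → ℕ) (n : ℕ) : ℕ := 2 ^ E (gN r s n)

/-- The generator. -/
def gG (r s : ℕ) (E₂ : ℕ → ℕ) (G₁ G₂ : ℕ → ℕ → ℕ → Bool) (n p i : ℕ) : Bool :=
  xor (G₁ n (p / gV r s n / gM r s E₂ n) i)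
    (decide (((List.range (gL r n)).filter fun l =>
      gT r s G₂ n (p / gV r s n % gM r s E₂ n) (p % gV r s n) i l).length % 2 = 1))

/-- The length of the seed. -/
def gE (r s : ℕ) (E₁ E₂ : ℕ → ℕ) (n : ℕ) : ℕ := E₁ n + E₂ (gN r s n) + gL r n * 2 ^ s

/-! ### It is explicit -/

theorem gL_poly (r : ℕ) : PolyTime fun n : ℕ => gL r n :=
  PolyTime.add (PolyTime.add polyTime_clog (PolyTime.const r)) (PolyTime.const 1)

theorem gN_poly (r s : ℕ) : PolyTime fun n : ℕ => gN r s n :=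
  PolyTime.mul PolyTime.id (PolyTime.add (gL_poly r) (PolyTime.const s))

theorem gV_eq (r s n : ℕ) : gV r s n = 2 ^ ((r + 1) * 2 ^ s) * nseed (2 ^ s) n := by
  unfold gV nseed gL
  rw [← pow_mul, ← pow_add]
  congr 1
  ring

theorem gV_poly (r s : ℕ) : PolyTime fun n : ℕ => gV r s n :=
  (PolyTime.mul (PolyTime.const (2 ^ ((r + 1) * 2 ^ s))) (polyTime_nseed (2 ^ s))).of_eq
    fun n => (gV_eq r s n).symm

theorem gM_poly (r s : ℕ) {E : ℕ → ℕ} (h : PolyTime fun n : ℕ => 2 ^ E n) :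
    PolyTime fun n : ℕ => gM r s E n := h.comp (gN_poly r s)

theorem gE_pow (r s : ℕ) (E₁ E₂ : ℕ → ℕ) (n : ℕ) :
    2 ^ gE r s E₁ E₂ n = 2 ^ E₁ n * gM r s E₂ n * gV r s n := by
  unfold gE gM gV
  rw [pow_add, pow_add]

theorem gN_bound (r s : ℕ) : ∃ c : ℕ, ∀ n : ℕ, gN r s n + 1 ≤ c * (n + 1) ^ c := by
  refine ⟨r + s + 3, fun n => ?_⟩
  have h1 : Nat.clog 2 n ≤ n := by
    rcases Nat.eq_zero_or_pos n with rfl | h
    · simp
    · exact Nat.clog_le_of_le_pow (Nat.lt_two_pow_self).le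
  have h2 : gN r s n + 1 ≤ (r + s + 3) * (n + 1) ^ 2 := by
    unfold gN gL
    have h3 : n * (Nat.clog 2 n + r + 1 + s) ≤ n * (n + r + 1 + s) :=
      Nat.mul_le_mul_left _ (by omega)
    have h4 : (r + s + 3) * (n + 1) ^ 2 = n * (n + r + 1 + s) + 1 +
        ((r + s + 2) * n ^ 2 + (r + s + 5) * n + (r + s + 2)) := by ring
    omega
  exact h2.trans (Nat.mul_le_mul_left _ (Nat.pow_le_pow_right (by omega) (by omega)))

theorem gM_bound (r s : ℕ) {E : ℕ → ℕ} (h : ∃ c : ℕ, ∀ n, 2 ^ E n ≤ c * (n + 1) ^ c) :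
    ∃ c : ℕ, ∀ n, gM r s E n ≤ c * (n + 1) ^ c := by
  obtain ⟨c, hc⟩ := h
  obtain ⟨d, hd⟩ := pb_mul (pb_const c) (pb_pow (gN_bound r s) c)
  exact ⟨d, fun n => (hc _).trans (hd n)⟩

theorem gZ_poly (r s : ℕ) {E : ℕ → ℕ} {G : ℕ → ℕ → ℕ → Bool} (h : NG E G) {γ : Type} [Enc γ]
    {n p i t : γ → ℕ} (hn : PolyTime n) (hp : PolyTime p) (hi : PolyTime i) (ht : PolyTime t) :
    PolyTime fun c => gZ r s G (n c) (p c) (i c) (t c) := by
  unfold gZ
  exact polyTime_out h ((gN_poly r s).comp hn) hp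
    (PolyTime.add ht (PolyTime.mul (PolyTime.add ((gL_poly r).comp hn) (PolyTime.const s)) hi))

theorem gH_poly (r s : ℕ) {E : ℕ → ℕ} {G : ℕ → ℕ → ℕ → Bool} (h : NG E G) {γ : Type} [Enc γ]
    {n p i : γ → ℕ} (hn : PolyTime n) (hp : PolyTime p) (hi : PolyTime i) (b : ℕ) :
    PolyTime fun c => gH r s G (n c) (p c) (i c) b := by
  induction b with
  | zero => exact PolyTime.const 0
  | succ b ih =>
    unfold gH
    exact PolyTime.add ih (PolyTime.mul (PolyTime.ite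
      (gZ_poly r s h hn hp hi (PolyTime.add ((gL_poly r).comp hn) (PolyTime.const b)))
      (PolyTime.const 1) (PolyTime.const 0)) (PolyTime.const (2 ^ b)))

theorem gT_poly (r s : ℕ) {E : ℕ → ℕ} {G : ℕ → ℕ → ℕ → Bool} (h : NG E G) {γ : Type} [Enc γ]
    {n p v i l : γ → ℕ} (hn : PolyTime n) (hp : PolyTime p) (hv : PolyTime v) (hi : PolyTime i)
    (hl : PolyTime l) : PolyTime fun c => gT r s G (n c) (p c) (v c) (i c) (l c) := by
  unfold gT
  have h1 := PolyTime.filter (l := fun c : γ => List.range (l c))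
    (f := fun (c : γ) (t : ℕ) => !gZ r s G (n c) (p c) (i c) t) (PolyTime.range hl)
    (PolyTime.not (gZ_poly r s h (hn.comp PolyTime.fst) (hp.comp PolyTime.fst)
      (hi.comp PolyTime.fst) PolyTime.snd))
  refine PolyTime.and (PolyTime.isEmpty.comp h1) ?_
  exact PolyTime.eqb (d3_mod (g3_divpow hv (PolyTime.add (gH_poly r s h hn hp hi s)
    (PolyTime.mul (PolyTime.const (2 ^ s)) hl))) (PolyTime.const 2)) (PolyTime.const 1)

theorem gG_ng (r s : ℕ) {E₁ E₂ : ℕ → ℕ} {G₁ G₂ : ℕ → ℕ → ℕ → Bool} (h₁ : NG E₁ G₁)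
    (h₂ : NG E₂ G₂) : NG (gE r s E₁ E₂) (gG r s E₂ G₁ G₂) := by
  refine ⟨?_, ?_, ?_, ?_⟩
  · exact PolyTime.add (PolyTime.add h₁.poly_E (h₂.poly_E.comp (gN_poly r s)))
      (PolyTime.mul (gL_poly r) (PolyTime.const (2 ^ s)))
  · exact (PolyTime.mul (PolyTime.mul h₁.poly_M (gM_poly r s h₂.poly_M)) (gV_poly r s)).of_eq
      fun n => (gE_pow r s E₁ E₂ n).symm
  · obtain ⟨c, hc⟩ := pb_mul (pb_mul h₁.bound (gM_bound r s h₂.bound))
      (pb_mul (pb_const (2 ^ ((r + 1) * 2 ^ s))) (pb_pow pb_clog (2 ^ s)))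
    refine ⟨c, fun n => ?_⟩
    rw [gE_pow, gV_eq]
    exact hc n
  · have hn : PolyTime fun q : ℕ × (ℕ × ℕ) => q.1 := PolyTime.fst
    have hp : PolyTime fun q : ℕ × (ℕ × ℕ) => q.2.1 := PolyTime.fst.comp PolyTime.snd
    have hi : PolyTime fun q : ℕ × (ℕ × ℕ) => q.2.2 := PolyTime.snd.comp PolyTime.snd
    have hV := (gV_poly r s).comp hn
    have hM := (gM_poly r s h₂.poly_M).comp hn
    have h1 : PolyTime fun q : ℕ × (ℕ × ℕ) =>
        G₁ q.1 (q.2.1 / gV r s q.1 / gM r s E₂ q.1) q.2.2 :=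
      polyTime_out h₁ hn (d3_div (d3_div hp hV) hM) hi
    have h2 := PolyTime.filter (l := fun q : ℕ × (ℕ × ℕ) => List.range (gL r q.1))
      (f := fun (q : ℕ × (ℕ × ℕ)) (l : ℕ) =>
        gT r s G₂ q.1 (q.2.1 / gV r s q.1 % gM r s E₂ q.1) (q.2.1 % gV r s q.1) q.2.2 l)
      (PolyTime.range ((gL_poly r).comp hn))
      (gT_poly r s h₂ (hn.comp PolyTime.fst) ((d3_mod (d3_div hp hV) hM).comp PolyTime.fst)
        ((d3_mod hp hV).comp PolyTime.fst) (hi.comp PolyTime.fst) PolyTime.snd)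
    have h3 := PolyTime.eqb (d3_mod (PolyTime.length h2) (PolyTime.const 2)) (PolyTime.const 1)
    exact (PolyTime.ite h1 (PolyTime.not h3) h3).of_eq fun q => by
      unfold gG
      cases G₁ q.1 (q.2.1 / gV r s q.1 / gM r s E₂ q.1) q.2.2 <;> simp

/-! ### The seeds -/

theorem gn_av_equiv {A B : Type*} [Fintype A] [Fintype B] (e : A ≃ B) (f : B → ℂ) :
    (av fun a => f (e a)) = av f := by
  unfold av
  rw [Equiv.sum_comp e f, Fintype.card_congr e]

/-- The table of the true random bits. -/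
def gW (L B c : ℕ) (l : Fin L) (a : Fin B) : Bool := decide (c / 2 ^ ((a : ℕ) + B * (l : ℕ)) % 2 = 1)

theorem gn_bits (L B : ℕ) (H : (Fin L → Fin B → Bool) → ℂ) :
    na (2 ^ (L * B)) (fun c => H (gW L B c)) = av H := by
  have h1 := na_digits (M := 2) (by norm_num) (L * B)
    (fun d => H fun l a => decide (d (finProdFinEquiv (l, a)) = 1))
  have h2 : (fun c => H (gW L B c)) = fun p => (fun d : Fin (L * B) → ℕ =>
      H fun l a => decide (d (finProdFinEquiv (l, a)) = 1)) (fun r => p / 2 ^ (r : ℕ) % 2) := by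
    funext c
    congr 1
  rw [h2, h1]
  have h3 := gn_av_equiv ((Equiv.arrowCongr (finProdFinEquiv (m := L) (n := B)).symm
    finTwoEquiv).trans (Equiv.curry _ _ _)) H
  rw [← h3]
  congr 1
  funext y
  congr 1
  funext l a
  show decide ((y (finProdFinEquiv (l, a)) : ℕ) = 1) = finTwoEquiv (y (finProdFinEquiv (l, a)))
  generalize y (finProdFinEquiv (l, a)) = b
  fin_cases b <;> rfl

theorem gn_split (A B C : ℕ) (hB : 0 < B) (hC : 0 < C) (F : ℕ → ℕ → ℕ → ℂ) :
    na (A * B * C) (fun p => F (p / C / B) (p / C % B) (p % C)) =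
      na C (fun c => na B fun b => na A fun a => F a b c) := by
  have h1 := na_mul (A * B) hC (fun q c => F (q / B) (q % B) c)
  have h2 := na_mul A hB (fun a b => na C (fun c => F a b c))
  rw [h1]
  rw [h2]
  have h3 : ∀ a, na B (fun b => na C (fun c => F a b c)) = na C (fun c => na B (fun b => F a b c)) :=
    fun a => na_comm _ _ _
  rw [na_congr fun a _ => h3 a, na_comm]
  exact na_congr fun c _ => na_comm _ _ _

theorem gn_count (P : ℕ → Bool) (k : ℕ) :
    (∑ l : Fin k, (if P l = true then 1 else 0)) = ((List.range k).filter P).length := by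
  rw [Fin.sum_univ_eq_sum_range (fun l => if P l = true then 1 else 0)]
  induction k with
  | zero => rfl
  | succ k ih =>
    rw [sum_range_succ, ih, List.range_succ, List.filter_append, List.length_append]
    by_cases h : P k = true
    · simp [h]
    · simp [h]

/-- The second string. -/
def gZs (r s : ℕ) (G : ℕ → ℕ → ℕ → Bool) (n p : ℕ) : Cube (n * (gL r n + s)) :=
  out G (n * (gL r n + s)) p

theorem gZ_eq (r s : ℕ) (G : ℕ → ℕ → ℕ → Bool) (n p : ℕ) (i : Fin n) (t : Fin (gL r n + s)) :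
    gZ r s G n p i t = gZs r s G n p (finProdFinEquiv (i, t)) := rfl

theorem gH_eq (r s : ℕ) (G : ℕ → ℕ → ℕ → Bool) (n p : ℕ) (i : Fin n) :
    gH r s G n p i s = (hsh (gZs r s G n p) i : ℕ) := by
  have h1 : ∀ b, gH r s G n p i b =
      ∑ t ∈ range b, (if gZ r s G n p i (gL r n + t) then 1 else 0) * 2 ^ t := by
    intro b
    induction b with
    | zero => rfl
    | succ b ih => rw [sum_range_succ, ← ih]; rfl
  rw [h1]
  unfold hsh
  rw [finFunctionFinEquiv_apply, ← Fin.sum_univ_eq_sum_range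
    (fun t => (if gZ r s G n p i (gL r n + t) then 1 else 0) * 2 ^ t)]
  refine Finset.sum_congr rfl fun t _ => ?_
  congr 1
  have h2 : gZ r s G n p i (gL r n + (t : ℕ)) =
      gZs r s G n p (finProdFinEquiv (i, Fin.natAdd (gL r n) t)) := rfl
  rw [h2]
  generalize gZs r s G n p (finProdFinEquiv (i, Fin.natAdd (gL r n) t)) = b
  cases b <;> rfl

theorem gT_eq (r s : ℕ) (G : ℕ → ℕ → ℕ → Bool) (n p c : ℕ) (i : Fin n) (l : Fin (gL r n)) :
    gT r s G n p c i l = true ↔ i ∈ eta (gZs r s G n p) (l : ℕ) ∧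
      gW (gL r n) (2 ^ s) c l (hsh (gZs r s G n p) i) = true := by
  unfold gT
  rw [Bool.and_eq_true, gH_eq]
  refine and_congr ?_ ?_
  · rw [List.isEmpty_iff, List.filter_eq_nil_iff]
    unfold eta
    rw [mem_filter]
    constructor
    · intro h
      refine ⟨mem_univ _, fun t ht => ?_⟩
      have := h (t : ℕ) (List.mem_range.mpr ht)
      rw [← gZ_eq]
      simpa using this
    · intro h t ht
      have ht' : t < (l : ℕ) := List.mem_range.mp ht
      have hl := l.2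
      have h2 := h.2 ⟨t, by omega⟩ ht'
      rw [← gZ_eq] at h2
      simp only at h2
      simp [h2]
  · unfold gW
    rfl

theorem gG_eq (r s : ℕ) (G₁ G₂ : ℕ → ℕ → ℕ → Bool) (n a b c : ℕ) (i : Fin n) :
    xor (G₁ n a i) (decide (((List.range (gL r n)).filter fun l =>
      gT r s G₂ n b c i l).length % 2 = 1)) =
      gx (out G₁ n a) (fun l : Fin (gL r n) => eta (gZs r s G₂ n b) (l : ℕ))
        (hsh (gZs r s G₂ n b)) (gW (gL r n) (2 ^ s) c) i := by
  unfold gx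
  rw [← gn_count]
  have h1 : (∑ l : Fin (gL r n), if gT r s G₂ n b c i l = true then 1 else 0) =
      ∑ l : Fin (gL r n), if i ∈ eta (gZs r s G₂ n b) (l : ℕ) ∧
        gW (gL r n) (2 ^ s) c l (hsh (gZs r s G₂ n b) i) = true then 1 else 0 := by
    refine Finset.sum_congr rfl fun l _ => ?_
    by_cases h : gT r s G₂ n b c i l = true
    · rw [if_pos h, if_pos ((gT_eq r s G₂ n b c i l).mp h)]
    · rw [if_neg h, if_neg fun h' => h ((gT_eq r s G₂ n b c i l).mpr h')]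
  rw [h1]
  rfl

theorem gn_bias {E : ℕ → ℕ} {G : ℕ → ℕ → ℕ → Bool} {N : ℕ} {β : ℝ}
    (h : ∀ S : Finset (Fin N), S ≠ ∅ → ‖na (2 ^ E N) (fun p => Agp.sgn S (out G N p))‖ ≤ β) :
    Bias β fun ω : Fin (2 ^ E N) => out G N ω := by
  intro S hS
  have h1 := Hyb.e4_bias (out G N) S (h S hS)
  have h2 : (avg fun ω : Fin (2 ^ E N) => ch S (out G N ω)) =
      nr (2 ^ E N) (fun p => Hyb.ch S (out G N p)) := by
    unfold avg nr
    rw [Fintype.card_fin, ← Fin.sum_univ_eq_sum_range (fun p => Hyb.ch S (out G N p))]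
    rfl
  rw [h2]
  exact h1

/-- GN. `L n = Nat.clog 2 n + r + 1` levels. -/
theorem xgen (r s K : ℕ) : ∃ (E : ℕ → ℕ) (G : ℕ → ℕ → ℕ → Bool), NG E G ∧
    ∀ n : ℕ, ∃ (M₁ M₂ : ℕ), 0 < M₁ ∧ 0 < M₂ ∧ ∃ (Y : Fin M₁ → Cube n)
      (η : Fin (Nat.clog 2 n + r + 1) → Fin M₂ → Finset (Fin n))
      (h : Fin M₂ → Fin n → Fin (2 ^ s)),
      Bias (1 / ((n : ℝ) + 1) ^ K) Y ∧
      (∀ l : Fin (Nat.clog 2 n + r + 1), Src ((1 / 2 : ℝ) ^ (l : ℕ)) (1 / ((n : ℝ) + 1) ^ K) (η l) h) ∧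
      ∀ f : Cube n → ℂ, na (2 ^ E n) (fun p => f (out G n p)) =
        av fun v : Fin (Nat.clog 2 n + r + 1) → Fin (2 ^ s) → Bool => av fun ω₂ => av fun ω₁ =>
          f (gx (Y ω₁) (fun l => η l ω₂) (h ω₂) v) := by
  obtain ⟨E, G, hG, H⟩ := Hyb.small_bias_poly K one_pos
  refine ⟨_, _, gG_ng r s hG hG, fun n => ⟨2 ^ E n, 2 ^ E (n * (gL r n + s)), by positivity,
    by positivity, fun ω => out G n ω, fun l ω => eta (gZs r s G n ω) (l : ℕ),
    fun ω => hsh (gZs r s G n ω), gn_bias (H n), fun l => ?_, fun f => ?_⟩⟩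
  · have hpos : (0 : ℝ) < ((n : ℝ) + 1) ^ K := by positivity
    have : Nonempty (Fin (2 ^ E (n * (gL r n + s)))) := ⟨⟨0, by positivity⟩⟩
    refine src_of_bias (by positivity) (fun ω : Fin (2 ^ E (n * (gL r n + s))) => gZs r s G n ω)
      (fun S hS => ?_) (l : ℕ) l.2.le
    refine (gn_bias (H (n * (gL r n + s))) S hS).trans ?_
    refine div_le_div_of_nonneg_left one_pos.le hpos (pow_le_pow_left₀ (by positivity) ?_ K)
    have h1 : n ≤ n * (gL r n + s) := Nat.le_mul_of_pos_right n (by unfold gL; omega)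
    have h2 : (n : ℝ) ≤ ((n * (gL r n + s) : ℕ) : ℝ) := by exact_mod_cast h1
    linarith
  · rw [gE_pow]
    have h1 : (fun p => f (out (gG r s E G G) n p)) = fun p =>
        (fun a b c => f (gx (out G n a) (fun l : Fin (gL r n) => eta (gZs r s G n b) (l : ℕ))
          (hsh (gZs r s G n b)) (gW (gL r n) (2 ^ s) c))) (p / gV r s n / gM r s E n)
          (p / gV r s n % gM r s E n) (p % gV r s n) := by
      funext p
      congr 1
      funext i
      exact gG_eq r s G G n _ _ _ i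
    rw [h1, gn_split _ _ _ (by unfold gM; positivity) (by unfold gV; positivity)
      (fun a b c => f (gx (out G n a) (fun l : Fin (gL r n) => eta (gZs r s G n b) (l : ℕ))
          (hsh (gZs r s G n b)) (gW (gL r n) (2 ^ s) c)))]
    have h2 := gn_bits (gL r n) (2 ^ s) (fun v => na (gM r s E n) fun b => na (2 ^ E n) fun a =>
      f (gx (out G n a) (fun l : Fin (gL r n) => eta (gZs r s G n b) (l : ℕ))
          (hsh (gZs r s G n b)) v))
    refine h2.trans ?_
    show _ = av fun v : Fin (gL r n) → Fin (2 ^ s) → Bool =>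
      av fun ω₂ : Fin (2 ^ E (n * (gL r n + s))) => av fun ω₁ : Fin (2 ^ E n) =>
      f (gx (out G n ω₁) (fun l : Fin (gL r n) => eta (gZs r s G n ω₂) (l : ℕ))
          (hsh (gZs r s G n ω₂)) v)
    congr 1
    funext v
    rw [av_fin (2 ^ E (n * (gL r n + s))) (fun ω₂ => av fun ω₁ : Fin (2 ^ E n) =>
      f (gx (out G n ω₁) (fun l : Fin (gL r n) => eta (gZs r s G n ω₂) (l : ℕ))
          (hsh (gZs r s G n ω₂)) v))]
    refine na_congr fun b _ => ?_
    rw [av_fin (2 ^ E n) (fun a =>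
      f (gx (out G n a) (fun l : Fin (gL r n) => eta (gZs r s G n b) (l : ℕ))
          (hsh (gZs r s G n b)) v))]

end Pool.Agent.MP_ca1109_lc.Xp
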