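import Pool.Agent.MP_ca1109_lc.Xp.SPb

/-!
# Row CUT: the wide monomials

(`Bias.xo`, `Bias.unif`, `av_xo` are in `Xp.SPb`.)
-/

namespace Pool.Agent.MP_ca1109_lc.Xp

open Finset Pool.Agent.H66 Pool.Agent.MP_ca1109_lc.Mpg Pool.Agent.MP_ca1109_lc.Agp
open Pool.Agent.MP_ca1109_lc.Dnf (Cube ch one E)

variable {n : ℕ}

private theorem qcut_norm {M : Finset (Finset (Fin n))} {ζ : Finset (Fin n) → ℂ}
    (hζ : ∀ m ∈ M, ‖ζ m‖ = 1) (x : Cube n) : ‖pr ζ M x‖ = 1 := by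
  classical
  unfold pr
  rw [norm_prod]
  refine prod_eq_one fun m hm => ?_
  split_ifs
  · exact hζ m hm
  · simp

private theorem qcut_one_mul (p : Prop) (h : p) : one p = 1 := by
  unfold one
  rw [if_pos h]

private theorem qcut_nonneg (m : Finset (Fin n)) (x : Cube n) : 0 ≤ mon m x := by
  unfold mon one
  split_ifs <;> norm_num

private theorem qcut_point {W : ℕ} {M : Finset (Finset (Fin n))} {ζ : Finset (Fin n) → ℂ}
    (hζ : ∀ m ∈ M, ‖ζ m‖ = 1) (x : Cube n) :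
    ‖pr ζ M x - pr ζ (M.filter fun m => m.card ≤ W) x‖ ≤
      2 * ∑ m ∈ M.filter (fun m => ¬ m.card ≤ W), mon m x := by
  classical
  by_cases h : ∃ m ∈ M.filter (fun m => ¬ m.card ≤ W), Tr m x
  · obtain ⟨m, hm, hT⟩ := h
    have h1 : (1 : ℝ) ≤ ∑ m ∈ M.filter (fun m => ¬ m.card ≤ W), mon m x := by
      have h2 : mon m x = 1 := qcut_one_mul _ hT
      rw [← h2]
      exact single_le_sum (f := fun m => mon m x) (fun i _ => qcut_nonneg i x) hm
    have h3 : ‖pr ζ M x‖ = 1 := qcut_norm hζ x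
    have h4 : ‖pr ζ (M.filter fun m => m.card ≤ W) x‖ = 1 :=
      qcut_norm (fun m hm => hζ m (mem_filter.1 hm).1) x
    calc ‖pr ζ M x - pr ζ (M.filter fun m => m.card ≤ W) x‖
        ≤ ‖pr ζ M x‖ + ‖pr ζ (M.filter fun m => m.card ≤ W) x‖ := norm_sub_le _ _
      _ = 2 * 1 := by rw [h3, h4]; norm_num
      _ ≤ _ := by linarith
  · have h : ∀ m ∈ M.filter (fun m => ¬ m.card ≤ W), ¬ Tr m x := fun m hm hT => h ⟨m, hm, hT⟩
    have h1 : pr ζ M x = pr ζ (M.filter fun m => m.card ≤ W) x := by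
      unfold pr
      rw [← prod_filter_mul_prod_filter_not M (fun m => m.card ≤ W)]
      have h2 : ∏ m ∈ M.filter (fun m => ¬ m.card ≤ W), (if Tr m x then ζ m else 1) = 1 := by
        refine prod_eq_one fun m hm => ?_
        rw [if_neg (h m hm)]
      rw [h2, mul_one]
    rw [h1, sub_self, norm_zero]
    exact mul_nonneg zero_le_two (sum_nonneg fun m _ => qcut_nonneg m x)

theorem cut' {W : ℕ} {M : Finset (Finset (Fin n))} {ζ : Finset (Fin n) → ℂ}
    (hζ : ∀ m ∈ M, ‖ζ m‖ = 1) {Ω : Type} [Fintype Ω] [Nonempty Ω] (Y : Ω → Cube n) {δ : ℝ}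
    (hδ : 0 ≤ δ) (hY : Bias δ Y) :
    ‖(av fun ω => pr ζ M (Y ω)) - av fun ω => pr ζ (M.filter fun m => m.card ≤ W) (Y ω)‖ ≤
      2 * M.card * ((1 / 2) ^ W + δ) := by
  classical
  set N := M.filter (fun m => ¬ m.card ≤ W) with hN
  have hc : (0 : ℝ) < Fintype.card Ω := by exact_mod_cast Fintype.card_pos
  -- the difference of the averages
  have h1 : ‖(av fun ω => pr ζ M (Y ω)) - av fun ω => pr ζ (M.filter fun m => m.card ≤ W) (Y ω)‖ ≤
      avg fun ω => 2 * ∑ m ∈ N, mon m (Y ω) := by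
    unfold av avg
    rw [← sub_div, ← sum_sub_distrib, norm_div, Complex.norm_natCast]
    refine div_le_div_of_nonneg_right ?_ hc.le
    refine (norm_sum_le _ _).trans (sum_le_sum fun ω _ => ?_)
    exact qcut_point hζ (Y ω)
  -- the averages of the monomials
  have h2 : (avg fun ω => 2 * ∑ m ∈ N, mon m (Y ω)) = 2 * ∑ m ∈ N, avg fun ω => mon m (Y ω) := by
    unfold avg
    rw [← mul_sum, sum_comm, mul_div_assoc, sum_div]
  have h3 : ∑ m ∈ N, (avg fun ω => mon m (Y ω)) ≤ N.card * ((1 / 2) ^ W + δ) := by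
    rw [← nsmul_eq_mul]
    refine sum_le_card_nsmul _ _ _ fun m hm => ?_
    have h4 := (abs_le.1 (avg_mon_bias hδ hY m)).2
    have h5 : (1 / 2 : ℝ) ^ m.card ≤ (1 / 2) ^ W :=
      pow_le_pow_of_le_one (by norm_num) (by norm_num)
        (le_of_lt (not_le.1 (mem_filter.1 hm).2))
    linarith
  have h6 : (N.card : ℝ) ≤ M.card := by
    exact_mod_cast card_le_card (filter_subset _ _)
  have h7 : (0 : ℝ) ≤ (1 / 2) ^ W + δ := by positivity
  calc _ ≤ _ := h1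
    _ = _ := h2
    _ ≤ 2 * (N.card * ((1 / 2) ^ W + δ)) := by linarith
    _ ≤ 2 * (M.card * ((1 / 2) ^ W + δ)) := by
        have := mul_le_mul_of_nonneg_right h6 h7
        linarith
    _ = _ := by ring

theorem cut {r W : ℕ} {M : Finset (Finset (Fin n))} {ζ : Finset (Fin n) → ℂ}
    (hζ : ∀ m ∈ M, ‖ζ m‖ = 1) {Ω : Type} [Fintype Ω] [Nonempty Ω] (Y : Ω → Cube n) {δ : ℝ}
    (hδ : 0 ≤ δ) (hY : Bias δ Y) :
    ‖(av fun ω => pr ζ M (Y ω)) - av fun ω => pr ζ (M.filter fun m => m.card ≤ W) (Y ω)‖ ≤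
      2 * M.card * ((1 / 2) ^ W + δ) := cut' hζ Y hδ hY

end Pool.Agent.MP_ca1109_lc.Xp
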