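import Pool.Agent.MP_ca1109_lc.Xp.Defs

/-!
# Polynomials modulo `q` in which every variable occurs in few monomials: definitions, pivots

* `mins M`: the inclusion-minimal monomials; `mu p M`: the mass at rate `p`.
* `Kil r M w`: `w m m' ∈ m' \ m` is the killer of `m'` for the minimal monomial `m`.
* `kl`, `later`, `dom`: the killers for the pivot `i`, the later variables, all relevant variables.
* `PE`, `PX`, `Pv`: `m` has a pivot; `cnt`: the number of these `m`.
* `Miss s p δ η`: the random set `η` misses `A` with probability about `(1 - p) ^ |A|`.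
* `Hs δ H`: the rows of `H` summed over a nonempty set vanish with probability at most `δ`.
* `mq`, `uv`, `gq`: the generator.
-/

namespace Pool.Agent.MP_ca1109_lc.Xp

open Finset Pool.Agent.MP_ca1109_lc.Mpg Pool.Agent.MP_ca1109_lc.Agp
open Pool.Agent.MP_ca1109_lc.Dnf (Cube ch one E)

variable {n : ℕ}

/-- The inclusion-minimal monomials. -/
def mins (M : Finset (Finset (Fin n))) : Finset (Finset (Fin n)) :=
  M.filter fun m => ∀ m' ∈ M, m' ⊆ m → m' = m

/-- The mass at rate `p`. -/
noncomputable def mu (p : ℝ) (M : Finset (Finset (Fin n))) : ℝ :=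
  ∑ m ∈ M, (1 / 2 : ℝ) ^ m.card * (1 - (1 - p) ^ m.card)

/-- The mass of the monomials which meet `η`. -/
noncomputable def hit (M : Finset (Finset (Fin n))) (η : Finset (Fin n)) : ℝ :=
  ∑ m ∈ M, (1 / 2 : ℝ) ^ m.card * one (¬ Disjoint m η)

/-- Killers: `w m m' ∈ m' \ m` for minimal `m` and `m' ≠ m` which meets `m`; every element of `m'`
is used by at most `r` minimal monomials. -/
structure Kil (r : ℕ) (M : Finset (Finset (Fin n)))
    (w : Finset (Fin n) → Finset (Fin n) → Fin n) : Prop where
  mem : ∀ m ∈ mins M, ∀ m' ∈ M, m' ≠ m → ¬ Disjoint m m' → w m m' ∈ m' \ m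
  few : ∀ m' ∈ M, ∀ u : Fin n,
    ((mins M).filter fun m => m' ≠ m ∧ ¬ Disjoint m m' ∧ w m m' = u).card ≤ r

/-- The killers for the monomials (other than `m`) through `i`. -/
def kl (M : Finset (Finset (Fin n))) (w : Finset (Fin n) → Finset (Fin n) → Fin n)
    (m : Finset (Fin n)) (i : Fin n) : Finset (Fin n) :=
  (M.filter fun m' => m' ≠ m ∧ i ∈ m').image (w m)

/-- The variables of `m` after `i`. -/
def later (m : Finset (Fin n)) (i : Fin n) : Finset (Fin n) := m.filter fun j => i < j

/-- The variables of `m` and all its killers. -/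
def dom (M : Finset (Finset (Fin n))) (w : Finset (Fin n) → Finset (Fin n) → Fin n)
    (m : Finset (Fin n)) : Finset (Fin n) :=
  m ∪ (M.filter fun m' => m' ≠ m ∧ ¬ Disjoint m m').image (w m)

/-- `i` is the last element of `m` in `η`, and no killer for `i` is in `η`. -/
def PE (M : Finset (Finset (Fin n))) (w : Finset (Fin n) → Finset (Fin n) → Fin n)
    (m : Finset (Fin n)) (i : Fin n) (η : Finset (Fin n)) : Prop :=
  i ∈ η ∧ Disjoint η (later m i ∪ kl M w m i)

/-- The other variables of `m` are true, the killers for `i` are false. -/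
def PX (M : Finset (Finset (Fin n))) (w : Finset (Fin n) → Finset (Fin n) → Fin n)
    (m : Finset (Fin n)) (i : Fin n) (x : Cube n) : Prop :=
  Tr (m.erase i) x ∧ ∀ u ∈ kl M w m i, x u = false

/-- `m` has a pivot. -/
def Pv (M : Finset (Finset (Fin n))) (w : Finset (Fin n) → Finset (Fin n) → Fin n)
    (m : Finset (Fin n)) (η : Finset (Fin n)) (x : Cube n) : Prop :=
  ∃ i ∈ m, PE M w m i η ∧ PX M w m i x

open Classical in
/-- The number of the minimal monomials with a pivot. -/
noncomputable def cnt (M : Finset (Finset (Fin n))) (w : Finset (Fin n) → Finset (Fin n) → Fin n)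
    (η : Finset (Fin n)) (x : Cube n) : ℕ :=
  ((mins M).filter fun m => Pv M w m η x).card

/-- The probability of `Pv` in the ideal case. -/
noncomputable def aw (p : ℝ) (M : Finset (Finset (Fin n)))
    (w : Finset (Fin n) → Finset (Fin n) → Fin n) (m : Finset (Fin n)) : ℝ :=
  ∑ i ∈ m, p * (1 - p) ^ ((later m i).card + (kl M w m i).card) *
    (1 / 2) ^ (m.card - 1 + (kl M w m i).card)

/-- The constant for the near pairs. -/
def NC (r : ℕ) : ℝ := 4 * ((r : ℝ) + 1) ^ 3

/-- The random set `η` of density `p`. -/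
def Miss {Ω : Type*} [Fintype Ω] (s : ℕ) (p δ : ℝ) (η : Ω → Finset (Fin n)) : Prop :=
  ∀ A : Finset (Fin n), A.card ≤ s → |(avg fun ω => one (Disjoint (η ω) A)) - (1 - p) ^ A.card| ≤ δ

/-- The inner product modulo two. -/
def ip {c : ℕ} (b h : Fin c → Bool) : Bool :=
  decide ((univ.filter fun q => b q = true ∧ h q = true).card % 2 = 1)

/-- The sum of the rows `H ω i`, `i ∈ Q`, modulo two vanishes with probability at most `δ`. -/
def Hs {Ω : Type*} [Fintype Ω] {c : ℕ} (δ : ℝ) (H : Ω → Fin n → Fin c → Bool) : Prop :=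
  ∀ Q : Finset (Fin n), Q ≠ ∅ →
    (avg fun ω => one (∀ q : Fin c, (Q.filter fun i => H ω i q = true).card % 2 = 0)) ≤ δ

/-- The bits in `η` are changed by `v`. -/
def mq (z : Cube n) (η : Finset (Fin n)) (v : Cube n) : Cube n :=
  fun i => xor (z i) (decide (i ∈ η) && v i)

/-- The inner products with the rows of `h`. -/
def uv {c : ℕ} (b : Fin c → Bool) (h : Fin n → Fin c → Bool) : Cube n := fun i => ip b (h i)

/-- The output of the generator. -/
def gq {L c : ℕ} (y : Cube n) (η : Fin L → Finset (Fin n)) (h : Fin n → Fin c → Bool)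
    (b : Fin L → Fin c → Bool) : Cube n :=
  fun i => xor (y i)
    (decide ((univ.filter fun l => i ∈ η l ∧ ip (b l) (h i) = true).card % 2 = 1))

end Pool.Agent.MP_ca1109_lc.Xp
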