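import Pool.Agent.MP_ca1109_lc.Xp.QGN1
import Pool.Agent.MP_ca1109_lc.Xp.QDefs
import Pool.Agent.MP_ca1109_lc.Xp.SPb
import Pool.Agent.MP_ca1109_lc.Hyb.E4

/-!
# The generator with inner products
-/

namespace Pool.Agent.MP_ca1109_lc.Xp

open Finset Pool.Agent.H66 Pool.Agent.MP_ca1109_lc.Mpg Pool.Agent.MP_ca1109_lc.Agp
open Pool.Agent.MP_ca1109_lc.Dnf (Cube ch one)

variable {n : ℕ}

namespace Qgn

/-- The set of level `l`. -/
def qeta {L : ℕ} (e : Cube (n * L)) (l : Fin L) : Finset (Fin n) :=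
  univ.filter fun i => ∀ t : Fin L, t ≤ l → e (finProdFinEquiv (i, t)) = true

/-- The rows. -/
def qrow {c : ℕ} (e : Cube (n * c)) (i : Fin n) (q : Fin c) : Bool := e (finProdFinEquiv (i, q))

theorem one_and (p q : Prop) : one (p ∧ q) = one p * one q := by
  unfold one
  by_cases hp : p <;> by_cases hq : q <;> simp [hp, hq]

theorem mon_union {N : ℕ} (S T : Finset (Fin N)) (x : Cube N) : mon (S ∪ T) x = mon S x * mon T x := by
  unfold mon
  rw [← one_and]
  congr 1
  apply propext
  constructor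
  · exact fun h => ⟨fun i hi => h i (mem_union_left _ hi), fun i hi => h i (mem_union_right _ hi)⟩
  · rintro ⟨h1, h2⟩ i hi
    rcases mem_union.1 hi with h | h
    · exact h1 i h
    · exact h2 i h

theorem mon_biUnion {N : ℕ} (f : Fin n → Finset (Fin N)) (B : Finset (Fin n)) (x : Cube N) :
    mon (B.biUnion f) x = ∏ i ∈ B, mon (f i) x := by
  classical
  induction B using Finset.induction_on with
  | empty =>
    rw [biUnion_empty, prod_empty]
    unfold mon one
    rw [if_pos]
    intro i hi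
    simp at hi
  | insert a B ha ih => rw [biUnion_insert, mon_union, ih, prod_insert ha]

theorem qmiss {Ω : Type*} [Fintype Ω] [Nonempty Ω] {L : ℕ} {e : Ω → Cube (n * L)} {δ : ℝ}
    (hδ : 0 ≤ δ) (he : Bias δ e) (l : Fin L) (s : ℕ) :
    Miss s ((1 / 2 : ℝ) ^ ((l : ℕ) + 1)) (2 ^ s * δ) (fun ω => qeta (e ω) l) := by
  classical
  intro A hA
  obtain ⟨blk, hblk⟩ : ∃ blk : Fin n → Finset (Fin (n * L)),
      blk = fun i => (Finset.Iic l).image fun t => finProdFinEquiv (i, t) := ⟨_, rfl⟩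
  have hinj : ∀ {i j : Fin n} {t t' : Fin L},
      (finProdFinEquiv (i, t) : Fin (n * L)) = finProdFinEquiv (j, t') → i = j ∧ t = t' := by
    intro i j t t' h
    have := finProdFinEquiv.injective h
    exact ⟨(Prod.ext_iff.1 this).1, (Prod.ext_iff.1 this).2⟩
  have hc : ∀ i, (blk i).card = l + 1 := by
    intro i
    rw [hblk]
    show ((Finset.Iic l).image fun t => finProdFinEquiv (i, t)).card = _
    rw [card_image_of_injective _ fun a b h => (hinj h).2, Fin.card_Iic]
  have hcB : ∀ B : Finset (Fin n), (B.biUnion blk).card = B.card * (l + 1) := by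
    intro B
    rw [card_biUnion]
    · rw [sum_congr rfl fun i _ => hc i, sum_const, smul_eq_mul]
    · intro i _ j _ hij
      rw [Function.onFun, disjoint_left]
      intro a ha hb
      rw [hblk] at ha hb
      obtain ⟨t, -, rfl⟩ := mem_image.1 ha
      obtain ⟨t', -, h⟩ := mem_image.1 hb
      exact hij (hinj h).1.symm
  have h1 : ∀ ω, one (Disjoint (qeta (e ω) l) A) =
      ∑ B ∈ A.powerset, (-1) ^ B.card * mon (B.biUnion blk) (e ω) := by
    intro ω
    have h2 : one (Disjoint (qeta (e ω) l) A) = ∏ i ∈ A, (-mon (blk i) (e ω) + 1) := by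
      have hT : ∀ i, i ∈ qeta (e ω) l ↔ Tr (blk i) (e ω) := by
        intro i
        unfold qeta Tr
        rw [mem_filter, hblk]
        constructor
        · rintro ⟨-, h⟩ j hj
          obtain ⟨t, ht, rfl⟩ := mem_image.1 hj
          exact h t (mem_Iic.1 ht)
        · intro h
          exact ⟨mem_univ _, fun t ht => h _ (mem_image.2 ⟨t, mem_Iic.2 ht, rfl⟩)⟩
      by_cases h : Disjoint (qeta (e ω) l) A
      · rw [Dnf.one_true h]
        symm
        refine prod_eq_one fun i hi => ?_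
        have : ¬ Tr (blk i) (e ω) := fun h' => disjoint_left.1 h ((hT i).2 h') hi
        unfold mon one
        rw [if_neg this]
        norm_num
      · rw [show one (Disjoint (qeta (e ω) l) A) = 0 by unfold one; rw [if_neg h]]
        symm
        rw [not_disjoint_iff] at h
        obtain ⟨i, hi, hiA⟩ := h
        refine prod_eq_zero hiA ?_
        unfold mon one
        rw [if_pos ((hT i).1 hi)]
        norm_num
    rw [h2, prod_add]
    refine sum_congr rfl fun B _ => ?_
    rw [prod_const_one, mul_one, mon_biUnion, ← prod_const, ← prod_mul_distrib]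
    exact prod_congr rfl fun i _ => by ring
  have h2 : (1 - (1 / 2 : ℝ) ^ ((l : ℕ) + 1)) ^ A.card =
      ∑ B ∈ A.powerset, (-1) ^ B.card * (1 / 2) ^ (B.biUnion blk).card := by
    have h3 : (1 - (1 / 2 : ℝ) ^ ((l : ℕ) + 1)) ^ A.card =
        ∏ i ∈ A, (-(1 / 2 : ℝ) ^ ((l : ℕ) + 1) + 1) := by
      rw [prod_const]
      congr 1
      ring
    rw [h3, prod_add]
    refine sum_congr rfl fun B _ => ?_
    rw [prod_const_one, mul_one, hcB, mul_comm B.card, pow_mul, prod_const, ← mul_pow]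
    congr 1
    ring
  have h3 : (avg fun ω => one (Disjoint (qeta (e ω) l) A)) =
      ∑ B ∈ A.powerset, (-1) ^ B.card * avg fun ω => mon (B.biUnion blk) (e ω) := by
    rw [show (fun ω => one (Disjoint (qeta (e ω) l) A)) = _ from funext h1]
    unfold avg
    rw [sum_comm, sum_div]
    exact sum_congr rfl fun B _ => by rw [← mul_sum, mul_div_assoc]
  rw [h3, h2, ← sum_sub_distrib]
  refine (abs_sum_le_sum_abs _ _).trans ((sum_le_sum fun B _ => ?_ : _ ≤ ∑ B ∈ A.powerset, δ).trans ?_)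
  · rw [← mul_sub, abs_mul, abs_pow, abs_neg, abs_one, one_pow, one_mul]
    exact avg_mon_bias hδ he _
  · rw [sum_const, card_powerset, nsmul_eq_mul]
    push_cast
    exact mul_le_mul_of_nonneg_right (pow_le_pow_right₀ (by norm_num) hA) hδ

/-- The product of the signs. -/
noncomputable def sq {N : ℕ} (S : Finset (Fin N)) (x : Cube N) : ℝ :=
  ∏ i ∈ S, if x i = true then (-1 : ℝ) else 1

theorem sq_eq {N : ℕ} (S : Finset (Fin N)) (x : Cube N) : sq S x = (-1) ^ S.card * ch S x := by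
  unfold sq ch
  rw [← prod_const, ← prod_mul_distrib]
  refine prod_congr rfl fun i _ => ?_
  cases x i <;> simp [Dnf.sg]

theorem sq_bias {Ω : Type*} [Fintype Ω] {N : ℕ} {e : Ω → Cube N} {δ : ℝ} (he : Bias δ e)
    {S : Finset (Fin N)} (hS : S ≠ ∅) : (avg fun ω => sq S (e ω)) ≤ δ := by
  have h1 : (avg fun ω => sq S (e ω)) = (-1) ^ S.card * avg fun ω => ch S (e ω) := by
    rw [show (fun ω => sq S (e ω)) = fun ω => (-1) ^ S.card * ch S (e ω) from
      funext fun ω => sq_eq _ _]
    unfold avg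
    rw [← mul_sum, mul_div_assoc]
  have h2 : |(avg fun ω => sq S (e ω))| ≤ δ := by
    rw [h1, abs_mul, abs_pow, abs_neg, abs_one, one_pow, one_mul]
    exact he S hS
  exact (le_abs_self _).trans h2

theorem qhs {Ω : Type*} [Fintype Ω] [Nonempty Ω] {c : ℕ} {e : Ω → Cube (n * c)} {δ : ℝ}
    (hδ : 0 ≤ δ) (he : Bias δ e) : Hs ((1 / 2) ^ c + δ) (fun ω => qrow (e ω)) := by
  classical
  intro Q hQ
  obtain ⟨blk, hblk⟩ : ∃ blk : Fin c → Finset (Fin (n * c)),
      blk = fun q => Q.image fun i => finProdFinEquiv (i, q) := ⟨_, rfl⟩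
  have hinj : ∀ {i j : Fin n} {t t' : Fin c},
      (finProdFinEquiv (i, t) : Fin (n * c)) = finProdFinEquiv (j, t') → i = j ∧ t = t' := by
    intro i j t t' h
    have := finProdFinEquiv.injective h
    exact ⟨(Prod.ext_iff.1 this).1, (Prod.ext_iff.1 this).2⟩
  have hsq : ∀ (q : Fin c) (x : Cube (n * c)), sq (blk q) x =
      (-1) ^ (Q.filter fun i => qrow x i q = true).card := by
    intro q x
    unfold sq
    rw [hblk]
    show ∏ i ∈ Q.image (fun i => finProdFinEquiv (i, q)), _ = _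
    rw [prod_image fun a _ b _ h => (hinj h).1, ← prod_const, prod_filter]
    rfl
  have hbi : ∀ (R : Finset (Fin c)) (x : Cube (n * c)), sq (R.biUnion blk) x =
      ∏ q ∈ R, sq (blk q) x := by
    intro R x
    unfold sq
    rw [prod_biUnion]
    intro q _ q' _ hq
    rw [Function.onFun, disjoint_left]
    intro a ha hb
    rw [hblk] at ha hb
    obtain ⟨t, -, rfl⟩ := mem_image.1 ha
    obtain ⟨t', -, h⟩ := mem_image.1 hb
    exact hq (hinj h).2.symm
  have h1 : ∀ x : Cube (n * c),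
      one (∀ q : Fin c, (Q.filter fun i => qrow x i q = true).card % 2 = 0) =
        (1 / 2) ^ c * ∑ R : Finset (Fin c), sq (R.biUnion blk) x := by
    intro x
    have h2 : one (∀ q : Fin c, (Q.filter fun i => qrow x i q = true).card % 2 = 0) =
        ∏ q : Fin c, (1 / 2 * (sq (blk q) x + 1)) := by
      by_cases h : ∀ q : Fin c, (Q.filter fun i => qrow x i q = true).card % 2 = 0
      · rw [Dnf.one_true h]
        symm
        refine prod_eq_one fun q _ => ?_
        rw [hsq, Even.neg_one_pow (Nat.even_iff.2 (h q))]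
        norm_num
      · rw [show one (∀ q : Fin c, (Q.filter fun i => qrow x i q = true).card % 2 = 0) = 0 by
          unfold one; rw [if_neg h]]
        symm
        push Not at h
        obtain ⟨q, hq⟩ := h
        refine prod_eq_zero (mem_univ q) ?_
        rw [hsq, Odd.neg_one_pow (Nat.odd_iff.2 (by omega))]
        norm_num
    rw [h2, prod_mul_distrib, prod_const, card_univ, Fintype.card_fin, prod_add]
    congr 1
    rw [← powerset_univ]
    refine sum_congr rfl fun R _ => ?_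
    rw [prod_const_one, mul_one, hbi]
  have h3 : (avg fun ω => one (∀ q : Fin c, (Q.filter fun i => qrow (e ω) i q = true).card % 2 = 0)) =
      (1 / 2) ^ c * ∑ R : Finset (Fin c), avg fun ω => sq (R.biUnion blk) (e ω) := by
    rw [show (fun ω => one (∀ q : Fin c, (Q.filter fun i => qrow (e ω) i q = true).card % 2 = 0)) = _
      from funext fun ω => h1 (e ω)]
    unfold avg
    rw [← mul_sum, mul_div_assoc, sum_comm, sum_div]
  rw [h3]
  have h4 : ∑ R : Finset (Fin c), (avg fun ω => sq (R.biUnion blk) (e ω)) ≤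
      ∑ R : Finset (Fin c), ((if R = ∅ then 1 else 0) + δ) := by
    refine sum_le_sum fun R _ => ?_
    by_cases hR : R = ∅
    · rw [if_pos hR, hR, biUnion_empty]
      have : (avg fun ω => sq (∅ : Finset (Fin (n * c))) (e ω)) = 1 := by
        unfold sq
        simp only [prod_empty]
        exact avg_const 1
      linarith
    · rw [if_neg hR, zero_add]
      refine sq_bias he ?_
      obtain ⟨q, hq⟩ := nonempty_of_ne_empty hR
      obtain ⟨i, hi⟩ := nonempty_of_ne_empty hQ
      refine ne_empty_of_mem (a := finProdFinEquiv (i, q)) ?_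
      rw [mem_biUnion]
      refine ⟨q, hq, ?_⟩
      rw [hblk]
      exact mem_image.2 ⟨i, hi, rfl⟩
  rw [sum_add_distrib, sum_ite_eq' univ (∅ : Finset (Fin c)) fun _ => (1 : ℝ), if_pos (mem_univ _),
    sum_const, card_univ, Fintype.card_finset, Fintype.card_fin, nsmul_eq_mul] at h4
  calc (1 / 2 : ℝ) ^ c * ∑ R : Finset (Fin c), (avg fun ω => sq (R.biUnion blk) (e ω))
      ≤ (1 / 2 : ℝ) ^ c * (1 + ((2 ^ c : ℕ) : ℝ) * δ) := mul_le_mul_of_nonneg_left h4 (by positivity)
    _ = (1 / 2 : ℝ) ^ c + δ := by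
      push_cast
      rw [mul_add, mul_one, ← mul_assoc, ← mul_pow]
      norm_num

/-- The bits of a number. -/
def nb (K p : ℕ) : Cube K := fun j => decide (p / 2 ^ (j : ℕ) % 2 = 1)

theorem sum_nb (K : ℕ) (F : Cube K → ℂ) : ∑ p ∈ range (2 ^ K), F (nb K p) = ∑ v, F v := by
  have h1 := d4_sum_seeds K (fun p => F (nb K p))
  rw [← h1]
  refine Fintype.sum_equiv (Equiv.arrowCongr (Fin.revPerm (n := K)) (Equiv.refl Bool)) _ _ fun v => ?_
  congr 1
  funext j
  have h2 := congrArg (fun l => l.getD (K - 1 - j) false) (g3_bts_bval v)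
  have hj : K - 1 - (j : ℕ) < K := by have := j.2; omega
  have hjj : K - 1 - (K - 1 - (j : ℕ)) = j := by have := j.2; omega
  simp only [List.getD_eq_getElem?_getD, List.getElem?_ofFn, hj, dif_pos, Option.getD_some] at h2
  rw [g3_bts, List.getElem?_map, List.getElem?_range hj, Option.map_some, Option.getD_some, hjj] at h2
  unfold nb
  rw [h2]
  show _ = v (Fin.revPerm.symm j)
  congr 1
  apply Fin.ext
  simp only [Fin.revPerm_symm, Fin.revPerm_apply, Fin.val_rev]
  omega

/-- The table of a number. -/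
def nt (L B p : ℕ) : Fin L → Fin B → Bool := fun l c => decide (p / 2 ^ ((l : ℕ) * B + c) % 2 = 1)

theorem av_nt (L B : ℕ) (F : (Fin L → Fin B → Bool) → ℂ) :
    av F = na (2 ^ (L * B)) fun p => F (nt L B p) := by
  unfold av na
  have e1 : (Fintype.card (Fin L → Fin B → Bool) : ℂ) = ((2 ^ (L * B) : ℕ) : ℂ) := by
    congr 1
    rw [Fintype.card_fun, Fintype.card_fun, Fintype.card_bool, Fintype.card_fin, Fintype.card_fin,
      ← pow_mul, mul_comm]
  rw [e1]
  congr 1
  have h := sum_nb (L * B) (fun x : Cube (L * B) => F fun l c => x (finProdFinEquiv (l, c)))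
  rw [← Equiv.sum_comp ((Equiv.arrowCongr finProdFinEquiv.symm (Equiv.refl Bool)).trans
    (Equiv.curry (Fin L) (Fin B) Bool)) F]
  refine Eq.trans ?_ (Eq.trans h.symm ?_)
  · exact Finset.sum_congr rfl fun x _ => rfl
  · refine Finset.sum_congr rfl fun p _ => ?_
    congr 1
    funext l c
    unfold nb nt
    show decide (p / 2 ^ ((finProdFinEquiv (l, c) : Fin (L * B)) : ℕ) % 2 = 1) = _
    have : ((finProdFinEquiv (l, c) : Fin (L * B)) : ℕ) = (l : ℕ) * B + c := by
      show (c : ℕ) + B * l = _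
      ring
    rw [this]

theorem qbias {E : ℕ → ℕ} {G : ℕ → ℕ → ℕ → Bool} {N : ℕ} {β : ℝ}
    (H : ∀ S : Finset (Fin N), S ≠ ∅ → ‖na (2 ^ E N) (fun p => Agp.sgn S (out G N p))‖ ≤ β) :
    Bias β (fun p : Fin (2 ^ E N) => out G N p) := by
  intro S hS
  have h1 := Hyb.e4_bias (out G N) S (H S hS)
  have h2 : nr (2 ^ E N) (fun p => Hyb.ch S (out G N p)) =
      avg (fun p : Fin (2 ^ E N) => ch S (out G N p)) := by
    unfold avg nr
    rw [Fintype.card_fin, ← Fin.sum_univ_eq_sum_range]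
    rfl
  rw [h2] at h1
  exact h1

theorem lvl_xor (φ : (ℕ → Bool) → (ℕ → Bool) → Bool) (z : Bool) (e h : ℕ → Bool)
    (b : ℕ → ℕ → Bool) (k : ℕ) : lvl φ z e h b k =
      xor z (decide ((∑ l ∈ range k, if lbit φ e h b l = true then 1 else 0) % 2 = 1)) := by
  induction k with
  | zero => simp [lvl]
  | succ k ih =>
    unfold lvl
    rw [ih, Finset.sum_range_succ]
    generalize (∑ l ∈ range k, if lbit φ e h b l = true then 1 else 0) = a
    cases lbit φ e h b k
    · simp
    · have h : a % 2 = 0 ∨ a % 2 = 1 := by omega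
      rcases h with h | h
      · have h' : (a + 1) % 2 = 1 := by omega
        simp [h, h']
      · have h' : (a + 1) % 2 = 0 := by omega
        simp [h, h']

theorem ip_eq (c : ℕ) (a b : ℕ → Bool) :
    Qgn.ip c a b = Xp.ip (fun q : Fin c => a q) (fun q => b q) := by
  have h : ∀ c : ℕ, Qgn.ip c a b =
      decide ((∑ q ∈ range c, if a q = true ∧ b q = true then 1 else 0) % 2 = 1) := by
    intro c
    induction c with
    | zero => simp [Qgn.ip]
    | succ c ih =>
      unfold Qgn.ip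
      rw [ih, Finset.sum_range_succ]
      generalize (∑ q ∈ range c, if a q = true ∧ b q = true then 1 else 0) = s
      have h : s % 2 = 0 ∨ s % 2 = 1 := by omega
      rcases ha : a c with _ | _ <;> rcases hb : b c with _ | _
      · simp
      · simp
      · simp
      · rcases h with h | h
        · have h' : (s + 1) % 2 = 1 := by omega
          simp [h, h']
        · have h' : (s + 1) % 2 = 0 := by omega
          simp [h, h']
  rw [h]
  unfold Xp.ip
  rw [card_filter, Fin.sum_univ_eq_sum_range (fun q => if a q = true ∧ b q = true then 1 else 0)]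

theorem bit_mod {p l c L B : ℕ} (hl : l < L) (hc : c < B) :
    p % 2 ^ (L * B) / 2 ^ (l * B + c) % 2 = p / 2 ^ (l * B + c) % 2 := by
  have h : l * B + c < L * B := by
    calc l * B + c < l * B + B := by omega
      _ = (l + 1) * B := by ring
      _ ≤ L * B := Nat.mul_le_mul_right _ hl
  obtain ⟨d, hd⟩ : ∃ d, L * B = (l * B + c) + 1 + d := ⟨_, (Nat.add_sub_cancel' h).symm⟩
  rw [hd, add_assoc, pow_add 2 (l * B + c), Nat.mod_mul_right_div_self, pow_add 2 1 d, pow_one,
    Nat.mod_mul_right_mod]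

theorem q_out (r c : ℕ) (E₂ E₃ : ℕ → ℕ) (G₁ G₂ G₃ : ℕ → ℕ → ℕ → Bool) (n p : ℕ) :
    out (xG r (Qgn.ip c) c c E₂ E₃ G₁ G₂ G₃) n p =
      gq (out G₁ n (p / 2 ^ (lev r n * c) / 2 ^ E₃ (n * c) / 2 ^ E₂ (n * lev r n)))
        (fun l : Fin (lev r n) => qeta (L := lev r n)
          (out G₂ (n * lev r n) (p / 2 ^ (lev r n * c) / 2 ^ E₃ (n * c) % 2 ^ E₂ (n * lev r n))) l)
        (qrow (c := c) (out G₃ (n * c) (p / 2 ^ (lev r n * c) % 2 ^ E₃ (n * c))))
        (nt (lev r n) c (p % 2 ^ (lev r n * c))) := by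
  funext i
  obtain ⟨b, hb⟩ : ∃ b, b = p / 2 ^ (lev r n * c) / 2 ^ E₃ (n * c) % 2 ^ E₂ (n * lev r n) := ⟨_, rfl⟩
  obtain ⟨d, hd⟩ : ∃ d, d = p / 2 ^ (lev r n * c) % 2 ^ E₃ (n * c) := ⟨_, rfl⟩
  show xG r (Qgn.ip c) c c E₂ E₃ G₁ G₂ G₃ n p i = _
  unfold xG gq
  rw [lvl_xor, ← hb, ← hd]
  congr 3
  rw [← Fin.sum_univ_eq_sum_range, card_filter]
  congr 1
  refine Finset.sum_congr rfl fun l _ => ?_
  have hbit : ∀ t : Fin (lev r n), (out G₂ (n * lev r n) b : Cube (n * lev r n))
      (finProdFinEquiv (i, t)) = G₂ (n * lev r n) b ((i : ℕ) * lev r n + t) := by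
    intro t
    show G₂ (n * lev r n) b ((t : ℕ) + lev r n * (i : ℕ)) = _
    congr 1
    ring
  have hrow : ∀ q : Fin c, qrow (c := c) (out G₃ (n * c) d) i q = G₃ (n * c) d ((i : ℕ) * c + q) := by
    intro q
    show G₃ (n * c) d ((q : ℕ) + c * (i : ℕ)) = _
    congr 1
    ring
  have h1 : ((List.range ((l : ℕ) + 1)).all fun t => G₂ (n * lev r n) b ((i : ℕ) * lev r n + t)) = true ↔
      i ∈ qeta (L := lev r n) (out G₂ (n * lev r n) b) l := by
    unfold qeta
    rw [List.all_eq_true, Finset.mem_filter]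
    constructor
    · intro h
      exact ⟨Finset.mem_univ _, fun t ht => (hbit t).trans
        (h t (List.mem_range.2 (by have := Fin.le_def.1 ht; omega)))⟩
    · rintro ⟨-, h⟩ t ht
      have ht' := List.mem_range.1 ht
      have hl := l.2
      exact (hbit ⟨t, by omega⟩).symm.trans (h ⟨t, by omega⟩ (by rw [Fin.le_def]; show t ≤ l; omega))
  have h2 : Qgn.ip c (fun t => decide (p / 2 ^ ((l : ℕ) * c + t) % 2 = 1))
      (fun t => G₃ (n * c) d ((i : ℕ) * c + t)) =
      Xp.ip (nt (lev r n) c (p % 2 ^ (lev r n * c)) l) (qrow (c := c) (out G₃ (n * c) d) i) := by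
    rw [ip_eq]
    congr 1
    · funext q
      unfold nt
      rw [bit_mod l.2 q.2]
    · funext q
      rw [hrow]
  have h3 : lbit (Qgn.ip c) (fun t => G₂ (n * lev r n) b ((i : ℕ) * lev r n + t))
      (fun t => G₃ (n * c) d ((i : ℕ) * c + t))
      (fun l t => decide (p / 2 ^ (l * c + t) % 2 = 1)) l = true ↔
      i ∈ qeta (L := lev r n) (out G₂ (n * lev r n) b) l ∧
        Xp.ip (nt (lev r n) c (p % 2 ^ (lev r n * c)) l) (qrow (c := c) (out G₃ (n * c) d) i) = true := by
    unfold lbit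
    rw [Bool.and_eq_true, h1, h2]
  by_cases h : lbit (Qgn.ip c) (fun t => G₂ (n * lev r n) b ((i : ℕ) * lev r n + t))
      (fun t => G₃ (n * c) d ((i : ℕ) * c + t))
      (fun l t => decide (p / 2 ^ (l * c + t) % 2 = 1)) l = true
  · rw [if_pos h, if_pos (h3.1 h)]
  · rw [if_neg h, if_neg fun h' => h (h3.2 h')]

end Qgn

open Qgn in
theorem qgen (r c K : ℕ) : ∃ (E : ℕ → ℕ) (G : ℕ → ℕ → ℕ → Bool), NG E G ∧
    ∀ n : ℕ, ∃ (M₁ M₂ M₃ : ℕ), 0 < M₁ ∧ 0 < M₂ ∧ 0 < M₃ ∧ ∃ (Y : Fin M₁ → Cube n)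
      (η : Fin (Nat.clog 2 n + r + 1) → Fin M₂ → Finset (Fin n))
      (H : Fin M₃ → Fin n → Fin c → Bool),
      Bias (1 / ((n : ℝ) + 1) ^ K) Y ∧
      (∀ (l : Fin (Nat.clog 2 n + r + 1)) (s : ℕ),
        Miss s ((1 / 2 : ℝ) ^ ((l : ℕ) + 1)) (2 ^ s / ((n : ℝ) + 1) ^ K) (η l)) ∧
      Hs ((1 / 2) ^ c + 1 / ((n : ℝ) + 1) ^ K) H ∧
      ∀ f : Cube n → ℂ, na (2 ^ E n) (fun p => f (out G n p)) =
        av fun b : Fin (Nat.clog 2 n + r + 1) → Fin c → Bool => av fun ω₂ => av fun ω₃ =>
          av fun ω₁ => f (gq (Y ω₁) (fun l => η l ω₂) (H ω₃) b) := by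
  obtain ⟨E, G, hG, H⟩ := Hyb.small_bias_poly K (γ := 1) one_pos
  have hbias : ∀ n N : ℕ, (n ≤ N ∨ N = 0) →
      Bias (1 / ((n : ℝ) + 1) ^ K) (fun p : Fin (2 ^ E N) => out G N p) := by
    intro n N hN
    rcases hN with hN | hN
    · refine qbias fun S hS => (H _ S hS).trans ?_
      have hN' : (n : ℝ) ≤ (N : ℝ) := by exact_mod_cast hN
      apply one_div_le_one_div_of_le (by positivity)
      exact pow_le_pow_left₀ (by positivity) (by linarith) _
    · intro S hS
      exfalso
      obtain ⟨i, -⟩ := nonempty_of_ne_empty hS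
      have := i.2
      omega
  refine ⟨_, _, ng_xG r (mix_ip c) hG hG hG, fun n => ⟨2 ^ E n, 2 ^ E (n * lev r n), 2 ^ E (n * c),
    by positivity, by positivity, by positivity, fun p => out G n p,
    fun l p => qeta (L := lev r n) (out G (n * lev r n) p) l,
    fun p => qrow (c := c) (out G (n * c) p), hbias n n (Or.inl le_rfl), fun l s => ?_, ?_,
    fun f => ?_⟩⟩
  · have hb := hbias n (n * lev r n) (Or.inl (Nat.le_mul_of_pos_right _ (by unfold lev; omega)))
    have : Nonempty (Fin (2 ^ E (n * lev r n))) := ⟨⟨0, by positivity⟩⟩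
    have h := qmiss (L := lev r n) (by positivity) hb l s
    rw [mul_one_div] at h
    exact h
  · have hb := hbias n (n * c) (by
      rcases Nat.eq_zero_or_pos c with h | h
      · exact Or.inr (by rw [h, mul_zero])
      · exact Or.inl (Nat.le_mul_of_pos_right _ h))
    have : Nonempty (Fin (2 ^ E (n * c))) := ⟨⟨0, by positivity⟩⟩
    exact qhs (by positivity) hb
  · obtain ⟨A, hA⟩ : ∃ A, A = 2 ^ E n := ⟨_, rfl⟩
    obtain ⟨B, hB⟩ : ∃ B, B = 2 ^ E (n * lev r n) := ⟨_, rfl⟩
    obtain ⟨D, hD⟩ : ∃ D, D = 2 ^ E (n * c) := ⟨_, rfl⟩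
    have hB0 : 0 < B := by rw [hB]; positivity
    have hD0 : 0 < D := by rw [hD]; positivity
    have hQ0 : 0 < 2 ^ (lev r n * c) := by positivity
    let Φ : ℕ → ℕ → ℕ → ℕ → ℂ := fun a b d q => f (gq (out G n a)
      (fun l : Fin (lev r n) => qeta (L := lev r n) (out G (n * lev r n) b) l)
      (qrow (c := c) (out G (n * c) d)) (nt (lev r n) c q))
    have e1 : na (2 ^ (E n + E (n * lev r n) + E (n * c) + lev r n * c))
          (fun p => f (out (xG r (Qgn.ip c) c c E E G G G) n p)) =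
        na (A * B * D * 2 ^ (lev r n * c)) (fun p => (fun x q => Φ (x / D / B) (x / D % B) (x % D) q)
          (p / 2 ^ (lev r n * c)) (p % 2 ^ (lev r n * c))) := by
      rw [pow_add, pow_add, pow_add, ← hA, ← hB, ← hD]
      exact na_congr fun p _ => by rw [q_out, ← hB, ← hD]
    have e2 : na (2 ^ (E n + E (n * lev r n) + E (n * c) + lev r n * c))
          (fun p => f (out (xG r (Qgn.ip c) c c E E G G G) n p)) =
        na (2 ^ (lev r n * c)) fun q => na B fun b => na D fun d => na A fun a => Φ a b d q := by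
      rw [e1, na_mul _ hQ0 (fun x q => Φ (x / D / B) (x / D % B) (x % D) q),
        na_mul _ hD0 (fun y d => na (2 ^ (lev r n * c)) fun q => Φ (y / B) (y % B) d q),
        na_mul _ hB0 (fun a b => na D fun d => na (2 ^ (lev r n * c)) fun q => Φ a b d q)]
      rw [na_congr fun a _ => na_congr fun b _ =>
        na_comm D (2 ^ (lev r n * c)) fun d q => Φ a b d q]
      rw [na_congr fun a _ => na_comm B (2 ^ (lev r n * c)) fun b q => na D fun d => Φ a b d q]
      rw [na_comm A (2 ^ (lev r n * c)) fun a q => na B fun b => na D fun d => Φ a b d q]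
      refine na_congr fun q _ => ?_
      rw [na_comm A B fun a b => na D fun d => Φ a b d q]
      exact na_congr fun b _ => na_comm A D fun a d => Φ a b d q
    refine e2.trans ?_
    have e3 := av_nt (lev r n) c (fun v => av fun ω₂ : Fin (2 ^ E (n * lev r n)) =>
      av fun ω₃ : Fin (2 ^ E (n * c)) => av fun ω₁ : Fin (2 ^ E n) => f (gq (out G n ω₁)
        (fun l : Fin (lev r n) => qeta (L := lev r n) (out G (n * lev r n) ω₂) l)
        (qrow (c := c) (out G (n * c) ω₃)) v))
    refine Eq.trans (na_congr fun q _ => ?_) e3.symm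
    rw [hA, hB, hD, ← av_fin]
    congr 1
    funext b
    rw [← av_fin]
    congr 1
    funext d
    rw [← av_fin]

end Pool.Agent.MP_ca1109_lc.Xp
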