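import Pool.Agent.MP_ca1109_lc.Xp.QDefs
import Pool.Agent.MP_ca1109_lc.Xp.GX

/-!
# One level of the generator with inner products
-/

namespace Pool.Agent.MP_ca1109_lc.Xp

open Finset Pool.Agent.MP_ca1109_lc.Mpg Pool.Agent.MP_ca1109_lc.Agp
open Pool.Agent.MP_ca1109_lc.Dnf (Cube ch one)

variable {n : ℕ}

theorem gq_xo {L c : ℕ} (y : Cube n) (η : Fin L → Finset (Fin n)) (h : Fin n → Fin c → Bool)
    (b : Fin L → Fin c → Bool) : gq y η h b = xo y (gq (fun _ => false) η h b) := by
  funext i
  unfold gq xo
  simp

theorem gq_update {L c : ℕ} (y : Cube n) (η : Fin L → Finset (Fin n)) (h : Fin n → Fin c → Bool)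
    (b : Fin L → Fin c → Bool) (l : Fin L) (u : Fin c → Bool) :
    gq y η h (Function.update b l u) =
      mq (xo y (gq (fun _ => false) η h (Function.update b l fun _ => false))) (η l) (uv u h) := by
  funext i
  unfold gq mq xo uv
  beta_reduce
  have hf : ip (fun _ : Fin c => false) (h i) = false := by
    unfold ip
    simp
  have h1 : ∀ w : Fin c → Bool, (univ.filter fun x => i ∈ η x ∧
      ip (Function.update b l w x) (h i) = true).card =
      (if i ∈ η l ∧ ip w (h i) = true then 1 else 0) +
      ((univ.erase l).filter fun x => i ∈ η x ∧ ip (b x) (h i) = true).card := by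
    intro w
    have h3 : ((univ : Finset (Fin L)).filter fun x => i ∈ η x ∧
        ip (Function.update b l w x) (h i) = true) =
        ((({l} : Finset (Fin L)).filter fun _ => i ∈ η l ∧ ip w (h i) = true)) ∪
        ((univ.erase l).filter fun x => i ∈ η x ∧ ip (b x) (h i) = true) := by
      ext x
      simp only [mem_filter, mem_univ, true_and, mem_union, mem_singleton, mem_erase]
      by_cases hx : x = l
      · subst hx
        simp
      · simp [hx]
    rw [h3, card_union_of_disjoint]
    · congr 1
      by_cases hl : i ∈ η l ∧ ip w (h i) = true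
      · rw [if_pos hl, filter_true_of_mem fun _ _ => hl, card_singleton]
      · rw [if_neg hl, filter_false_of_mem fun _ _ => hl, card_empty]
    · rw [disjoint_left]
      intro x hx1 hx2
      have e1 : x = l := mem_singleton.mp (mem_filter.mp hx1).1
      exact ne_of_mem_erase (mem_filter.mp hx2).1 e1
  rw [h1, h1, hf]
  generalize ((univ.erase l).filter fun x => i ∈ η x ∧ ip (b x) (h i) = true).card = s
  generalize y i = a
  have h2 : s % 2 = 0 ∨ s % 2 = 1 := Nat.mod_two_eq_zero_or_one s
  by_cases hi : i ∈ η l
  · rcases hu : ip u (h i) with _ | _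
    · rcases h2 with h2 | h2 <;> simp [hi, h2]
    · rcases h2 with h2 | h2
      · have h3 : (1 + s) % 2 = 1 := by omega
        simp [hi, h2, h3]
      · have h3 : (1 + s) % 2 = 0 := by omega
        simp [hi, h2, h3]
  · rcases h2 with h2 | h2 <;> simp [hi, h2]

end Pool.Agent.MP_ca1109_lc.Xp
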