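import Pool.Agent.MP_ca1109_lc.Xp.ES

namespace Pool.Agent.MP_ca1109_lc.Xp

open Finset Pool.Agent.H66 Pool.Agent.MP_ca1109_lc.Mpg Pool.Agent.MP_ca1109_lc.Agp
open Pool.Agent.MP_ca1109_lc.Dnf (Cube ch one E Term E_term E_sum E_mono E_add E_smul E_nonneg E_sub E_const one_nonneg one_le one_true one_false one_mono)

variable {n : ℕ}

/-! ## Cylinders, and sums over the variables -/

theorem E_cyl (A B : Finset (Fin n)) (h : Disjoint A B) :
    E (fun z : Cube n => one ((∀ i ∈ A, z i = true) ∧ ∀ i ∈ B, z i = false)) =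
      (1 / 2) ^ (A.card + B.card) := by
  classical
  have h1 := E_term (⟨A ∪ B, fun i => decide (i ∈ A)⟩ : Term n)
  rw [Finset.card_union_of_disjoint h] at h1
  rw [← h1]
  congr 1
  funext z
  unfold Term.f
  congr 1
  unfold Term.Sat
  simp only [Finset.mem_union, eq_iff_iff]
  constructor
  · rintro ⟨ha, hb⟩ i (hi | hi)
    · simp [ha i hi, hi]
    · have : i ∉ A := fun hA => (Finset.disjoint_left.1 h) hA hi
      simp [hb i hi, this]
  · intro hz
    refine ⟨fun i hi => by simpa [hi] using hz i (Or.inl hi), fun i hi => ?_⟩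
    have : i ∉ A := fun hA => (Finset.disjoint_left.1 h) hA hi
    simpa [this] using hz i (Or.inr hi)

theorem E_pivot {m : Finset (Fin n)} {i : Fin n} (hi : i ∈ m) :
    E (fun z : Cube n => one (z i = false ∧ Tr (m.erase i) z)) = (1 / 2) ^ m.card := by
  classical
  have h := E_cyl (m.erase i) {i} (by simp)
  rw [Finset.card_erase_of_mem hi, Finset.card_singleton,
    Nat.sub_add_cancel (Finset.card_pos.2 ⟨i, hi⟩)] at h
  rw [← h]
  congr 1
  funext z
  congr 1
  unfold Tr
  simp only [Finset.mem_singleton, forall_eq, eq_iff_iff]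
  tauto

theorem sum_swap (M : Finset (Finset (Fin n))) (f : Finset (Fin n) → ℝ) :
    ∑ i : Fin n, ∑ m ∈ M.filter (fun m => i ∈ m), f m = ∑ m ∈ M, (m.card : ℝ) * f m := by
  classical
  simp only [Finset.sum_filter]
  rw [Finset.sum_comm]
  refine Finset.sum_congr rfl fun m _ => ?_
  rw [← Finset.sum_filter, Finset.sum_const, nsmul_eq_mul]
  congr 2
  congr 1
  ext i
  simp

end Pool.Agent.MP_ca1109_lc.Xp
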