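import Pool.Agent.MP_ca1109_lc.Xp.SP
import Pool.Agent.MP_ca1109_lc.Xp.EB

namespace Pool.Agent.MP_ca1109_lc.Xp

open Finset Pool.Agent.H66 Pool.Agent.MP_ca1109_lc.Mpg Pool.Agent.MP_ca1109_lc.Agp
open Pool.Agent.MP_ca1109_lc.Dnf (Cube ch one E Term E_term E_sum E_mono E_add E_smul E_nonneg E_sub E_const one_nonneg one_le one_true one_false one_mono)

variable {n : ℕ}

theorem E_ac_le (M : Finset (Finset (Fin n))) (i : Fin n) :
    E (ac M i) ≤ ∑ m ∈ M.filter (fun m => i ∈ m), (1 / 2 : ℝ) ^ m.card := by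
  classical
  have h : ∀ m ∈ M.filter (fun m => i ∈ m), (1 / 2 : ℝ) ^ m.card =
      E (fun z : Cube n => one (z i = false ∧ Tr (m.erase i) z)) := fun m hm =>
    (E_pivot (Finset.mem_filter.1 hm).2).symm
  rw [Finset.sum_congr rfl h, ← E_sum]
  refine E_mono fun z => ?_
  unfold ac
  by_cases hA : Ac M i z
  · rw [one_true hA]
    obtain ⟨h0, m, ⟨hm, him, ht⟩, -⟩ := hA
    refine le_trans ?_ (Finset.single_le_sum (f := fun m => one (z i = false ∧ Tr (m.erase i) z))
      (fun m _ => one_nonneg _) (Finset.mem_filter.2 ⟨hm, him⟩))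
    exact (one_true (show z i = false ∧ Tr (m.erase i) z from ⟨h0, ht⟩)).ge
  · rw [one_false hA]
    exact Finset.sum_nonneg fun m _ => one_nonneg _

theorem E_S0 (M : Finset (Finset (Fin n))) : E (S0 M) = ∑ i, E (ac M i) := by
  have := E_sum (univ : Finset (Fin n)) (fun i => ac M i)
  unfold S0
  exact this

/-- The mean of the number of active variables: upper bound. -/
theorem E_S0_le (M : Finset (Finset (Fin n))) : E (S0 M) ≤ A1 M := by
  rw [E_S0]
  refine (Finset.sum_le_sum fun i _ => E_ac_le M i).trans (le_of_eq ?_)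
  exact sum_swap M fun m => (1 / 2 : ℝ) ^ m.card

theorem E_alive_le (M : Finset (Finset (Fin n))) (i : Fin n) :
    E (fun z => one (Al M i z)) ≤ 2 * ∑ m ∈ M.filter (fun m => i ∈ m), (1 / 2 : ℝ) ^ m.card := by
  classical
  rw [Finset.mul_sum]
  have h : ∀ m ∈ M.filter (fun m => i ∈ m), 2 * (1 / 2 : ℝ) ^ m.card =
      E (fun z : Cube n => one (Tr (m.erase i) z)) := by
    intro m hm
    have him := (Finset.mem_filter.1 hm).2
    have h1 := E_cyl (m.erase i) ∅ (by simp)
    rw [Finset.card_empty, add_zero] at h1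
    have h2 : (fun z : Cube n => one ((∀ j ∈ m.erase i, z j = true) ∧ ∀ j ∈ (∅ : Finset (Fin n)),
        z j = false)) = fun z : Cube n => one (Tr (m.erase i) z) := by
      funext z
      congr 1
      unfold Tr
      simp
    rw [h2] at h1
    rw [h1]
    have h3 : m.card = (m.erase i).card + 1 := (Finset.card_erase_add_one him).symm
    rw [h3, pow_succ]
    ring
  rw [Finset.sum_congr rfl h, ← E_sum]
  refine E_mono fun z => ?_
  by_cases hA : Al M i z
  · rw [one_true hA]
    obtain ⟨m, hm, him, ht⟩ := hA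
    refine le_trans ?_ (Finset.single_le_sum (f := fun m => one (Tr (m.erase i) z))
      (fun m _ => one_nonneg _) (Finset.mem_filter.2 ⟨hm, him⟩))
    exact (one_true ht).ge
  · rw [one_false hA]
    exact Finset.sum_nonneg fun m _ => one_nonneg _

/-- The mean of the number of alive variables. -/
theorem E_alive_sum_le (M : Finset (Finset (Fin n))) :
    ∑ i, E (fun z => one (Al M i z)) ≤ 2 * A1 M := by
  refine (Finset.sum_le_sum fun i _ => E_alive_le M i).trans (le_of_eq ?_)
  rw [← Finset.mul_sum]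
  congr 1
  exact sum_swap M fun m => (1 / 2 : ℝ) ^ m.card

/-- A variable is active with at least the probability of its shortest monomial, up to a constant. -/
theorem E_ac_ge {M : Finset (Finset (Fin n))} {r : ℕ} (hr : Rd r M) (i : Fin n)
    {m : Finset (Fin n)} (hm : m ∈ M) (him : i ∈ m)
    (hmin : ∀ m' ∈ M, i ∈ m' → m.card ≤ m'.card) :
    (1 / 2 : ℝ) ^ (m.card + (r - 1)) ≤ E (ac M i) := by
  classical
  set K := (M.filter fun m' => i ∈ m').erase m with hK
  have hKc : K.card ≤ r - 1 := by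
    rw [hK, Finset.card_erase_of_mem (Finset.mem_filter.2 ⟨hm, him⟩)]
    exact Nat.sub_le_sub_right (hr i) 1
  have hex : ∀ m' ∈ K, ∃ u, u ∈ m' ∧ u ∉ m := by
    intro m' hm'
    obtain ⟨hne, hm'2⟩ := Finset.mem_erase.1 hm'
    obtain ⟨hm'M, him'⟩ := Finset.mem_filter.1 hm'2
    by_contra hcon
    push Not at hcon
    have hsub : m' ⊆ m := fun u hu => hcon u hu
    exact hne (Finset.eq_of_subset_of_card_le hsub (hmin m' hm'M him'))
  have : Nonempty (Fin n) := ⟨i⟩
  choose! u hu1 hu2 using hex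
  set U := K.image u with hU
  have hUc : U.card ≤ r - 1 := Finset.card_image_le.trans hKc
  have hiU : i ∉ U := by
    intro hi
    obtain ⟨m', hm', rfl⟩ := Finset.mem_image.1 hi
    exact hu2 m' hm' him
  have hdis : Disjoint (m.erase i) (insert i U) := by
    rw [Finset.disjoint_left]
    intro v hv hv'
    obtain ⟨hvi, hvm⟩ := Finset.mem_erase.1 hv
    rcases Finset.mem_insert.1 hv' with h | h
    · exact hvi h
    · obtain ⟨m', hm', rfl⟩ := Finset.mem_image.1 h
      exact hu2 m' hm' hvm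
  have hcyl := E_cyl (m.erase i) (insert i U) hdis
  have hcard : (m.erase i).card + (insert i U).card ≤ m.card + (r - 1) := by
    rw [Finset.card_insert_of_notMem hiU, Finset.card_erase_of_mem him]
    have : 1 ≤ m.card := Finset.card_pos.2 ⟨i, him⟩
    omega
  calc (1 / 2 : ℝ) ^ (m.card + (r - 1)) ≤ (1 / 2) ^ ((m.erase i).card + (insert i U).card) :=
        pow_le_pow_of_le_one (by norm_num) (by norm_num) hcard
    _ ≤ E (ac M i) := by
        rw [← hcyl]
        refine E_mono fun z => one_mono ?_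
        rintro ⟨h1, h2⟩
        refine ⟨h2 i (Finset.mem_insert_self _ _), m, ⟨hm, him, fun v hv => h1 v hv⟩, ?_⟩
        rintro m' ⟨hm', him', ht⟩
        by_contra hne
        have hm'K : m' ∈ K := Finset.mem_erase.2 ⟨hne, Finset.mem_filter.2 ⟨hm', him'⟩⟩
        have hu := hu1 m' hm'K
        have hui : u m' ≠ i := fun h => hu2 m' hm'K (h ▸ him)
        have := ht (u m') (Finset.mem_erase.2 ⟨hui, hu⟩)
        rw [h2 (u m') (Finset.mem_insert_of_mem (Finset.mem_image_of_mem u hm'K))] at this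
        exact absurd this (by simp)

/-- The mean of the number of active variables: lower bound. -/
theorem E_S0_ge {M : Finset (Finset (Fin n))} {r : ℕ} (hr1 : 1 ≤ r) (hr : Rd r M) :
    A1 M / (r * 2 ^ (r - 1)) ≤ E (S0 M) := by
  classical
  have hr0 : (0 : ℝ) < r := by exact_mod_cast hr1
  rw [E_S0, div_le_iff₀ (by positivity), Finset.sum_mul]
  have h : A1 M = ∑ i : Fin n, ∑ m ∈ M.filter (fun m => i ∈ m), (1 / 2 : ℝ) ^ m.card :=
    (sum_swap M fun m => (1 / 2 : ℝ) ^ m.card).symm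
  rw [h]
  refine Finset.sum_le_sum fun i _ => ?_
  by_cases hne : (M.filter (fun m => i ∈ m)).Nonempty
  · obtain ⟨m, hm, hmin⟩ := Finset.exists_min_image _ (fun m => m.card) hne
    obtain ⟨hmM, him⟩ := Finset.mem_filter.1 hm
    have h1 := E_ac_ge hr i hmM him fun m' hm' him' => hmin m' (Finset.mem_filter.2 ⟨hm', him'⟩)
    calc ∑ m' ∈ M.filter (fun m' => i ∈ m'), (1 / 2 : ℝ) ^ m'.card
        ≤ ∑ m' ∈ M.filter (fun m' => i ∈ m'), (1 / 2 : ℝ) ^ m.card :=
          Finset.sum_le_sum fun m' hm' => pow_le_pow_of_le_one (by norm_num) (by norm_num)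
            (hmin m' hm')
      _ = (M.filter (fun m' => i ∈ m')).card * (1 / 2 : ℝ) ^ m.card := by
          rw [Finset.sum_const, nsmul_eq_mul]
      _ ≤ r * (1 / 2 : ℝ) ^ m.card := by
          refine mul_le_mul_of_nonneg_right ?_ (by positivity)
          exact_mod_cast hr i
      _ = (1 / 2 : ℝ) ^ (m.card + (r - 1)) * (r * 2 ^ (r - 1)) := by
          rw [pow_add]
          have : (1 / 2 : ℝ) ^ (r - 1) * 2 ^ (r - 1) = 1 := by
            rw [← mul_pow]
            norm_num
          calc (r : ℝ) * (1 / 2) ^ m.card = (1 / 2) ^ m.card * r * 1 := by ring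
            _ = (1 / 2) ^ m.card * r * ((1 / 2 : ℝ) ^ (r - 1) * 2 ^ (r - 1)) := by rw [this]
            _ = _ := by ring
      _ ≤ E (ac M i) * (r * 2 ^ (r - 1)) := mul_le_mul_of_nonneg_right h1 (by positivity)
  · rw [Finset.not_nonempty_iff_eq_empty.1 hne, Finset.sum_empty]
    exact mul_nonneg (E_nonneg fun z => one_nonneg _) (by positivity)


theorem ac_lower {r W : ℕ} (hr : 1 ≤ r) {M : Finset (Finset (Fin n))} (hM : Fam r W M) :
    A1 M ≤ r * 2 ^ r * avg (S0 M) := by
  have h := E_S0_ge hr hM.rd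
  have hr0 : (0 : ℝ) < r := by exact_mod_cast hr
  rw [div_le_iff₀ (by positivity)] at h
  rw [es_avg]
  have h2 : (0 : ℝ) ≤ E (S0 M) := E_nonneg fun z => Finset.sum_nonneg fun i _ => one_nonneg _
  have h3 : (2 : ℝ) ^ (r - 1) ≤ 2 ^ r := pow_le_pow_right₀ (by norm_num) (Nat.sub_le _ _)
  calc A1 M ≤ E (S0 M) * (r * 2 ^ (r - 1)) := h
    _ ≤ E (S0 M) * (r * 2 ^ r) := by gcongr
    _ = r * 2 ^ r * E (S0 M) := by ring

theorem ac_expand (M : Finset (Finset (Fin n))) (i : Fin n) (z : Cube n) :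
    ((ac M i z : ℝ) : ℂ) = ((one (z i = false) : ℝ) : ℂ) *
      ∑ m ∈ M.filter (fun m => i ∈ m), ((mon (m.erase i) z : ℝ) : ℂ) *
        ∏ m' ∈ (M.filter (fun m => i ∈ m)).erase m, (1 + (-1) * ((mon (m'.erase i) z : ℝ) : ℂ)) := by
  classical
  set N := M.filter fun m => i ∈ m with hN
  have h01 : ∀ S : Finset (Fin n), (Tr S z → ((mon S z : ℝ) : ℂ) = 1) ∧
      (¬ Tr S z → ((mon S z : ℝ) : ℂ) = 0) := by
    intro S
    unfold mon
    exact ⟨fun h => by rw [one_true h]; simp, fun h => by rw [one_false h]; simp⟩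
  unfold ac
  by_cases hz : z i = false
  · rw [one_true hz]
    by_cases hA : ∃! m, m ∈ M ∧ i ∈ m ∧ Tr (m.erase i) z
    · rw [one_true (show Ac M i z from ⟨hz, hA⟩)]
      obtain ⟨m, ⟨hm, him, hT⟩, hu⟩ := hA
      have hmN : m ∈ N := Finset.mem_filter.2 ⟨hm, him⟩
      rw [Finset.sum_eq_single m]
      · rw [(h01 _).1 hT, Finset.prod_eq_one]
        · simp
        · intro m' hm'
          obtain ⟨hne, hm'N⟩ := Finset.mem_erase.1 hm'
          obtain ⟨hm'M, him'⟩ := Finset.mem_filter.1 hm'N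
          rw [(h01 _).2 fun hT' => hne (hu m' ⟨hm'M, him', hT'⟩)]
          simp
      · intro m' hm' hne
        obtain ⟨hm'M, him'⟩ := Finset.mem_filter.1 hm'
        rw [(h01 _).2 fun hT' => hne (hu m' ⟨hm'M, him', hT'⟩), zero_mul]
      · intro h
        exact absurd hmN h
    · rw [one_false (show ¬ Ac M i z from fun h => hA h.2)]
      have h0 : ∀ m ∈ N, ((mon (m.erase i) z : ℝ) : ℂ) *
          ∏ m' ∈ N.erase m, (1 + (-1) * ((mon (m'.erase i) z : ℝ) : ℂ)) = 0 := by
        intro m hm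
        by_cases hT : Tr (m.erase i) z
        · obtain ⟨hmM, him⟩ := Finset.mem_filter.1 hm
          have hex : ∃ m', (m' ∈ M ∧ i ∈ m' ∧ Tr (m'.erase i) z) ∧ m' ≠ m := by
            by_contra hcon
            push Not at hcon
            exact hA ⟨m, ⟨hmM, him, hT⟩, fun m' hm' => hcon m' hm'⟩
          obtain ⟨m', ⟨hm'M, him', hT'⟩, hne⟩ := hex
          rw [Finset.prod_eq_zero (Finset.mem_erase.2 ⟨hne, Finset.mem_filter.2 ⟨hm'M, him'⟩⟩)
            (by rw [(h01 _).1 hT']; ring), mul_zero]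
        · rw [(h01 _).2 hT, zero_mul]
      rw [Finset.sum_eq_zero h0]
      simp
  · rw [one_false hz, one_false (show ¬ Ac M i z from fun h => hz h.1)]
    simp

theorem ac_sp {r : ℕ} {M : Finset (Finset (Fin n))} (hM : Rd r M) (i : Fin n) :
    Sp (r * 2 ^ r + 1) (fun z => ((ac M i z : ℝ) : ℂ)) := by
  classical
  set N := M.filter fun m => i ∈ m with hN
  have hNr : N.card ≤ r := hM i
  have h1 : ∀ m' : Finset (Fin n), Sp 2 (fun z : Cube n =>
      (1 + (-1) * ((mon (m'.erase i) z : ℝ) : ℂ))) := by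
    intro m'
    have := (Sp.const (n := n) (1 : ℂ)).add ((Sp.mon (m'.erase i)).smul (-1 : ℂ))
    refine this.mono ?_
    norm_num
  have h2 : ∀ m ∈ N, Sp (2 ^ r) (fun z : Cube n => ((mon (m.erase i) z : ℝ) : ℂ) *
      ∏ m' ∈ N.erase m, (1 + (-1) * ((mon (m'.erase i) z : ℝ) : ℂ))) := by
    intro m hm
    refine ((Sp.mon (m.erase i)).mul (Sp.prod (N.erase m) (fun _ => 2) _
      fun m' _ => h1 m')).mono ?_
    rw [Finset.prod_const, one_mul]
    exact pow_le_pow_right₀ (by norm_num) ((Finset.card_erase_le).trans hNr)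
  have h3 := (Sp.bit i false).mul (Sp.sum N (fun _ => (2 : ℝ) ^ r) _ h2)
  refine (h3.mono ?_).of_eq fun z => ?_
  · rw [Finset.sum_const, nsmul_eq_mul, one_mul]
    have : (N.card : ℝ) ≤ r := by exact_mod_cast hNr
    have h4 : (0 : ℝ) ≤ 2 ^ r := by positivity
    nlinarith
  · exact (ac_expand M i z).symm

end Pool.Agent.MP_ca1109_lc.Xp
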