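import Pool.Agent.MP_ca1109_lc.Xp.SP
import Pool.Agent.MP_ca1109_lc.Xp.AC

namespace Pool.Agent.MP_ca1109_lc.Xp

open Finset Pool.Agent.H66 Pool.Agent.MP_ca1109_lc.Mpg Pool.Agent.MP_ca1109_lc.Agp
open Pool.Agent.MP_ca1109_lc.Dnf (Cube ch one)

variable {n : ℕ}

/-! ## CH: the second moment of the number of active variables in `η` -/

theorem ch_one_nonneg (P : Prop) : 0 ≤ one P := by unfold one; split_ifs <;> norm_num

theorem ch_one_le (P : Prop) : one P ≤ 1 := by unfold one; split_ifs <;> norm_num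

theorem ch_one_mul (P Q : Prop) : one P * one Q = one (P ∧ Q) := by
  unfold one
  by_cases hP : P <;> by_cases hQ : Q <;> simp [hP, hQ]

theorem ch_abs_avg {A : Type*} [Fintype A] [Nonempty A] {g : A → ℝ} {c : ℝ}
    (h : ∀ a, |g a| ≤ c) : |avg g| ≤ c := by
  rw [abs_le]
  constructor
  · have := avg_mono (f := fun _ : A => -c) (g := g) fun a => (abs_le.1 (h a)).1
    rwa [avg_const] at this
  · have := avg_mono (f := g) (g := fun _ : A => c) fun a => (abs_le.1 (h a)).2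
    rwa [avg_const] at this

theorem ch_pair {p δ B₀ : ℝ} (hδ : 0 ≤ δ) {Ω₁ Ω₂ : Type} [Fintype Ω₁] [Nonempty Ω₁] [Fintype Ω₂]
    [Nonempty Ω₂] {B : ℕ} {Y : Ω₁ → Cube n} {η : Ω₂ → Finset (Fin n)} {h : Ω₂ → Fin n → Fin B}
    (sh : Ω₂ → Cube n) (hY : Bias δ Y) (hS : Src p δ η h) (D : Finset (Fin n)) {f : Cube n → ℝ}
    (hf0 : ∀ x, 0 ≤ f x) (hf1 : ∀ x, f x ≤ 1) (hf : Sp B₀ fun x => ((f x : ℝ) : ℂ)) :
    |(avg fun q : Ω₂ × Ω₁ => one (D ⊆ η q.1) * f (xo (Y q.2) (sh q.1))) -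
      p ^ D.card * avg f| ≤ δ * (B₀ + 1) := by
  have h1 : ∀ a, |avg (fun b => f (xo (Y b) (sh a))) - avg f| ≤ δ * B₀ := fun a =>
    fool_real hδ (hY.xo (sh a)) hf
  have h2 : |avg (fun a => one (D ⊆ η a) * (avg (fun b => f (xo (Y b) (sh a))) - avg f))| ≤
      δ * B₀ := by
    refine ch_abs_avg fun a => ?_
    rw [abs_mul, abs_of_nonneg (ch_one_nonneg _)]
    have := mul_le_mul (ch_one_le (D ⊆ η a)) (h1 a) (abs_nonneg _) zero_le_one
    simpa using this
  have h3 : (avg fun q : Ω₂ × Ω₁ => one (D ⊆ η q.1) * f (xo (Y q.2) (sh q.1))) =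
      avg (fun a => one (D ⊆ η a) * (avg (fun b => f (xo (Y b) (sh a))) - avg f)) +
        avg f * avg (fun a => one (D ⊆ η a)) := by
    rw [avg_prod (fun a b => one (D ⊆ η a) * f (xo (Y b) (sh a))), ← avg_mul_left, ← avg_add]
    congr 1
    funext a
    rw [avg_mul_left]
    ring
  have h4 := hS.sub D
  have h5 : 0 ≤ avg f := avg_nonneg hf0
  have h6 : avg f ≤ 1 := (avg_mono hf1).trans (avg_const 1).le
  rw [h3]
  have h7 : |avg f * (avg (fun a => one (D ⊆ η a)) - p ^ D.card)| ≤ δ := by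
    rw [abs_mul, abs_of_nonneg h5]
    have := mul_le_mul h6 h4 (abs_nonneg _) zero_le_one
    simpa using this
  calc _ = |avg (fun a => one (D ⊆ η a) * (avg (fun b => f (xo (Y b) (sh a))) - avg f)) +
        avg f * (avg (fun a => one (D ⊆ η a)) - p ^ D.card)| := by congr 1; ring
    _ ≤ δ * B₀ + δ := (abs_add_le _ _).trans (add_le_add h2 h7)
    _ = _ := by ring

theorem ch_nac (M : Finset (Finset (Fin n))) (η : Finset (Fin n)) (z : Cube n) :
    ((nac M η z : ℕ) : ℝ) = ∑ i, one (i ∈ η) * ac M i z := by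
  classical
  unfold nac
  have h1 : (η.filter fun i => Ac M i z) = univ.filter fun i => i ∈ η ∧ Ac M i z := by
    ext i; simp
  rw [Finset.card_eq_sum_ones, Finset.sum_filter]
  push_cast
  rw [← Finset.sum_filter_add_sum_filter_not univ (fun i => i ∈ η)]
  have h2 : ∑ i ∈ univ.filter (fun i => ¬ i ∈ η), one (i ∈ η) * ac M i z = 0 := by
    refine Finset.sum_eq_zero fun i hi => ?_
    have : ¬ i ∈ η := (Finset.mem_filter.1 hi).2
    simp [one, this]
  rw [h2, add_zero]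
  have h3 : univ.filter (fun i => i ∈ η) = η := by ext i; simp
  rw [h3]
  refine Finset.sum_congr rfl fun i hi => ?_
  unfold ac one
  by_cases h : Ac M i z <;> simp [h, hi]

theorem cheb (r : ℕ) : ∃ C : ℕ, ∀ (n W : ℕ) (M : Finset (Finset (Fin n))), Fam r W M →
    ∀ p δ : ℝ, 0 ≤ p → p ≤ 1 → 0 ≤ δ → ∀ {Ω₁ Ω₂ : Type} [Fintype Ω₁] [Nonempty Ω₁] [Fintype Ω₂]
    [Nonempty Ω₂] {B : ℕ} (Y : Ω₁ → Cube n) (η : Ω₂ → Finset (Fin n)) (h : Ω₂ → Fin n → Fin B)
    (sh : Ω₂ → Cube n), Bias δ Y → Src p δ η h → ∀ K : ℕ, 2 * (K : ℝ) ≤ p * avg (S0 M) →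
    (avg fun ω₂ => avg fun ω₁ => one (nac M (η ω₂) (xo (Y ω₁) (sh ω₂)) < K)) *
      (p * avg (S0 M)) ^ 2 ≤
      4 * (p ^ 2 * avg (fun z => (S0 M z - avg (S0 M)) ^ 2) + p * avg (S0 M) +
        C * δ * ((n : ℝ) + 1) ^ 2) := by
  refine ⟨(r * 2 ^ r + 1) ^ 2 + 2 * (r * 2 ^ r + 1) + 3, ?_⟩
  intro n W M hM p δ hp0 hp1 hδ Ω₁ Ω₂ _ _ _ _ B Y η h sh hY hS K hK
  classical
  set S : ℝ := (r : ℝ) * 2 ^ r + 1 with hSdef
  have hS0 : 0 ≤ S := by positivity
  set m : ℝ := avg (S0 M) with hm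
  set μ : ℝ := p * m with hμ
  let Z : Ω₂ × Ω₁ → Cube n := fun q => xo (Y q.2) (sh q.1)
  let X : Ω₂ × Ω₁ → ℝ := fun q => ∑ i, one (i ∈ η q.1) * ac M i (Z q)
  have ac0 : ∀ i z, 0 ≤ ac M i z := fun i z => ch_one_nonneg _
  have ac1 : ∀ i z, ac M i z ≤ 1 := fun i z => ch_one_le _
  have acsq : ∀ i z, ac M i z * ac M i z = ac M i z := fun i z => by
    unfold ac; rw [ch_one_mul, and_self]
  have hsp : ∀ i, Sp S (fun z => ((ac M i z : ℝ) : ℂ)) := fun i => ac_sp hM.rd i
  -- the first moment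
  have hsum : ∑ i, avg (ac M i) = m := by
    rw [hm]
    rw [← avg_sum]
    rfl
  have hm0 : 0 ≤ m := by
    rw [← hsum]; exact Finset.sum_nonneg fun i _ => avg_nonneg (ac0 i)
  have hmn : m ≤ n := by
    rw [← hsum]
    calc ∑ i, avg (ac M i) ≤ ∑ _i : Fin n, (1 : ℝ) :=
          Finset.sum_le_sum fun i _ => (avg_mono (ac1 i)).trans (avg_const 1).le
      _ = n := by simp
  have hμ0 : 0 ≤ μ := mul_nonneg hp0 hm0
  have hμn : μ ≤ n := (mul_le_of_le_one_left hm0 hp1).trans hmn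
  have h1 : ∀ i, |(avg fun q : Ω₂ × Ω₁ => one (i ∈ η q.1) * ac M i (Z q)) - p * avg (ac M i)| ≤
      δ * (S + 1) := by
    intro i
    have := ch_pair hδ sh hY hS {i} (ac0 i) (ac1 i) (hsp i)
    simpa using this
  have h2 : ∀ i j, |(avg fun q : Ω₂ × Ω₁ => (one (i ∈ η q.1) * ac M i (Z q)) *
      (one (j ∈ η q.1) * ac M j (Z q))) -
      p ^ ({i, j} : Finset (Fin n)).card * avg (fun z => ac M i z * ac M j z)| ≤
      δ * (S * S + 1) := by
    intro i j
    have h3 := ch_pair hδ sh hY hS {i, j} (f := fun z => ac M i z * ac M j z)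
      (fun x => mul_nonneg (ac0 i x) (ac0 j x))
      (fun x => mul_le_one₀ (ac1 i x) (ac0 j x) (ac1 j x))
      (((hsp i).mul (hsp j)).of_eq fun x => by push_cast; rfl)
    have h4 : ∀ q : Ω₂ × Ω₁, (one (i ∈ η q.1) * ac M i (Z q)) *
        (one (j ∈ η q.1) * ac M j (Z q)) =
        one (({i, j} : Finset (Fin n)) ⊆ η q.1) * (ac M i (Z q) * ac M j (Z q)) := by
      intro q
      have h5 : one (i ∈ η q.1) * one (j ∈ η q.1) = one (({i, j} : Finset (Fin n)) ⊆ η q.1) := by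
        rw [ch_one_mul]
        congr 1
        rw [Finset.insert_subset_iff, Finset.singleton_subset_iff]
      rw [← h5]; ring
    simp only [h4]
    exact h3
  -- the mean of `X`
  have hX1 : avg X = ∑ i, avg (fun q : Ω₂ × Ω₁ => one (i ∈ η q.1) * ac M i (Z q)) := avg_sum _ _
  have hX2 : |avg X - μ| ≤ n * (δ * (S + 1)) := by
    rw [hX1, hμ, ← hsum, Finset.mul_sum, ← Finset.sum_sub_distrib]
    calc _ ≤ ∑ i, |(avg fun q : Ω₂ × Ω₁ => one (i ∈ η q.1) * ac M i (Z q)) - p * avg (ac M i)| :=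
          Finset.abs_sum_le_sum_abs _ _
      _ ≤ ∑ _i : Fin n, δ * (S + 1) := Finset.sum_le_sum fun i _ => h1 i
      _ = _ := by simp
  -- the second moment of `X`
  have hX3 : avg (fun q => X q * X q) = ∑ i, ∑ j, avg (fun q : Ω₂ × Ω₁ =>
      (one (i ∈ η q.1) * ac M i (Z q)) * (one (j ∈ η q.1) * ac M j (Z q))) := by
    have : (fun q => X q * X q) = fun q => ∑ i, ∑ j,
        (one (i ∈ η q.1) * ac M i (Z q)) * (one (j ∈ η q.1) * ac M j (Z q)) := by
      funext q
      exact Finset.sum_mul_sum _ _ _ _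
    rw [this, avg_sum]
    refine Finset.sum_congr rfl fun i _ => ?_
    rw [avg_sum]
  have hSS : avg (fun z => S0 M z * S0 M z) =
      ∑ i, ∑ j, avg (fun z => ac M i z * ac M j z) := by
    have : (fun z => S0 M z * S0 M z) = fun z => ∑ i, ∑ j, ac M i z * ac M j z := by
      funext z
      exact Finset.sum_mul_sum _ _ _ _
    rw [this, avg_sum]
    refine Finset.sum_congr rfl fun i _ => ?_
    rw [avg_sum]
  have hX4 : avg (fun q => X q * X q) ≤ p ^ 2 * avg (fun z => S0 M z * S0 M z) + μ +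
      n * (n * (δ * (S * S + 1))) := by
    rw [hX3, hSS, hμ, ← hsum, Finset.mul_sum, Finset.mul_sum, ← Finset.sum_add_distrib]
    have h5 : ∀ i ∈ (univ : Finset (Fin n)), ∑ j, avg (fun q : Ω₂ × Ω₁ =>
        (one (i ∈ η q.1) * ac M i (Z q)) * (one (j ∈ η q.1) * ac M j (Z q))) ≤
        (p ^ 2 * ∑ j, avg (fun z => ac M i z * ac M j z) + p * avg (ac M i)) +
          n * (δ * (S * S + 1)) := by
      intro i _
      have h6 : ∀ j ∈ (univ : Finset (Fin n)), avg (fun q : Ω₂ × Ω₁ =>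
          (one (i ∈ η q.1) * ac M i (Z q)) * (one (j ∈ η q.1) * ac M j (Z q))) ≤
          (p ^ 2 * avg (fun z => ac M i z * ac M j z) +
            if j = i then p * avg (ac M i) else 0) + δ * (S * S + 1) := by
        intro j _
        have h7 := (abs_le.1 (h2 i j)).2
        have h8 : p ^ ({i, j} : Finset (Fin n)).card * avg (fun z => ac M i z * ac M j z) ≤
            p ^ 2 * avg (fun z => ac M i z * ac M j z) +
              if j = i then p * avg (ac M i) else 0 := by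
          by_cases hij : j = i
          · subst hij
            rw [if_pos rfl]
            have h9 : (fun z => ac M j z * ac M j z) = ac M j := by funext z; exact acsq j z
            rw [h9]
            have h10 : 0 ≤ avg (ac M j) := avg_nonneg (ac0 j)
            have h11 : ({j, j} : Finset (Fin n)).card = 1 := by simp
            rw [h11, pow_one]
            have : 0 ≤ p ^ 2 * avg (ac M j) := by positivity
            linarith
          · rw [if_neg hij, add_zero, Finset.card_pair (Ne.symm hij)]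
        linarith
      refine (Finset.sum_le_sum h6).trans ?_
      rw [Finset.sum_add_distrib, Finset.sum_add_distrib, Finset.mul_sum, Finset.sum_ite_eq' univ i,
        if_pos (Finset.mem_univ i), Finset.sum_const, Finset.card_univ, Fintype.card_fin,
        nsmul_eq_mul]
    refine (Finset.sum_le_sum h5).trans ?_
    rw [Finset.sum_add_distrib, Finset.sum_const, Finset.card_univ, Fintype.card_fin, nsmul_eq_mul]
  -- the variance of `S0`
  set V : ℝ := avg (fun z => (S0 M z - m) ^ 2) with hV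
  have hV1 : avg (fun z => S0 M z * S0 M z) = V + m ^ 2 := by
    have h5 : (fun z => (S0 M z - m) ^ 2) =
        fun z => (S0 M z * S0 M z - (2 * m) * S0 M z) + m ^ 2 := by
      funext z; ring
    rw [hV, h5, avg_add, avg_sub, avg_mul_left, avg_const, ← hm]
    ring
  have hX5 : avg (fun q => (X q - μ) ^ 2) = avg (fun q => X q * X q) - 2 * μ * avg X + μ ^ 2 := by
    have h5 : (fun q => (X q - μ) ^ 2) = fun q => (X q * X q - (2 * μ) * X q) + μ ^ 2 := by
      funext q; ring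
    rw [h5, avg_add, avg_sub, avg_mul_left, avg_const]
  have hX6 : avg (fun q => (X q - μ) ^ 2) ≤ p ^ 2 * V + μ +
      (((r * 2 ^ r + 1) ^ 2 + 2 * (r * 2 ^ r + 1) + 3 : ℕ) : ℝ) * δ * ((n : ℝ) + 1) ^ 2 := by
    have h5 : -(n * (δ * (S + 1))) ≤ avg X - μ := (abs_le.1 hX2).1
    have h6 : 2 * μ * (μ - n * (δ * (S + 1))) ≤ 2 * μ * avg X :=
      mul_le_mul_of_nonneg_left (by linarith) (by positivity)
    have hn0 : (0 : ℝ) ≤ n := Nat.cast_nonneg n
    have h7 : 2 * μ * (n * (δ * (S + 1))) ≤ 2 * n * (n * (δ * (S + 1))) := by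
      have : 0 ≤ (n : ℝ) * (δ * (S + 1)) := by positivity
      nlinarith
    have h8 : (((r * 2 ^ r + 1) ^ 2 + 2 * (r * 2 ^ r + 1) + 3 : ℕ) : ℝ) = S * S + 2 * S + 3 := by
      push_cast
      rw [hSdef]
      ring
    rw [h8, hX5]
    have h9 : (S * S + 2 * S + 3) * δ * (n : ℝ) ^ 2 ≤ (S * S + 2 * S + 3) * δ * ((n : ℝ) + 1) ^ 2 := by
      refine mul_le_mul_of_nonneg_left ?_ (by positivity)
      exact pow_le_pow_left₀ hn0 (by linarith) 2
    have h10 : p ^ 2 * (V + m ^ 2) = p ^ 2 * V + μ ^ 2 := by rw [hμ]; ring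
    rw [hV1, h10] at hX4
    have h11 : (n : ℝ) * (n * (δ * (S * S + 1))) + 2 * n * (n * (δ * (S + 1))) =
      (S * S + 2 * S + 3) * δ * (n : ℝ) ^ 2 := by ring
    nlinarith
  -- Chebyshev
  rw [← avg_prod (fun a b => one (nac M (η a) (xo (Y b) (sh a)) < K)), mul_comm, ← avg_mul_left]
  refine le_trans ?_ (mul_le_mul_of_nonneg_left hX6 (by norm_num : (0 : ℝ) ≤ 4))
  rw [← avg_mul_left]
  refine avg_mono fun q => ?_
  by_cases hq : nac M (η q.1) (xo (Y q.2) (sh q.1)) < K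
  · have h5 : X q < K := by
      have : ((nac M (η q.1) (Z q) : ℕ) : ℝ) = X q := ch_nac M (η q.1) (Z q)
      rw [← this]
      exact_mod_cast hq
    have h6 : one (nac M (η q.1) (xo (Y q.2) (sh q.1)) < K) = 1 := by simp [one, hq]
    rw [h6, mul_one]
    nlinarith
  · have h6 : one (nac M (η q.1) (xo (Y q.2) (sh q.1)) < K) = 0 := by simp [one, hq]
    rw [h6, mul_zero]
    positivity

end Pool.Agent.MP_ca1109_lc.Xp
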