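import Pool.Agent.MP_ca1109_lc.Xp.SP
import Pool.Agent.MP_ca1109_lc.Xp.SM

namespace Pool.Agent.MP_ca1109_lc.Xp

open Finset Pool.Agent.H66 Pool.Agent.MP_ca1109_lc.Mpg Pool.Agent.MP_ca1109_lc.Agp
open Pool.Agent.MP_ca1109_lc.Dnf (Cube ch one)

variable {n : ℕ}

/-! ## EV2: two alive variables have the same hash value -/

open Classical in
theorem not_inj_le {B : ℕ} (M : Finset (Finset (Fin n))) (η : Finset (Fin n)) (h : Fin n → Fin B)
    (z : Cube n) :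
    one (Lin M η z ∧ ¬ Inj M η h z) ≤ ∑ m ∈ M, ∑ m' ∈ M.erase m, ∑ i ∈ m \ m', ∑ j ∈ m' \ m,
      one (i ∈ η ∧ j ∈ η ∧ h i = h j) * mon (m.erase i ∪ m'.erase j) z := by
  have h0 : ∀ (m m' : Finset (Fin n)) (i j : Fin n),
      0 ≤ one (i ∈ η ∧ j ∈ η ∧ h i = h j) * mon (m.erase i ∪ m'.erase j) z :=
    fun m m' i j => mul_nonneg (Dnf.one_nonneg _) (Dnf.one_nonneg _)
  have h1 : ∀ (m m' : Finset (Fin n)) (i : Fin n), 0 ≤ ∑ j ∈ m' \ m,
      one (i ∈ η ∧ j ∈ η ∧ h i = h j) * mon (m.erase i ∪ m'.erase j) z :=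
    fun m m' i => sum_nonneg fun j _ => h0 m m' i j
  have h2 : ∀ (m m' : Finset (Fin n)), 0 ≤ ∑ i ∈ m \ m', ∑ j ∈ m' \ m,
      one (i ∈ η ∧ j ∈ η ∧ h i = h j) * mon (m.erase i ∪ m'.erase j) z :=
    fun m m' => sum_nonneg fun i _ => h1 m m' i
  have h3 : ∀ m ∈ M, 0 ≤ ∑ m' ∈ M.erase m, ∑ i ∈ m \ m', ∑ j ∈ m' \ m,
      one (i ∈ η ∧ j ∈ η ∧ h i = h j) * mon (m.erase i ∪ m'.erase j) z :=
    fun m _ => sum_nonneg fun m' _ => h2 m m'
  by_cases hc : Lin M η z ∧ ¬ Inj M η h z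
  · rw [Dnf.one_true hc]
    obtain ⟨hL, hI⟩ := hc
    unfold Inj at hI
    push Not at hI
    obtain ⟨i, hi, j, hj, ⟨m, hm, him, hT⟩, ⟨m', hm', hjm', hT'⟩, hij, hne⟩ := hI
    have hjm : j ∉ m := by
      intro hjm
      refine hL m hm {i, j} ?_ ?_ ?_ ?_
      · intro x hx
        rcases mem_insert.1 hx with rfl | hx
        · exact him
        · rw [mem_singleton.1 hx]
          exact hjm
      · rw [card_pair hne]
      · intro x hx
        rcases mem_insert.1 hx with rfl | hx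
        · exact hi
        · rw [mem_singleton.1 hx]
          exact hj
      · intro x hx
        obtain ⟨hx1, hx2⟩ := mem_sdiff.1 hx
        exact hT x (mem_erase.2 ⟨fun he => hx2 (by rw [he]; exact mem_insert_self _ _), hx1⟩)
    have him' : i ∉ m' := by
      intro him'
      refine hL m' hm' {i, j} ?_ ?_ ?_ ?_
      · intro x hx
        rcases mem_insert.1 hx with rfl | hx
        · exact him'
        · rw [mem_singleton.1 hx]
          exact hjm'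
      · rw [card_pair hne]
      · intro x hx
        rcases mem_insert.1 hx with rfl | hx
        · exact hi
        · rw [mem_singleton.1 hx]
          exact hj
      · intro x hx
        obtain ⟨hx1, hx2⟩ := mem_sdiff.1 hx
        exact hT' x (mem_erase.2 ⟨fun he => hx2 (by
          rw [he]; exact mem_insert_of_mem (mem_singleton_self _)), hx1⟩)
    have hmm : m' ∈ M.erase m := mem_erase.2 ⟨fun he => him' (by rw [he]; exact him), hm'⟩
    have e1 : (1 : ℝ) = one (i ∈ η ∧ j ∈ η ∧ h i = h j) * mon (m.erase i ∪ m'.erase j) z := by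
      have hT2 : Tr (m.erase i ∪ m'.erase j) z := by
        intro x hx
        rcases mem_union.1 hx with hx | hx
        · exact hT x hx
        · exact hT' x hx
      unfold mon
      rw [Dnf.one_true ⟨hi, hj, hij⟩, Dnf.one_true hT2, one_mul]
    calc (1 : ℝ) = _ := e1
      _ ≤ ∑ j ∈ m' \ m, one (i ∈ η ∧ j ∈ η ∧ h i = h j) * mon (m.erase i ∪ m'.erase j) z :=
          single_le_sum (f := fun j => one (i ∈ η ∧ j ∈ η ∧ h i = h j) *
            mon (m.erase i ∪ m'.erase j) z) (fun j _ => h0 m m' i j) (mem_sdiff.2 ⟨hjm', hjm⟩)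
      _ ≤ ∑ i ∈ m \ m', ∑ j ∈ m' \ m, one (i ∈ η ∧ j ∈ η ∧ h i = h j) *
            mon (m.erase i ∪ m'.erase j) z :=
          single_le_sum (f := fun i => ∑ j ∈ m' \ m, one (i ∈ η ∧ j ∈ η ∧ h i = h j) *
            mon (m.erase i ∪ m'.erase j) z) (fun i _ => h1 m m' i) (mem_sdiff.2 ⟨him, him'⟩)
      _ ≤ ∑ m' ∈ M.erase m, ∑ i ∈ m \ m', ∑ j ∈ m' \ m, one (i ∈ η ∧ j ∈ η ∧ h i = h j) *
            mon (m.erase i ∪ m'.erase j) z :=
          single_le_sum (f := fun m' => ∑ i ∈ m \ m', ∑ j ∈ m' \ m,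
            one (i ∈ η ∧ j ∈ η ∧ h i = h j) * mon (m.erase i ∪ m'.erase j) z)
            (fun m' _ => h2 m m') hmm
      _ ≤ _ := single_le_sum (f := fun m => ∑ m' ∈ M.erase m, ∑ i ∈ m \ m', ∑ j ∈ m' \ m,
            one (i ∈ η ∧ j ∈ η ∧ h i = h j) * mon (m.erase i ∪ m'.erase j) z) h3 hm
  · rw [Dnf.one_false hc]
    exact sum_nonneg h3

theorem card_two {m m' : Finset (Fin n)} {i j : Fin n} (hi : i ∈ m \ m') (hj : j ∈ m' \ m) :
    (1 / 2 : ℝ) ^ (m.erase i ∪ m'.erase j).card = 4 * (1 / 2) ^ (m ∪ m').card := by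
  obtain ⟨hi1, hi2⟩ := mem_sdiff.1 hi
  obtain ⟨hj1, hj2⟩ := mem_sdiff.1 hj
  have hne : i ≠ j := fun h => hj2 (h ▸ hi1)
  have h1 : m.erase i ∪ m'.erase j = ((m ∪ m').erase i).erase j := by
    ext x
    simp only [mem_union, mem_erase]
    constructor
    · rintro (⟨h1, h2⟩ | ⟨h1, h2⟩)
      · exact ⟨fun h => hj2 (h ▸ h2), h1, Or.inl h2⟩
      · exact ⟨h1, fun h => hi2 (h ▸ h2), Or.inr h2⟩
    · rintro ⟨h1, h2, h3 | h3⟩
      · exact Or.inl ⟨h2, h3⟩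
      · exact Or.inr ⟨h1, h3⟩
  have h2 : (m ∪ m').card = (m.erase i ∪ m'.erase j).card + 2 := by
    have hiu : i ∈ m ∪ m' := mem_union_left _ hi1
    have hju : j ∈ (m ∪ m').erase i := mem_erase.2 ⟨hne.symm, mem_union_right _ hj1⟩
    rw [h1]
    have e1 := card_erase_add_one hiu
    have e2 := card_erase_add_one hju
    omega
  rw [h2, pow_add]
  ring

section pseudo

variable {Ω₁ Ω₂ : Type} [Fintype Ω₁] [Nonempty Ω₁] [Fintype Ω₂] [Nonempty Ω₂] {B : ℕ}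

theorem ev_inj {r W : ℕ} {M : Finset (Finset (Fin n))} (hM : Fam r W M) {p δ : ℝ} (hp : 0 ≤ p)
    (hp1 : p ≤ 1) (hδ : 0 ≤ δ) (hδ1 : δ ≤ 1) (hB : 1 ≤ B) (Y : Ω₁ → Cube n)
    (η : Ω₂ → Finset (Fin n)) (h : Ω₂ → Fin n → Fin B) (sh : Ω₂ → Cube n) (hY : Bias δ Y)
    (hS : Src p δ η h) :
    (avg fun ω₂ => avg fun ω₁ => one (Lin M (η ω₂) (xo (Y ω₁) (sh ω₂)) ∧
        ¬ Inj M (η ω₂) (h ω₂) (xo (Y ω₁) (sh ω₂)))) ≤
      4 * p ^ 2 / B * (A1 M ^ 2 + r * A2 M) + 3 * δ * (M.card : ℝ) ^ 2 * (W : ℝ) ^ 2 := by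
  classical
  have hB' : (1 : ℝ) ≤ B := by exact_mod_cast hB
  have hq0 : 0 ≤ p ^ 2 / (B : ℝ) := by positivity
  have hq1 : p ^ 2 / (B : ℝ) ≤ 1 := by
    rw [div_le_one (by linarith)]
    exact (pow_le_one₀ hp hp1).trans hB'
  have key : ∀ m ∈ M, ∀ m' ∈ M.erase m, ∀ i ∈ m \ m', ∀ j ∈ m' \ m,
      (avg fun ω₂ => avg fun ω₁ => one (i ∈ η ω₂ ∧ j ∈ η ω₂ ∧ h ω₂ i = h ω₂ j) *
        mon (m.erase i ∪ m'.erase j) (xo (Y ω₁) (sh ω₂))) ≤
        4 * p ^ 2 / B * (1 / 2) ^ (m ∪ m').card + 3 * δ := by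
    intro m _ m' _ i hi j hj
    have hne : i ≠ j := fun he => (mem_sdiff.1 hj).2 (he ▸ (mem_sdiff.1 hi).1)
    have hh : (0 : ℝ) ≤ (1 / 2) ^ (m.erase i ∪ m'.erase j).card := by positivity
    have hh1 : (1 / 2 : ℝ) ^ (m.erase i ∪ m'.erase j).card ≤ 1 :=
      pow_le_one₀ (by norm_num) (by norm_num)
    have h1 : ∀ ω₂, (avg fun ω₁ => one (i ∈ η ω₂ ∧ j ∈ η ω₂ ∧ h ω₂ i = h ω₂ j) *
        mon (m.erase i ∪ m'.erase j) (xo (Y ω₁) (sh ω₂))) ≤
        ((1 / 2) ^ (m.erase i ∪ m'.erase j).card + δ) *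
          one (i ∈ η ω₂ ∧ j ∈ η ω₂ ∧ h ω₂ i = h ω₂ j) := by
      intro ω₂
      rw [avg_mul_left, mul_comm]
      refine mul_le_mul_of_nonneg_right ?_ (Dnf.one_nonneg _)
      have h2 := avg_mon_bias hδ (hY.xo (sh ω₂)) (m.erase i ∪ m'.erase j)
      have h3 := (abs_le.mp h2).2
      linarith
    have h4 := hS.col i j hne
    calc (avg fun ω₂ => avg fun ω₁ => one (i ∈ η ω₂ ∧ j ∈ η ω₂ ∧ h ω₂ i = h ω₂ j) *
        mon (m.erase i ∪ m'.erase j) (xo (Y ω₁) (sh ω₂)))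
        ≤ avg fun ω₂ => ((1 / 2) ^ (m.erase i ∪ m'.erase j).card + δ) *
          one (i ∈ η ω₂ ∧ j ∈ η ω₂ ∧ h ω₂ i = h ω₂ j) := avg_mono h1
      _ = ((1 / 2) ^ (m.erase i ∪ m'.erase j).card + δ) *
          avg fun ω₂ => one (i ∈ η ω₂ ∧ j ∈ η ω₂ ∧ h ω₂ i = h ω₂ j) := avg_mul_left _ _
      _ ≤ ((1 / 2) ^ (m.erase i ∪ m'.erase j).card + δ) * (p ^ 2 / B + δ) :=
          mul_le_mul_of_nonneg_left h4 (by linarith)
      _ ≤ (1 / 2) ^ (m.erase i ∪ m'.erase j).card * (p ^ 2 / B) + 3 * δ := by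
          nlinarith [mul_le_mul_of_nonneg_left hδ1 hδ, mul_le_mul_of_nonneg_left hh1 hδ,
            mul_le_mul_of_nonneg_left hq1 hδ]
      _ = _ := by
          rw [card_two hi hj]
          ring
  have hW : ∀ m ∈ M, ∀ S : Finset (Fin n), ((m \ S).card : ℝ) ≤ W := by
    intro m hm S
    exact_mod_cast (card_le_card sdiff_subset).trans (hM.wd m hm)
  calc (avg fun ω₂ => avg fun ω₁ => one (Lin M (η ω₂) (xo (Y ω₁) (sh ω₂)) ∧
        ¬ Inj M (η ω₂) (h ω₂) (xo (Y ω₁) (sh ω₂))))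
      ≤ avg fun ω₂ => avg fun ω₁ => ∑ m ∈ M, ∑ m' ∈ M.erase m, ∑ i ∈ m \ m', ∑ j ∈ m' \ m,
          one (i ∈ η ω₂ ∧ j ∈ η ω₂ ∧ h ω₂ i = h ω₂ j) *
            mon (m.erase i ∪ m'.erase j) (xo (Y ω₁) (sh ω₂)) :=
        avg_mono fun ω₂ => avg_mono fun ω₁ => not_inj_le M (η ω₂) (h ω₂) _
    _ = ∑ m ∈ M, ∑ m' ∈ M.erase m, ∑ i ∈ m \ m', ∑ j ∈ m' \ m,
          avg fun ω₂ => avg fun ω₁ => one (i ∈ η ω₂ ∧ j ∈ η ω₂ ∧ h ω₂ i = h ω₂ j) *
            mon (m.erase i ∪ m'.erase j) (xo (Y ω₁) (sh ω₂)) := by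
        simp_rw [avg_sum]
    _ ≤ ∑ m ∈ M, ∑ m' ∈ M.erase m, ∑ i ∈ m \ m', ∑ j ∈ m' \ m,
          (4 * p ^ 2 / B * (1 / 2) ^ (m ∪ m').card + 3 * δ) :=
        sum_le_sum fun m hm => sum_le_sum fun m' hm' => sum_le_sum fun i hi =>
          sum_le_sum fun j hj => key m hm m' hm' i hi j hj
    _ = 4 * p ^ 2 / B * (∑ m ∈ M, ∑ m' ∈ M.erase m,
          ((m \ m').card : ℝ) * (m' \ m).card * (1 / 2) ^ (m ∪ m').card) +
        ∑ m ∈ M, ∑ m' ∈ M.erase m, ((m \ m').card : ℝ) * (m' \ m).card * (3 * δ) := by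
        rw [mul_sum, ← sum_add_distrib]
        refine sum_congr rfl fun m _ => ?_
        rw [mul_sum, ← sum_add_distrib]
        refine sum_congr rfl fun m' _ => ?_
        simp only [sum_const, nsmul_eq_mul]
        ring
    _ ≤ 4 * p ^ 2 / B * (A1 M ^ 2 + r * A2 M) + ∑ m ∈ M, ∑ m' ∈ M, (W : ℝ) * W * (3 * δ) := by
        refine add_le_add (mul_le_mul_of_nonneg_left (sum_Q hM.rd) (by positivity)) ?_
        refine sum_le_sum fun m hm => ?_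
        refine (sum_le_sum (g := fun _ => (W : ℝ) * W * (3 * δ)) fun m' hm' => ?_).trans
          (sum_le_sum_of_subset_of_nonneg (erase_subset _ _) fun _ _ _ => by positivity)
        refine mul_le_mul_of_nonneg_right ?_ (by linarith)
        exact mul_le_mul (hW m hm _) (hW m' (mem_of_mem_erase hm') _) (by positivity)
          (by positivity)
    _ = _ := by
        simp only [sum_const, nsmul_eq_mul]
        ring

end pseudo

end Pool.Agent.MP_ca1109_lc.Xp
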