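import Pool.Agent.MP_ca1109_lc.Xp.EV1
import Pool.Agent.MP_ca1109_lc.Xp.EV2

/-!
# The two forms of the mean over the second string

This module only collects its two imports.
-/
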