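import Pool.Agent.MP_ca1109_lc.Xp.ES
import Pool.Agent.MP_ca1109_lc.Xp.EB
import Pool.Agent.MP_ca1109_lc.Xp.SP

namespace Pool.Agent.MP_ca1109_lc.Xp

open Finset Pool.Agent.H66 Pool.Agent.MP_ca1109_lc.Mpg Pool.Agent.MP_ca1109_lc.Agp
open Pool.Agent.MP_ca1109_lc.Dnf (Cube ch one E Term E_term E_sum E_mono E_add E_smul E_nonneg E_sub E_const one_nonneg one_le one_true one_false one_mono)

variable {n : ℕ}

/-! ## The variance -/

/-- At most one bit in `m.erase j` is false. -/
def Ne1 (j : Fin n) (m : Finset (Fin n)) (z : Cube n) : Prop :=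
  ((m.erase j).filter fun i => z i = false).card ≤ 1

theorem Tr_fl {S : Finset (Fin n)} {j : Fin n} (hj : j ∉ S) (z : Cube n) :
    Tr S (fl j z) ↔ Tr S z := by
  unfold Tr fl
  refine forall₂_congr fun i hi => ?_
  rw [Function.update_of_ne]
  rintro rfl
  exact hj hi

open Classical in
/-- The variable `i` can change its status through the monomial `m`, if `j` is flipped. -/
noncomputable def kap (j i : Fin n) (m : Finset (Fin n)) (z : Cube n) : ℝ :=
  one ((i = j ∧ Tr (m.erase j) z) ∨ (i ≠ j ∧ i ∈ m ∧ z i = false ∧ Tr ((m.erase j).erase i) z))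

theorem sum_kap (j : Fin n) (m : Finset (Fin n)) (z : Cube n) :
    ∑ i, kap j i m z ≤ one (Ne1 j m z) := by
  classical
  set Z := (m.erase j).filter fun i => z i = false with hZ
  by_cases h0 : Z = ∅
  · have hT : Tr (m.erase j) z := by
      intro i hi
      by_contra hcon
      have : i ∈ Z := Finset.mem_filter.2 ⟨hi, by simpa using hcon⟩
      rw [h0] at this
      simp at this
    have h1 : one (Ne1 j m z) = 1 := one_true (by unfold Ne1; rw [← hZ, h0]; simp)
    rw [h1, Finset.sum_eq_single j]
    · exact one_le _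
    · intro i _ hij
      refine one_false ?_
      rintro (⟨h, -⟩ | ⟨-, him, hz, -⟩)
      · exact hij h
      · rw [hT i (Finset.mem_erase.2 ⟨hij, him⟩)] at hz
        simp at hz
    · simp
  · by_cases h1 : Z.card ≤ 1
    · have hc : Z.card = 1 := le_antisymm h1 (Finset.card_pos.2 (Finset.nonempty_iff_ne_empty.2 h0))
      obtain ⟨a, ha⟩ := Finset.card_eq_one.1 hc
      have haZ : a ∈ Z := by rw [ha]; simp
      obtain ⟨ham, haf⟩ := Finset.mem_filter.1 haZ
      rw [one_true (show Ne1 j m z from h1), Finset.sum_eq_single a]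
      · exact one_le _
      · intro i _ hia
        refine one_false ?_
        rintro (⟨h, hT⟩ | ⟨hij, him, hz, hT⟩)
        · rw [hT a ham] at haf
          simp at haf
        · have : i ∈ Z := Finset.mem_filter.2 ⟨Finset.mem_erase.2 ⟨hij, him⟩, hz⟩
          rw [ha] at this
          exact hia (Finset.mem_singleton.1 this)
      · simp
    · rw [one_false (show ¬ Ne1 j m z from h1)]
      refine le_of_eq (Finset.sum_eq_zero fun i _ => one_false ?_)
      rintro (⟨h, hT⟩ | ⟨hij, him, hz, hT⟩)
      · obtain ⟨a, ha⟩ := Finset.nonempty_iff_ne_empty.2 h0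
        obtain ⟨ham, haf⟩ := Finset.mem_filter.1 ha
        rw [hT a ham] at haf
        simp at haf
      · apply h1
        refine Finset.card_le_one.2 fun a ha b hb => ?_
        have hmem : ∀ c ∈ Z, c = i := by
          intro c hc
          obtain ⟨hcm, hcf⟩ := Finset.mem_filter.1 hc
          by_contra hci
          rw [hT c (Finset.mem_erase.2 ⟨hci, hcm⟩)] at hcf
          simp at hcf
        rw [hmem a ha, hmem b hb]

theorem ac_congr (M : Finset (Finset (Fin n))) (j i : Fin n) (z : Cube n)
    (h : ∀ m ∈ M, j ∈ m → kap j i m z = 0) : Ac M i z ↔ Ac M i (fl j z) := by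
  classical
  have hk : ∀ m ∈ M, j ∈ m → ¬ ((i = j ∧ Tr (m.erase j) z) ∨
      (i ≠ j ∧ i ∈ m ∧ z i = false ∧ Tr ((m.erase j).erase i) z)) := by
    intro m hm hj hcon
    have := h m hm hj
    unfold kap at this
    rw [one_true hcon] at this
    exact one_ne_zero this
  by_cases hij : i = j
  · subst hij
    constructor
    · rintro ⟨-, m, ⟨hm, him, ht⟩, -⟩
      exact absurd (Or.inl ⟨rfl, ht⟩) (hk m hm him)
    · rintro ⟨-, m, ⟨hm, him, ht⟩, -⟩
      rw [Tr_fl (Finset.notMem_erase i m)] at ht
      exact absurd (Or.inl ⟨rfl, ht⟩) (hk m hm him)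
  · have hzi : fl j z i = z i := by
      unfold fl
      rw [Function.update_of_ne hij]
    unfold Ac
    rw [hzi]
    refine and_congr_right fun hz => ?_
    have key : ∀ m, (m ∈ M ∧ i ∈ m ∧ Tr (m.erase i) z) ↔ (m ∈ M ∧ i ∈ m ∧ Tr (m.erase i) (fl j z)) := by
      intro m
      refine and_congr_right fun hm => and_congr_right fun him => ?_
      by_cases hj : j ∈ m
      · have hno := hk m hm hj
        have hno' : ¬ Tr ((m.erase j).erase i) z := fun hT => hno (Or.inr ⟨hij, him, hz, hT⟩)
        have hsub : (m.erase j).erase i ⊆ m.erase i := by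
          intro v hv
          simp only [Finset.mem_erase] at hv ⊢
          tauto
        constructor
        · intro hT
          exact absurd (fun v hv => hT v (hsub hv)) hno'
        · intro hT
          have hT2 : Tr ((m.erase j).erase i) (fl j z) := fun v hv => hT v (hsub hv)
          rw [Tr_fl (by simp)] at hT2
          exact absurd hT2 hno'
      · rw [Tr_fl (fun h => hj (Finset.mem_of_mem_erase h))]
    exact existsUnique_congr key

theorem abs_ac_sub (M : Finset (Finset (Fin n))) (j i : Fin n) (z : Cube n) :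
    |ac M i z - ac M i (fl j z)| ≤ ∑ m ∈ M.filter (fun m => j ∈ m), kap j i m z := by
  classical
  by_cases h : ∀ m ∈ M, j ∈ m → kap j i m z = 0
  · have : ac M i z = ac M i (fl j z) := by
      unfold ac
      congr 1
      exact propext (ac_congr M j i z h)
    rw [this, sub_self, abs_zero]
    exact Finset.sum_nonneg fun m _ => one_nonneg _
  · push Not at h
    obtain ⟨m, hm, hj, hk⟩ := h
    have h1 : kap j i m z = 1 := by
      unfold kap at hk ⊢
      by_cases hc : (i = j ∧ Tr (m.erase j) z) ∨
          (i ≠ j ∧ i ∈ m ∧ z i = false ∧ Tr ((m.erase j).erase i) z)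
      · exact one_true hc
      · exact absurd (one_false hc) hk
    have h2 : (1 : ℝ) ≤ ∑ m ∈ M.filter (fun m => j ∈ m), kap j i m z := by
      rw [← h1]
      exact Finset.single_le_sum (f := fun m => kap j i m z) (fun m _ => one_nonneg _)
        (Finset.mem_filter.2 ⟨hm, hj⟩)
    refine le_trans ?_ h2
    have a1 := one_nonneg (Ac M i z)
    have a2 := one_le (Ac M i z)
    have b1 := one_nonneg (Ac M i (fl j z))
    have b2 := one_le (Ac M i (fl j z))
    unfold ac
    rw [abs_le]
    constructor <;> linarith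

theorem abs_S0_sub (M : Finset (Finset (Fin n))) (j : Fin n) (z : Cube n) :
    |S0 M z - S0 M (fl j z)| ≤ ∑ m ∈ M.filter (fun m => j ∈ m), one (Ne1 j m z) := by
  classical
  unfold S0
  rw [← Finset.sum_sub_distrib]
  refine (Finset.abs_sum_le_sum_abs _ _).trans ?_
  refine (Finset.sum_le_sum fun i _ => abs_ac_sub M j i z).trans ?_
  rw [Finset.sum_comm]
  exact Finset.sum_le_sum fun m _ => sum_kap j m z

theorem E_Ne1 {m : Finset (Fin n)} {j : Fin n} (hj : j ∈ m) :
    E (fun z => one (Ne1 j m z)) ≤ 2 * ((m.card : ℝ) * (1 / 2) ^ m.card) := by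
  classical
  have hcyl0 : E (fun z : Cube n => one (Tr (m.erase j) z)) = (1 / 2) ^ (m.erase j).card := by
    have h1 := E_cyl (m.erase j) ∅ (by simp)
    rw [Finset.card_empty, add_zero] at h1
    rw [← h1]
    congr 1
    funext z
    congr 1
    unfold Tr
    simp
  have hcyl1 : ∀ i ∈ m.erase j, E (fun z : Cube n => one (z i = false ∧ Tr ((m.erase j).erase i) z)) =
      (1 / 2) ^ (m.erase j).card := fun i hi => E_pivot hi
  have hle : ∀ z : Cube n, one (Ne1 j m z) ≤ one (Tr (m.erase j) z) +
      ∑ i ∈ m.erase j, one (z i = false ∧ Tr ((m.erase j).erase i) z) := by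
    intro z
    have hs : 0 ≤ ∑ i ∈ m.erase j, one (z i = false ∧ Tr ((m.erase j).erase i) z) :=
      Finset.sum_nonneg fun i _ => one_nonneg _
    by_cases hN : Ne1 j m z
    · rw [one_true hN]
      by_cases hT : Tr (m.erase j) z
      · rw [one_true hT]
        linarith
      · rw [one_false hT, zero_add]
        have hT' : ∃ a ∈ m.erase j, z a = false := by
          unfold Tr at hT
          push Not at hT
          obtain ⟨a, ha, hz⟩ := hT
          exact ⟨a, ha, by simpa using hz⟩
        obtain ⟨a, ha, hz⟩ := hT'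
        have h1 : z a = false ∧ Tr ((m.erase j).erase a) z := by
          refine ⟨hz, fun b hb => ?_⟩
          by_contra hzb
          have hzb' : z b = false := by simpa using hzb
          have := (Finset.card_le_one.1 hN) a (Finset.mem_filter.2 ⟨ha, hz⟩) b
            (Finset.mem_filter.2 ⟨Finset.mem_of_mem_erase hb, hzb'⟩)
          exact (Finset.ne_of_mem_erase hb) this.symm
        have := Finset.single_le_sum (f := fun i => one (z i = false ∧ Tr ((m.erase j).erase i) z))
          (fun i _ => one_nonneg _) ha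
        simp only [one_true h1] at this
        exact this
    · rw [one_false hN]
      have := one_nonneg (Tr (m.erase j) z)
      linarith
  refine (E_mono hle).trans ?_
  rw [E_add, E_sum, Finset.sum_congr rfl hcyl1, hcyl0, Finset.sum_const, nsmul_eq_mul,
    Finset.card_erase_of_mem hj]
  have h1 : 1 ≤ m.card := Finset.card_pos.2 ⟨j, hj⟩
  obtain ⟨w, hw⟩ : ∃ w, m.card = w + 1 := ⟨m.card - 1, by omega⟩
  rw [hw, Nat.add_sub_cancel, pow_succ]
  push_cast
  exact le_of_eq (by ring)

/-- The variance of the number of active variables. -/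
theorem vr_sum {M : Finset (Finset (Fin n))} {r : ℕ} (hr : Rd r M) :
    ∑ j : Fin n, E (fun z => (S0 M z - S0 M (fl j z)) ^ 2) ≤ 2 * r * A2 M := by
  classical
  have hj : ∀ j : Fin n, E (fun z => (S0 M z - S0 M (fl j z)) ^ 2) ≤
      ∑ m ∈ M.filter (fun m => j ∈ m), r * (2 * ((m.card : ℝ) * (1 / 2) ^ m.card)) := by
    intro j
    have h1 : ∀ z, (S0 M z - S0 M (fl j z)) ^ 2 ≤
        ∑ m ∈ M.filter (fun m => j ∈ m), r * one (Ne1 j m z) := by
      intro z
      have h2 := abs_S0_sub M j z
      have h3 : (S0 M z - S0 M (fl j z)) ^ 2 ≤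
          (∑ m ∈ M.filter (fun m => j ∈ m), one (Ne1 j m z)) ^ 2 := by
        rw [← sq_abs]
        exact pow_le_pow_left₀ (abs_nonneg _) h2 2
      refine h3.trans ((sq_sum_le_card_mul_sum_sq).trans ?_)
      rw [← Finset.mul_sum]
      have h4 : ∀ m, one (Ne1 j m z) ^ 2 = one (Ne1 j m z) := by
        intro m
        by_cases h : Ne1 j m z
        · rw [one_true h]; norm_num
        · rw [one_false h]; norm_num
      simp only [h4]
      refine mul_le_mul_of_nonneg_right ?_ (Finset.sum_nonneg fun m _ => one_nonneg _)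
      exact_mod_cast hr j
    refine (E_mono h1).trans ?_
    rw [E_sum]
    refine Finset.sum_le_sum fun m hm => ?_
    rw [E_smul]
    exact mul_le_mul_of_nonneg_left (E_Ne1 (Finset.mem_filter.1 hm).2) (Nat.cast_nonneg _)
  refine (Finset.sum_le_sum fun j _ => hj j).trans (le_of_eq ?_)
  rw [sum_swap M fun m => (r : ℝ) * (2 * ((m.card : ℝ) * (1 / 2) ^ m.card))]
  unfold A2
  rw [Finset.mul_sum]
  refine Finset.sum_congr rfl fun m _ => ?_
  ring


theorem vr_A2 (M : Finset (Finset (Fin n))) : 0 ≤ A2 M :=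
  Finset.sum_nonneg fun m _ => by positivity

theorem S0_flip {r W : ℕ} {M : Finset (Finset (Fin n))} (hM : Fam r W M) :
    ∑ j, (avg fun z => (S0 M z - S0 M (fl j z)) ^ 2) ≤ 2 * (r + 1) ^ 2 * A2 M := by
  simp only [es_avg]
  refine (vr_sum hM.rd).trans ?_
  have := vr_A2 M
  have h2 : (2 : ℝ) * r ≤ 2 * (r + 1) ^ 2 := by
    have : (0 : ℝ) ≤ r := Nat.cast_nonneg r
    nlinarith
  exact mul_le_mul_of_nonneg_right h2 this

theorem S0_var {r W : ℕ} {M : Finset (Finset (Fin n))} (hM : Fam r W M) :
    avg (fun z => (S0 M z - avg (S0 M)) ^ 2) ≤ (r + 1) ^ 2 * A2 M := by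
  have h1 := efron_stein (S0 M)
  have h2 := S0_flip hM
  have h3 := vr_A2 M
  have h4 : (0 : ℝ) ≤ (r + 1) ^ 2 * A2 M := by positivity
  linarith

end Pool.Agent.MP_ca1109_lc.Xp
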