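import Pool.Agent.MP_ca1109_lc.Xp.PW
import Pool.Agent.MP_ca1109_lc.Xp.CH
import Pool.Agent.MP_ca1109_lc.Xp.EV
import Pool.Agent.MP_ca1109_lc.Xp.VR

namespace Pool.Agent.MP_ca1109_lc.Xp

open Finset Pool.Agent.H66 Pool.Agent.MP_ca1109_lc.Mpg Pool.Agent.MP_ca1109_lc.Agp
open Pool.Agent.MP_ca1109_lc.Dnf (Cube ch one)

variable {n : ℕ}

/-! ## CO: case II (assembly of PW, CH, EV, AC, VR, SM) -/

private theorem co_norm_av {A : Type*} [Fintype A] (F : A → ℂ) :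
    ‖av F‖ ≤ avg (fun a => ‖F a‖) := by
  rw [av, avg, norm_div, Complex.norm_natCast]
  exact div_le_div_of_nonneg_right (norm_sum_le _ _) (Nat.cast_nonneg _)

private theorem co_pr_norm (M : Finset (Finset (Fin n))) (ζ : Finset (Fin n) → ℂ)
    (hζ : ∀ m ∈ M, ‖ζ m‖ = 1) (x : Cube n) : ‖pr ζ M x‖ = 1 := by
  classical
  unfold pr
  rw [norm_prod]
  refine prod_eq_one fun m hm => ?_
  split_ifs
  · exact hζ m hm
  · exact norm_one

private theorem co_point {B : ℕ} (M : Finset (Finset (Fin n))) (η : Finset (Fin n))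
    (h : Fin n → Fin B) (z : Cube n) (ζ : Finset (Fin n) → ℂ) {ρ : ℝ}
    (hζ : ∀ m ∈ M, ‖ζ m‖ = 1) (hρ0 : 0 ≤ ρ) (hρ1 : ρ ≤ 1) (hρ : ∀ m ∈ M, ‖(1 + ζ m) / 2‖ ≤ ρ)
    (K : ℕ) :
    ‖av fun u : Fin B → Bool => pr ζ M (mv z η h u)‖ ≤
      ρ ^ K + one (¬ Lin M η z) + one (Lin M η z ∧ ¬ Inj M η h z) + one (nac M η z < K) := by
  have hK : 0 ≤ ρ ^ K := pow_nonneg hρ0 K
  have h1 := Dnf.one_nonneg (¬ Lin M η z)
  have h2 := Dnf.one_nonneg (Lin M η z ∧ ¬ Inj M η h z)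
  have h3 := Dnf.one_nonneg (nac M η z < K)
  have hb : ‖av fun u : Fin B → Bool => pr ζ M (mv z η h u)‖ ≤ 1 := by
    refine (co_norm_av _).trans ?_
    simp_rw [co_pr_norm M ζ hζ]
    rw [avg_const]
  by_cases hL : Lin M η z
  · by_cases hI : Inj M η h z
    · by_cases hn : nac M η z < K
      · have := Dnf.one_true hn
        linarith
      · have h4 := pointwise M η h z ζ hζ hρ0 hρ1 hρ hL hI
        have h5 : ρ ^ nac M η z ≤ ρ ^ K := pow_le_pow_of_le_one hρ0 hρ1 (not_lt.mp hn)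
        linarith
    · have := Dnf.one_true (show Lin M η z ∧ ¬ Inj M η h z from ⟨hL, hI⟩)
      linarith
  · have := Dnf.one_true (show ¬ Lin M η z from hL)
    linarith

private theorem co_union {B : ℕ} {Ω₁ Ω₂ : Type} [Fintype Ω₁] [Nonempty Ω₁] [Fintype Ω₂]
    [Nonempty Ω₂] (M : Finset (Finset (Fin n))) (Y : Ω₁ → Cube n) (η : Ω₂ → Finset (Fin n))
    (h : Ω₂ → Fin n → Fin B) (sh : Ω₂ → Cube n) (ζ : Finset (Fin n) → ℂ) {ρ : ℝ}
    (hζ : ∀ m ∈ M, ‖ζ m‖ = 1) (hρ0 : 0 ≤ ρ) (hρ1 : ρ ≤ 1) (hρ : ∀ m ∈ M, ‖(1 + ζ m) / 2‖ ≤ ρ)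
    (K : ℕ) :
    ‖av fun ω₂ => av fun ω₁ => av fun u : Fin B → Bool =>
      pr ζ M (mv (xo (Y ω₁) (sh ω₂)) (η ω₂) (h ω₂) u)‖ ≤
      ρ ^ K + (avg fun ω₂ => avg fun ω₁ => one (¬ Lin M (η ω₂) (xo (Y ω₁) (sh ω₂)))) +
      (avg fun ω₂ => avg fun ω₁ => one (Lin M (η ω₂) (xo (Y ω₁) (sh ω₂)) ∧
        ¬ Inj M (η ω₂) (h ω₂) (xo (Y ω₁) (sh ω₂)))) +
      (avg fun ω₂ => avg fun ω₁ => one (nac M (η ω₂) (xo (Y ω₁) (sh ω₂)) < K)) := by
  have hc : ρ ^ K = avg fun _ : Ω₂ => avg fun _ : Ω₁ => ρ ^ K := by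
    rw [avg_const, avg_const]
  rw [hc, ← avg_add, ← avg_add, ← avg_add]
  refine (co_norm_av _).trans (avg_mono fun ω₂ => ?_)
  rw [← avg_add, ← avg_add, ← avg_add]
  refine (co_norm_av _).trans (avg_mono fun ω₁ => ?_)
  exact co_point M (η ω₂) (h ω₂) _ ζ hζ hρ0 hρ1 hρ K

theorem core (r : ℕ) {ρ ε : ℝ} (hρ0 : 0 ≤ ρ) (hρ1 : ρ < 1) (hε : 0 < ε) :
    ∃ t s C : ℕ, 1 ≤ t ∧ ∀ (n W : ℕ) (M : Finset (Finset (Fin n))) (ζ : Finset (Fin n) → ℂ),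
      Fam r W M → 1 ≤ W → (∀ m ∈ M, ‖ζ m‖ = 1) → (∀ m ∈ M, ‖(1 + ζ m) / 2‖ ≤ ρ) →
      ∀ p δ : ℝ, 0 < p → p ≤ 1 → t ≤ p * A1 M → p * A1 M ≤ 2 * t → C * p * W ≤ 1 → 0 ≤ δ →
      C * δ * ((n : ℝ) + 1) ^ 2 * 4 ^ W ≤ 1 →
      ∀ {Ω₁ Ω₂ : Type} [Fintype Ω₁] [Nonempty Ω₁] [Fintype Ω₂] [Nonempty Ω₂]
        (Y : Ω₁ → Cube n) (η : Ω₂ → Finset (Fin n)) (h : Ω₂ → Fin n → Fin (2 ^ s))
        (sh : Ω₂ → Cube n), Bias δ Y → Src p δ η h →
        ‖av fun ω₂ => av fun ω₁ => av fun u : Fin (2 ^ s) → Bool =>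
          pr ζ M (mv (xo (Y ω₁) (sh ω₂)) (η ω₂) (h ω₂) u)‖ ≤ ε := by
  rcases Nat.eq_zero_or_pos r with hr | hr
  · subst hr
    refine ⟨1, 0, 1, le_rfl, ?_⟩
    intro n W M ζ hM hW hζ hρ p δ hp hp1 ht
    exfalso
    have h1 : (M.card : ℝ) ≤ 0 := by
      have := card_le hM.ne hM.rd
      rw [zero_mul] at this
      exact_mod_cast this
    have h2 := A1_le_card M
    have h3 : p * A1 M ≤ 0 := mul_nonpos_of_nonneg_of_nonpos hp.le (h2.trans h1)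
    have h4 : ((1 : ℕ) : ℝ) ≤ 0 := ht.trans h3
    norm_num at h4
  obtain ⟨Cc, hcheb⟩ := cheb r
  obtain ⟨K, hK⟩ := exists_pow_lt_of_lt_one (show 0 < ε / 4 by positivity) hρ1
  have ha : (0 : ℝ) < (r : ℝ) * 2 ^ r := by positivity
  obtain ⟨t, ht⟩ := exists_nat_ge (((r : ℝ) * 2 ^ r) * (48 / ε + 2 * K + 1) + 1)
  obtain ⟨s, hs⟩ := pow_unbounded_of_one_lt ((16 * (t : ℝ) ^ 2 + 8 * r * t) * (8 / ε))
    (one_lt_two (α := ℝ))
  obtain ⟨C, hC⟩ := exists_nat_ge ((8 * (t : ℝ) + 3 * r) * (4 / ε) + 3 * (r : ℝ) ^ 2 * (8 / ε) +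
    2 * ((r : ℝ) + 1) ^ 2 * t + Cc + 2)
  have ht1 : (1 : ℝ) ≤ t := by
    have : 0 ≤ ((r : ℝ) * 2 ^ r) * (48 / ε + 2 * K + 1) := by positivity
    linarith
  refine ⟨t, s, C, by exact_mod_cast ht1, ?_⟩
  intro n W M ζ hM hW hζ hρ p δ hp hp1 htp hpt hCpW hδ hCδ Ω₁ Ω₂ _ _ _ _ Y η h sh hY hS
  have hWr : (1 : ℝ) ≤ W := by exact_mod_cast hW
  have hn0 : (0 : ℝ) ≤ n := Nat.cast_nonneg n
  have hA1 := A1_nonneg M
  have hA2 := A2_le (M := M) hM.wd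
  have hcard : (M.card : ℝ) ≤ r * n := by exact_mod_cast card_le hM.ne hM.rd
  -- the parameter `μ`
  obtain ⟨D, hD⟩ : ∃ D, D = δ * ((n : ℝ) + 1) ^ 2 * 4 ^ W := ⟨_, rfl⟩
  obtain ⟨q, hq⟩ : ∃ q, q = p * W := ⟨_, rfl⟩
  have hD0 : 0 ≤ D := by rw [hD]; positivity
  have hq0 : 0 ≤ q := by rw [hq]; positivity
  have hC0 : (0 : ℝ) ≤ C := Nat.cast_nonneg C
  have hCD : C * D ≤ 1 := by rw [hD]; linarith
  have hCq : C * q ≤ 1 := by rw [hq]; linarith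
  have hμD : ∀ c e : ℝ, 0 ≤ e → c ≤ C * e → c * D ≤ e := by
    intro c e he hce
    calc c * D ≤ C * e * D := mul_le_mul_of_nonneg_right hce hD0
      _ = e * (C * D) := by ring
      _ ≤ e * 1 := mul_le_mul_of_nonneg_left hCD he
      _ = e := mul_one e
  have hμq : ∀ c e : ℝ, 0 ≤ e → c ≤ C * e → c * q ≤ e := by
    intro c e he hce
    calc c * q ≤ C * e * q := mul_le_mul_of_nonneg_right hce hq0
      _ = e * (C * q) := by ring
      _ ≤ e * 1 := mul_le_mul_of_nonneg_left hCq he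
      _ = e := mul_one e
  have hε' : (0 : ℝ) < 4 / ε := by positivity
  have hp1' : 0 ≤ (8 * (t : ℝ) + 3 * r) * (4 / ε) := by positivity
  have hp2' : 0 ≤ 3 * (r : ℝ) ^ 2 * (8 / ε) := by positivity
  have hp3' : 0 ≤ 2 * ((r : ℝ) + 1) ^ 2 * t := by positivity
  have hCc0 : (0 : ℝ) ≤ Cc := Nat.cast_nonneg _
  have hC2 : (2 : ℝ) ≤ C := by linarith
  have hq1 : 2 * q ≤ 1 := hμq 2 1 zero_le_one (by linarith)
  -- `δ ≤ 1`
  have h4W : (1 : ℝ) ≤ 4 ^ W := one_le_pow₀ (by norm_num)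
  have hn1 : (1 : ℝ) ≤ ((n : ℝ) + 1) ^ 2 := by nlinarith
  have hδD : δ ≤ D := by
    rw [hD, mul_assoc]
    exact le_mul_of_one_le_right hδ (one_le_mul_of_one_le_of_one_le hn1 h4W)
  have hD1 : D ≤ 1 := by
    have := hμD 1 1 zero_le_one (by linarith)
    linarith
  have hδ1 : δ ≤ 1 := hδD.trans hD1
  have hδn : δ * ((n : ℝ) + 1) ^ 2 ≤ D := by
    rw [hD]
    exact le_mul_of_one_le_right (by positivity) h4W
  -- p ^ 2 * A2
  have hpA2 : p ^ 2 * A2 M ≤ 2 * t * q := by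
    calc p ^ 2 * A2 M ≤ p ^ 2 * (W * A1 M) := mul_le_mul_of_nonneg_left hA2 (by positivity)
      _ = (p * A1 M) * (p * W) := by ring
      _ ≤ (2 * t) * (p * W) := mul_le_mul_of_nonneg_right hpt (by positivity)
      _ = 2 * t * q := by rw [hq]
  have hA20 : 0 ≤ A2 M := sum_nonneg fun m _ => by positivity
  -- the first bad event
  have hP1 : (avg fun ω₂ => avg fun ω₁ => one (¬ Lin M (η ω₂) (xo (Y ω₁) (sh ω₂)))) ≤ ε / 4 := by
    refine (ev_lin hM hp.le hp1 (by rw [mul_assoc, ← hq]; exact hq1) hδ hδ1 Y η h sh hY hS).trans ?_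
    have e1 : 4 * p ^ 2 * A2 M ≤ 8 * t * q := by linarith
    have e2 : 3 * δ * (M.card : ℝ) * 2 ^ W ≤ 3 * r * D := by
      have f1 : (M.card : ℝ) ≤ r * ((n : ℝ) + 1) ^ 2 :=
        hcard.trans (mul_le_mul_of_nonneg_left (by nlinarith) (Nat.cast_nonneg r))
      have f2 : (2 : ℝ) ^ W ≤ 4 ^ W := pow_le_pow_left₀ (by norm_num) (by norm_num) W
      calc 3 * δ * (M.card : ℝ) * 2 ^ W ≤ 3 * δ * (r * ((n : ℝ) + 1) ^ 2) * 4 ^ W :=
            mul_le_mul (mul_le_mul_of_nonneg_left f1 (by positivity)) f2 (by positivity)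
              (by positivity)
        _ = 3 * r * D := by rw [hD]; ring
    rcases le_total q D with hqD | hqD
    · have := hμD (8 * t + 3 * r) (ε / 4) (by positivity) (by
        have : (8 * (t : ℝ) + 3 * r) * (4 / ε) ≤ C := by linarith
        calc 8 * (t : ℝ) + 3 * r = (8 * (t : ℝ) + 3 * r) * (4 / ε) * (ε / 4) := by
              field_simp
          _ ≤ C * (ε / 4) := mul_le_mul_of_nonneg_right this (by positivity))
      have e3 : 8 * (t : ℝ) * q ≤ 8 * t * D := mul_le_mul_of_nonneg_left hqD (by positivity)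
      linarith
    · have := hμq (8 * t + 3 * r) (ε / 4) (by positivity) (by
        have : (8 * (t : ℝ) + 3 * r) * (4 / ε) ≤ C := by linarith
        calc 8 * (t : ℝ) + 3 * r = (8 * (t : ℝ) + 3 * r) * (4 / ε) * (ε / 4) := by
              field_simp
          _ ≤ C * (ε / 4) := mul_le_mul_of_nonneg_right this (by positivity))
      have e3 : 3 * (r : ℝ) * D ≤ 3 * r * q := mul_le_mul_of_nonneg_left hqD (by positivity)
      linarith
  -- the second bad event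
  have hP2 : (avg fun ω₂ => avg fun ω₁ => one (Lin M (η ω₂) (xo (Y ω₁) (sh ω₂)) ∧
        ¬ Inj M (η ω₂) (h ω₂) (xo (Y ω₁) (sh ω₂)))) ≤ ε / 4 := by
    refine (ev_inj hM hp.le hp1 hδ hδ1 Nat.one_le_two_pow Y η h sh hY hS).trans ?_
    have hB0 : (0 : ℝ) < ((2 ^ s : ℕ) : ℝ) := by positivity
    have hBe : ((2 ^ s : ℕ) : ℝ) = 2 ^ s := by push_cast; ring
    have e1 : 4 * p ^ 2 / ((2 ^ s : ℕ) : ℝ) * (A1 M ^ 2 + r * A2 M) ≤ ε / 8 := by
      have f1 : 4 * p ^ 2 * (A1 M ^ 2 + r * A2 M) ≤ 16 * (t : ℝ) ^ 2 + 8 * r * t := by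
        have g1 : (p * A1 M) ^ 2 ≤ (2 * t) ^ 2 := pow_le_pow_left₀ (by positivity) hpt 2
        have g2 : r * (p ^ 2 * A2 M) ≤ r * (2 * t * 1) :=
          mul_le_mul_of_nonneg_left (hpA2.trans (mul_le_mul_of_nonneg_left (by linarith)
            (by positivity))) (Nat.cast_nonneg r)
        nlinarith
      have f2 : 16 * (t : ℝ) ^ 2 + 8 * r * t ≤ ((2 ^ s : ℕ) : ℝ) * (ε / 8) := by
        rw [hBe]
        calc 16 * (t : ℝ) ^ 2 + 8 * r * t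
            = (16 * (t : ℝ) ^ 2 + 8 * r * t) * (8 / ε) * (ε / 8) := by field_simp
          _ ≤ 2 ^ s * (ε / 8) := mul_le_mul_of_nonneg_right hs.le (by positivity)
      calc 4 * p ^ 2 / ((2 ^ s : ℕ) : ℝ) * (A1 M ^ 2 + r * A2 M)
          = (4 * p ^ 2 * (A1 M ^ 2 + r * A2 M)) / ((2 ^ s : ℕ) : ℝ) := by ring
        _ ≤ (((2 ^ s : ℕ) : ℝ) * (ε / 8)) / ((2 ^ s : ℕ) : ℝ) :=
            div_le_div_of_nonneg_right (f1.trans f2) hB0.le
        _ = ε / 8 := by field_simp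
    have e2 : 3 * δ * (M.card : ℝ) ^ 2 * (W : ℝ) ^ 2 ≤ ε / 8 := by
      have f1 : (M.card : ℝ) ^ 2 ≤ r ^ 2 * ((n : ℝ) + 1) ^ 2 := by
        have : (M.card : ℝ) ≤ r * ((n : ℝ) + 1) :=
          hcard.trans (mul_le_mul_of_nonneg_left (by linarith) (Nat.cast_nonneg r))
        calc (M.card : ℝ) ^ 2 ≤ (r * ((n : ℝ) + 1)) ^ 2 :=
              pow_le_pow_left₀ (Nat.cast_nonneg _) this 2
          _ = _ := by ring
      have f2 : (W : ℝ) ^ 2 ≤ 4 ^ W := by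
        have : (W : ℝ) ≤ 2 ^ W := by exact_mod_cast W.lt_two_pow_self.le
        calc (W : ℝ) ^ 2 ≤ (2 ^ W) ^ 2 := pow_le_pow_left₀ (Nat.cast_nonneg _) this 2
          _ = 4 ^ W := by rw [← pow_mul, mul_comm, pow_mul]; norm_num
      calc 3 * δ * (M.card : ℝ) ^ 2 * (W : ℝ) ^ 2
          ≤ 3 * δ * (r ^ 2 * ((n : ℝ) + 1) ^ 2) * 4 ^ W :=
            mul_le_mul (mul_le_mul_of_nonneg_left f1 (by positivity)) f2 (by positivity)
              (by positivity)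
        _ = 3 * r ^ 2 * D := by rw [hD]; ring
        _ ≤ ε / 8 := hμD _ _ (by positivity) (by
            have : 3 * (r : ℝ) ^ 2 * (8 / ε) ≤ C := by linarith
            calc 3 * (r : ℝ) ^ 2 = 3 * (r : ℝ) ^ 2 * (8 / ε) * (ε / 8) := by field_simp
              _ ≤ C * (ε / 8) := mul_le_mul_of_nonneg_right this (by positivity))
    linarith
  -- the third bad event
  obtain ⟨x, hx⟩ : ∃ x, x = p * avg (S0 M) := ⟨_, rfl⟩
  have hxt : (t : ℝ) ≤ (r * 2 ^ r) * x := by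
    have h1 := ac_lower hr hM
    calc (t : ℝ) ≤ p * A1 M := htp
      _ ≤ p * (r * 2 ^ r * avg (S0 M)) := mul_le_mul_of_nonneg_left h1 hp.le
      _ = (r * 2 ^ r) * x := by rw [hx]; ring
  have hxx : 48 / ε + 2 * K + 1 ≤ x := by
    have h1 : ((r : ℝ) * 2 ^ r) * (48 / ε + 2 * K + 1) ≤ ((r : ℝ) * 2 ^ r) * x := by linarith
    exact le_of_mul_le_mul_left h1 ha
  have h48 : 0 < 48 / ε := by positivity
  have hK0 : (0 : ℝ) ≤ K := Nat.cast_nonneg K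
  have hx1 : 1 ≤ x := by linarith
  have hP3 : (avg fun ω₂ => avg fun ω₁ => one (nac M (η ω₂) (xo (Y ω₁) (sh ω₂)) < K)) ≤
      ε / 4 := by
    have h1 := hcheb n W M hM p δ hp.le hp1 hδ Y η h sh hY hS K (by rw [← hx]; linarith)
    rw [← hx] at h1
    have h2 : p ^ 2 * avg (fun z => (S0 M z - avg (S0 M)) ^ 2) ≤ 1 := by
      calc p ^ 2 * avg (fun z => (S0 M z - avg (S0 M)) ^ 2)
          ≤ p ^ 2 * ((r + 1) ^ 2 * A2 M) := mul_le_mul_of_nonneg_left (S0_var hM) (by positivity)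
        _ = (r + 1) ^ 2 * (p ^ 2 * A2 M) := by ring
        _ ≤ (r + 1) ^ 2 * (2 * t * q) := mul_le_mul_of_nonneg_left hpA2 (by positivity)
        _ = (2 * ((r : ℝ) + 1) ^ 2 * t) * q := by ring
        _ ≤ 1 := hμq _ _ zero_le_one (by linarith)
    have h3 : Cc * δ * ((n : ℝ) + 1) ^ 2 ≤ 1 := by
      calc Cc * δ * ((n : ℝ) + 1) ^ 2 = Cc * (δ * ((n : ℝ) + 1) ^ 2) := by ring
        _ ≤ Cc * D := mul_le_mul_of_nonneg_left hδn hCc0
        _ ≤ 1 := hμD _ _ zero_le_one (by linarith)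
    have hx0 : 0 < x := by linarith
    have h4 : (avg fun ω₂ => avg fun ω₁ => one (nac M (η ω₂) (xo (Y ω₁) (sh ω₂)) < K)) * x ^ 2 ≤
        12 * x := by
      refine h1.trans ?_
      linarith
    have h5 : (avg fun ω₂ => avg fun ω₁ => one (nac M (η ω₂) (xo (Y ω₁) (sh ω₂)) < K)) * x ≤
        12 := by
      refine le_of_mul_le_mul_right ?_ hx0
      calc _ = (avg fun ω₂ => avg fun ω₁ => one (nac M (η ω₂) (xo (Y ω₁) (sh ω₂)) < K)) *
            x ^ 2 := by ring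
        _ ≤ 12 * x := h4
    have h6 : 12 ≤ ε / 4 * x := by
      have : 48 / ε ≤ x := by linarith
      calc (12 : ℝ) = ε / 4 * (48 / ε) := by field_simp; norm_num
        _ ≤ ε / 4 * x := mul_le_mul_of_nonneg_left this (by positivity)
    exact le_of_mul_le_mul_right (h5.trans h6) hx0
  have hU := co_union M Y η h sh ζ hζ hρ0 hρ1.le hρ K
  linarith

end Pool.Agent.MP_ca1109_lc.Xp
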