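import Pool.Agent.MP_ca1109_lc.Xp.Defs

namespace Pool.Agent.MP_ca1109_lc.Xp

open Finset Pool.Agent.H66 Pool.Agent.MP_ca1109_lc.Mpg Pool.Agent.MP_ca1109_lc.Agp
open Pool.Agent.MP_ca1109_lc.Dnf (Cube ch one)

variable {n : ℕ}

/-! ## RT: roots of unity -/

theorem root_gap_one (q : ℕ) (hq : 0 < q) (ζ : ℂ) (h : ζ ^ q = 1) (h1 : ζ ≠ 1) :
    ‖(1 + ζ) / 2‖ < 1 := by
  have hn : ‖ζ‖ = 1 := Complex.norm_eq_one_of_pow_eq_one h hq.ne'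
  have h2 : ζ.re * ζ.re + ζ.im * ζ.im = 1 := by
    have := Complex.sq_norm ζ
    rw [hn, Complex.normSq_apply] at this
    linarith
  have h3 : ζ.re < 1 := by
    rcases lt_or_ge ζ.re 1 with h | h
    · exact h
    · exfalso
      have hi : ζ.im = 0 := by nlinarith [mul_self_nonneg ζ.im]
      have hr : ζ.re = 1 := by nlinarith
      exact h1 (Complex.ext hr hi)
  have h4 : ‖1 + ζ‖ ^ 2 < 4 := by
    rw [Complex.sq_norm, Complex.normSq_apply]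
    simp only [Complex.add_re, Complex.one_re, Complex.add_im, Complex.one_im]
    nlinarith
  have h5 : ‖1 + ζ‖ < 2 := by nlinarith [norm_nonneg (1 + ζ)]
  rw [norm_div]
  simp only [Complex.norm_ofNat]
  linarith

theorem root_gap (q : ℕ) (hq : 0 < q) : ∃ ρ : ℝ, 0 ≤ ρ ∧ ρ < 1 ∧ ∀ ζ : ℂ, ζ ^ q = 1 → ζ ≠ 1 →
    ‖(1 + ζ) / 2‖ ≤ ρ := by
  classical
  set s : Finset ℂ := (Polynomial.nthRootsFinset q (1 : ℂ)).filter fun ζ => ζ ≠ 1 with hs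
  have hmem : ∀ ζ : ℂ, ζ ∈ s ↔ ζ ^ q = 1 ∧ ζ ≠ 1 := by
    intro ζ
    rw [hs, mem_filter, Polynomial.mem_nthRootsFinset hq]
  rcases s.eq_empty_or_nonempty with h | h
  · refine ⟨0, le_refl _, one_pos, fun ζ h1 h2 => ?_⟩
    have := (hmem ζ).2 ⟨h1, h2⟩
    rw [h] at this
    simp at this
  · refine ⟨s.sup' h fun ζ => ‖(1 + ζ) / 2‖, ?_, ?_, ?_⟩
    · obtain ⟨ζ, hζ⟩ := h
      exact (norm_nonneg _).trans (le_sup' (fun ζ : ℂ => ‖(1 + ζ) / 2‖) hζ)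
    · rw [sup'_lt_iff]
      intro ζ hζ
      obtain ⟨h1, h2⟩ := (hmem ζ).1 hζ
      exact root_gap_one q hq ζ h1 h2
    · intro ζ h1 h2
      exact le_sup' (fun ζ : ℂ => ‖(1 + ζ) / 2‖) ((hmem ζ).2 ⟨h1, h2⟩)

end Pool.Agent.MP_ca1109_lc.Xp
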