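import Pool.Agent.MP_ca1109_lc.Xp.CI
import Pool.Agent.MP_ca1109_lc.Xp.CO
import Pool.Agent.MP_ca1109_lc.Xp.GN
import Pool.Agent.MP_ca1109_lc.Xp.RT

/-!
# The main assembly: the generator fools the characters of polynomials with bounded read
-/

namespace Pool.Agent.MP_ca1109_lc.Xp

open Finset Pool.Agent.H66 Pool.Agent.MP_ca1109_lc.Mpg Pool.Agent.MP_ca1109_lc.Agp
open Pool.Agent.MP_ca1109_lc.Dnf (Cube ch one)

variable {n : ℕ}

theorem ma_norm_av {A : Type*} [Fintype A] [Nonempty A] {F : A → ℂ} {c : ℝ} (h : ∀ a, ‖F a‖ ≤ c) :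
    ‖av F‖ ≤ c := by
  have hc : (0 : ℝ) < (Fintype.card A : ℝ) := by exact_mod_cast Fintype.card_pos
  unfold av
  rw [norm_div, Complex.norm_natCast, div_le_iff₀ hc]
  calc ‖∑ a, F a‖ ≤ ∑ a, ‖F a‖ := norm_sum_le _ _
    _ ≤ ∑ _a : A, c := Finset.sum_le_sum fun a _ => h a
    _ = c * Fintype.card A := by
      rw [Finset.sum_const, nsmul_eq_mul, Finset.card_univ, mul_comm]

theorem ma_av_sub {A : Type*} [Fintype A] (F G : A → ℂ) :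
    av (fun a => F a - G a) = av F - av G := by
  unfold av
  rw [Finset.sum_sub_distrib, sub_div]

theorem ma_av_const {A : Type*} [Fintype A] [Nonempty A] (c : ℂ) : av (fun _ : A => c) = c := by
  have hc : (Fintype.card A : ℂ) ≠ 0 := by exact_mod_cast Fintype.card_ne_zero
  unfold av
  rw [Finset.sum_const, nsmul_eq_mul, Finset.card_univ, mul_comm, mul_div_assoc, div_self hc,
    mul_one]

theorem ma_av_close {A : Type*} [Fintype A] [Nonempty A] {F G : A → ℂ} {c : ℝ}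
    (h : ∀ a, ‖F a - G a‖ ≤ c) : ‖av F - av G‖ ≤ c := by
  rw [← ma_av_sub]
  exact ma_norm_av h

theorem ma_av_mul_left {A : Type*} [Fintype A] (c : ℂ) (F : A → ℂ) :
    av (fun a => c * F a) = c * av F := by
  unfold av
  rw [← Finset.mul_sum, mul_div_assoc]

/-- The average of the norm of the difference. -/
theorem ma_av_diff {A : Type*} [Fintype A] {F G : A → ℂ} {R : A → ℝ}
    (h : ∀ a, ‖F a - G a‖ ≤ R a) : ‖av F - av G‖ ≤ avg R := by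
  rw [← ma_av_sub]
  unfold av avg
  rw [norm_div, Complex.norm_natCast]
  refine div_le_div_of_nonneg_right ?_ (Nat.cast_nonneg _)
  exact (norm_sum_le _ _).trans (Finset.sum_le_sum fun a _ => h a)

/-! ## Splitting off monomials -/

theorem ma_factor (ζ : Finset (Fin n) → ℂ) (M : Finset (Finset (Fin n)))
    (P : Finset (Fin n) → Prop) [DecidablePred P] (x : Cube n) :
    pr ζ M x = pr ζ (M.filter P) x * pr ζ (M.filter fun m => ¬ P m) x := by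
  unfold pr
  exact (Finset.prod_filter_mul_prod_filter_not M P _).symm

theorem ma_norm_pr {ζ : Finset (Fin n) → ℂ} {M : Finset (Finset (Fin n))}
    (h : ∀ m ∈ M, ‖ζ m‖ = 1) (x : Cube n) : ‖pr ζ M x‖ = 1 := by
  unfold pr
  rw [norm_prod]
  refine Finset.prod_eq_one fun m hm => ?_
  split_ifs
  · exact h m hm
  · exact norm_one

theorem ma_pr_one {ζ : Finset (Fin n) → ℂ} {M : Finset (Finset (Fin n))}
    (h : ∀ m ∈ M, ‖ζ m‖ = 1) (x : Cube n) : ‖pr ζ M x - 1‖ ≤ ∑ m ∈ M, 2 * mon m x := by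
  classical
  induction M using Finset.induction_on with
  | empty => simp [pr]
  | insert a M ha ih =>
    have h1 : ‖ζ a‖ = 1 := h a (Finset.mem_insert_self _ _)
    have h2 : ∀ m ∈ M, ‖ζ m‖ = 1 := fun m hm => h m (Finset.mem_insert_of_mem hm)
    have h3 : pr ζ (insert a M) x = (if Tr a x then ζ a else 1) * pr ζ M x := by
      unfold pr
      rw [Finset.prod_insert ha]
    rw [h3, Finset.sum_insert ha]
    have h4 : ‖(if Tr a x then ζ a else (1 : ℂ)) - 1‖ ≤ 2 * mon a x := by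
      unfold mon
      by_cases hT : Tr a x
      · rw [if_pos hT, Dnf.one_true hT]
        calc ‖ζ a - 1‖ ≤ ‖ζ a‖ + ‖(1 : ℂ)‖ := norm_sub_le _ _
          _ = 2 * 1 := by rw [h1, norm_one]; norm_num
      · rw [if_neg hT, Dnf.one_false hT, sub_self, norm_zero, mul_zero]
    calc ‖(if Tr a x then ζ a else (1 : ℂ)) * pr ζ M x - 1‖
        = ‖((if Tr a x then ζ a else (1 : ℂ)) - 1) * pr ζ M x + (pr ζ M x - 1)‖ := by
          congr 1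
          ring
      _ ≤ ‖((if Tr a x then ζ a else (1 : ℂ)) - 1) * pr ζ M x‖ + ‖pr ζ M x - 1‖ :=
          norm_add_le _ _
      _ ≤ 2 * mon a x + ∑ m ∈ M, 2 * mon m x := by
          rw [norm_mul, ma_norm_pr h2, mul_one]
          exact add_le_add h4 (ih h2)

/-! ## The average over the seeds -/

/-- The average over all sources. -/
noncomputable def Ph {n L B : ℕ} {Ω₁ Ω₂ : Type} [Fintype Ω₁] [Fintype Ω₂] (Y : Ω₁ → Cube n)
    (η : Fin L → Ω₂ → Finset (Fin n)) (h : Ω₂ → Fin n → Fin B) (f : Cube n → ℂ) : ℂ :=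
  av fun v : Fin L → Fin B → Bool => av fun ω₂ => av fun ω₁ =>
    f (gx (Y ω₁) (fun l => η l ω₂) (h ω₂) v)

section ph

variable {L B : ℕ} {Ω₁ Ω₂ : Type} [Fintype Ω₁] [Nonempty Ω₁] [Fintype Ω₂] [Nonempty Ω₂]
  (Y : Ω₁ → Cube n) (η : Fin L → Ω₂ → Finset (Fin n)) (h : Ω₂ → Fin n → Fin B)

omit [Nonempty Ω₁] in
theorem ph_close {f g : Cube n → ℂ} {c : ℝ}
    (H : ∀ s : Cube n, ‖(av fun ω₁ => f (xo (Y ω₁) s)) - av fun ω₁ => g (xo (Y ω₁) s)‖ ≤ c) :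
    ‖Ph Y η h f - Ph Y η h g‖ ≤ c := by
  unfold Ph
  refine ma_av_close fun v => ma_av_close fun ω₂ => ?_
  have h1 := H (gx (fun _ => false) (fun l => η l ω₂) (h ω₂) v)
  simp only [gx_xo (Y _) (fun l => η l ω₂) (h ω₂) v]
  exact h1

omit [Nonempty Ω₁] in
theorem ph_const {f : Cube n → ℂ} {a : ℂ} {c : ℝ}
    (H : ∀ s : Cube n, ‖(av fun ω₁ => f (xo (Y ω₁) s)) - a‖ ≤ c) :
    ‖Ph Y η h f - a‖ ≤ c := by
  have h0 : a = av fun _v : Fin L → Fin B → Bool => av fun _ω₂ : Ω₂ => a := by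
    simp only [ma_av_const]
  rw [h0]
  unfold Ph
  refine ma_av_close fun v => ma_av_close fun ω₂ => ?_
  have h1 := H (gx (fun _ => false) (fun l => η l ω₂) (h ω₂) v)
  simp only [gx_xo (Y _) (fun l => η l ω₂) (h ω₂) v]
  exact h1

/-- The uniform distribution is a special case. -/
theorem ph_unif (f : Cube n → ℂ) : Ph (fun x : Cube n => x) η h f = av f := by
  unfold Ph
  have h1 : ∀ (v : Fin L → Fin B → Bool) (ω₂ : Ω₂),
      (av fun ω₁ : Cube n => f (gx ω₁ (fun l => η l ω₂) (h ω₂) v)) = av f := by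
    intro v ω₂
    have h2 : (fun ω₁ : Cube n => f (gx ω₁ (fun l => η l ω₂) (h ω₂) v)) = fun ω₁ =>
        f (xo ω₁ (gx (fun _ => false) (fun l => η l ω₂) (h ω₂) v)) := by
      funext ω₁
      rw [gx_xo ω₁]
    rw [h2]
    exact av_xo f _
  simp only [h1, ma_av_const]

omit [Nonempty Ω₁] [Nonempty Ω₂] in
/-- One level is averaged first. -/
theorem ph_level (l : Fin L) (f : Cube n → ℂ) : Ph Y η h f =
    av fun v : Fin L → Fin B → Bool => av fun ω₂ => av fun ω₁ => av fun u : Fin B → Bool =>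
      f (mv (xo (Y ω₁) (gx (fun _ => false) (fun l => η l ω₂) (h ω₂)
        (Function.update v l fun _ => false))) (η l ω₂) (h ω₂) u) := by
  unfold Ph
  rw [av_update l]
  congr 1
  funext v
  rw [av_comm]
  congr 1
  funext ω₂
  rw [av_comm]
  congr 1
  funext ω₁
  congr 1
  funext u
  rw [gx_update]

end ph

/-! ## Wide monomials -/

theorem ma_sum_mon {Ω : Type} [Fintype Ω] [Nonempty Ω] {r W : ℕ} {M : Finset (Finset (Fin n))}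
    (h0 : ∀ m ∈ M, m ≠ ∅) (hM : Rd r M) (hW : ∀ m ∈ M, W < m.card) {δ : ℝ} (hδ : 0 ≤ δ)
    {Y : Ω → Cube n} (hY : Bias δ Y) :
    (avg fun ω => ∑ m ∈ M, 2 * mon m (Y ω)) ≤ 2 * (r * n) * ((1 / 2) ^ W + δ) := by
  rw [avg_sum]
  have h1 : ∀ m ∈ M, (avg fun ω => 2 * mon m (Y ω)) ≤ 2 * ((1 / 2) ^ W + δ) := by
    intro m hm
    rw [avg_mul_left]
    have h2 := (abs_le.1 (avg_mon_bias hδ hY m)).2
    have h3 : ((1 : ℝ) / 2) ^ m.card ≤ (1 / 2) ^ W :=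
      pow_le_pow_of_le_one (by norm_num) (by norm_num) (hW m hm).le
    linarith
  have h4 : (M.card : ℝ) ≤ r * n := by exact_mod_cast card_le h0 hM
  have h5 : (0 : ℝ) ≤ 2 * ((1 / 2) ^ W + δ) := by positivity
  calc ∑ m ∈ M, (avg fun ω => 2 * mon m (Y ω)) ≤ ∑ _m ∈ M, 2 * ((1 / 2 : ℝ) ^ W + δ) :=
        Finset.sum_le_sum h1
    _ = M.card * (2 * ((1 / 2) ^ W + δ)) := by rw [Finset.sum_const, nsmul_eq_mul]
    _ ≤ (r * n) * (2 * ((1 / 2) ^ W + δ)) := mul_le_mul_of_nonneg_right h4 h5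
    _ = 2 * (r * n) * ((1 / 2) ^ W + δ) := by ring

/-! ## Numbers -/

theorem ma_clog (n : ℕ) : (2 : ℝ) ^ Nat.clog 2 n ≤ 2 * ((n : ℝ) + 1) := by
  have h := nseed_le 1 n
  unfold nseed at h
  rw [pow_one, pow_one] at h
  have h' : ((2 ^ Nat.clog 2 n : ℕ) : ℝ) ≤ ((2 * n + 1 : ℕ) : ℝ) := by exact_mod_cast h
  push_cast at h'
  linarith

theorem ma_clog' (n : ℕ) : (n : ℝ) ≤ (2 : ℝ) ^ Nat.clog 2 n := by
  exact_mod_cast Nat.le_pow_clog one_lt_two n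

/-- `W n = 2 clog n + 1`. -/
def wd (n : ℕ) : ℕ := 2 * Nat.clog 2 n + 1

theorem ma_half (n : ℕ) (hn : 1 ≤ n) : ((1 : ℝ) / 2) ^ wd n ≤ 1 / n ^ 2 := by
  have hn' : (1 : ℝ) ≤ n := by exact_mod_cast hn
  have h1 : ((1 : ℝ) / 2) ^ wd n = 1 / (2 * ((2 : ℝ) ^ Nat.clog 2 n) ^ 2) := by
    unfold wd
    rw [one_div_pow, pow_succ, mul_comm 2 (Nat.clog 2 n), pow_mul]
    ring
  rw [h1]
  apply one_div_le_one_div_of_le (by positivity)
  have h2 := ma_clog' n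
  have h3 : (n : ℝ) ^ 2 ≤ ((2 : ℝ) ^ Nat.clog 2 n) ^ 2 := pow_le_pow_left₀ (by linarith) h2 2
  have h4 : (0 : ℝ) ≤ ((2 : ℝ) ^ Nat.clog 2 n) ^ 2 := by positivity
  linarith

theorem ma_four (n : ℕ) : (4 : ℝ) ^ wd n ≤ 64 * ((n : ℝ) + 1) ^ 4 := by
  have h1 : (4 : ℝ) ^ wd n = 4 * ((2 : ℝ) ^ Nat.clog 2 n) ^ 4 := by
    unfold wd
    rw [pow_succ, mul_comm, show (4 : ℝ) = 2 ^ 2 by norm_num, ← pow_mul, ← pow_mul]
    congr 2
    ring
  rw [h1]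
  have h2 := ma_clog n
  have h3 : ((2 : ℝ) ^ Nat.clog 2 n) ^ 4 ≤ (2 * ((n : ℝ) + 1)) ^ 4 :=
    pow_le_pow_left₀ (by positivity) h2 4
  calc 4 * ((2 : ℝ) ^ Nat.clog 2 n) ^ 4 ≤ 4 * (2 * ((n : ℝ) + 1)) ^ 4 := by linarith
    _ = 64 * ((n : ℝ) + 1) ^ 4 := by ring

theorem ma_big (C₂ C₁ n : ℕ) : (2 : ℝ) ^ (C₂ * (C₁ * wd n + wd n + 1)) ≤
    2 ^ (C₂ * (C₁ + 2) + C₂ * (2 * (C₁ + 1))) * ((n : ℝ) + 1) ^ (C₂ * (2 * (C₁ + 1))) := by
  have h1 : C₂ * (C₁ * wd n + wd n + 1) =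
      C₂ * (C₁ + 2) + Nat.clog 2 n * (C₂ * (2 * (C₁ + 1))) := by
    unfold wd
    ring
  rw [h1, pow_add, pow_mul 2 (Nat.clog 2 n), pow_add, mul_assoc, ← mul_pow]
  refine mul_le_mul_of_nonneg_left ?_ (by positivity)
  exact pow_le_pow_left₀ (by positivity) (ma_clog n) _

theorem ma_pow (n j K : ℕ) (h : j + 1 ≤ K) {c₀ : ℝ} (hc : 0 ≤ c₀) :
    1 / ((n : ℝ) + 1) ^ K * (c₀ * ((n : ℝ) + 1) ^ j) ≤ c₀ / ((n : ℝ) + 1) := by
  have hn : (1 : ℝ) ≤ (n : ℝ) + 1 := by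
    have : (0 : ℝ) ≤ n := Nat.cast_nonneg n
    linarith
  have h1 : ((n : ℝ) + 1) ^ (j + 1) ≤ ((n : ℝ) + 1) ^ K := pow_le_pow_right₀ hn h
  have h2 : 0 < (n : ℝ) + 1 := by linarith
  rw [one_div, ← div_eq_inv_mul, div_le_div_iff₀ (by positivity) h2]
  calc c₀ * ((n : ℝ) + 1) ^ j * ((n : ℝ) + 1) = c₀ * ((n : ℝ) + 1) ^ (j + 1) := by
        rw [pow_succ]; ring
    _ ≤ c₀ * ((n : ℝ) + 1) ^ K := mul_le_mul_of_nonneg_left h1 hc

/-! ## The constant part -/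

theorem ma_const {ζ : Finset (Fin n) → ℂ} {M : Finset (Finset (Fin n))}
    (h : ∀ m ∈ M, m = ∅ ∨ ζ m = 1) (x y : Cube n) : pr ζ M x = pr ζ M y := by
  unfold pr
  refine Finset.prod_congr rfl fun m hm => ?_
  rcases h m hm with h1 | h1
  · subst h1
    have h2 : ∀ z : Cube n, Tr ∅ z := fun z i hi => absurd hi (Finset.notMem_empty i)
    rw [if_pos (h2 x), if_pos (h2 y)]
  · rw [h1]
    simp

theorem ph_mul {L B : ℕ} {Ω₁ Ω₂ : Type} [Fintype Ω₁] [Fintype Ω₂] (Y : Ω₁ → Cube n)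
    (η : Fin L → Ω₂ → Finset (Fin n)) (h : Ω₂ → Fin n → Fin B) (c : ℂ) (f : Cube n → ℂ) :
    Ph Y η h (fun x => c * f x) = c * Ph Y η h f := by
  unfold Ph
  simp only [ma_av_mul_left]

/-! ## The level -/

theorem ma_level {A : ℝ} {t : ℕ} (ht : 1 ≤ t) (hA : (t : ℝ) ≤ A) :
    ∃ l : ℕ, (t : ℝ) ≤ (1 / 2) ^ l * A ∧ (1 / 2 : ℝ) ^ l * A ≤ 2 * t ∧ (2 : ℝ) ^ l ≤ A := by
  have ht' : (1 : ℝ) ≤ t := by exact_mod_cast ht
  obtain ⟨l, h1, h2⟩ := exists_nat_pow_near (x := A / t) (y := (2 : ℝ))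
    (by rw [le_div_iff₀ (by linarith)]; linarith) (by norm_num)
  have h3 : (0 : ℝ) < 2 ^ l := by positivity
  refine ⟨l, ?_, ?_, ?_⟩
  · rw [le_div_iff₀ (by linarith)] at h1
    rw [one_div_pow, one_div, ← div_eq_inv_mul, le_div_iff₀ h3]
    linarith
  · rw [div_lt_iff₀ (by linarith), pow_succ] at h2
    rw [one_div_pow, one_div, ← div_eq_inv_mul, div_le_iff₀ h3]
    linarith
  · rw [le_div_iff₀ (by linarith)] at h1
    have h4 : (2 : ℝ) ^ l * 1 ≤ 2 ^ l * t := mul_le_mul_of_nonneg_left ht' h3.le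
    linarith

/-! ## The two cases for the narrow monomials -/

theorem ma_caseII {r : ℕ} {ρ ε : ℝ} {t s C : ℕ} (ht : 1 ≤ t)
    (hcore : ∀ (n W : ℕ) (M : Finset (Finset (Fin n))) (ζ : Finset (Fin n) → ℂ),
      Fam r W M → 1 ≤ W → (∀ m ∈ M, ‖ζ m‖ = 1) → (∀ m ∈ M, ‖(1 + ζ m) / 2‖ ≤ ρ) →
      ∀ p δ : ℝ, 0 < p → p ≤ 1 → t ≤ p * A1 M → p * A1 M ≤ 2 * t → C * p * W ≤ 1 → 0 ≤ δ →
      C * δ * ((n : ℝ) + 1) ^ 2 * 4 ^ W ≤ 1 →
      ∀ {Ω₁ Ω₂ : Type} [Fintype Ω₁] [Nonempty Ω₁] [Fintype Ω₂] [Nonempty Ω₂]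
        (Y : Ω₁ → Cube n) (η : Ω₂ → Finset (Fin n)) (h : Ω₂ → Fin n → Fin (2 ^ s))
        (sh : Ω₂ → Cube n), Bias δ Y → Src p δ η h →
        ‖av fun ω₂ => av fun ω₁ => av fun u : Fin (2 ^ s) → Bool =>
          pr ζ M (mv (xo (Y ω₁) (sh ω₂)) (η ω₂) (h ω₂) u)‖ ≤ ε)
    {n W : ℕ} {M : Finset (Finset (Fin n))} {ζ : Finset (Fin n) → ℂ} (hM : Fam r W M)
    (hW : 1 ≤ W) (hζ : ∀ m ∈ M, ‖ζ m‖ = 1) (hρ : ∀ m ∈ M, ‖(1 + ζ m) / 2‖ ≤ ρ)
    (hA : (((2 * t * C + t) * W : ℕ) : ℝ) ≤ A1 M) {δ : ℝ} (hδ : 0 ≤ δ)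
    (hCδ : C * δ * ((n : ℝ) + 1) ^ 2 * 4 ^ W ≤ 1)
    {Ω₂ : Type} [Fintype Ω₂] [Nonempty Ω₂]
    (η : Fin (Nat.clog 2 n + r + 1) → Ω₂ → Finset (Fin n)) (h : Ω₂ → Fin n → Fin (2 ^ s))
    (hS : ∀ l : Fin (Nat.clog 2 n + r + 1), Src ((1 / 2 : ℝ) ^ (l : ℕ)) δ (η l) h)
    {Ω₁ : Type} [Fintype Ω₁] [Nonempty Ω₁] (Y : Ω₁ → Cube n) (hY : Bias δ Y) :
    ‖Ph Y η h (pr ζ M)‖ ≤ ε := by
  have hW' : (1 : ℝ) ≤ W := by exact_mod_cast hW
  have ht' : (1 : ℝ) ≤ t := by exact_mod_cast ht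
  have hC' : (0 : ℝ) ≤ C := Nat.cast_nonneg C
  push_cast at hA
  have hA1 : (t : ℝ) ≤ A1 M := by
    have h1 : (0 : ℝ) ≤ 2 * t * C * W := by positivity
    have h2 : (t : ℝ) * 1 ≤ t * W := mul_le_mul_of_nonneg_left hW' (by linarith)
    nlinarith
  obtain ⟨l, h1, h2, h3⟩ := ma_level ht hA1
  -- the level exists
  have hl : l < Nat.clog 2 n + r + 1 := by
    have h4 : A1 M ≤ r * n := (A1_le_card M).trans (by exact_mod_cast card_le hM.ne hM.rd)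
    have h5 : (2 : ℝ) ^ l ≤ 2 ^ (Nat.clog 2 n + r) := by
      refine h3.trans (h4.trans ?_)
      rw [pow_add, mul_comm]
      have h6 : (r : ℝ) ≤ 2 ^ r := by exact_mod_cast Nat.lt_two_pow_self.le
      exact mul_le_mul (ma_clog' n) h6 (Nat.cast_nonneg _) (by positivity)
    have h7 : l ≤ Nat.clog 2 n + r := (pow_le_pow_iff_right₀ (by norm_num)).1 h5
    omega
  have hp : (0 : ℝ) < (1 / 2) ^ l := by positivity
  have hp1 : ((1 : ℝ) / 2) ^ l ≤ 1 := pow_le_one₀ (by norm_num) (by norm_num)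
  have hCp : (C : ℝ) * (1 / 2) ^ l * W ≤ 1 := by
    have h4 : 2 * t * (C * (1 / 2 : ℝ) ^ l * W) ≤ 2 * t * 1 := by
      calc 2 * t * (C * (1 / 2 : ℝ) ^ l * W) = (1 / 2 : ℝ) ^ l * (2 * t * C * W) := by ring
        _ ≤ (1 / 2 : ℝ) ^ l * A1 M := by
          refine mul_le_mul_of_nonneg_left ?_ hp.le
          have h5 : (0 : ℝ) ≤ t * W := by positivity
          nlinarith
        _ ≤ 2 * t * 1 := by linarith
    exact le_of_mul_le_mul_left h4 (by linarith)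
  rw [ph_level Y η h ⟨l, hl⟩]
  refine ma_norm_av fun v => ?_
  exact hcore n W M ζ hM hW hζ hρ ((1 / 2) ^ l) δ hp hp1 h1 h2 hCp hδ hCδ Y (η ⟨l, hl⟩) h
    (fun ω₂ => gx (fun _ => false) (fun l => η l ω₂) (h ω₂)
      (Function.update v ⟨l, hl⟩ fun _ => false)) hY (hS ⟨l, hl⟩)

/-- The wide monomials may be dropped. -/
theorem ma_drop {r W : ℕ} {M : Finset (Finset (Fin n))} {ζ : Finset (Fin n) → ℂ}
    (h0 : ∀ m ∈ M, m ≠ ∅) (hM : Rd r M) (hζ : ∀ m ∈ M, ‖ζ m‖ = 1) {δ : ℝ} (hδ : 0 ≤ δ)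
    {Ω : Type} [Fintype Ω] [Nonempty Ω] {Y : Ω → Cube n} (hY : Bias δ Y) :
    ‖(av fun ω => pr ζ M (Y ω)) - av fun ω => pr ζ (M.filter fun m => m.card ≤ W) (Y ω)‖ ≤
      2 * (r * n) * ((1 / 2) ^ W + δ) := by
  classical
  have hM2 : Rd r (M.filter fun m => ¬ m.card ≤ W) := fun i =>
    (Finset.card_le_card (Finset.filter_subset_filter _ (Finset.filter_subset _ _))).trans (hM i)
  have h1 : ∀ ω, ‖pr ζ M (Y ω) - pr ζ (M.filter fun m => m.card ≤ W) (Y ω)‖ ≤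
      ∑ m ∈ M.filter (fun m => ¬ m.card ≤ W), 2 * mon m (Y ω) := by
    intro ω
    rw [ma_factor ζ M (fun m => m.card ≤ W) (Y ω)]
    have h2 : ‖pr ζ (M.filter fun m => m.card ≤ W) (Y ω)‖ = 1 :=
      ma_norm_pr (fun m hm => hζ m (Finset.mem_filter.1 hm).1) _
    calc ‖pr ζ (M.filter fun m => m.card ≤ W) (Y ω) * pr ζ (M.filter fun m => ¬ m.card ≤ W) (Y ω) -
          pr ζ (M.filter fun m => m.card ≤ W) (Y ω)‖
        = ‖pr ζ (M.filter fun m => m.card ≤ W) (Y ω) *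
          (pr ζ (M.filter fun m => ¬ m.card ≤ W) (Y ω) - 1)‖ := by
          congr 1
          ring
      _ = ‖pr ζ (M.filter fun m => ¬ m.card ≤ W) (Y ω) - 1‖ := by rw [norm_mul, h2, one_mul]
      _ ≤ _ := ma_pr_one (fun m hm => hζ m (Finset.mem_filter.1 hm).1) _
  refine (ma_av_diff h1).trans ?_
  exact ma_sum_mon (fun m hm => h0 m (Finset.mem_filter.1 hm).1) hM2
    (fun m hm => not_le.1 (Finset.mem_filter.1 hm).2) hδ hY

theorem main_pr (r q : ℕ) (hq : 0 < q) {ε : ℝ} (hε : 0 < ε) : ∃ E G, NG E G ∧ ∃ n₀ : ℕ, ∀ n ≥ n₀,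
    ∀ (M : Finset (Finset (Fin n))) (ζ : Finset (Fin n) → ℂ), Rd r M →
      (∀ m ∈ M, ζ m ^ q = 1) →
      ‖na (2 ^ E n) (fun p => pr ζ M (out G n p)) - av (pr ζ M)‖ ≤ ε := by
  classical
  obtain ⟨ρ, hρ0, hρ1, hρ⟩ := root_gap q hq
  obtain ⟨t, s, C, ht, hcore⟩ := core r hρ0 hρ1 (show 0 < ε / 8 by positivity)
  obtain ⟨C₂, hfool⟩ := foolI r (show 0 < ε / 8 by positivity)
  obtain ⟨C₁, hC₁⟩ : ∃ C₁ : ℕ, C₁ = 2 * t * C + t := ⟨_, rfl⟩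
  obtain ⟨K0, hK0⟩ : ∃ K0 : ℕ, K0 = C₂ * (2 * (C₁ + 1)) := ⟨_, rfl⟩
  obtain ⟨c₀, hc₀⟩ : ∃ c₀ : ℝ, c₀ = 2 ^ (C₂ * (C₁ + 2) + C₂ * (2 * (C₁ + 1))) := ⟨_, rfl⟩
  have hc₀' : 0 ≤ c₀ := by rw [hc₀]; positivity
  obtain ⟨E, G, hG, hgen⟩ := xgen r s (K0 + 7)
  obtain ⟨n₀, hn₀⟩ := exists_nat_gt ((16 * r + 8 * c₀) / ε + 64 * C)
  refine ⟨E, G, hG, max n₀ 1, fun n hn M ζ hM hζq => ?_⟩
  have hn1 : 1 ≤ n := (le_max_right _ _).trans hn
  have hnn : (n₀ : ℝ) ≤ n := by exact_mod_cast (le_max_left _ _).trans hn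
  have hn1' : (1 : ℝ) ≤ n := by exact_mod_cast hn1
  have hr0 : (0 : ℝ) ≤ r := Nat.cast_nonneg r
  have hC0 : (0 : ℝ) ≤ C := Nat.cast_nonneg C
  have hbig : (16 * r + 8 * c₀) / ε + 64 * C ≤ n := hn₀.le.trans hnn
  have hb1 : 16 * r + 8 * c₀ ≤ ε * n := by
    have h1 : (16 * r + 8 * c₀) / ε ≤ n := by linarith
    rw [div_le_iff₀ hε] at h1
    linarith
  have hb2 : (64 : ℝ) * C ≤ n := by
    have h1 : 0 ≤ (16 * r + 8 * c₀) / ε := by positivity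
    linarith
  obtain ⟨δ, hδ⟩ : ∃ δ : ℝ, δ = 1 / ((n : ℝ) + 1) ^ (K0 + 7) := ⟨_, rfl⟩
  have hδ0 : 0 ≤ δ := by rw [hδ]; positivity
  -- the numbers
  have e1 : 2 * (r * (n : ℝ)) * ((1 / 2) ^ wd n + δ) ≤ ε / 4 := by
    have h1 := ma_half n hn1
    have h2 : δ ≤ 1 / (n : ℝ) ^ 2 := by
      rw [hδ]
      apply one_div_le_one_div_of_le (by positivity)
      calc (n : ℝ) ^ 2 ≤ ((n : ℝ) + 1) ^ 2 := pow_le_pow_left₀ (by linarith) (by linarith) 2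
        _ ≤ ((n : ℝ) + 1) ^ (K0 + 7) := pow_le_pow_right₀ (by linarith) (by omega)
    calc 2 * (r * (n : ℝ)) * ((1 / 2) ^ wd n + δ) ≤ 2 * (r * (n : ℝ)) * (1 / n ^ 2 + 1 / n ^ 2) :=
          mul_le_mul_of_nonneg_left (add_le_add h1 h2) (by positivity)
      _ = 4 * r / n := by
        field_simp
        ring
      _ ≤ ε / 4 := by
        rw [div_le_div_iff₀ (by linarith) (by norm_num)]
        linarith
  have e2 : δ * 2 ^ (C₂ * (C₁ * wd n + wd n + 1)) ≤ ε / 8 := by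
    have h1 := ma_big C₂ C₁ n
    have h2 := ma_pow n K0 (K0 + 7) (by omega) hc₀'
    rw [← hδ] at h2
    calc δ * 2 ^ (C₂ * (C₁ * wd n + wd n + 1)) ≤ δ * (c₀ * ((n : ℝ) + 1) ^ K0) := by
          rw [hc₀, hK0]
          exact mul_le_mul_of_nonneg_left h1 hδ0
      _ ≤ c₀ / ((n : ℝ) + 1) := h2
      _ ≤ ε / 8 := by
        rw [div_le_div_iff₀ (by linarith) (by norm_num)]
        nlinarith
  have e3 : C * δ * ((n : ℝ) + 1) ^ 2 * 4 ^ wd n ≤ 1 := by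
    have h1 := ma_four n
    have h2 := ma_pow n 6 (K0 + 7) (by omega) (show (0 : ℝ) ≤ 64 * C by positivity)
    rw [← hδ] at h2
    calc C * δ * ((n : ℝ) + 1) ^ 2 * 4 ^ wd n ≤
          C * δ * ((n : ℝ) + 1) ^ 2 * (64 * ((n : ℝ) + 1) ^ 4) :=
          mul_le_mul_of_nonneg_left h1 (by positivity)
      _ = δ * (64 * C * ((n : ℝ) + 1) ^ 6) := by ring
      _ ≤ 64 * C / ((n : ℝ) + 1) := h2
      _ ≤ 1 := by
        rw [div_le_one (by linarith)]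
        linarith
  -- the generator
  obtain ⟨M₁, M₂, hM₁, hM₂, Y, η, h, hY, hS, hf⟩ := hgen n
  rw [← hδ] at hY hS
  have : Nonempty (Fin M₁) := ⟨⟨0, hM₁⟩⟩
  have : Nonempty (Fin M₂) := ⟨⟨0, hM₂⟩⟩
  have hf' : na (2 ^ E n) (fun p => pr ζ M (out G n p)) = Ph Y η h (pr ζ M) := hf _
  rw [hf']
  -- the constant part
  have hnorm : ∀ m ∈ M, ‖ζ m‖ = 1 := fun m hm =>
    Complex.norm_eq_one_of_pow_eq_one (hζq m hm) (by omega)
  obtain ⟨N, hN⟩ : ∃ N : Finset (Finset (Fin n)), N = M.filter fun m => ¬ (m = ∅ ∨ ζ m = 1) :=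
    ⟨_, rfl⟩
  obtain ⟨κ, hκ⟩ : ∃ κ : ℂ, κ = pr ζ (M.filter fun m => m = ∅ ∨ ζ m = 1) (fun _ => false) :=
    ⟨_, rfl⟩
  have hκ1 : ‖κ‖ = 1 := by
    rw [hκ]
    exact ma_norm_pr (fun m hm => hnorm m (Finset.mem_filter.1 hm).1) _
  have hpr : pr ζ M = fun x => κ * pr ζ N x := by
    funext x
    rw [ma_factor ζ M (fun m => m = ∅ ∨ ζ m = 1) x, hκ, hN,
      ma_const (fun m hm => (Finset.mem_filter.1 hm).2) x (fun _ => false)]
  have hNM : ∀ m ∈ N, m ∈ M ∧ m ≠ ∅ ∧ ζ m ≠ 1 := by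
    intro m hm
    rw [hN, Finset.mem_filter, not_or] at hm
    exact hm
  have hNr : Rd r N := by
    intro i
    rw [hN]
    exact (Finset.card_le_card (Finset.filter_subset_filter _ (Finset.filter_subset _ _))).trans
      (hM i)
  have hN0 : ∀ m ∈ N, m ≠ ∅ := fun m hm => (hNM m hm).2.1
  have hN1 : ∀ m ∈ N, ‖ζ m‖ = 1 := fun m hm => hnorm m (hNM m hm).1
  rw [hpr, ph_mul, ma_av_mul_left, ← mul_sub, norm_mul, hκ1, one_mul]
  -- the wide part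
  obtain ⟨N', hN'⟩ : ∃ N' : Finset (Finset (Fin n)), N' = N.filter fun m => m.card ≤ wd n :=
    ⟨_, rfl⟩
  have hN'N : ∀ m ∈ N', m ∈ N := by
    intro m hm
    rw [hN'] at hm
    exact (Finset.mem_filter.1 hm).1
  have hfam : Fam r (wd n) N' := by
    refine ⟨fun m hm => hN0 m (hN'N m hm), ?_, ?_⟩
    · intro i
      rw [hN']
      exact (Finset.card_le_card
        (Finset.filter_subset_filter _ (Finset.filter_subset _ _))).trans (hNr i)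
    · intro m hm
      rw [hN'] at hm
      exact (Finset.mem_filter.1 hm).2
  have hN'1 : ∀ m ∈ N', ‖ζ m‖ = 1 := fun m hm => hN1 m (hN'N m hm)
  have hN'ρ : ∀ m ∈ N', ‖(1 + ζ m) / 2‖ ≤ ρ := fun m hm =>
    hρ (ζ m) (hζq m (hNM m (hN'N m hm)).1) (hNM m (hN'N m hm)).2.2
  have d1 : ‖Ph Y η h (pr ζ N) - Ph Y η h (pr ζ N')‖ ≤ ε / 4 := by
    refine (ph_close Y η h fun sx => ?_).trans e1
    rw [hN']
    exact ma_drop hN0 hNr hN1 hδ0 (hY.xo sx)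
  have hU : Bias δ (fun x : Cube n => x) := Bias.mono Bias.unif hδ0
  have d2 : ‖av (pr ζ N) - av (pr ζ N')‖ ≤ ε / 4 := by
    refine le_trans ?_ e1
    rw [hN']
    exact ma_drop (Y := fun x : Cube n => x) hN0 hNr hN1 hδ0 hU
  have d3 : ‖Ph Y η h (pr ζ N') - av (pr ζ N')‖ ≤ ε / 4 := by
    rcases le_total (A1 N') ((C₁ * wd n : ℕ) : ℝ) with hA | hA
    · refine ph_const Y η h fun sx => ?_
      have h1 := hfool n (wd n) (C₁ * wd n) N' ζ hfam hA hN'1 (fun ω => xo (Y ω) sx) δ hδ0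
        (hY.xo sx)
      linarith
    · rw [hC₁] at hA
      have h1 := ma_caseII ht hcore hfam (by unfold wd; omega) hN'1 hN'ρ hA hδ0 e3 η h hS Y hY
      have h2 := ma_caseII ht hcore hfam (by unfold wd; omega) hN'1 hN'ρ hA hδ0 e3 η h hS
        (fun x : Cube n => x) hU
      rw [ph_unif] at h2
      calc ‖Ph Y η h (pr ζ N') - av (pr ζ N')‖ ≤ ‖Ph Y η h (pr ζ N')‖ + ‖av (pr ζ N')‖ :=
            norm_sub_le _ _
        _ ≤ ε / 4 := by linarith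
  calc ‖Ph Y η h (pr ζ N) - av (pr ζ N)‖
      = ‖(Ph Y η h (pr ζ N) - Ph Y η h (pr ζ N')) + (Ph Y η h (pr ζ N') - av (pr ζ N')) -
          (av (pr ζ N) - av (pr ζ N'))‖ := by
        congr 1
        ring
    _ ≤ ‖(Ph Y η h (pr ζ N) - Ph Y η h (pr ζ N')) + (Ph Y η h (pr ζ N') - av (pr ζ N'))‖ +
          ‖av (pr ζ N) - av (pr ζ N')‖ := norm_sub_le _ _
    _ ≤ (‖Ph Y η h (pr ζ N) - Ph Y η h (pr ζ N')‖ + ‖Ph Y η h (pr ζ N') - av (pr ζ N')‖) +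
          ‖av (pr ζ N) - av (pr ζ N')‖ := add_le_add (norm_add_le _ _) le_rfl
    _ ≤ ε := by linarith

end Pool.Agent.MP_ca1109_lc.Xp
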