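import Pool.Agent.MP_ca1109_lc.Xp.SPa
import Pool.Agent.MP_ca1109_lc.Xp.SPb
import Pool.Agent.MP_ca1109_lc.Xor.FN
import Pool.Agent.MP_ca1109_lc.Agp.N1

/-!
# Products of unimodular weights of terms with small quadratic mass

Small bias fools `x ↦ ∏ j, exp (i a j [t_j x])` for families of terms of bounded read, if
`∑ j, (a j)² 2^-|t_j|` is bounded (Finner's inequality and Taylor's formula).
-/

namespace Pool.Agent.MP_ca1109_lc.Xp

open Finset Pool.Agent.MP_ca1109_lc.Mpg Pool.Agent.MP_ca1109_lc.Agp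
open Pool.Agent.MP_ca1109_lc
open Pool.Agent.MP_ca1109_lc.Dnf (Cube ch one E Term E_add E_sub E_smul E_const E_sum E_mono
  E_nonneg E_term L1_term On)

variable {n : ℕ} {ι : Type*}

/-- Taylor's formula on the unit circle. -/
theorem gt_taylor (m : ℕ) (y : ℝ) :
    ‖Complex.exp (Complex.I * y) - ∑ j ∈ range m, (Complex.I * y) ^ j / (j.factorial : ℂ)‖ ≤
      |y| ^ m / m.factorial := by
  have key : ∀ (m : ℕ) (c : ℝ), |c| ≤ 1 → ∀ t : ℝ, 0 ≤ t →
      ‖Complex.exp (Complex.I * (c * t : ℝ)) -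
        ∑ j ∈ range m, (Complex.I * (c * t : ℝ)) ^ j / (j.factorial : ℂ)‖ ≤ t ^ m / m.factorial := by
    intro m
    induction m with
    | zero =>
      intro c _ t _
      rw [range_zero, sum_empty, sub_zero, mul_comm, Complex.norm_exp_ofReal_mul_I]
      simp
    | succ m ih =>
      intro c hc t ht
      have hd : ∀ u : ℝ, HasDerivAt (fun t : ℝ => Complex.exp (Complex.I * (c * t : ℝ)) -
          ∑ j ∈ range (m + 1), (Complex.I * (c * t : ℝ)) ^ j / (j.factorial : ℂ))
          (Complex.I * c * (Complex.exp (Complex.I * (c * u : ℝ)) -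
          ∑ j ∈ range m, (Complex.I * (c * u : ℝ)) ^ j / (j.factorial : ℂ))) u := by
        intro u
        have h0 : HasDerivAt (fun t : ℝ => Complex.I * (c * t : ℝ)) (Complex.I * c) u := by
          have h1 : HasDerivAt (fun t : ℝ => ((c * t : ℝ) : ℂ)) ((c * 1 : ℝ) : ℂ) u :=
            ((hasDerivAt_id u).const_mul c).ofReal_comp
          simpa using h1.const_mul Complex.I
        have h1 := h0.cexp
        have h2 : ∀ j : ℕ, HasDerivAt (fun t : ℝ => (Complex.I * (c * t : ℝ)) ^ (j + 1) /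
            ((j + 1).factorial : ℂ)) (Complex.I * c * ((Complex.I * (c * u : ℝ)) ^ j /
              (j.factorial : ℂ))) u := by
          intro j
          have h3 := (h0.pow (j + 1)).div_const ((j + 1).factorial : ℂ)
          refine h3.congr_deriv ?_
          have hf : ((j.factorial : ℕ) : ℂ) ≠ 0 := by exact_mod_cast j.factorial_ne_zero
          have hj : ((j : ℂ) + 1) ≠ 0 := by exact_mod_cast j.succ_ne_zero
          rw [Nat.factorial_succ]
          push_cast
          field_simp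
        have h4 : HasDerivAt (fun t : ℝ => ∑ j ∈ range m, (Complex.I * (c * t : ℝ)) ^ (j + 1) /
            ((j + 1).factorial : ℂ)) (∑ j ∈ range m, Complex.I * c * ((Complex.I * (c * u : ℝ)) ^ j /
              (j.factorial : ℂ))) u := by
          have := HasDerivAt.fun_sum (u := range m) fun j _ => h2 j
          exact this
        have h5 : (fun t : ℝ => Complex.exp (Complex.I * (c * t : ℝ)) -
            ∑ j ∈ range (m + 1), (Complex.I * (c * t : ℝ)) ^ j / (j.factorial : ℂ)) =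
            fun t : ℝ => (Complex.exp (Complex.I * (c * t : ℝ)) - ∑ j ∈ range m,
              (Complex.I * (c * t : ℝ)) ^ (j + 1) / ((j + 1).factorial : ℂ)) - 1 := by
          funext t
          rw [sum_range_succ']
          simp only [pow_zero, Nat.factorial_zero, Nat.cast_one, div_one]
          ring
        rw [h5]
        refine ((h1.sub h4).sub_const 1).congr_deriv ?_
        rw [← mul_sum]
        ring
      have hB : ∀ u : ℝ, HasDerivAt (fun t : ℝ => t ^ (m + 1) / ((m + 1).factorial : ℝ))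
          (u ^ m / (m.factorial : ℝ)) u := by
        intro u
        refine ((hasDerivAt_pow (m + 1) u).div_const ((m + 1).factorial : ℝ)).congr_deriv ?_
        have hf : ((m.factorial : ℕ) : ℝ) ≠ 0 := by exact_mod_cast m.factorial_ne_zero
        have hj : ((m : ℝ) + 1) ≠ 0 := by positivity
        rw [Nat.factorial_succ]
        push_cast
        field_simp
      have := image_norm_le_of_norm_deriv_right_le_deriv_boundary (a := 0) (b := t)
        (f := fun t : ℝ => Complex.exp (Complex.I * (c * t : ℝ)) -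
          ∑ j ∈ range (m + 1), (Complex.I * (c * t : ℝ)) ^ j / (j.factorial : ℂ))
        (B := fun t : ℝ => t ^ (m + 1) / ((m + 1).factorial : ℝ))
        (fun u _ => (hd u).continuousAt.continuousWithinAt) (fun u _ => (hd u).hasDerivWithinAt)
        (by
          rw [sum_range_succ']
          simp) hB
        (by
          intro u hu
          rw [norm_mul, norm_mul, Complex.norm_I, one_mul, Complex.norm_real, Real.norm_eq_abs]
          calc |c| * _ ≤ 1 * _ := mul_le_mul_of_nonneg_right hc (norm_nonneg _)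
            _ ≤ _ := by rw [one_mul]; exact ih c hc u hu.1) ⟨ht, le_refl t⟩
      exact this
  rcases le_total 0 y with hy | hy
  · have := key m 1 (by simp) y hy
    rw [abs_of_nonneg hy]
    simpa using this
  · have := key m (-1) (by simp) (-y) (by linarith)
    rw [abs_of_nonpos hy]
    simpa using this

/-- One factor. -/
theorem gt_factor (f : Cube n → ℝ) (hf : ∀ x, f x = 0 ∨ f x = 1) (u : ℝ) :
    E (fun x => Real.exp (u * (f x - E f))) ≤ Real.exp (E f * u ^ 2 * Real.exp |u|) := by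
  have h1 : E (fun x => Real.exp (u * (f x - E f))) =
      Real.exp (-(u * E f)) * (1 + E f * (Real.exp u - 1)) := by
    have h2 : ∀ x, Real.exp (u * (f x - E f)) =
        Real.exp (-(u * E f)) * 1 + (Real.exp (-(u * E f)) * (Real.exp u - 1)) * f x := by
      intro x
      rcases hf x with h | h
      · rw [h]; ring_nf
      · rw [h, show u * (1 - E f) = -(u * E f) + u by ring, Real.exp_add]; ring
    rw [show (fun x => Real.exp (u * (f x - E f))) = fun x =>
      Real.exp (-(u * E f)) * 1 + (Real.exp (-(u * E f)) * (Real.exp u - 1)) * f x from funext h2,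
      E_add, E_smul, E_const, E_smul]
    ring
  rw [h1]
  have hp : 0 ≤ E f := E_nonneg fun x => by rcases hf x with h | h <;> rw [h]; norm_num
  have h3 : Real.exp u - 1 - u ≤ u ^ 2 * Real.exp |u| := by
    have h4 := Complex.norm_exp_sub_sum_le_norm_mul_exp (u : ℂ) 2
    rw [sum_range_succ, sum_range_succ, range_zero, sum_empty] at h4
    have h5 : Complex.exp (u : ℂ) - (0 + (u : ℂ) ^ 0 / ((Nat.factorial 0 : ℕ) : ℂ) +
        (u : ℂ) ^ 1 / ((Nat.factorial 1 : ℕ) : ℂ)) = ((Real.exp u - 1 - u : ℝ) : ℂ) := by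
      push_cast
      simp
      ring
    rw [h5, Complex.norm_real, Complex.norm_real, Real.norm_eq_abs, Real.norm_eq_abs, sq_abs] at h4
    exact (le_abs_self _).trans h4
  have h6 : 1 + E f * (Real.exp u - 1) ≤ Real.exp (E f * (Real.exp u - 1)) := by
    have := Real.add_one_le_exp (E f * (Real.exp u - 1))
    linarith
  calc Real.exp (-(u * E f)) * (1 + E f * (Real.exp u - 1))
      ≤ Real.exp (-(u * E f)) * Real.exp (E f * (Real.exp u - 1)) :=
        mul_le_mul_of_nonneg_left h6 (Real.exp_pos _).le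
    _ = Real.exp (E f * (Real.exp u - 1 - u)) := by rw [← Real.exp_add]; ring_nf
    _ ≤ Real.exp (E f * u ^ 2 * Real.exp |u|) := by
        apply Real.exp_le_exp.2
        calc E f * (Real.exp u - 1 - u) ≤ E f * (u ^ 2 * Real.exp |u|) :=
              mul_le_mul_of_nonneg_left h3 hp
          _ = _ := by ring

/-- The exponential moments (Finner's inequality). -/
theorem gt_mgf {r : ℕ} (hr : 0 < r) (J : Finset ι) (T : ι → Term n)
    (hread : ∀ v, (J.filter fun j => v ∈ (T j).S).card ≤ r) (a : ι → ℝ) {α : ℝ}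
    (ha : ∀ j ∈ J, |a j| ≤ α) (s : ℝ) :
    E (fun x => Real.exp (s * ∑ j ∈ J, a j * ((T j).f x - (1 / 2) ^ (T j).S.card))) ≤
      Real.exp (r * s ^ 2 * Real.exp (r * |s| * α) * ∑ j ∈ J, a j ^ 2 * (1 / 2) ^ (T j).S.card) := by
  have hr' : (0 : ℝ) < r := by exact_mod_cast hr
  have hf : ∀ (j : ι) (x : Cube n), (T j).f x = 0 ∨ (T j).f x = 1 := by
    intro j x
    unfold Term.f
    by_cases h : (T j).Sat x
    · right; exact Dnf.one_true h
    · left; exact Dnf.one_false h
  have h1 : (fun x => Real.exp (s * ∑ j ∈ J, a j * ((T j).f x - (1 / 2) ^ (T j).S.card))) =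
      fun x => ∏ j ∈ J, Real.exp (s * a j * ((T j).f x - (1 / 2) ^ (T j).S.card)) := by
    funext x
    rw [← Real.exp_sum]
    congr 1
    rw [mul_sum]
    exact sum_congr rfl fun j _ => by ring
  rw [h1]
  have hon : ∀ j ∈ J, On (T j).S
      (fun x => Real.exp (s * a j * ((T j).f x - (1 / 2) ^ (T j).S.card))) := by
    intro j _ x y hxy
    have : (T j).f x = (T j).f y := by
      unfold Term.f
      congr 1
      unfold Term.Sat
      exact propext ⟨fun h i hi => by rw [← hxy i hi]; exact h i hi,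
        fun h i hi => by rw [hxy i hi]; exact h i hi⟩
    simp only [this]
  refine (Xor.finner r hr J (fun j => (T j).S) hread _ (fun j _ x => (Real.exp_pos _).le) hon).trans ?_
  rw [show (r : ℝ) * s ^ 2 * Real.exp (r * |s| * α) * ∑ j ∈ J, a j ^ 2 * (1 / 2) ^ (T j).S.card =
    ∑ j ∈ J, (r : ℝ)⁻¹ * ((1 / 2) ^ (T j).S.card * (r * s * a j) ^ 2 * Real.exp (r * |s| * α)) by
      rw [mul_sum]
      refine sum_congr rfl fun j _ => ?_
      field_simp, Real.exp_sum]
  refine prod_le_prod (fun j _ => Real.rpow_nonneg (E_nonneg fun x => pow_nonneg (Real.exp_pos _).le _) _)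
    fun j hj => ?_
  have h2 : (fun x => Real.exp (s * a j * ((T j).f x - (1 / 2) ^ (T j).S.card)) ^ r) =
      fun x => Real.exp ((r * s * a j) * ((T j).f x - E (T j).f)) := by
    funext x
    rw [← Real.exp_nat_mul, E_term]
    congr 1
    ring
  rw [h2]
  have h3 := gt_factor (T j).f (hf j) (r * s * a j)
  have h4 : Real.exp (E (T j).f * (r * s * a j) ^ 2 * Real.exp |r * s * a j|) ≤
      Real.exp ((1 / 2) ^ (T j).S.card * (r * s * a j) ^ 2 * Real.exp (r * |s| * α)) := by
    rw [E_term]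
    apply Real.exp_le_exp.2
    refine mul_le_mul_of_nonneg_left (Real.exp_le_exp.2 ?_) (by positivity)
    rw [abs_mul, abs_mul, abs_of_pos hr']
    exact mul_le_mul_of_nonneg_left (ha j hj) (by positivity)
  calc (E fun x => Real.exp ((r * s * a j) * ((T j).f x - E (T j).f))) ^ ((r : ℝ)⁻¹)
      ≤ (Real.exp ((1 / 2) ^ (T j).S.card * (r * s * a j) ^ 2 * Real.exp (r * |s| * α))) ^ ((r : ℝ)⁻¹) :=
        Real.rpow_le_rpow (E_nonneg fun x => (Real.exp_pos _).le) (h3.trans h4) (by positivity)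
    _ = _ := by rw [← Real.exp_mul]; congr 1; ring

/-- Even moments. -/
theorem gt_moment {r : ℕ} (hr : 0 < r) (J : Finset ι) (T : ι → Term n)
    (hread : ∀ v, (J.filter fun j => v ∈ (T j).S).card ≤ r) (a : ι → ℝ) {α V : ℝ}
    (ha : ∀ j ∈ J, |a j| ≤ α) (hV : ∑ j ∈ J, a j ^ 2 * (1 / 2) ^ (T j).S.card ≤ V) {s : ℝ}
    (hs : 0 < s) (K : ℕ) :
    E (fun x => (∑ j ∈ J, a j * ((T j).f x - (1 / 2) ^ (T j).S.card)) ^ (2 * K) /
      (2 * K).factorial) ≤ 2 * Real.exp (r * s ^ 2 * Real.exp (r * s * α) * V) / s ^ (2 * K) := by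
  have h1 : ∀ y : ℝ, y ^ (2 * K) / (2 * K).factorial ≤
      (1 / s ^ (2 * K)) * (Real.exp (s * y) + Real.exp (-s * y)) := by
    intro y
    have h2 := Real.pow_div_factorial_le_exp (s * |y|) (by positivity) (2 * K)
    have h3 : Real.exp (s * |y|) ≤ Real.exp (s * y) + Real.exp (-s * y) := by
      rcases abs_cases y with ⟨h, _⟩ | ⟨h, _⟩
      · rw [h]; linarith [Real.exp_pos (-s * y)]
      · rw [h, show s * -y = -s * y by ring]; linarith [Real.exp_pos (s * y)]
    have h4 : y ^ (2 * K) / (2 * K).factorial = (1 / s ^ (2 * K)) * ((s * |y|) ^ (2 * K) /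
        (2 * K).factorial) := by
      rw [mul_pow, (even_two_mul K).pow_abs y]
      field_simp
    rw [h4]
    exact mul_le_mul_of_nonneg_left (h2.trans h3) (by positivity)
  refine (E_mono fun x => h1 _).trans ?_
  rw [E_smul, E_add]
  have h5 := gt_mgf hr J T hread a ha s
  have h6 := gt_mgf hr J T hread a ha (-s)
  rw [abs_neg, neg_sq] at h6
  rw [abs_of_pos hs] at h5 h6
  have h7 : Real.exp (r * s ^ 2 * Real.exp (r * s * α) * ∑ j ∈ J, a j ^ 2 * (1 / 2) ^ (T j).S.card) ≤
      Real.exp (r * s ^ 2 * Real.exp (r * s * α) * V) :=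
    Real.exp_le_exp.2 (mul_le_mul_of_nonneg_left hV (by positivity))
  have h8 : (0 : ℝ) ≤ 1 / s ^ (2 * K) := by positivity
  calc (1 / s ^ (2 * K)) * _ ≤ (1 / s ^ (2 * K)) * (2 * Real.exp (r * s ^ 2 * Real.exp (r * s * α) * V)) :=
        mul_le_mul_of_nonneg_left (by linarith) h8
    _ = _ := by ring

theorem gt_av_sub {A : Type*} [Fintype A] (f g : A → ℂ) : av (fun a => f a - g a) = av f - av g := by
  unfold av
  rw [sum_sub_distrib, sub_div]

/-- The centred sum. -/
noncomputable def ctr (J : Finset ι) (T : ι → Term n) (a : ι → ℝ) (x : Cube n) : ℝ :=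
  ∑ j ∈ J, a j * ((T j).f x - (1 / 2) ^ (T j).S.card)

theorem gt_ctr_sp (J : Finset ι) (T : ι → Term n) (a : ι → ℝ) {A : ℝ} (hA : 0 ≤ A)
    (ha : ∀ j ∈ J, |a j| ≤ A) : Sp ((2 * A + 1) * (J.card + 1)) (fun x => ((ctr J T a x : ℝ) : ℂ)) := by
  have h1 : ∀ j ∈ J, Sp (2 * A) (fun x => ((a j * ((T j).f x - (1 / 2) ^ (T j).S.card) : ℝ) : ℂ)) := by
    intro j hj
    have h2 : Sp 1 (fun x => (((T j).f x : ℝ) : ℂ)) := (Sp_real (T j).f).mono (L1_term (T j))
    have h3 : Sp 1 (fun _ : Cube n => (((1 / 2 : ℝ) ^ (T j).S.card : ℝ) : ℂ)) := by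
      refine (Sp.const _).mono ?_
      rw [Complex.norm_real, Real.norm_eq_abs, abs_of_nonneg (by positivity)]
      exact pow_le_one₀ (by norm_num) (by norm_num)
    have h4 := (h2.sub h3).smul ((a j : ℝ) : ℂ)
    refine (h4.mono ?_).of_eq fun x => by push_cast; ring
    rw [Complex.norm_real, Real.norm_eq_abs]
    have := ha j hj
    linarith
  refine ((Sp.sum J (fun _ => 2 * A) _ h1).mono ?_).of_eq fun x => by
    unfold ctr
    push_cast
    rfl
  rw [sum_const, nsmul_eq_mul]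
  have : (0 : ℝ) ≤ J.card := Nat.cast_nonneg _
  nlinarith

/-- The characteristic function of the sum `∑ j, a j [t_j]` under small bias. -/
theorem gt_fool (r : ℕ) (α V : ℝ) {ε : ℝ} (hε : 0 < ε) : ∃ C : ℕ, ∀ {n : ℕ} {ι : Type}
    (J : Finset ι) (T : ι → Term n) (a : ι → ℝ),
    (∀ v, (J.filter fun j => v ∈ (T j).S).card ≤ r) → (∀ j ∈ J, |a j| ≤ α) →
    ∑ j ∈ J, a j ^ 2 * (1 / 2) ^ (T j).S.card ≤ V →
    ∀ {Ω : Type} [Fintype Ω] [Nonempty Ω] (Y : Ω → Cube n) (δ : ℝ), 0 ≤ δ → Bias δ Y →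
    ‖(av fun ω => Complex.exp (Complex.I * (∑ j ∈ J, a j * (T j).f (Y ω) : ℝ))) -
      av fun x => Complex.exp (Complex.I * (∑ j ∈ J, a j * (T j).f x : ℝ))‖ ≤
      ε + δ * (C * ((J.card : ℝ) + 1)) ^ C := by
  obtain ⟨A, hA⟩ := exists_nat_ge |α|
  have hlim : ∃ K : ℕ, 2 * Real.exp (((r + 1 : ℕ) : ℝ) * 2 ^ 2 *
      Real.exp (((r + 1 : ℕ) : ℝ) * 2 * A) * V) * (1 / 4) ^ K ≤ ε / 2 := by
    have h0 : (0 : ℝ) < 2 * Real.exp (((r + 1 : ℕ) : ℝ) * 2 ^ 2 *
      Real.exp (((r + 1 : ℕ) : ℝ) * 2 * A) * V) := by positivity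
    obtain ⟨K, hK⟩ := exists_pow_lt_of_lt_one (div_pos (half_pos hε) h0) (by norm_num : (1 / 4 : ℝ) < 1)
    refine ⟨K, ?_⟩
    rw [lt_div_iff₀ h0] at hK
    linarith
  obtain ⟨K, hK⟩ := hlim
  refine ⟨(2 * K + 1) * (2 * A + 1), ?_⟩
  intro n ι J T a hread ha hV Ω _ _ Y δ hδ hY
  have haA : ∀ j ∈ J, |a j| ≤ (A : ℝ) := fun j hj => (ha j hj).trans ((le_abs_self α).trans hA)
  set y : Cube n → ℝ := ctr J T a with hy
  set b : ℝ := (2 * A + 1) * (J.card + 1) with hb
  have hJ0 : (0 : ℝ) ≤ J.card := Nat.cast_nonneg _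
  have hA0 : (0 : ℝ) ≤ A := Nat.cast_nonneg _
  have hb1 : 1 ≤ b := by
    rw [hb]
    nlinarith
  have hys : Sp b (fun x => ((y x : ℝ) : ℂ)) := gt_ctr_sp J T a hA0 haA
  -- the remainder
  set R : Cube n → ℝ := fun x => y x ^ (2 * K) / (2 * K).factorial with hR
  have hRs : Sp (b ^ (2 * K)) (fun x => ((R x : ℝ) : ℂ)) := by
    have h1 := (hys.pow (2 * K)).smul ((1 / (2 * K).factorial : ℝ) : ℂ)
    refine (h1.mono ?_).of_eq fun x => by rw [hR]; push_cast; ring
    rw [Complex.norm_real, Real.norm_eq_abs, abs_of_nonneg (by positivity)]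
    have h2 : (1 : ℝ) / (2 * K).factorial ≤ 1 := by
      rw [div_le_one (by positivity)]
      exact_mod_cast Nat.one_le_iff_ne_zero.2 (Nat.factorial_ne_zero _)
    calc (1 : ℝ) / (2 * K).factorial * b ^ (2 * K) ≤ 1 * b ^ (2 * K) :=
          mul_le_mul_of_nonneg_right h2 (by positivity)
      _ = _ := one_mul _
  have hRE : avg R ≤ ε / 2 := by
    rw [spb_avg_E]
    have h1 := gt_moment (Nat.succ_pos r) J T (fun v => (hread v).trans (Nat.le_succ r)) a haA hV
      (by norm_num : (0 : ℝ) < 2) K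
    refine h1.trans (le_trans (le_of_eq ?_) hK)
    rw [pow_mul (2 : ℝ) 2 K, show (2 : ℝ) ^ 2 = 4 by norm_num, one_div_pow]
    ring
  have hR0 : ∀ x, 0 ≤ R x := fun x => by
    rw [hR]
    simp only
    rw [pow_mul]
    positivity
  -- the polynomial
  set P : Cube n → ℂ := fun x => ∑ k ∈ range (2 * K), (Complex.I * (y x : ℂ)) ^ k / (k.factorial : ℂ)
    with hP
  have hPs : Sp ((2 * K : ℕ) * b ^ (2 * K)) P := by
    have h1 : ∀ k ∈ range (2 * K), Sp (b ^ (2 * K))
        (fun x => (Complex.I * (y x : ℂ)) ^ k / (k.factorial : ℂ)) := by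
      intro k hk
      have h2 := ((hys.smul Complex.I).pow k).smul ((1 / k.factorial : ℝ) : ℂ)
      refine (h2.mono ?_).of_eq fun x => by push_cast; ring
      rw [Complex.norm_real, Real.norm_eq_abs, abs_of_nonneg (by positivity), Complex.norm_I, one_mul]
      have h3 : (1 : ℝ) / k.factorial ≤ 1 := by
        rw [div_le_one (by positivity)]
        exact_mod_cast Nat.one_le_iff_ne_zero.2 (Nat.factorial_ne_zero _)
      calc (1 : ℝ) / k.factorial * b ^ k ≤ 1 * b ^ (2 * K) :=
            mul_le_mul h3 (pow_le_pow_right₀ hb1 (mem_range.1 hk).le) (by positivity) zero_le_one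
        _ = _ := one_mul _
    refine (Sp.sum _ (fun _ => b ^ (2 * K)) _ h1).mono ?_
    rw [sum_const, card_range, nsmul_eq_mul]
  have hPR : ∀ x, ‖Complex.exp (Complex.I * (y x : ℂ)) - P x‖ ≤ R x := by
    intro x
    have h1 := gt_taylor (2 * K) (y x)
    rw [(even_two_mul K).pow_abs] at h1
    exact h1
  -- the phase of the mean
  have hph : ∀ x, Complex.exp (Complex.I * (∑ j ∈ J, a j * (T j).f x : ℝ)) =
      Complex.exp (Complex.I * (∑ j ∈ J, a j * (1 / 2) ^ (T j).S.card : ℝ)) *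
        Complex.exp (Complex.I * (y x : ℂ)) := by
    intro x
    rw [← Complex.exp_add, ← mul_add, ← Complex.ofReal_add]
    congr 3
    rw [hy]
    unfold ctr
    rw [← sum_add_distrib]
    exact sum_congr rfl fun j _ => by ring
  have hph1 : (av fun ω => Complex.exp (Complex.I * (∑ j ∈ J, a j * (T j).f (Y ω) : ℝ))) =
      Complex.exp (Complex.I * (∑ j ∈ J, a j * (1 / 2) ^ (T j).S.card : ℝ)) *
        av fun ω => Complex.exp (Complex.I * (y (Y ω) : ℂ)) := by
    rw [← spb_av_mul]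
    congr 1
    funext ω
    exact hph (Y ω)
  have hph2 : (av fun x => Complex.exp (Complex.I * (∑ j ∈ J, a j * (T j).f x : ℝ))) =
      Complex.exp (Complex.I * (∑ j ∈ J, a j * (1 / 2) ^ (T j).S.card : ℝ)) *
        av fun x => Complex.exp (Complex.I * (y x : ℂ)) := by
    rw [← spb_av_mul]
    congr 1
    funext x
    exact hph x
  rw [hph1, hph2, ← mul_sub, norm_mul, mul_comm Complex.I, Complex.norm_exp_ofReal_mul_I, one_mul]
  have e1 : ‖(av fun ω => Complex.exp (Complex.I * (y (Y ω) : ℂ))) - av fun ω => P (Y ω)‖ ≤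
      avg fun ω => R (Y ω) := by
    rw [← gt_av_sub]
    exact (norm_av_le _).trans (avg_mono fun ω => hPR (Y ω))
  have e2 : ‖(av fun x => Complex.exp (Complex.I * (y x : ℂ))) - av P‖ ≤ avg R := by
    rw [← gt_av_sub]
    exact (norm_av_le _).trans (avg_mono fun x => hPR x)
  have e3 : ‖(av fun ω => P (Y ω)) - av P‖ ≤ δ * ((2 * K : ℕ) * b ^ (2 * K)) := fool hδ hY hPs
  have e4 : (avg fun ω => R (Y ω)) ≤ avg R + δ * b ^ (2 * K) := by
    have := (abs_le.1 (fool_real hδ hY hRs)).2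
    linarith
  have e5 : ‖(av fun ω => Complex.exp (Complex.I * (y (Y ω) : ℂ))) -
      av fun x => Complex.exp (Complex.I * (y x : ℂ))‖ ≤
      ‖(av fun ω => Complex.exp (Complex.I * (y (Y ω) : ℂ))) - av fun ω => P (Y ω)‖ +
      ‖(av fun ω => P (Y ω)) - av P‖ + ‖(av fun x => Complex.exp (Complex.I * (y x : ℂ))) - av P‖ := by
    have h1 : (av fun ω => Complex.exp (Complex.I * (y (Y ω) : ℂ))) -
      (av fun x => Complex.exp (Complex.I * (y x : ℂ))) =
      ((av fun ω => Complex.exp (Complex.I * (y (Y ω) : ℂ))) - av fun ω => P (Y ω)) +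
      ((av fun ω => P (Y ω)) - av P) - ((av fun x => Complex.exp (Complex.I * (y x : ℂ))) - av P) := by
      ring
    rw [h1]
    refine (norm_sub_le _ _).trans ?_
    exact add_le_add_left (norm_add_le _ _) _
  have e6 : ((2 * K : ℕ) : ℝ) * b ^ (2 * K) + b ^ (2 * K) ≤
      ((((2 * K + 1) * (2 * A + 1) : ℕ) : ℝ) * ((J.card : ℝ) + 1)) ^ ((2 * K + 1) * (2 * A + 1)) := by
    set D : ℝ := (((2 * K + 1) * (2 * A + 1) : ℕ) : ℝ) * ((J.card : ℝ) + 1) with hD
    have hK0 : (0 : ℝ) ≤ K := Nat.cast_nonneg _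
    have hDb : (2 * (K : ℝ) + 1) * b = D := by
      rw [hD, hb]
      push_cast
      ring
    have hbD : b ≤ D := by
      rw [← hDb]
      nlinarith
    have h2D : (2 * (K : ℝ) + 1) ≤ D := by
      rw [← hDb]
      nlinarith
    have hD1 : 1 ≤ D := hb1.trans hbD
    calc ((2 * K : ℕ) : ℝ) * b ^ (2 * K) + b ^ (2 * K) = (2 * (K : ℝ) + 1) * b ^ (2 * K) := by
          push_cast
          ring
      _ ≤ D * D ^ (2 * K) := mul_le_mul h2D (pow_le_pow_left₀ (by linarith) hbD _) (by positivity)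
          (by linarith)
      _ = D ^ (2 * K + 1) := by ring
      _ ≤ D ^ ((2 * K + 1) * (2 * A + 1)) := pow_le_pow_right₀ hD1 (Nat.le_mul_of_pos_right _ (by omega))
  calc _ ≤ _ := e5
    _ ≤ (avg R + δ * b ^ (2 * K)) + δ * ((2 * K : ℕ) * b ^ (2 * K)) + avg R :=
        add_le_add (add_le_add (e1.trans e4) e3) e2
    _ = 2 * avg R + δ * (((2 * K : ℕ) : ℝ) * b ^ (2 * K) + b ^ (2 * K)) := by ring
    _ ≤ 2 * (ε / 2) + δ * _ := add_le_add (by linarith) (mul_le_mul_of_nonneg_left e6 hδ)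
    _ = _ := by ring

end Pool.Agent.MP_ca1109_lc.Xp
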