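import Pool.Agent.MP_ca1109_lc.Xp.QDefs

namespace Pool.Agent.MP_ca1109_lc.Xp

open Finset Pool.Agent.H66 Pool.Agent.MP_ca1109_lc.Mpg Pool.Agent.MP_ca1109_lc.Agp
open Pool.Agent.MP_ca1109_lc.Dnf (Cube ch one E)

variable {n : ℕ}

/-! ## CS: Cauchy-Schwarz -/

theorem xcs_norm_sq {A : Type*} [Fintype A] [Nonempty A] (f : A → ℂ) :
    ‖av f‖ ^ 2 ≤ avg fun a => ‖f a‖ ^ 2 := by
  have hc : (0 : ℝ) < Fintype.card A := by exact_mod_cast Fintype.card_pos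
  unfold av avg
  rw [norm_div, Complex.norm_natCast, div_pow, div_le_div_iff₀ (by positivity) hc]
  have h1 : ‖∑ a, f a‖ ≤ ∑ a, ‖f a‖ := norm_sum_le _ _
  have h2 : (∑ a, ‖f a‖) ^ 2 ≤ Fintype.card A * ∑ a, ‖f a‖ ^ 2 := by
    have := sq_sum_le_card_mul_sum_sq (s := (univ : Finset A)) (f := fun a => ‖f a‖)
    simpa [Finset.card_univ] using this
  have h3 : ‖∑ a, f a‖ ^ 2 ≤ (∑ a, ‖f a‖) ^ 2 := pow_le_pow_left₀ (norm_nonneg _) h1 2
  nlinarith

theorem xcs_avg_mono {A : Type*} [Fintype A] {f g : A → ℝ} (h : ∀ a, f a ≤ g a) :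
    avg f ≤ avg g := by
  unfold avg
  exact div_le_div_of_nonneg_right (sum_le_sum fun a _ => h a) (by positivity)

theorem xcs_re_av {A : Type*} [Fintype A] (f : A → ℂ) : (av f).re = avg fun a => (f a).re := by
  unfold av avg
  rw [Complex.div_natCast_re, Complex.re_sum]

theorem xcs_sq_eq {B : Type*} [Fintype B] (g : B → ℂ) :
    ‖av g‖ ^ 2 = avg fun b => avg fun b' => (g b * (starRingEnd ℂ) (g b')).re := by
  have h1 : av g * (starRingEnd ℂ) (av g) = av fun b => av fun b' => g b * (starRingEnd ℂ) (g b') := by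
    unfold av
    rw [map_div₀, map_sum, Complex.conj_natCast]
    simp only [← Finset.mul_sum, ← Finset.sum_div, ← Finset.sum_mul]
    ring
  have h2 : ‖av g‖ ^ 2 = (av g * (starRingEnd ℂ) (av g)).re := by
    rw [Complex.mul_conj, Complex.ofReal_re, Complex.sq_norm]
  rw [h2, h1, xcs_re_av]
  simp only [xcs_re_av]

theorem xcs_swap {A B : Type*} [Fintype A] [Fintype B] (f : A → B → ℝ) :
    (avg fun a => avg fun b => f a b) = avg fun b => avg fun a => f a b := by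
  unfold avg
  simp only [← Finset.sum_div]
  rw [Finset.sum_comm, div_right_comm]

theorem cs_step {Ω₁ Ω₂ Ω₃ : Type} [Fintype Ω₁] [Nonempty Ω₁] [Fintype Ω₂] [Nonempty Ω₂]
    [Fintype Ω₃] [Nonempty Ω₃] {c : ℕ} (f : Ω₂ → Ω₃ → Ω₁ → (Fin c → Bool) → ℂ) :
    ‖av fun ω₂ => av fun ω₃ => av fun ω₁ => av fun b => f ω₂ ω₃ ω₁ b‖ ^ 2 ≤
      avg fun ω₂ => avg fun ω₃ => avg fun b : Fin c → Bool => avg fun b' : Fin c → Bool =>
        (av fun ω₁ => f ω₂ ω₃ ω₁ b * (starRingEnd ℂ) (f ω₂ ω₃ ω₁ b')).re := by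
  refine (xcs_norm_sq _).trans (xcs_avg_mono fun ω₂ => ?_)
  refine (xcs_norm_sq _).trans (xcs_avg_mono fun ω₃ => ?_)
  refine (xcs_norm_sq _).trans (le_of_eq ?_)
  simp only [xcs_sq_eq, xcs_re_av]
  rw [xcs_swap]
  congr 1
  funext b
  rw [xcs_swap]

end Pool.Agent.MP_ca1109_lc.Xp
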