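import Pool.Agent.MP_ca1109_lc.Xp.QDefs
import Pool.Agent.MP_ca1109_lc.Dnf.B2
import Pool.Agent.MP_ca1109_lc.Agp.N1

/-!
# Parseval's identity for one level of the generator
-/

namespace Pool.Agent.MP_ca1109_lc.Xp

open Finset Pool.Agent.H66 Pool.Agent.MP_ca1109_lc.Mpg Pool.Agent.MP_ca1109_lc.Agp
open Pool.Agent.MP_ca1109_lc.Dnf (Cube ch one E mix fc)

variable {n : ℕ}

/-- The sign of a bit. -/
def qps_s (b : Bool) : ℝ := if b then -1 else 1

/-- The sign of the bits in `S ∩ η`. -/
noncomputable def qps_c (S η : Finset (Fin n)) (v : Cube n) : ℝ := ∏ i ∈ S ∩ η, qps_s (v i)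

theorem qps_s_xor (a b : Bool) : Dnf.sg (xor a b) = Dnf.sg a * qps_s b := by
  cases a <;> cases b <;> simp [Dnf.sg, qps_s]

theorem qps_ch_mq (S η : Finset (Fin n)) (y v : Cube n) :
    ch S (mq y η v) = ch S y * qps_c S η v := by
  unfold ch mq qps_c
  simp_rw [qps_s_xor]
  rw [prod_mul_distrib]
  congr 1
  rw [← filter_mem_eq_inter, prod_filter]
  refine prod_congr rfl fun i _ => ?_
  by_cases h : i ∈ η <;> simp [h, qps_s]

theorem qps_mq_mq (y η v) : mq (n := n) (mq y η v) η v = y := by
  funext i
  unfold mq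
  simp

theorem qps_E_mq (η : Finset (Fin n)) (v : Cube n) (f : Cube n → ℝ) :
    E (fun y => f (mq y η v)) = E f := by
  unfold E
  congr 1
  have hinv : Function.Involutive fun y : Cube n => mq y η v := fun y => qps_mq_mq y η v
  exact hinv.bijective.sum_comp f

theorem qps_fc_mq (η : Finset (Fin n)) (v : Cube n) (f : Cube n → ℝ) (S : Finset (Fin n)) :
    fc (fun y => f (mq y η v)) S = qps_c S η v * fc f S := by
  unfold fc
  have h := qps_E_mq η v (fun y => f y * ch S (mq y η v))
  simp only [qps_mq_mq] at h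
  rw [h, ← Dnf.E_smul]
  congr 1
  funext y
  rw [qps_ch_mq]
  ring

theorem qps_plancherel (f g : Cube n → ℝ) : E (fun x => f x * g x) = ∑ S, fc f S * fc g S := by
  have h : (fun x => f x * g x) = fun x => ∑ S, fc f S * (g x * ch S x) := by
    funext x
    have h2 : f x * g x = g x * ∑ S, fc f S * ch S x := by
      rw [← Dnf.inversion, mul_comm]
    rw [h2, mul_sum]
    refine sum_congr rfl fun S _ => ?_
    ring
  rw [h, Dnf.E_sum]
  refine sum_congr rfl fun S _ => ?_
  rw [Dnf.E_smul]
  rfl

theorem qps_corr (η : Finset (Fin n)) (v v' : Cube n) (f : Cube n → ℝ) :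
    E (fun y => f (mq y η v) * f (mq y η v')) =
      ∑ S, fc f S ^ 2 * (qps_c S η v * qps_c S η v') := by
  rw [qps_plancherel (fun y => f (mq y η v)) (fun y => f (mq y η v'))]
  refine sum_congr rfl fun S _ => ?_
  rw [qps_fc_mq, qps_fc_mq]
  ring

/-- The sign of the inner product. -/
theorem qps_s_ip {c : ℕ} (b h : Fin c → Bool) :
    qps_s (ip b h) = ∏ q, if b q = true then (if h q = true then (-1 : ℝ) else 1) else 1 := by
  have h1 : (∏ q, if b q = true then (if h q = true then (-1 : ℝ) else 1) else 1) =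
      ∏ q, if (b q = true ∧ h q = true) then (-1 : ℝ) else 1 := by
    refine prod_congr rfl fun q _ => ?_
    cases b q <;> cases h q <;> simp
  rw [h1, prod_ite, prod_const, prod_const_one, mul_one]
  unfold qps_s ip
  rcases Nat.even_or_odd (univ.filter fun q => b q = true ∧ h q = true).card with he | ho
  · rw [he.neg_one_pow]
    have := Nat.even_iff.1 he
    simp [this]
  · rw [ho.neg_one_pow]
    have := Nat.odd_iff.1 ho
    simp [this]

/-- The average over `b`. -/
theorem qps_avg_c {c : ℕ} (S η : Finset (Fin n)) (h : Fin n → Fin c → Bool) :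
    (avg fun b : Fin c → Bool => qps_c S η (uv b h)) =
      one (∀ q : Fin c, ((S ∩ η).filter fun i => h i q = true).card % 2 = 0) := by
  have h1 : ∀ b : Fin c → Bool, qps_c S η (uv b h) =
      ∏ q, (if b q = true then (-1 : ℝ) ^ ((S ∩ η).filter fun i => h i q = true).card else 1) := by
    intro b
    unfold qps_c uv
    simp_rw [qps_s_ip]
    rw [prod_comm]
    refine prod_congr rfl fun q _ => ?_
    by_cases hb : b q = true
    · simp only [hb, if_true]
      rw [prod_ite, prod_const, prod_const_one, mul_one]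
    · simp [hb]
  simp_rw [h1]
  unfold avg
  have h2 := (prod_univ_sum (fun _ : Fin c => (univ : Finset Bool))
    (fun q b => (if b = true then (-1 : ℝ) ^ ((S ∩ η).filter fun i => h i q = true).card
      else 1))).symm
  rw [Fintype.piFinset_univ] at h2
  rw [h2]
  have h3 : ∀ q : Fin c, ∑ b : Bool, (if b = true then (-1 : ℝ) ^ ((S ∩ η).filter fun i =>
      h i q = true).card else 1) =
      2 * one (((S ∩ η).filter fun i => h i q = true).card % 2 = 0) := by
    intro q
    rw [Fintype.sum_bool]
    rcases Nat.even_or_odd ((S ∩ η).filter fun i => h i q = true).card with he | ho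
    · rw [he.neg_one_pow, Dnf.one_true (Nat.even_iff.1 he)]
      norm_num
    · have h4 : ¬ (((S ∩ η).filter fun i => h i q = true).card % 2 = 0) := by
        rw [Nat.odd_iff.1 ho]; norm_num
      rw [ho.neg_one_pow, Dnf.one_false h4]
      norm_num
  simp_rw [h3]
  rw [prod_mul_distrib, prod_const, card_univ, Fintype.card_fin]
  have h5 : (Fintype.card (Fin c → Bool) : ℝ) = 2 ^ c := by
    simp
  rw [h5, mul_comm, mul_div_assoc, div_self (by positivity), mul_one]
  by_cases hq : ∀ q : Fin c, ((S ∩ η).filter fun i => h i q = true).card % 2 = 0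
  · rw [Dnf.one_true hq]
    exact prod_eq_one fun q _ => Dnf.one_true (hq q)
  · rw [Dnf.one_false hq]
    push Not at hq
    obtain ⟨q, hq⟩ := hq
    exact prod_eq_zero (mem_univ q) (Dnf.one_false hq)

/-- The average over the pairs `b`, `b'`. -/
theorem qps_avg_corr {c : ℕ} (η : Finset (Fin n)) (h : Fin n → Fin c → Bool) (f : Cube n → ℝ) :
    (avg fun b : Fin c → Bool => avg fun b' : Fin c → Bool =>
      E fun y => f (mq y η (uv b h)) * f (mq y η (uv b' h))) =
      ∑ S, fc f S ^ 2 * one (∀ q : Fin c, ((S ∩ η).filter fun i => h i q = true).card % 2 = 0) := by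
  simp_rw [qps_corr]
  have h0 : (avg fun b : Fin c → Bool => avg fun b' : Fin c → Bool =>
      ∑ S, fc f S ^ 2 * (qps_c S η (uv b h) * qps_c S η (uv b' h))) =
      ∑ S, fc f S ^ 2 * (avg fun b : Fin c → Bool => avg fun b' : Fin c → Bool =>
        qps_c S η (uv b h) * qps_c S η (uv b' h)) := by
    simp_rw [avg_sum]
    refine sum_congr rfl fun S _ => ?_
    rw [← avg_mul_left]
    congr 1
    funext b
    rw [avg_mul_left]
  rw [h0]
  have h1 : ∀ S : Finset (Fin n), (avg fun b : Fin c → Bool => avg fun b' : Fin c → Bool =>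
      qps_c S η (uv b h) * qps_c S η (uv b' h)) =
      one (∀ q : Fin c, ((S ∩ η).filter fun i => h i q = true).card % 2 = 0) := by
    intro S
    simp_rw [avg_mul_left, qps_avg_c]
    have h2 : (fun b : Fin c → Bool => qps_c S η (uv b h) *
        one (∀ q : Fin c, ((S ∩ η).filter fun i => h i q = true).card % 2 = 0)) =
        fun b => one (∀ q : Fin c, ((S ∩ η).filter fun i => h i q = true).card % 2 = 0) *
          qps_c S η (uv b h) := by
      funext b
      ring
    rw [h2, avg_mul_left, qps_avg_c]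
    by_cases hp : (∀ q : Fin c, ((S ∩ η).filter fun i => h i q = true).card % 2 = 0)
    · rw [Dnf.one_true hp, mul_one]
    · rw [Dnf.one_false hp, mul_zero]
  exact sum_congr rfl fun S _ => by rw [h1]

/-- The coefficients off `η`. -/
theorem qps_off (η : Finset (Fin n)) (f : Cube n → ℝ) :
    ∑ S, (if S ∩ η = ∅ then fc f S ^ 2 else 0) ≤
      E fun z => (E fun x => f (mix η x z)) ^ 2 := by
  rw [Dnf.parseval (fun z => E fun x => f (mix η x z))]
  refine sum_le_sum fun S _ => ?_
  split_ifs with h
  · refine le_of_eq ?_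
    congr 1
    unfold fc
    rw [← Dnf.E_mix η (fun y => f y * ch S y)]
    have h1 : ∀ x z : Cube n, ch S (mix η x z) = ch S z := by
      intro x z
      unfold ch Dnf.mix
      refine prod_congr rfl fun i hi => ?_
      have : i ∉ η := fun hη => by
        have := mem_inter.2 ⟨hi, hη⟩
        rw [h] at this
        exact absurd this (notMem_empty i)
      rw [if_neg this]
    simp_rw [h1]
    have h2 : E (fun x => E fun z => f (mix η x z) * ch S z) =
        E (fun z => E fun x => f (mix η x z) * ch S z) := by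
      unfold E
      simp_rw [← sum_div]
      rw [sum_comm]
    rw [h2]
    congr 1
    funext z
    have h3 : (fun x => f (mix η x z) * ch S z) = fun x => ch S z * f (mix η x z) := by
      funext x
      ring
    rw [h3, Dnf.E_smul, mul_comm]
  · positivity

theorem qps_re (F : Cube n → ℂ) : (av F).re = E fun x => (F x).re := by
  unfold av E
  have h : (Fintype.card (Cube n) : ℂ) = ((2 ^ n : ℝ) : ℂ) := by
    simp
  rw [h, Complex.div_ofReal_re, Complex.re_sum]

theorem qps_im (F : Cube n → ℂ) : (av F).im = E fun x => (F x).im := by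
  unfold av E
  have h : (Fintype.card (Cube n) : ℂ) = ((2 ^ n : ℝ) : ℂ) := by
    simp
  rw [h, Complex.div_ofReal_im, Complex.im_sum]

theorem parseval_step (η : Finset (Fin n)) {c : ℕ} {Ω : Type} [Fintype Ω] [Nonempty Ω]
    (H : Ω → Fin n → Fin c → Bool) {δ : ℝ} (hδ : 0 ≤ δ) (hH : Hs δ H) (F : Cube n → ℂ)
    (hF : ∀ x, ‖F x‖ = 1) :
    (avg fun ω => avg fun b : Fin c → Bool => avg fun b' : Fin c → Bool =>
      (av fun y : Cube n => F (mq y η (uv b (H ω))) *
        (starRingEnd ℂ) (F (mq y η (uv b' (H ω))))).re) ≤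
      (E fun z => ‖av fun x : Cube n => F (mix η x z)‖ ^ 2) + δ := by
  -- real and imaginary parts
  have h1 : ∀ v v' : Cube n, (av fun y : Cube n => F (mq y η v) *
      (starRingEnd ℂ) (F (mq y η v'))).re =
      (E fun y => (F (mq y η v)).re * (F (mq y η v')).re) +
      (E fun y => (F (mq y η v)).im * (F (mq y η v')).im) := by
    intro v v'
    rw [qps_re, ← Dnf.E_add]
    congr 1
    funext y
    rw [Complex.mul_re, Complex.conj_re, Complex.conj_im]
    ring
  simp_rw [h1]
  simp_rw [avg_add]
  have h2 := fun ω => qps_avg_corr η (H ω) (fun x => (F x).re)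
  have h3 := fun ω => qps_avg_corr η (H ω) (fun x => (F x).im)
  simp_rw [h2, h3, avg_sum, avg_mul_left]
  -- the bound for each coefficient
  have h4 : ∀ S : Finset (Fin n), (avg fun ω => one (∀ q : Fin c,
      ((S ∩ η).filter fun i => H ω i q = true).card % 2 = 0)) ≤
      (if S ∩ η = ∅ then 1 else 0) + δ := by
    intro S
    split_ifs with h
    · have h5 : (avg fun ω => one (∀ q : Fin c,
        ((S ∩ η).filter fun i => H ω i q = true).card % 2 = 0)) ≤ avg fun _ : Ω => (1 : ℝ) :=
        avg_mono fun ω => Dnf.one_le _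
      rw [avg_const] at h5
      linarith
    · have := hH (S ∩ η) h
      linarith
  have h5 : ∀ f : Cube n → ℝ, ∑ S, fc f S ^ 2 * (avg fun ω => one (∀ q : Fin c,
      ((S ∩ η).filter fun i => H ω i q = true).card % 2 = 0)) ≤
      (E fun z => (E fun x => f (mix η x z)) ^ 2) + δ * E fun x => f x ^ 2 := by
    intro f
    rw [Dnf.parseval f, mul_sum]
    refine le_trans ?_ (add_le_add_left (qps_off η f) _)
    rw [← sum_add_distrib]
    refine sum_le_sum fun S _ => ?_
    have h6 := mul_le_mul_of_nonneg_left (h4 S) (sq_nonneg (fc f S))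
    refine h6.trans (le_of_eq ?_)
    split_ifs <;> ring
  refine (add_le_add (h5 fun x => (F x).re) (h5 fun x => (F x).im)).trans (le_of_eq ?_)
  have h6 : (E fun x => (F x).re ^ 2) + (E fun x => (F x).im ^ 2) = 1 := by
    rw [← Dnf.E_add, ← Dnf.E_const (n := n) 1]
    congr 1
    funext x
    have := hF x
    have h7 : ‖F x‖ ^ 2 = 1 := by rw [this, one_pow]
    rw [← Complex.normSq_eq_norm_sq, Complex.normSq_apply] at h7
    rw [← h7]
    ring
  have h7 : (E fun z => ‖av fun x : Cube n => F (mix η x z)‖ ^ 2) =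
      (E fun z => (E fun x => (F (mix η x z)).re) ^ 2) +
      E fun z => (E fun x => (F (mix η x z)).im) ^ 2 := by
    rw [← Dnf.E_add]
    congr 1
    funext z
    rw [← Complex.normSq_eq_norm_sq, Complex.normSq_apply, qps_re, qps_im]
    ring
  rw [h7]
  linear_combination δ * h6

end Pool.Agent.MP_ca1109_lc.Xp
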