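import Pool.Agent.MP_ca1109_lc.Xp.Defs
import Pool.Agent.MP_ca1109_lc.Xor.FN

/-!
# Finner's inequality for families of monomials
-/

namespace Pool.Agent.MP_ca1109_lc.Xp

open Finset Pool.Agent.MP_ca1109_lc.Dnf
open Pool.Agent.MP_ca1109_lc

variable {n : ℕ}

theorem avg_E (f : Cube n → ℝ) : avg f = E f := by
  unfold avg E
  congr 1
  simp [Cube]

/-- Moments of the number of true monomials. -/
theorem mgf_mon {r : ℕ} (hr : 0 < r) {M : Finset (Finset (Fin n))} (h : Rd r M) {θ : ℝ} (hθ : 0 ≤ θ) :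
    E (fun x => ∏ m ∈ M, (1 + θ * mon m x)) ≤ Real.exp (((1 + θ) ^ r - 1) / r * lam M) :=
  Xor.mgf r hr M (fun m => (⟨m, fun _ => true⟩ : Term n)) h θ hθ

theorem mgf4 {r : ℕ} (hr : 0 < r) {M : Finset (Finset (Fin n))} (h : Rd r M) :
    E (fun x => ∏ m ∈ M, (1 + 4 * mon m x)) ≤ Real.exp ((5 ^ r - 1) / r * lam M) := by
  refine (mgf_mon hr h (θ := 4) (by norm_num)).trans (le_of_eq ?_)
  norm_num

/-- Finner's inequality for functions of disjoint classes of monomials. -/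
theorem finner_mon {κ : Type*} [DecidableEq κ] {r : ℕ} (hr : 0 < r) {M : Finset (Finset (Fin n))}
    (h : Rd r M) (c : Finset (Fin n) → κ) (K : Finset κ) (G : κ → Cube n → ℝ)
    (h0 : ∀ a ∈ K, ∀ x, 0 ≤ G a x)
    (hon : ∀ a ∈ K, On ((M.filter fun m => c m = a).biUnion id) (G a)) :
    E (fun x => ∏ a ∈ K, G a x) ≤ ∏ a ∈ K, (E fun x => G a x ^ r) ^ ((r : ℝ)⁻¹) :=
  Xor.finner_class r hr M (fun m => (⟨m, fun _ => true⟩ : Term n)) h c K G h0 hon

end Pool.Agent.MP_ca1109_lc.Xp
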