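import Pool.Agent.MP_ca1109_lc.Xp.Defs

/-!
# The linear part: the average over the values of the hashed bits
-/

namespace Pool.Agent.MP_ca1109_lc.Xp

open Finset Pool.Agent.MP_ca1109_lc.Mpg
open Pool.Agent.MP_ca1109_lc.Dnf (Cube ch one)

variable {n : ℕ}

/-- Averages of products of functions of different bits. -/
theorem av_prod {B : ℕ} {ι : Type*} (A : Finset ι) (h : ι → Fin B)
    (hinj : ∀ i ∈ A, ∀ j ∈ A, h i = h j → i = j) (G : ι → Bool → ℂ) :
    av (fun u : Fin B → Bool => ∏ i ∈ A, G i (u (h i))) =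
      ∏ i ∈ A, (G i false + G i true) / 2 := by
  classical
  have h1 : ∀ u : Fin B → Bool, ∏ i ∈ A, G i (u (h i)) =
      ∏ b : Fin B, ∏ i ∈ A.filter (fun i => h i = b), G i (u b) := by
    intro u
    rw [← Finset.prod_fiberwise A h]
    refine Finset.prod_congr rfl fun b _ => Finset.prod_congr rfl fun i hi => ?_
    rw [(Finset.mem_filter.1 hi).2]
  have h2 : ∀ b : Fin B, ∑ c : Bool, ∏ i ∈ A.filter (fun i => h i = b), G i c =
      2 * ∏ i ∈ A.filter (fun i => h i = b), (G i false + G i true) / 2 := by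
    intro b
    by_cases hb : (A.filter fun i => h i = b) = ∅
    · rw [hb]
      simp
    · obtain ⟨i, hi⟩ := Finset.nonempty_iff_ne_empty.2 hb
      have hs : (A.filter fun i => h i = b) = {i} := by
        refine Finset.eq_singleton_iff_unique_mem.2 ⟨hi, fun j hj => ?_⟩
        obtain ⟨hjA, hjb⟩ := Finset.mem_filter.1 hj
        obtain ⟨hiA, hib⟩ := Finset.mem_filter.1 hi
        exact hinj j hjA i hiA (hjb.trans hib.symm)
      rw [hs]
      simp only [Finset.prod_singleton, Fintype.sum_bool]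
      ring
  have h3 : ∑ u : Fin B → Bool, ∏ b : Fin B, ∏ i ∈ A.filter (fun i => h i = b), G i (u b) =
      ∏ b : Fin B, ∑ c : Bool, ∏ i ∈ A.filter (fun i => h i = b), G i c := by
    rw [Finset.prod_univ_sum, Fintype.piFinset_univ]
  unfold av
  rw [Finset.sum_congr rfl fun u _ => h1 u, h3, Finset.prod_congr rfl fun b _ => h2 b,
    Finset.prod_mul_distrib, Finset.prod_fiberwise A h]
  simp only [Finset.prod_const, Finset.card_univ, Fintype.card_fin, Fintype.card_pi,
    Fintype.card_bool]
  push_cast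
  field_simp

open Classical in
/-- The factor of the alive variable `i`. -/
noncomputable def Df (ζ : Finset (Fin n) → ℂ) (M : Finset (Finset (Fin n))) (i : Fin n)
    (z : Cube n) : ℂ := ∏ m ∈ M.filter fun m => i ∈ m ∧ Tr (m.erase i) z, ζ m

open Classical in
/-- On a point where no monomial has two alive variables, `pr` is a product over the variables. -/
theorem pr_mv {B : ℕ} {M : Finset (Finset (Fin n))} {η : Finset (Fin n)} {z : Cube n}
    (hL : Lin M η z) (ζ : Finset (Fin n) → ℂ) (h : Fin n → Fin B) (u : Fin B → Bool) :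
    pr ζ M (mv z η h u) =
      (∏ m ∈ M.filter fun m => Disjoint m η ∧ Tr m z, ζ m) *
        ∏ i ∈ η.filter fun i => Al M i z, if xor (z i) (u (h i)) then Df ζ M i z else 1 := by
  have hpair : ∀ m ∈ M, ∀ i ∈ m, ∀ j ∈ m, i ∈ η → j ∈ η → Tr (m.erase i) z → j = i := by
    intro m hm i him j hjm hi hj hT
    by_contra hne
    refine hL m hm {j, i} ?_ ?_ ?_ fun v hv => hT v ?_
    · intro v hv
      rcases Finset.mem_insert.1 hv with h | h
      · exact h ▸ hjm
      · exact (Finset.mem_singleton.1 h) ▸ him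
    · rw [Finset.card_pair hne]
    · intro v hv
      rcases Finset.mem_insert.1 hv with h | h
      · exact h ▸ hj
      · exact (Finset.mem_singleton.1 h) ▸ hi
    · simp only [Finset.mem_sdiff, Finset.mem_insert, Finset.mem_singleton, not_or] at hv
      exact Finset.mem_erase.2 ⟨hv.2.2, hv.1⟩
  have hout : ∀ j, j ∉ η → mv z η h u j = z j := by
    intro j hj
    simp [mv, hj]
  have hin : ∀ j, j ∈ η → mv z η h u j = xor (z j) (u (h j)) := by
    intro j hj
    simp [mv, hj]
  have key : ∀ m ∈ M, (if Tr m (mv z η h u) then ζ m else 1) =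
      (if Disjoint m η ∧ Tr m z then ζ m else 1) *
        ∏ i ∈ η.filter fun i => Al M i z,
          if i ∈ m ∧ Tr (m.erase i) z then (if xor (z i) (u (h i)) then ζ m else 1) else 1 := by
    intro m hm
    by_cases hd : Disjoint m η
    · have h1 : ∀ i ∈ η.filter fun i => Al M i z,
          (if i ∈ m ∧ Tr (m.erase i) z then (if xor (z i) (u (h i)) then ζ m else 1) else 1) =
            (1 : ℂ) := by
        intro i hi
        rw [if_neg]
        rintro ⟨him, -⟩
        exact (Finset.disjoint_left.1 hd) him (Finset.mem_filter.1 hi).1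
      rw [Finset.prod_congr rfl h1, Finset.prod_const_one, mul_one]
      have h2 : Tr m (mv z η h u) ↔ Disjoint m η ∧ Tr m z := by
        rw [and_iff_right hd]
        refine forall₂_congr fun j hj => ?_
        rw [hout j fun hjη => (Finset.disjoint_left.1 hd) hj hjη]
      simp only [h2]
    · have h0 : ¬ (Disjoint m η ∧ Tr m z) := fun hc => hd hc.1
      rw [if_neg h0, one_mul]
      obtain ⟨i₀, him₀, hiη₀⟩ := Finset.not_disjoint_iff.1 hd
      by_cases hT : Tr (m.erase i₀) z
      · have hA : i₀ ∈ η.filter fun i => Al M i z :=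
          Finset.mem_filter.2 ⟨hiη₀, m, hm, him₀, hT⟩
        rw [Finset.prod_eq_single i₀]
        · have hpp : i₀ ∈ m ∧ Tr (m.erase i₀) z := ⟨him₀, hT⟩
          rw [if_pos hpp]
          have h2 : Tr m (mv z η h u) ↔ xor (z i₀) (u (h i₀)) = true := by
            rw [← hin i₀ hiη₀]
            constructor
            · intro hh
              exact hh i₀ him₀
            · intro hh j hj
              by_cases hji : j = i₀
              · rw [hji]; exact hh
              · have hjη : j ∉ η := fun hjη => hji (hpair m hm i₀ him₀ j hj hiη₀ hjη hT)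
                rw [hout j hjη]
                exact hT j (Finset.mem_erase.2 ⟨hji, hj⟩)
          simp only [h2]
        · intro i hi hne
          rw [if_neg]
          rintro ⟨him, -⟩
          exact hne (hpair m hm i₀ him₀ i him hiη₀ (Finset.mem_filter.1 hi).1 hT)
        · intro hc
          exact absurd hA hc
      · have h1 : ∀ i ∈ η.filter fun i => Al M i z,
            (if i ∈ m ∧ Tr (m.erase i) z then (if xor (z i) (u (h i)) then ζ m else 1) else 1) =
              (1 : ℂ) := by
          intro i hi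
          rw [if_neg]
          rintro ⟨him, hTi⟩
          have hi0 : i₀ = i := hpair m hm i him i₀ him₀ (Finset.mem_filter.1 hi).1 hiη₀ hTi
          rw [hi0] at hT
          exact hT hTi
        rw [Finset.prod_congr rfl h1, Finset.prod_const_one, if_neg]
        intro hh
        have h3 : Tr (m \ (m ∩ η)) z := by
          intro j hj
          obtain ⟨hjm, hjn⟩ := Finset.mem_sdiff.1 hj
          have hjη : j ∉ η := fun hjη => hjn (Finset.mem_inter.2 ⟨hjm, hjη⟩)
          have := hh j hjm
          rwa [hout j hjη] at this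
        by_cases hc : 2 ≤ (m ∩ η).card
        · exact hL m hm (m ∩ η) Finset.inter_subset_left hc Finset.inter_subset_right h3
        · apply hT
          intro j hj
          obtain ⟨hji, hjm⟩ := Finset.mem_erase.1 hj
          refine h3 j (Finset.mem_sdiff.2 ⟨hjm, fun hji2 => hc ?_⟩)
          have hsub : ({j, i₀} : Finset (Fin n)) ⊆ m ∩ η := by
            intro v hv
            rcases Finset.mem_insert.1 hv with h | h
            · exact h ▸ hji2
            · exact (Finset.mem_singleton.1 h) ▸ Finset.mem_inter.2 ⟨him₀, hiη₀⟩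
          calc 2 = ({j, i₀} : Finset (Fin n)).card := (Finset.card_pair hji).symm
            _ ≤ (m ∩ η).card := Finset.card_le_card hsub
  unfold pr
  rw [Finset.prod_congr rfl key, Finset.prod_mul_distrib, Finset.prod_filter, Finset.prod_comm]
  congr 1
  refine Finset.prod_congr rfl fun i _ => ?_
  unfold Df
  rw [Finset.prod_filter]
  by_cases hx : xor (z i) (u (h i)) = true
  · simp only [hx, if_true]
  · simp only [hx]
    simp

/-- The average over the hashed bits is small if there are many active variables. -/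
theorem norm_av_pr {B : ℕ} {M : Finset (Finset (Fin n))} {η : Finset (Fin n)} {z : Cube n}
    {h : Fin n → Fin B} {ζ : Finset (Fin n) → ℂ} {ρ : ℝ} (hL : Lin M η z) (hI : Inj M η h z)
    (h1 : ∀ m ∈ M, ‖ζ m‖ ≤ 1) (hρ : ∀ m ∈ M, ‖1 + ζ m‖ / 2 ≤ ρ) :
    ‖av fun u : Fin B → Bool => pr ζ M (mv z η h u)‖ ≤ ρ ^ nac M η z := by
  classical
  set A := η.filter fun i => Al M i z with hA
  have hinj : ∀ i ∈ A, ∀ j ∈ A, h i = h j → i = j := fun i hi j hj hij =>
    hI i (Finset.mem_filter.1 hi).1 j (Finset.mem_filter.1 hj).1 (Finset.mem_filter.1 hi).2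
      (Finset.mem_filter.1 hj).2 hij
  have h2 : (av fun u : Fin B → Bool => pr ζ M (mv z η h u)) =
      (∏ m ∈ M.filter fun m => Disjoint m η ∧ Tr m z, ζ m) * ∏ i ∈ A, (1 + Df ζ M i z) / 2 := by
    have h3 : (fun u : Fin B → Bool => pr ζ M (mv z η h u)) = fun u =>
        (∏ m ∈ M.filter fun m => Disjoint m η ∧ Tr m z, ζ m) *
          ∏ i ∈ A, if xor (z i) (u (h i)) then Df ζ M i z else 1 := by
      funext u
      exact pr_mv hL ζ h u
    have h4 := av_prod A h hinj fun i c => if xor (z i) c then Df ζ M i z else 1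
    have h5 : (av fun u : Fin B → Bool => (∏ m ∈ M.filter fun m => Disjoint m η ∧ Tr m z, ζ m) *
          ∏ i ∈ A, if xor (z i) (u (h i)) then Df ζ M i z else 1) =
        (∏ m ∈ M.filter fun m => Disjoint m η ∧ Tr m z, ζ m) *
          av fun u : Fin B → Bool => ∏ i ∈ A, if xor (z i) (u (h i)) then Df ζ M i z else 1 := by
      unfold av
      rw [← Finset.mul_sum, mul_div_assoc]
    rw [h3, h5, h4]
    congr 1
    refine Finset.prod_congr rfl fun i _ => ?_
    cases z i <;> simp [add_comm]
  have hD : ∀ i, ‖Df ζ M i z‖ ≤ 1 := by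
    intro i
    unfold Df
    rw [norm_prod]
    exact Finset.prod_le_one (fun m _ => norm_nonneg _) fun m hm => h1 m (Finset.mem_filter.1 hm).1
  have hfac : ∀ i, ‖(1 + Df ζ M i z) / 2‖ ≤ 1 := by
    intro i
    rw [norm_div, RCLike.norm_ofNat, div_le_one (by norm_num)]
    calc ‖1 + Df ζ M i z‖ ≤ ‖(1 : ℂ)‖ + ‖Df ζ M i z‖ := norm_add_le _ _
      _ ≤ 2 := by
        rw [norm_one]
        linarith [hD i]
  have hact : ∀ i, Ac M i z → ‖(1 + Df ζ M i z) / 2‖ ≤ ρ := by
    rintro i ⟨-, m, ⟨hm, him, hT⟩, huniq⟩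
    have : Df ζ M i z = ζ m := by
      unfold Df
      have hs : (M.filter fun m => i ∈ m ∧ Tr (m.erase i) z) = {m} := by
        refine Finset.eq_singleton_iff_unique_mem.2
          ⟨Finset.mem_filter.2 ⟨hm, him, hT⟩, fun m' hm' => ?_⟩
        exact huniq m' (Finset.mem_filter.1 hm')
      rw [hs, Finset.prod_singleton]
    rw [this, norm_div, RCLike.norm_ofNat]
    exact hρ m hm
  rw [h2, norm_mul, norm_prod, norm_prod]
  have hc : ∏ m ∈ M.filter (fun m => Disjoint m η ∧ Tr m z), ‖ζ m‖ ≤ 1 :=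
    Finset.prod_le_one (fun m _ => norm_nonneg _) fun m hm => h1 m (Finset.mem_filter.1 hm).1
  have hsub : (η.filter fun i => Ac M i z) ⊆ A := by
    intro i hi
    obtain ⟨hiη, -, m, ⟨hm, him, hT⟩, -⟩ := Finset.mem_filter.1 hi
    exact Finset.mem_filter.2 ⟨hiη, m, hm, him, hT⟩
  have hp : ∏ i ∈ A, ‖(1 + Df ζ M i z) / 2‖ ≤ ρ ^ nac M η z := by
    rw [← Finset.prod_sdiff hsub]
    have ha : ∏ i ∈ A \ (η.filter fun i => Ac M i z), ‖(1 + Df ζ M i z) / 2‖ ≤ 1 :=
      Finset.prod_le_one (fun i _ => norm_nonneg _) fun i _ => hfac i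
    have hb : ∏ i ∈ η.filter (fun i => Ac M i z), ‖(1 + Df ζ M i z) / 2‖ ≤ ρ ^ nac M η z := by
      unfold nac
      refine (Finset.prod_le_prod (fun i _ => norm_nonneg _) fun i hi =>
        hact i (Finset.mem_filter.1 hi).2).trans (le_of_eq ?_)
      rw [Finset.prod_const]
    exact (mul_le_of_le_one_left (Finset.prod_nonneg fun i _ => norm_nonneg _) ha).trans hb
  exact (mul_le_of_le_one_left (Finset.prod_nonneg fun i _ => norm_nonneg _) hc).trans hp

theorem pointwise {B : ℕ} (M : Finset (Finset (Fin n))) (η : Finset (Fin n)) (h : Fin n → Fin B)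
    (z : Cube n) (ζ : Finset (Fin n) → ℂ) {ρ : ℝ} (hζ : ∀ m ∈ M, ‖ζ m‖ = 1) (hρ0 : 0 ≤ ρ)
    (hρ1 : ρ ≤ 1) (hρ : ∀ m ∈ M, ‖(1 + ζ m) / 2‖ ≤ ρ) (hL : Lin M η z) (hI : Inj M η h z) :
    ‖av fun u : Fin B → Bool => pr ζ M (mv z η h u)‖ ≤ ρ ^ nac M η z := by
  refine norm_av_pr hL hI (fun m hm => (hζ m hm).le) fun m hm => ?_
  have := hρ m hm
  rwa [norm_div, RCLike.norm_ofNat] at this

end Pool.Agent.MP_ca1109_lc.Xp
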