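import Pool.Agent.MP_ca1109_lc.Xp.FN

/-!
# Finner's inequality: the exponential bound
-/

namespace Pool.Agent.MP_ca1109_lc.Xp

open Finset Pool.Agent.H66 Pool.Agent.MP_ca1109_lc.Mpg Pool.Agent.MP_ca1109_lc.Agp
open Pool.Agent.MP_ca1109_lc.Dnf (Cube ch one)

variable {n : ℕ}

theorem finner_exp {r : ℕ} (hr : 1 ≤ r) (M : Finset (Finset (Fin n))) (hM : Rd r M) :
    avg (fun x => ∏ m ∈ M, (1 + 4 * mon m x)) ≤ Real.exp (5 ^ r * lam M) := by
  rw [avg_E]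
  refine (mgf4 hr hM).trans (Real.exp_le_exp.2 ?_)
  have h0 : 0 ≤ lam M := Finset.sum_nonneg fun _ _ => by positivity
  refine mul_le_mul_of_nonneg_right ?_ h0
  have h1 : (1 : ℝ) ≤ r := by exact_mod_cast hr
  have h2 : (0 : ℝ) < 5 ^ r := by positivity
  rw [div_le_iff₀ (by linarith)]
  nlinarith

end Pool.Agent.MP_ca1109_lc.Xp
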