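import Pool.Agent.MP_ca1109_lc.Xp.TR
import Pool.Agent.MP_ca1109_lc.Xp.FX
import Pool.Agent.MP_ca1109_lc.Xp.SM

/-!
# Small mass: the truncated expansions of the dyadic classes of widths
-/

namespace Pool.Agent.MP_ca1109_lc.Xp

open Finset Pool.Agent.H66 Pool.Agent.MP_ca1109_lc.Mpg Pool.Agent.MP_ca1109_lc.Agp
open Pool.Agent.MP_ca1109_lc.Dnf (Cube ch one)

variable {n : ℕ}

/-- The monomials whose width is between `2 ^ k` and `2 ^ (k + 1)`. -/
def cls (M : Finset (Finset (Fin n))) (k : ℕ) : Finset (Finset (Fin n)) :=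
  M.filter fun m => Nat.log 2 m.card = k

theorem ci_prod_close {T : Finset ℕ} {G S : ℕ → ℂ} {e : ℕ → ℝ} (he : ∀ k ∈ T, 0 ≤ e k)
    (hG : ∀ k ∈ T, ‖G k‖ = 1) (hS : ∀ k ∈ T, ‖G k - S k‖ ≤ e k) :
    ‖∏ k ∈ T, G k - ∏ k ∈ T, S k‖ ≤ ∏ k ∈ T, (1 + e k) - 1 := by
  classical
  induction T using Finset.induction_on with
  | empty => simp
  | insert a T ha ih =>
    have he' : ∀ k ∈ T, 0 ≤ e k := fun k hk => he k (Finset.mem_insert_of_mem hk)
    have hG' : ∀ k ∈ T, ‖G k‖ = 1 := fun k hk => hG k (Finset.mem_insert_of_mem hk)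
    have hS' : ∀ k ∈ T, ‖G k - S k‖ ≤ e k := fun k hk => hS k (Finset.mem_insert_of_mem hk)
    have h1 := ih he' hG' hS'
    have hg : ‖∏ k ∈ T, G k‖ = 1 := by
      rw [norm_prod]
      exact Finset.prod_eq_one hG'
    have h2 : ‖∏ k ∈ T, S k‖ ≤ ∏ k ∈ T, (1 + e k) := by
      have h3 : ‖∏ k ∈ T, S k‖ ≤ ‖∏ k ∈ T, G k‖ + ‖∏ k ∈ T, G k - ∏ k ∈ T, S k‖ := by
        have := norm_sub_le (∏ k ∈ T, G k) (∏ k ∈ T, G k - ∏ k ∈ T, S k)
        simpa using this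
      rw [hg] at h3
      linarith
    rw [Finset.prod_insert ha, Finset.prod_insert ha, Finset.prod_insert ha]
    have ha1 := hG a (Finset.mem_insert_self _ _)
    have ha2 := hS a (Finset.mem_insert_self _ _)
    have ha0 := he a (Finset.mem_insert_self _ _)
    calc ‖G a * ∏ k ∈ T, G k - S a * ∏ k ∈ T, S k‖
        = ‖G a * (∏ k ∈ T, G k - ∏ k ∈ T, S k) + (G a - S a) * ∏ k ∈ T, S k‖ := by ring_nf
      _ ≤ ‖G a * (∏ k ∈ T, G k - ∏ k ∈ T, S k)‖ + ‖(G a - S a) * ∏ k ∈ T, S k‖ :=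
          norm_add_le _ _
      _ = ‖∏ k ∈ T, G k - ∏ k ∈ T, S k‖ + ‖G a - S a‖ * ‖∏ k ∈ T, S k‖ := by
          rw [norm_mul, norm_mul, ha1, one_mul]
      _ ≤ (∏ k ∈ T, (1 + e k) - 1) + e a * ∏ k ∈ T, (1 + e k) :=
          add_le_add h1 (mul_le_mul ha2 h2 (norm_nonneg _) ha0)
      _ = (1 + e a) * ∏ k ∈ T, (1 + e k) - 1 := by ring

theorem lam_nonneg' (M : Finset (Finset (Fin n))) : 0 ≤ lam M := by
  unfold lam
  positivity

theorem ci_avg_prod {r : ℕ} {M : Finset (Finset (Fin n))} (hM : Rd r M) (S : Finset ℕ)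
    (D : ℕ → ℕ) : avg (fun x => ∏ k ∈ S, rem (cls M k) (D k) x) ≤
      ∏ k ∈ S, ((1 / 2) ^ (D k + 1) * Real.exp (5 ^ (r + 1) * lam (cls M k))) := by
  classical
  have hUr : Rd (r + 1) (M.filter fun m => Nat.log 2 m.card ∈ S) := fun i =>
    (Finset.card_le_card (Finset.filter_subset_filter _ (Finset.filter_subset _ _))).trans
      ((hM i).trans (Nat.le_succ r))
  have hfib : ∀ k ∈ S, (M.filter fun m => Nat.log 2 m.card ∈ S).filter
      (fun m => Nat.log 2 m.card = k) = cls M k := by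
    intro k hk
    ext m
    simp only [cls, Finset.mem_filter]
    constructor
    · rintro ⟨⟨h1, _⟩, h3⟩
      exact ⟨h1, h3⟩
    · rintro ⟨h1, h3⟩
      exact ⟨⟨h1, h3 ▸ hk⟩, h3⟩
  have hmaps : ∀ m ∈ M.filter (fun m => Nat.log 2 m.card ∈ S), Nat.log 2 m.card ∈ S :=
    fun m hm => (Finset.mem_filter.1 hm).2
  have h1 : ∀ x, ∏ k ∈ S, rem (cls M k) (D k) x ≤ (∏ k ∈ S, (1 / 2 : ℝ) ^ (D k + 1)) *
      ∏ m ∈ M.filter (fun m => Nat.log 2 m.card ∈ S), (1 + 4 * mon m x) := by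
    intro x
    calc ∏ k ∈ S, rem (cls M k) (D k) x
        ≤ ∏ k ∈ S, ((1 / 2) ^ (D k + 1) * ∏ m ∈ cls M k, (1 + 4 * mon m x)) :=
          Finset.prod_le_prod (fun k _ => rem_nonneg _ _ _) (fun k _ => rem_le _ _ _)
      _ = (∏ k ∈ S, (1 / 2) ^ (D k + 1)) * ∏ k ∈ S, ∏ m ∈ cls M k, (1 + 4 * mon m x) :=
          Finset.prod_mul_distrib
      _ = _ := by
          congr 1
          rw [← Finset.prod_fiberwise_of_maps_to hmaps]
          exact Finset.prod_congr rfl fun k hk => by rw [hfib k hk]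
  calc avg (fun x => ∏ k ∈ S, rem (cls M k) (D k) x)
      ≤ avg (fun x => (∏ k ∈ S, (1 / 2 : ℝ) ^ (D k + 1)) *
          ∏ m ∈ M.filter (fun m => Nat.log 2 m.card ∈ S), (1 + 4 * mon m x)) := avg_mono h1
    _ = (∏ k ∈ S, (1 / 2 : ℝ) ^ (D k + 1)) *
          avg (fun x => ∏ m ∈ M.filter (fun m => Nat.log 2 m.card ∈ S), (1 + 4 * mon m x)) :=
        avg_mul_left _ _
    _ ≤ (∏ k ∈ S, (1 / 2 : ℝ) ^ (D k + 1)) *
          Real.exp (5 ^ (r + 1) * lam (M.filter fun m => Nat.log 2 m.card ∈ S)) :=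
        mul_le_mul_of_nonneg_left (finner_exp (by omega) _ hUr)
          (Finset.prod_nonneg fun _ _ => by positivity)
    _ = _ := by
        rw [Finset.prod_mul_distrib, ← Real.exp_sum, ← Finset.mul_sum]
        congr 3
        unfold lam
        rw [← Finset.sum_fiberwise_of_maps_to hmaps]
        exact Finset.sum_congr rfl fun k hk => by rw [hfib k hk]

theorem ci_avg_R {r : ℕ} {M : Finset (Finset (Fin n))} (hM : Rd r M) (T : Finset ℕ)
    (D : ℕ → ℕ) : avg (fun x => ∏ k ∈ T, (1 + rem (cls M k) (D k) x) - 1) ≤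
      Real.exp (∑ k ∈ T, (1 / 2) ^ (D k + 1) * Real.exp (5 ^ (r + 1) * lam (cls M k))) - 1 := by
  classical
  have h1 : avg (fun x => ∏ k ∈ T, (1 + rem (cls M k) (D k) x)) ≤
      ∏ k ∈ T, (1 + (1 / 2) ^ (D k + 1) * Real.exp (5 ^ (r + 1) * lam (cls M k))) := by
    have h2 : (fun x : Cube n => ∏ k ∈ T, (1 + rem (cls M k) (D k) x)) =
        fun x => ∑ S ∈ T.powerset, ∏ k ∈ S, rem (cls M k) (D k) x := by
      funext x
      exact Finset.prod_one_add _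
    rw [h2, avg_sum, Finset.prod_one_add]
    exact Finset.sum_le_sum fun S _ => ci_avg_prod hM S D
  have h3 : ∏ k ∈ T, (1 + (1 / 2) ^ (D k + 1) * Real.exp (5 ^ (r + 1) * lam (cls M k))) ≤
      Real.exp (∑ k ∈ T, (1 / 2) ^ (D k + 1) * Real.exp (5 ^ (r + 1) * lam (cls M k))) := by
    rw [Real.exp_sum]
    refine Finset.prod_le_prod (fun k _ => by positivity) fun k _ => ?_
    have := Real.add_one_le_exp ((1 / 2) ^ (D k + 1) * Real.exp (5 ^ (r + 1) * lam (cls M k)))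
    linarith
  rw [avg_sub, avg_const]
  linarith

theorem ci_half (y : ℝ) (N : ℕ) (hN : 2 * y ≤ N) :
    (1 / 2 : ℝ) ^ N * Real.exp y ≤ 1 := by
  have h1 : (1 / 2 : ℝ) ≤ Real.exp (-(1 / 2)) := by
    have := Real.add_one_le_exp (-(1 / 2) : ℝ)
    linarith
  calc (1 / 2 : ℝ) ^ N * Real.exp y ≤ Real.exp (-(1 / 2)) ^ N * Real.exp y :=
        mul_le_mul_of_nonneg_right (pow_le_pow_left₀ (by norm_num) h1 _) (Real.exp_pos _).le
    _ = Real.exp (N * (-(1 / 2)) + y) := by rw [← Real.exp_nat_mul, ← Real.exp_add]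
    _ ≤ Real.exp 0 := Real.exp_le_exp.2 (by linarith)
    _ = 1 := Real.exp_zero

theorem ci_geom (K e : ℕ) :
    ∑ k ∈ Finset.range (K + 1), (1 / 2 : ℝ) ^ (e + (K - k) + 1) ≤ (1 / 2) ^ e := by
  have h1 : ∀ K : ℕ, ∑ k ∈ Finset.range (K + 1), (1 / 2 : ℝ) ^ (K - k) = 2 - (1 / 2) ^ K := by
    intro K
    induction K with
    | zero => norm_num
    | succ K ih =>
      rw [Finset.sum_range_succ]
      have h2 : ∑ k ∈ Finset.range (K + 1), (1 / 2 : ℝ) ^ (K + 1 - k) =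
          (1 / 2) * ∑ k ∈ Finset.range (K + 1), (1 / 2 : ℝ) ^ (K - k) := by
        rw [Finset.mul_sum]
        refine Finset.sum_congr rfl fun k hk => ?_
        have hk' : k ≤ K := by
          have := Finset.mem_range.1 hk
          omega
        rw [show K + 1 - k = (K - k) + 1 by omega, pow_succ]
        ring
      rw [h2, ih, Nat.sub_self, pow_succ]
      ring
  have h3 : ∑ k ∈ Finset.range (K + 1), (1 / 2 : ℝ) ^ (e + (K - k) + 1) =
      (1 / 2) ^ (e + 1) * ∑ k ∈ Finset.range (K + 1), (1 / 2 : ℝ) ^ (K - k) := by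
    rw [Finset.mul_sum]
    refine Finset.sum_congr rfl fun k _ => ?_
    rw [show e + (K - k) + 1 = (e + 1) + (K - k) by omega, pow_add]
  rw [h3, h1, pow_succ]
  have h4 : (0 : ℝ) < (1 / 2) ^ K := by positivity
  have h5 : (0 : ℝ) < (1 / 2) ^ e := by positivity
  nlinarith

theorem ci_S1 (K : ℕ) : ∑ k ∈ Finset.range (K + 1), 2 ^ (k + 1) ≤ 2 ^ (K + 2) := by
  induction K with
  | zero => norm_num
  | succ K ih =>
    rw [Finset.sum_range_succ]
    calc _ ≤ 2 ^ (K + 2) + 2 ^ (K + 1 + 1) := by omega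
      _ = 2 ^ (K + 1 + 2) := by ring

theorem ci_S2 (K : ℕ) :
    ∑ k ∈ Finset.range (K + 1), 2 ^ (k + 1) * (K - k) + ∑ k ∈ Finset.range (K + 1), 2 ^ (k + 1) ≤
      2 ^ (K + 3) := by
  induction K with
  | zero => norm_num
  | succ K ih =>
    have h1 : ∑ k ∈ Finset.range (K + 1 + 1), 2 ^ (k + 1) * (K + 1 - k) =
        ∑ k ∈ Finset.range (K + 1), 2 ^ (k + 1) * (K - k) +
          ∑ k ∈ Finset.range (K + 1), 2 ^ (k + 1) := by
      rw [Finset.sum_range_succ, ← Finset.sum_add_distrib]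
      simp only [Nat.sub_self, Nat.mul_zero, Nat.add_zero]
      refine Finset.sum_congr rfl fun k hk => ?_
      have hk' : k ≤ K := by
        have := Finset.mem_range.1 hk
        omega
      rw [show K + 1 - k = (K - k) + 1 by omega]
      ring
    rw [h1]
    have h2 := ci_S1 (K + 1)
    calc _ ≤ 2 ^ (K + 3) + 2 ^ (K + 1 + 2) := add_le_add ih h2
      _ = 2 ^ (K + 1 + 3) := by ring

theorem cls_sub (M : Finset (Finset (Fin n))) (k : ℕ) : ∀ m ∈ cls M k, m ∈ M :=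
  fun _ hm => (Finset.mem_filter.1 hm).1

theorem cls_wd (M : Finset (Finset (Fin n))) (k : ℕ) : ∀ m ∈ cls M k, m.card ≤ 2 ^ (k + 1) := by
  intro m hm
  have h1 := (Finset.mem_filter.1 hm).2
  have h2 := Nat.lt_pow_succ_log_self (b := 2) (by norm_num) m.card
  rw [h1] at h2
  exact h2.le

theorem ci_maps {r W : ℕ} {M : Finset (Finset (Fin n))} (hM : Fam r W M) :
    ∀ m ∈ M, Nat.log 2 m.card ∈ Finset.range (Nat.log 2 W + 1) := by
  intro m hm
  rw [Finset.mem_range]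
  have := Nat.log_mono_right (b := 2) (hM.wd m hm)
  omega

theorem ci_sum_lam {r W : ℕ} {M : Finset (Finset (Fin n))} (hM : Fam r W M) :
    ∑ k ∈ Finset.range (Nat.log 2 W + 1), lam (cls M k) = lam M := by
  unfold lam cls
  exact Finset.sum_fiberwise_of_maps_to (ci_maps hM) _

theorem ci_sum_lam2 {r W : ℕ} {M : Finset (Finset (Fin n))} (hM : Fam r W M) :
    ∑ k ∈ Finset.range (Nat.log 2 W + 1), (2 : ℝ) ^ k * lam (cls M k) ≤ A1 M := by
  unfold A1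
  rw [← Finset.sum_fiberwise_of_maps_to (ci_maps hM)]
  refine Finset.sum_le_sum fun k _ => ?_
  unfold lam cls
  rw [Finset.mul_sum]
  refine Finset.sum_le_sum fun m hm => ?_
  have hm' := Finset.mem_filter.1 hm
  have h1 : 2 ^ k ≤ m.card := by
    rw [← hm'.2]
    exact Nat.pow_log_le_self 2 (fun h => hM.ne m hm'.1 (Finset.card_eq_zero.1 h))
  have h2 : (2 : ℝ) ^ k ≤ m.card := by exact_mod_cast h1
  exact mul_le_mul_of_nonneg_right h2 (by positivity)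

theorem ci_pr {r W : ℕ} {M : Finset (Finset (Fin n))} (hM : Fam r W M)
    (ζ : Finset (Fin n) → ℂ) (x : Cube n) :
    pr ζ M x = ∏ k ∈ Finset.range (Nat.log 2 W + 1), pr ζ (cls M k) x := by
  unfold pr cls
  exact (Finset.prod_fiberwise_of_maps_to (ci_maps hM) _).symm

theorem ci_norm_pr (ζ : Finset (Fin n) → ℂ) (M : Finset (Finset (Fin n)))
    (hζ : ∀ m ∈ M, ‖ζ m‖ = 1) (x : Cube n) : ‖pr ζ M x‖ = 1 := by
  unfold pr
  rw [norm_prod]
  refine Finset.prod_eq_one fun m hm => ?_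
  split_ifs
  · exact hζ m hm
  · exact norm_one

theorem ci_log (W : ℕ) : 2 ^ Nat.log 2 W ≤ W + 1 := by
  rcases Nat.eq_zero_or_pos W with h | h
  · subst h
    simp
  · exact (Nat.pow_log_le_self 2 h.ne').trans (Nat.le_succ W)

theorem ci_E {r W a : ℕ} {M : Finset (Finset (Fin n))} (hM : Fam r W M) (ha : A1 M ≤ a)
    (c e : ℕ) : ∑ k ∈ Finset.range (Nat.log 2 W + 1), 2 ^ (k + 1) *
      (⌈(c : ℝ) * lam (cls M k)⌉₊ + e + (Nat.log 2 W - k) + 1) ≤
      (2 * c + 4 * (e + 2) + 8) * (a + W + 1) := by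
  have hterm : ∀ k ∈ Finset.range (Nat.log 2 W + 1),
      ((2 ^ (k + 1) * (⌈(c : ℝ) * lam (cls M k)⌉₊ + e + (Nat.log 2 W - k) + 1) : ℕ) : ℝ) ≤
      2 * c * (2 ^ k * lam (cls M k)) +
        (((e + 2) * 2 ^ (k + 1) + 2 ^ (k + 1) * (Nat.log 2 W - k) : ℕ) : ℝ) := by
    intro k _
    have h1 : (⌈(c : ℝ) * lam (cls M k)⌉₊ : ℝ) ≤ c * lam (cls M k) + 1 :=
      (Nat.ceil_lt_add_one (mul_nonneg (Nat.cast_nonneg _) (lam_nonneg' _))).le
    rw [Nat.cast_mul, Nat.cast_add, Nat.cast_add, Nat.cast_add, Nat.cast_add, Nat.cast_mul,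
      Nat.cast_mul, Nat.cast_pow]
    generalize ((Nat.log 2 W - k : ℕ) : ℝ) = u
    push_cast
    calc (2 : ℝ) ^ (k + 1) * (⌈(c : ℝ) * lam (cls M k)⌉₊ + e + u + 1)
        ≤ 2 ^ (k + 1) * ((c * lam (cls M k) + 1) + e + u + 1) := by gcongr
      _ = 2 * c * (2 ^ k * lam (cls M k)) + ((e + 2) * 2 ^ (k + 1) + 2 ^ (k + 1) * u) := by
          ring
  have hsum := Finset.sum_le_sum hterm
  rw [Finset.sum_add_distrib, ← Finset.mul_sum, ← Nat.cast_sum, ← Nat.cast_sum] at hsum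
  have h1 := ci_sum_lam2 hM
  have h2 : ∑ k ∈ Finset.range (Nat.log 2 W + 1),
      ((e + 2) * 2 ^ (k + 1) + 2 ^ (k + 1) * (Nat.log 2 W - k)) ≤
      (4 * (e + 2) + 8) * (W + 1) := by
    rw [Finset.sum_add_distrib, ← Finset.mul_sum]
    have h3 := ci_S1 (Nat.log 2 W)
    have h4 := ci_S2 (Nat.log 2 W)
    have h5 := ci_log W
    have h6 : (2 : ℕ) ^ (Nat.log 2 W + 2) = 4 * 2 ^ Nat.log 2 W := by ring
    have h7 : (2 : ℕ) ^ (Nat.log 2 W + 3) = 8 * 2 ^ Nat.log 2 W := by ring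
    calc _ ≤ (e + 2) * (4 * (W + 1)) + 8 * (W + 1) := by
          refine add_le_add (Nat.mul_le_mul_left _ ?_) ?_
          · omega
          · omega
      _ = _ := by ring
  have h2' : ((∑ k ∈ Finset.range (Nat.log 2 W + 1),
      ((e + 2) * 2 ^ (k + 1) + 2 ^ (k + 1) * (Nat.log 2 W - k)) : ℕ) : ℝ) ≤
      (4 * (e + 2) + 8) * (W + 1) := by exact_mod_cast h2
  have hc : (0 : ℝ) ≤ 2 * c := by positivity
  have hfin : ((∑ k ∈ Finset.range (Nat.log 2 W + 1), 2 ^ (k + 1) *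
      (⌈(c : ℝ) * lam (cls M k)⌉₊ + e + (Nat.log 2 W - k) + 1) : ℕ) : ℝ) ≤
      (2 * c + 4 * (e + 2) + 8) * (a + W + 1) := by
    calc _ ≤ 2 * (c : ℝ) * a + (4 * (e + 2) + 8) * (W + 1) :=
          hsum.trans (add_le_add (mul_le_mul_of_nonneg_left (h1.trans ha) hc) h2')
      _ ≤ _ := by
          have hW : (0 : ℝ) ≤ W := Nat.cast_nonneg _
          have ha0 : (0 : ℝ) ≤ a := Nat.cast_nonneg _
          have he0 : (0 : ℝ) ≤ e := Nat.cast_nonneg _
          have hx := mul_nonneg hc (add_nonneg hW zero_le_one)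
          have hy := mul_nonneg (show (0 : ℝ) ≤ 4 * (e + 2) + 8 by positivity) ha0
          nlinarith
  exact_mod_cast hfin

theorem ci_exp {r W a : ℕ} {M : Finset (Finset (Fin n))} (hM : Fam r W M) (ha : A1 M ≤ a) :
    Real.exp (2 * lam M) ≤ 2 ^ (3 * a) := by
  have h1 : lam M ≤ a := (lam_le_A1 hM.ne).trans ha
  have h2 : Real.exp 2 ≤ 8 := by
    have h3 := Real.exp_one_lt_d9
    have h4 : Real.exp 2 = Real.exp 1 * Real.exp 1 := by
      rw [← Real.exp_add]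
      norm_num
    rw [h4]
    have h5 := Real.exp_pos 1
    nlinarith
  calc Real.exp (2 * lam M) ≤ Real.exp (a * 2) := Real.exp_le_exp.2 (by linarith)
    _ = Real.exp 2 ^ a := Real.exp_nat_mul 2 a
    _ ≤ 8 ^ a := pow_le_pow_left₀ (Real.exp_pos _).le h2 _
    _ = 2 ^ (3 * a) := by
        rw [pow_mul]
        norm_num

/-! ## Case I -/

theorem caseI (r : ℕ) {ε : ℝ} (hε : 0 < ε) : ∃ C : ℕ, ∀ (n W a : ℕ)
    (M : Finset (Finset (Fin n))) (ζ : Finset (Fin n) → ℂ), Fam r W M → A1 M ≤ a →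
    (∀ m ∈ M, ‖ζ m‖ = 1) → ∃ (t : Cube n → ℂ) (R : Cube n → ℝ),
      (∀ x, ‖pr ζ M x - t x‖ ≤ R x) ∧ avg R ≤ ε ∧ Sp (2 ^ (C * (a + W + 1))) t ∧
      Sp (2 ^ (C * (a + W + 1))) (fun x => ((R x : ℝ) : ℂ)) := by
  classical
  obtain ⟨e, he⟩ := exists_pow_lt_of_lt_one (show (0 : ℝ) < min 1 (ε / 2) by positivity)
    (show (1 / 2 : ℝ) < 1 by norm_num)
  have he1 : (1 / 2 : ℝ) ^ e ≤ 1 := he.le.trans (min_le_left _ _)
  have he2 : 2 * (1 / 2 : ℝ) ^ e ≤ ε := by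
    have := he.le.trans (min_le_right _ _)
    linarith
  obtain ⟨c, hc⟩ : ∃ c : ℕ, c = 2 * 5 ^ (r + 1) := ⟨_, rfl⟩
  obtain ⟨C, hC⟩ : ∃ C : ℕ, C = 2 * c + 4 * (e + 2) + 8 := ⟨_, rfl⟩
  refine ⟨C + 5, fun n W a M ζ hM ha hζ => ?_⟩
  obtain ⟨K, hK⟩ : ∃ K : ℕ, K = Nat.log 2 W := ⟨_, rfl⟩
  obtain ⟨D, hD⟩ : ∃ D : ℕ → ℕ, ∀ k, D k = ⌈(c : ℝ) * lam (cls M k)⌉₊ + e + (K - k) :=
    ⟨fun k => ⌈(c : ℝ) * lam (cls M k)⌉₊ + e + (K - k), fun _ => rfl⟩
  obtain ⟨E, hE⟩ : ∃ E : ℕ, E = ∑ k ∈ Finset.range (K + 1), 2 ^ (k + 1) * (D k + 1) := ⟨_, rfl⟩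
  have hEle : E ≤ C * (a + W + 1) := by
    rw [hE, hC]
    simp only [hD, hK]
    exact ci_E hM ha c e
  have hexp := ci_exp hM ha
  have hKW : K ≤ W := by
    have h1 := ci_log W
    have h2 : K < 2 ^ K := Nat.lt_two_pow_self
    rw [← hK] at h1
    omega
  have hsplit : (C + 5) * (a + W + 1) = C * (a + W + 1) + 5 * (a + W + 1) := by ring
  refine ⟨fun x => ∏ k ∈ Finset.range (K + 1), trn ζ (cls M k) (D k) x,
    fun x => ∏ k ∈ Finset.range (K + 1), (1 + rem (cls M k) (D k) x) - 1, ?_, ?_, ?_, ?_⟩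
  · intro x
    rw [ci_pr hM ζ x, ← hK]
    exact ci_prod_close (fun k _ => rem_nonneg _ _ _)
      (fun k _ => ci_norm_pr ζ _ (fun m hm => hζ m (cls_sub M k m hm)) x)
      (fun k _ => trn_close ζ _ _ (fun m hm => hζ m (cls_sub M k m hm)) x)
  · refine (ci_avg_R hM.rd _ D).trans ?_
    have hs : ∑ k ∈ Finset.range (K + 1), (1 / 2 : ℝ) ^ (D k + 1) *
        Real.exp (5 ^ (r + 1) * lam (cls M k)) ≤ (1 / 2) ^ e := by
      refine (Finset.sum_le_sum fun k _ => ?_).trans (ci_geom K e)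
      have hl := lam_nonneg' (cls M k)
      have h1 := ci_half (5 ^ (r + 1) * lam (cls M k))
        ⌈(c : ℝ) * lam (cls M k)⌉₊ (by
          have h2 := Nat.le_ceil ((c : ℝ) * lam (cls M k))
          have h3 : (c : ℝ) = 2 * 5 ^ (r + 1) := by
            rw [hc]
            push_cast
            ring
          rw [h3] at h2 ⊢
          linarith)
      calc (1 / 2 : ℝ) ^ (D k + 1) * Real.exp (5 ^ (r + 1) * lam (cls M k))
          = ((1 / 2 : ℝ) ^ ⌈(c : ℝ) * lam (cls M k)⌉₊ *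
              Real.exp (5 ^ (r + 1) * lam (cls M k))) * (1 / 2) ^ (e + (K - k) + 1) := by
            rw [hD, show ⌈(c : ℝ) * lam (cls M k)⌉₊ + e + (K - k) + 1 =
              ⌈(c : ℝ) * lam (cls M k)⌉₊ + (e + (K - k) + 1) by omega, pow_add]
            ring
        _ ≤ 1 * (1 / 2) ^ (e + (K - k) + 1) :=
            mul_le_mul_of_nonneg_right h1 (by positivity)
        _ = (1 / 2) ^ (e + (K - k) + 1) := one_mul _
    have h0 : 0 ≤ ∑ k ∈ Finset.range (K + 1), (1 / 2 : ℝ) ^ (D k + 1) *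
        Real.exp (5 ^ (r + 1) * lam (cls M k)) := Finset.sum_nonneg fun k _ => by positivity
    have h1 := Real.abs_exp_sub_one_le
      (x := ∑ k ∈ Finset.range (K + 1), (1 / 2 : ℝ) ^ (D k + 1) *
        Real.exp (5 ^ (r + 1) * lam (cls M k))) (by rw [abs_of_nonneg h0]; linarith)
    rw [abs_of_nonneg h0] at h1
    have h2 := le_abs_self (Real.exp (∑ k ∈ Finset.range (K + 1), (1 / 2 : ℝ) ^ (D k + 1) *
        Real.exp (5 ^ (r + 1) * lam (cls M k))) - 1)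
    linarith
  · have hSp := Sp.prod (Finset.range (K + 1))
      (fun k => 2 ^ (2 ^ (k + 1) * D k) * Real.exp (2 * lam (cls M k)))
      (fun k x => trn ζ (cls M k) (D k) x)
      (fun k _ => trn_sp ζ _ _ _ (fun m hm => hζ m (cls_sub M k m hm)) (cls_wd M k))
    refine hSp.mono ?_
    rw [Finset.prod_mul_distrib, ← Real.exp_sum, ← Finset.mul_sum, hK, ci_sum_lam hM,
      Finset.prod_pow_eq_pow_sum, ← hK]
    calc (2 : ℝ) ^ (∑ k ∈ Finset.range (K + 1), 2 ^ (k + 1) * D k) * Real.exp (2 * lam M)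
        ≤ 2 ^ E * 2 ^ (3 * a) := by
          refine mul_le_mul (pow_le_pow_right₀ (by norm_num) ?_) hexp (Real.exp_pos _).le
            (by positivity)
          rw [hE]
          exact Finset.sum_le_sum fun k _ => Nat.mul_le_mul_left _ (Nat.le_succ _)
      _ = 2 ^ (E + 3 * a) := (pow_add _ _ _).symm
      _ ≤ 2 ^ ((C + 5) * (a + W + 1)) := by
          refine pow_le_pow_right₀ (by norm_num) ?_
          rw [hsplit]
          omega
  · have h1 : ∀ k ∈ Finset.range (K + 1),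
        Sp (1 + 2 ^ (2 ^ (k + 1) * (D k + 1)) * Real.exp (2 * lam (cls M k)))
          (fun x => 1 + ((rem (cls M k) (D k) x : ℝ) : ℂ)) := by
      intro k _
      have := Sp.add (Sp.const (n := n) (1 : ℂ)) (rem_sp (cls M k) (D k) (2 ^ (k + 1)) (cls_wd M k))
      simpa using this
    have h2 := Sp.prod (Finset.range (K + 1)) _ _ h1
    have h3 := Sp.add h2 (Sp.const (n := n) (-1 : ℂ))
    refine (h3.of_eq ?_).mono ?_
    · intro x
      push_cast
      ring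
    · have h4 : ∏ k ∈ Finset.range (K + 1),
          (1 + 2 ^ (2 ^ (k + 1) * (D k + 1)) * Real.exp (2 * lam (cls M k))) ≤
          ∏ k ∈ Finset.range (K + 1),
            (2 * (2 ^ (2 ^ (k + 1) * (D k + 1)) * Real.exp (2 * lam (cls M k)))) := by
        refine Finset.prod_le_prod (fun k _ => by positivity) fun k _ => ?_
        have h5 : (1 : ℝ) ≤ 2 ^ (2 ^ (k + 1) * (D k + 1)) := one_le_pow₀ (by norm_num)
        have h6 : (1 : ℝ) ≤ Real.exp (2 * lam (cls M k)) :=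
          Real.one_le_exp (by have := lam_nonneg' (cls M k); linarith)
        have h7 := one_le_mul_of_one_le_of_one_le h5 h6
        linarith
      rw [Finset.prod_mul_distrib, Finset.prod_mul_distrib, ← Real.exp_sum, ← Finset.mul_sum,
        Finset.prod_pow_eq_pow_sum, ← hE, Finset.prod_const, Finset.card_range, hK,
        ci_sum_lam hM, ← hK] at h4
      have h8 : (2 : ℝ) ^ (K + 1) * (2 ^ E * Real.exp (2 * lam M)) ≤
          2 ^ (K + 1 + E + 3 * a) := by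
        calc (2 : ℝ) ^ (K + 1) * (2 ^ E * Real.exp (2 * lam M))
            ≤ 2 ^ (K + 1) * (2 ^ E * 2 ^ (3 * a)) := by gcongr
          _ = 2 ^ (K + 1 + E + 3 * a) := by
              rw [← pow_add, ← pow_add]
              congr 1
              omega
      have h9 : (1 : ℝ) ≤ 2 ^ (K + 1 + E + 3 * a) := one_le_pow₀ (by norm_num)
      have h10 : (2 : ℝ) ^ (K + 1 + E + 3 * a + 1) ≤ 2 ^ ((C + 5) * (a + W + 1)) := by
        refine pow_le_pow_right₀ (by norm_num) ?_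
        rw [hsplit]
        omega
      rw [pow_succ] at h10
      have h11 : ‖(-1 : ℂ)‖ = 1 := by simp
      rw [h11]
      linarith

theorem ci_av_close {Ω : Type*} [Fintype Ω] {f g : Ω → ℂ} {R : Ω → ℝ}
    (h : ∀ ω, ‖f ω - g ω‖ ≤ R ω) : ‖av f - av g‖ ≤ avg R := by
  unfold av avg
  rw [← sub_div, ← Finset.sum_sub_distrib, norm_div, Complex.norm_natCast]
  refine div_le_div_of_nonneg_right ?_ (Nat.cast_nonneg _)
  exact (norm_sum_le _ _).trans (Finset.sum_le_sum fun ω _ => h ω)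

theorem foolI (r : ℕ) {ε : ℝ} (hε : 0 < ε) : ∃ C : ℕ, ∀ (n W a : ℕ)
    (M : Finset (Finset (Fin n))) (ζ : Finset (Fin n) → ℂ), Fam r W M → A1 M ≤ a →
    (∀ m ∈ M, ‖ζ m‖ = 1) → ∀ {Ω : Type} [Fintype Ω] [Nonempty Ω] (Y : Ω → Cube n) (δ : ℝ),
      0 ≤ δ → Bias δ Y →
      ‖av (fun ω => pr ζ M (Y ω)) - av (pr ζ M)‖ ≤ ε + δ * 2 ^ (C * (a + W + 1)) := by
  obtain ⟨C, hC⟩ := caseI r (half_pos hε)
  refine ⟨C + 1, fun n W a M ζ hM ha hζ Ω _ _ Y δ hδ hY => ?_⟩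
  obtain ⟨t, R, h1, h2, h3, h4⟩ := hC n W a M ζ hM ha hζ
  have e1 : ‖av (fun ω => pr ζ M (Y ω)) - av (fun ω => t (Y ω))‖ ≤ avg (fun ω => R (Y ω)) :=
    ci_av_close fun ω => h1 (Y ω)
  have e2 := fool hδ hY h3
  have e3 : ‖av (pr ζ M) - av t‖ ≤ avg R := ci_av_close h1
  have e4 := fool_real hδ hY h4
  have e5 := (abs_le.1 e4).2
  have e6 : ‖av (fun ω => pr ζ M (Y ω)) - av (pr ζ M)‖ ≤
      ‖av (fun ω => pr ζ M (Y ω)) - av (fun ω => t (Y ω))‖ +
        ‖av (fun ω => t (Y ω)) - av t‖ + ‖av (pr ζ M) - av t‖ := by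
    calc ‖av (fun ω => pr ζ M (Y ω)) - av (pr ζ M)‖
        = ‖(av (fun ω => pr ζ M (Y ω)) - av (fun ω => t (Y ω))) +
            (av (fun ω => t (Y ω)) - av t) - (av (pr ζ M) - av t)‖ := by ring_nf
      _ ≤ _ := (norm_sub_le _ _).trans (add_le_add (norm_add_le _ _) le_rfl)
  have e7 : δ * (2 : ℝ) ^ (C * (a + W + 1)) + δ * 2 ^ (C * (a + W + 1)) ≤
      δ * 2 ^ ((C + 1) * (a + W + 1)) := by
    have e8 : (2 : ℝ) ^ (C * (a + W + 1) + 1) ≤ 2 ^ ((C + 1) * (a + W + 1)) := by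
      refine pow_le_pow_right₀ (by norm_num) ?_
      have : (C + 1) * (a + W + 1) = C * (a + W + 1) + (a + W + 1) := by ring
      omega
    rw [pow_succ] at e8
    nlinarith
  linarith

end Pool.Agent.MP_ca1109_lc.Xp
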