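import Pool.Agent.MP_ca1109_lc.Dnf.B1
import Pool.Agent.MP_ca1109_lc.Agp.K1
import Pool.Agent.MP_ca1109_lc.Agp.G3

/-!
# Polynomials modulo `q` in which every variable occurs in few monomials: definitions

* `av`, `avg` (`Mpg/Defs`, `MonoProb`): averages of complex / real functions over a finite type.
* `Sp B f`: `f` has a Walsh expansion with coefficients of total size at most `B`.
* `Bias δ Y`: all nontrivial parities of the string `Y ω` have average at most `δ`.
* `Tr S x`: the bits of `x` in `S` are true; `mon S x` its indicator.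
* `pr ζ M x = ∏ m ∈ M, ζ m ^ [Tr m x]`: a character of a polynomial with monomials `M`.
* `Fam r W M`: nonempty monomials of width at most `W`, every variable occurs in at most `r`.
* `lam, A1, A2`: the sums of `2^-|m|`, `|m| 2^-|m|`, `|m|² 2^-|m|`.
-/

namespace Pool.Agent.MP_ca1109_lc.Xp

open Finset Pool.Agent.MP_ca1109_lc.Mpg Pool.Agent.MP_ca1109_lc.Agp
open Pool.Agent.MP_ca1109_lc.Dnf (Cube ch one)

variable {n : ℕ}

/-- `f` has a Walsh expansion with coefficients of total size at most `B`. -/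
def Sp (B : ℝ) (f : Cube n → ℂ) : Prop :=
  ∃ c : Finset (Fin n) → ℂ, (∀ x, f x = ∑ S, c S * ((ch S x : ℝ) : ℂ)) ∧ ∑ S, ‖c S‖ ≤ B

/-- The string `Y ω` has bias at most `δ`. -/
def Bias {Ω : Type*} [Fintype Ω] (δ : ℝ) (Y : Ω → Cube n) : Prop :=
  ∀ S : Finset (Fin n), S ≠ ∅ → |avg fun ω => ch S (Y ω)| ≤ δ

/-- The bits of `x` in `S` are true. -/
def Tr (S : Finset (Fin n)) (x : Cube n) : Prop := ∀ i ∈ S, x i = true

/-- The monomial. -/
noncomputable def mon (S : Finset (Fin n)) (x : Cube n) : ℝ := one (Tr S x)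

/-- Addition modulo two. -/
def xo (x s : Cube n) : Cube n := fun i => xor (x i) (s i)

/-- The bit `j` is flipped. -/
def fl (j : Fin n) (x : Cube n) : Cube n := Function.update x j (!(x j))

open Classical in
/-- The product of `ζ m` over the monomials which are true at `x`. -/
noncomputable def pr (ζ : Finset (Fin n) → ℂ) (M : Finset (Finset (Fin n))) (x : Cube n) : ℂ :=
  ∏ m ∈ M, if Tr m x then ζ m else 1

/-- Every variable occurs in at most `r` monomials. -/
def Rd (r : ℕ) (M : Finset (Finset (Fin n))) : Prop := ∀ i, (M.filter fun m => i ∈ m).card ≤ r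

/-- Nonempty monomials of width at most `W`, read `r`. -/
structure Fam (r W : ℕ) (M : Finset (Finset (Fin n))) : Prop where
  ne : ∀ m ∈ M, m ≠ ∅
  rd : Rd r M
  wd : ∀ m ∈ M, m.card ≤ W

/-- The sum of the probabilities of the monomials. -/
noncomputable def lam (M : Finset (Finset (Fin n))) : ℝ := ∑ m ∈ M, (1 / 2 : ℝ) ^ m.card

/-- The sum of `|m| 2^-|m|`. -/
noncomputable def A1 (M : Finset (Finset (Fin n))) : ℝ := ∑ m ∈ M, (m.card : ℝ) * (1 / 2) ^ m.card

/-- The sum of `|m|² 2^-|m|`. -/
noncomputable def A2 (M : Finset (Finset (Fin n))) : ℝ :=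
  ∑ m ∈ M, (m.card : ℝ) ^ 2 * (1 / 2) ^ m.card

/-! ## Truncated expansions -/

/-- The expansion of `pr ζ M`, truncated at `D` monomials. -/
noncomputable def trn (ζ : Finset (Fin n) → ℂ) (M : Finset (Finset (Fin n))) (D : ℕ)
    (x : Cube n) : ℂ :=
  ∑ J ∈ M.powerset.filter fun J => J.card ≤ D, ∏ m ∈ J, (ζ m - 1) * ((mon m x : ℝ) : ℂ)

/-- The bound for the error. -/
noncomputable def rem (M : Finset (Finset (Fin n))) (D : ℕ) (x : Cube n) : ℝ :=
  ∑ J ∈ M.powerset.filter fun J => J.card = D + 1, ∏ m ∈ J, 2 * mon m x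

/-! ## The linear part -/

/-- The variable `i` is alive: some monomial is true or becomes true if `i` is flipped. -/
def Al (M : Finset (Finset (Fin n))) (i : Fin n) (z : Cube n) : Prop :=
  ∃ m ∈ M, i ∈ m ∧ Tr (m.erase i) z

/-- The variable `i` is active: its bit is false and exactly one monomial becomes true if it is
flipped. -/
def Ac (M : Finset (Finset (Fin n))) (i : Fin n) (z : Cube n) : Prop :=
  z i = false ∧ ∃! m, m ∈ M ∧ i ∈ m ∧ Tr (m.erase i) z

/-- The indicator. -/
noncomputable def ac (M : Finset (Finset (Fin n))) (i : Fin n) (z : Cube n) : ℝ := one (Ac M i z)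

/-- The number of active variables. -/
noncomputable def S0 (M : Finset (Finset (Fin n))) (z : Cube n) : ℝ := ∑ i, ac M i z

/-- No monomial has two alive variables in `η`. -/
def Lin (M : Finset (Finset (Fin n))) (η : Finset (Fin n)) (z : Cube n) : Prop :=
  ∀ m ∈ M, ∀ B ⊆ m, 2 ≤ B.card → B ⊆ η → ¬ Tr (m \ B) z

/-- The hash function separates the alive variables in `η`. -/
def Inj {B : ℕ} (M : Finset (Finset (Fin n))) (η : Finset (Fin n)) (h : Fin n → Fin B)
    (z : Cube n) : Prop :=
  ∀ i ∈ η, ∀ j ∈ η, Al M i z → Al M j z → h i = h j → i = j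

open Classical in
/-- The number of active variables in `η`. -/
noncomputable def nac (M : Finset (Finset (Fin n))) (η : Finset (Fin n)) (z : Cube n) : ℕ :=
  (η.filter fun i => Ac M i z).card

/-- The point `z`, in which the bits `i ∈ η` are changed by `u (h i)`. -/
def mv {B : ℕ} (z : Cube n) (η : Finset (Fin n)) (h : Fin n → Fin B) (u : Fin B → Bool) : Cube n :=
  fun i => xor (z i) (decide (i ∈ η) && u (h i))

/-- A random set of density `p` and a random hash function, up to an error `δ`. -/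
structure Src {Ω : Type*} [Fintype Ω] {B : ℕ} (p δ : ℝ) (η : Ω → Finset (Fin n))
    (h : Ω → Fin n → Fin B) : Prop where
  sub : ∀ D : Finset (Fin n), |(avg fun ω => one (D ⊆ η ω)) - p ^ D.card| ≤ δ
  col : ∀ i j : Fin n, i ≠ j →
    (avg fun ω => one (i ∈ η ω ∧ j ∈ η ω ∧ h ω i = h ω j)) ≤ p ^ 2 / B + δ

end Pool.Agent.MP_ca1109_lc.Xp
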