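import Pool.Agent.MP_ca1109_lc.Xp.Defs

namespace Pool.Agent.MP_ca1109_lc.Xp

open Finset Pool.Agent.H66 Pool.Agent.MP_ca1109_lc.Mpg Pool.Agent.MP_ca1109_lc.Agp
open Pool.Agent.MP_ca1109_lc.Dnf (Cube ch one sg E fc inversion fc_poly fc_sub fc_empty)

variable {n : ℕ}

/-! ## ES: the Efron-Stein inequality -/

theorem es_ch (S : Finset (Fin n)) (j : Fin n) (x : Cube n) :
    ch S (fl j x) = (if j ∈ S then -1 else 1) * ch S x := by
  classical
  unfold ch fl
  by_cases h : j ∈ S
  · rw [if_pos h, ← Finset.mul_prod_erase S _ h, ← Finset.mul_prod_erase S (fun i => sg (x i)) h]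
    have h1 : ∏ i ∈ S.erase j, sg (Function.update x j (!x j) i) = ∏ i ∈ S.erase j, sg (x i) := by
      refine Finset.prod_congr rfl fun i hi => ?_
      rw [Function.update_of_ne (Finset.ne_of_mem_erase hi)]
    rw [h1, Function.update_self]
    cases x j <;> simp [sg]
  · rw [if_neg h, one_mul]
    refine Finset.prod_congr rfl fun i hi => ?_
    rw [Function.update_of_ne]
    rintro rfl
    exact h hi

theorem es_fc (f : Cube n → ℝ) (j : Fin n) (S : Finset (Fin n)) :
    fc (fun x => f (fl j x)) S = (if j ∈ S then -1 else 1) * fc f S := by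
  have h : (fun x => f (fl j x)) =
      fun x => ∑ T, ((if j ∈ T then -1 else 1) * fc f T) * ch T x := by
    funext x
    rw [inversion f (fl j x)]
    refine Finset.sum_congr rfl fun T _ => ?_
    rw [es_ch]
    ring
  rw [h, fc_poly]

/-- The Poincare inequality on the cube. -/
theorem es_poincare (f : Cube n → ℝ) :
    E (fun x => f x ^ 2) - E f ^ 2 ≤ (∑ j, E (fun x => (f x - f (fl j x)) ^ 2)) / 4 := by
  classical
  have h1 : ∀ j : Fin n, E (fun x => (f x - f (fl j x)) ^ 2) =
      ∑ S : Finset (Fin n), if j ∈ S then 4 * fc f S ^ 2 else 0 := by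
    intro j
    rw [Dnf.parseval (fun x => f x - f (fl j x))]
    refine Finset.sum_congr rfl fun S _ => ?_
    rw [fc_sub, es_fc]
    split_ifs <;> ring
  simp only [h1]
  rw [Finset.sum_comm, Dnf.parseval, ← fc_empty f, ← Finset.add_sum_erase univ _ (Finset.mem_univ ∅),
    add_sub_cancel_left, Finset.sum_div]
  refine (Finset.sum_le_sum (g := fun S => (∑ j : Fin n, if j ∈ S then 4 * fc f S ^ 2 else 0) / 4)
    fun S hS => ?_).trans (Finset.sum_le_sum_of_subset_of_nonneg (Finset.erase_subset _ _)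
      fun S _ _ => ?_)
  · obtain ⟨j, hj⟩ := Finset.nonempty_iff_ne_empty.2 (Finset.ne_of_mem_erase hS)
    have h2 : 4 * fc f S ^ 2 ≤ ∑ j : Fin n, if j ∈ S then 4 * fc f S ^ 2 else 0 := by
      have := Finset.single_le_sum (f := fun j : Fin n => if j ∈ S then 4 * fc f S ^ 2 else 0)
        (fun i _ => by split_ifs <;> positivity) (Finset.mem_univ j)
      simpa [hj] using this
    linarith
  · refine div_nonneg (Finset.sum_nonneg fun i _ => ?_) (by norm_num)
    split_ifs <;> positivity

theorem es_avg (f : Cube n → ℝ) : avg f = E f := by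
  unfold avg E
  congr 1
  simp

theorem efron_stein (f : Cube n → ℝ) :
    avg (fun x => (f x - avg f) ^ 2) ≤ (1 / 4) * ∑ j, avg fun x => (f x - f (fl j x)) ^ 2 := by
  simp only [es_avg]
  have h1 : (E fun x => (f x - E f) ^ 2) = E (fun x => f x ^ 2) - E f ^ 2 := by
    have h2 : (fun x => (f x - E f) ^ 2) = fun x => (f x ^ 2 - (2 * E f) * f x) + E f ^ 2 := by
      funext x
      ring
    rw [h2, Dnf.E_add, Dnf.E_sub, Dnf.E_smul, Dnf.E_const]
    ring
  rw [h1]
  have := es_poincare f
  linarith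

end Pool.Agent.MP_ca1109_lc.Xp
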