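import Pool.Agent.MP_ca1109_lc.Xp.SP
import Pool.Agent.MP_ca1109_lc.Xp.SM

namespace Pool.Agent.MP_ca1109_lc.Xp

open Finset Pool.Agent.H66 Pool.Agent.MP_ca1109_lc.Mpg Pool.Agent.MP_ca1109_lc.Agp
open Pool.Agent.MP_ca1109_lc.Dnf (Cube ch one)

variable {n : ℕ}

/-! ## EV1: the restricted polynomial is not linear -/

theorem mon_nonneg (S : Finset (Fin n)) (x : Cube n) : 0 ≤ mon S x := Dnf.one_nonneg _

open Classical in
theorem not_lin_le (M : Finset (Finset (Fin n))) (η : Finset (Fin n)) (z : Cube n) :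
    one (¬ Lin M η z) ≤ ∑ m ∈ M, ∑ B ∈ m.powerset.filter (fun B => 2 ≤ B.card),
      one (B ⊆ η) * mon (m \ B) z := by
  have hnn : ∀ m ∈ M, 0 ≤ ∑ B ∈ m.powerset.filter (fun B => 2 ≤ B.card),
      one (B ⊆ η) * mon (m \ B) z := fun m _ =>
    sum_nonneg fun B _ => mul_nonneg (Dnf.one_nonneg _) (mon_nonneg _ _)
  by_cases h : Lin M η z
  · rw [Dnf.one_false (not_not.mpr h)]
    exact sum_nonneg hnn
  · rw [Dnf.one_true h]
    unfold Lin at h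
    push Not at h
    obtain ⟨m, hm, B, hB, h2, hBη, ht⟩ := h
    have h1 : (1 : ℝ) = one (B ⊆ η) * mon (m \ B) z := by
      unfold mon
      rw [Dnf.one_true hBη, Dnf.one_true ht, one_mul]
    calc (1 : ℝ) = one (B ⊆ η) * mon (m \ B) z := h1
      _ ≤ ∑ B ∈ m.powerset.filter (fun B => 2 ≤ B.card), one (B ⊆ η) * mon (m \ B) z :=
          single_le_sum (f := fun B => one (B ⊆ η) * mon (m \ B) z)
            (fun B _ => mul_nonneg (Dnf.one_nonneg _) (mon_nonneg _ _))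
            (mem_filter.mpr ⟨mem_powerset.mpr hB, h2⟩)
      _ ≤ _ := single_le_sum hnn hm

section pseudo

variable {Ω₁ Ω₂ : Type} [Fintype Ω₁] [Nonempty Ω₁] [Fintype Ω₂] [Nonempty Ω₂] {B : ℕ}

theorem ev_lin {r W : ℕ} {M : Finset (Finset (Fin n))} (hM : Fam r W M) {p δ : ℝ} (hp : 0 ≤ p)
    (hp1 : p ≤ 1) (hpW : 2 * p * W ≤ 1) (hδ : 0 ≤ δ) (hδ1 : δ ≤ 1) (Y : Ω₁ → Cube n)
    (η : Ω₂ → Finset (Fin n)) (h : Ω₂ → Fin n → Fin B) (sh : Ω₂ → Cube n) (hY : Bias δ Y)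
    (hS : Src p δ η h) :
    (avg fun ω₂ => avg fun ω₁ => one (¬ Lin M (η ω₂) (xo (Y ω₁) (sh ω₂)))) ≤
      4 * p ^ 2 * A2 M + 3 * δ * M.card * 2 ^ W := by
  classical
  have key : ∀ m ∈ M, ∀ D ∈ m.powerset.filter (fun D => 2 ≤ D.card),
      (avg fun ω₂ => avg fun ω₁ => one (D ⊆ η ω₂) * mon (m \ D) (xo (Y ω₁) (sh ω₂))) ≤
        p ^ D.card * (1 / 2) ^ (m \ D).card + 3 * δ := by
    intro m _ D _
    have hh : (0 : ℝ) ≤ (1 / 2) ^ (m \ D).card := by positivity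
    have hh1 : (1 / 2 : ℝ) ^ (m \ D).card ≤ 1 := pow_le_one₀ (by norm_num) (by norm_num)
    have hpp : (0 : ℝ) ≤ p ^ D.card := pow_nonneg hp _
    have hpp1 : p ^ D.card ≤ 1 := pow_le_one₀ hp hp1
    have h1 : ∀ ω₂, (avg fun ω₁ => one (D ⊆ η ω₂) * mon (m \ D) (xo (Y ω₁) (sh ω₂))) ≤
        ((1 / 2) ^ (m \ D).card + δ) * one (D ⊆ η ω₂) := by
      intro ω₂
      rw [avg_mul_left, mul_comm]
      refine mul_le_mul_of_nonneg_right ?_ (Dnf.one_nonneg _)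
      have h2 := avg_mon_bias hδ (hY.xo (sh ω₂)) (m \ D)
      have h3 := (abs_le.mp h2).2
      linarith
    have h4 := (abs_le.mp (hS.sub D)).2
    calc (avg fun ω₂ => avg fun ω₁ => one (D ⊆ η ω₂) * mon (m \ D) (xo (Y ω₁) (sh ω₂)))
        ≤ avg fun ω₂ => ((1 / 2) ^ (m \ D).card + δ) * one (D ⊆ η ω₂) := avg_mono h1
      _ = ((1 / 2) ^ (m \ D).card + δ) * avg fun ω₂ => one (D ⊆ η ω₂) := avg_mul_left _ _
      _ ≤ ((1 / 2) ^ (m \ D).card + δ) * (p ^ D.card + δ) :=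
          mul_le_mul_of_nonneg_left (by linarith) (by linarith)
      _ ≤ _ := by nlinarith [mul_le_mul_of_nonneg_left hδ1 hδ, mul_le_mul_of_nonneg_left hh1 hδ,
          mul_le_mul_of_nonneg_left hpp1 hδ]
  have hcard : ∀ m ∈ M, ((m.powerset.filter (fun D => 2 ≤ D.card)).card : ℝ) ≤ 2 ^ W := by
    intro m hm
    have h1 : (m.powerset.filter (fun D => 2 ≤ D.card)).card ≤ 2 ^ m.card := by
      rw [← card_powerset]
      exact card_filter_le _ _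
    have h2 : 2 ^ m.card ≤ 2 ^ W := Nat.pow_le_pow_right (by norm_num) (hM.wd m hm)
    exact_mod_cast h1.trans h2
  calc (avg fun ω₂ => avg fun ω₁ => one (¬ Lin M (η ω₂) (xo (Y ω₁) (sh ω₂))))
      ≤ avg fun ω₂ => avg fun ω₁ => ∑ m ∈ M, ∑ D ∈ m.powerset.filter (fun D => 2 ≤ D.card),
          one (D ⊆ η ω₂) * mon (m \ D) (xo (Y ω₁) (sh ω₂)) :=
        avg_mono fun ω₂ => avg_mono fun ω₁ => not_lin_le M (η ω₂) _
    _ = ∑ m ∈ M, ∑ D ∈ m.powerset.filter (fun D => 2 ≤ D.card),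
          avg fun ω₂ => avg fun ω₁ => one (D ⊆ η ω₂) * mon (m \ D) (xo (Y ω₁) (sh ω₂)) := by
        simp_rw [avg_sum]
    _ ≤ ∑ m ∈ M, ∑ D ∈ m.powerset.filter (fun D => 2 ≤ D.card),
          (p ^ D.card * (1 / 2) ^ (m \ D).card + 3 * δ) :=
        sum_le_sum fun m hm => sum_le_sum fun D hD => key m hm D hD
    _ = (∑ m ∈ M, ∑ D ∈ m.powerset.filter (fun D => 2 ≤ D.card),
          p ^ D.card * (1 / 2) ^ (m \ D).card) +
        ∑ m ∈ M, ((m.powerset.filter (fun D => 2 ≤ D.card)).card : ℝ) * (3 * δ) := by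
        simp_rw [sum_add_distrib, sum_const, nsmul_eq_mul]
    _ ≤ 4 * p ^ 2 * A2 M + ∑ m ∈ M, 2 ^ W * (3 * δ) :=
        add_le_add (sum_lin hM.wd hp hpW)
          (sum_le_sum fun m hm => mul_le_mul_of_nonneg_right (hcard m hm) (by linarith))
    _ = _ := by
        rw [sum_const, nsmul_eq_mul]
        ring

end pseudo

end Pool.Agent.MP_ca1109_lc.Xp
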