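import Pool.Agent.MP_ca1109_lc.Agp.Defs

/-!
# Questions about polynomials in which every variable occurs in few monomials
-/

namespace Pool.Agent.MP_ca1109_lc.Xp

open Finset Pool.Agent.MP_ca1109_lc.Agp

/-- `T` is a Boolean function of the answers to `k` questions `P x = 0`; in each question `P` is a
polynomial (of any degree) with coefficients in a finite abelian group `Γ` of any size with
`q Γ = 0`, in which every variable occurs in at most `r` monomials. -/
def ReadSysTest (q r k n : ℕ) (T : (Fin n → Bool) → Bool) : Prop :=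
  ∃ (Γ : Fin k → Type) (_ : ∀ j, AddCommGroup (Γ j)) (_ : ∀ j, Finite (Γ j))
    (c : ∀ j, Finset (Fin n) → Γ j) (F : (Fin k → Prop) → Prop),
    (∀ j (g : Γ j), q • g = 0) ∧
    (∀ j i, {m : Finset (Fin n) | i ∈ m ∧ c j m ≠ 0}.ncard ≤ r) ∧
    ∀ x, T x = true ↔ F fun j => pol (c j) x = 0

end Pool.Agent.MP_ca1109_lc.Xp
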