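import Pool.Agent.MP_ca1109_lc.Xp.MA
import Pool.Agent.MP_ca1109_lc.Xp.Test
import Pool.Agent.MP_ca1109_lc.Agp.G3
import Pool.Agent.MP_ca1109_lc.Agp.N1

/-!
# Systems of any number of read-bounded polynomial equations
-/

namespace Pool.Agent.MP_ca1109_lc.Xp

open Finset Pool.Agent.H66 Pool.Agent.MP_ca1109_lc.Mpg Pool.Agent.MP_ca1109_lc.Agp
open Pool.Agent.MP_ca1109_lc.Dnf (Cube ch one)

variable {n : ℕ}

/-- `T x = F (P x)`, where `P` is a polynomial (of any degree) with coefficients in a finite abelian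
group `Γ` with `q Γ = 0`, every variable occurs in at most `r` monomials of `P`, and `F` is a
combination of characters of `Γ` with coefficients of total size at most `B`. -/
def SpecTest (q r : ℕ) (B : ℝ) (n : ℕ) (T : (Fin n → Bool) → Bool) : Prop :=
  ∃ (Γ : Type) (_ : AddCommGroup Γ) (_ : Fintype Γ) (c : Finset (Fin n) → Γ) (F : Γ → Bool)
    (a : AddChar Γ ℂ → ℂ),
    (∀ g : Γ, q • g = 0) ∧ (∀ i, {m : Finset (Fin n) | i ∈ m ∧ c m ≠ 0}.ncard ≤ r) ∧
    (∑ χ, ‖a χ‖ ≤ B) ∧ (∀ g, (if F g = true then 1 else 0 : ℂ) = ∑ χ, a χ * χ g) ∧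
    ∀ x, T x = F (pol c x)

private theorem fj_av {A : Type*} [Fintype A] (g : A → Bool) :
    ((prob g : ℝ) : ℂ) = av (fun a => ((ind (g a) : ℝ) : ℂ)) := by
  rw [prob_eq_avg]
  unfold avg av
  push_cast
  rfl

private theorem fj_av_sum {A C : Type*} [Fintype A] (s : Finset C) (b : C → ℂ) (f : C → A → ℂ) :
    av (fun a => ∑ c ∈ s, b c * f c a) = ∑ c ∈ s, b c * av (f c) := by
  unfold av
  rw [Finset.sum_comm, Finset.sum_div]
  refine Finset.sum_congr rfl fun c _ => ?_
  rw [← Finset.mul_sum, mul_div_assoc]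

private theorem fj_na_sum {C : Type*} (M : ℕ) (s : Finset C) (b : C → ℂ) (f : C → ℕ → ℂ) :
    na M (fun a => ∑ c ∈ s, b c * f c a) = ∑ c ∈ s, b c * na M (f c) := by
  rw [na_sum]
  exact Finset.sum_congr rfl fun c _ => na_mul_left _ _ _

private theorem fj_ind (b : Bool) : ((ind b : ℝ) : ℂ) = if b = true then 1 else 0 := by
  cases b <;> simp [ind]

/-- Combinations of the functions `pr ζ M`. -/
theorem comb_error {ι : Type*} [Fintype ι] {q r N : ℕ} {X : ℕ → Fin n → Bool} {δ B : ℝ}
    (H : ∀ (M : Finset (Finset (Fin n))) (ζ : Finset (Fin n) → ℂ), Rd r M →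
      (∀ m ∈ M, ζ m ^ q = 1) → ‖na N (fun p => pr ζ M (X p)) - av (pr ζ M)‖ ≤ δ)
    (a : ι → ℂ) (ζ : ι → Finset (Fin n) → ℂ) (M : ι → Finset (Finset (Fin n)))
    (hM : ∀ i, Rd r (M i)) (hζ : ∀ i, ∀ m ∈ M i, ζ i m ^ q = 1) (hB : ∑ i, ‖a i‖ ≤ B)
    (hδ : 0 ≤ δ) {T : (Fin n → Bool) → Bool}
    (hT : ∀ x, ((ind (T x) : ℝ) : ℂ) = ∑ i, a i * pr (ζ i) (M i) x) :
    |nr N (fun p => ind (T (X p))) - prob T| ≤ B * δ := by
  have h1 : ((nr N (fun p => ind (T (X p))) : ℝ) : ℂ) =
      ∑ i, a i * na N (fun p => pr (ζ i) (M i) (X p)) := by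
    rw [nr_ofReal, ← fj_na_sum]
    exact na_congr fun p _ => hT _
  have h2 : ((prob T : ℝ) : ℂ) = ∑ i, a i * av (pr (ζ i) (M i)) := by
    rw [fj_av, ← fj_av_sum]
    congr 1
    funext x
    exact hT x
  have h3 : |nr N (fun p => ind (T (X p))) - prob T|
      = ‖((nr N (fun p => ind (T (X p))) : ℝ) : ℂ) - ((prob T : ℝ) : ℂ)‖ := by
    rw [← Complex.ofReal_sub, Complex.norm_real, Real.norm_eq_abs]
  rw [h3, h1, h2, ← Finset.sum_sub_distrib]
  refine (norm_sum_le _ _).trans ?_
  refine (Finset.sum_le_sum (g := fun i => ‖a i‖ * δ) fun i _ => ?_).trans ?_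
  · rw [← mul_sub, norm_mul]
    exact mul_le_mul_of_nonneg_left (H _ _ (hM i) (hζ i)) (norm_nonneg _)
  · rw [← Finset.sum_mul]
    exact mul_le_mul_of_nonneg_right hB hδ

private theorem fj_sum {Γ ι : Type*} [AddCommGroup Γ] (χ : AddChar Γ ℂ) (s : Finset ι)
    (g : ι → Γ) : χ (∑ m ∈ s, g m) = ∏ m ∈ s, χ (g m) := by
  classical
  induction s using Finset.induction_on with
  | empty => rw [Finset.sum_empty, Finset.prod_empty, AddChar.map_zero_eq_one]
  | insert a s ha ih => rw [Finset.sum_insert ha, Finset.prod_insert ha, AddChar.map_add_eq_mul, ih]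

/-- Characters of polynomials. -/
theorem char_pol {Γ : Type*} [AddCommGroup Γ] (c : Finset (Fin n) → Γ) (χ : AddChar Γ ℂ)
    (M : Finset (Finset (Fin n))) (hM : ∀ m, m ∉ M → c m = 0) (x : Fin n → Bool) :
    χ (pol c x) = pr (fun m => χ (c m)) M x := by
  classical
  unfold pol
  rw [fj_sum]
  unfold pr
  symm
  refine (Finset.prod_subset (Finset.subset_univ M) fun m _ hm => ?_).trans ?_
  · show (if Tr m x then χ (c m) else 1) = 1
    rw [hM m hm, AddChar.map_zero_eq_one, ite_self]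
  · refine Finset.prod_congr rfl fun m _ => ?_
    by_cases hm : ∀ i ∈ m, x i = true
    · rw [if_pos (show Tr m x from hm), if_pos hm]
    · rw [if_neg (show ¬ Tr m x from hm), if_neg hm, AddChar.map_zero_eq_one]

/-- Larger classes for small `n` do not matter. -/
private theorem fj_eventually {𝒯 𝒯' : ∀ n : ℕ, ((Fin n → Bool) → Bool) → Prop} {ε : ℝ}
    (h : LogGen 𝒯 ε) (n₀ : ℕ) (h' : ∀ n ≥ n₀, ∀ T, 𝒯' n T → 𝒯 n T) : LogGen 𝒯' ε := by
  obtain ⟨D, G, hD, hG, hl, c, hc⟩ := h
  refine ⟨D, G, hD, hG, hl, c, ?_⟩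
  filter_upwards [hc, Filter.eventually_ge_atTop n₀] with n hn hn'
  exact ⟨hn.1, hn.2.1, fun T hT => hn.2.2 T (h' n hn' T hT)⟩

theorem LogGen.sub {𝒯 𝒯' : ∀ n : ℕ, ((Fin n → Bool) → Bool) → Prop} {ε : ℝ}
    (h : LogGen 𝒯 ε) (h' : ∀ n, ∀ T, 𝒯' n T → 𝒯 n T) : LogGen 𝒯' ε :=
  fj_eventually h 0 fun n _ => h' n

theorem final_spec (q r : ℕ) (hq : 0 < q) (B : ℝ) {ε : ℝ} (hε : 0 < ε) :
    LogGen (SpecTest q r B) ε := by
  classical
  have hB : (0 : ℝ) < max B 1 := lt_max_of_lt_right one_pos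
  obtain ⟨E, G, hNG, n₀, H⟩ := main_pr r q hq (ε := ε / max B 1) (by positivity)
  refine fj_eventually (𝒯 := fun n T => n₀ ≤ n ∧ SpecTest q r B n T)
    (logGen_of hNG fun n T hT => ?_) n₀ fun n hn T hT => ⟨hn, hT⟩
  obtain ⟨hn, Γ, _, _, c, F, a, hqΓ, hc, ha, hF, hT⟩ := hT
  set M : Finset (Finset (Fin n)) := univ.filter fun m : Finset (Fin n) => c m ≠ 0 with hM
  have hM' : ∀ m, m ∉ M → c m = 0 := by
    intro m hm
    by_contra h
    exact hm (Finset.mem_filter.2 ⟨Finset.mem_univ _, h⟩)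
  have hR : Rd r M := by
    intro i
    refine le_trans (le_of_eq ?_) (hc i)
    rw [← Set.ncard_coe_finset]
    congr 1
    ext m
    simp [hM, and_comm]
  refine (comb_error (q := q) (r := r) (B := max B 1) (H n hn) a (fun χ m => χ (c m))
    (fun _ => M) (fun _ => hR) (fun χ m _ => ?_) (ha.trans (le_max_left _ _)) (by positivity)
    fun x => ?_).trans (le_of_eq ?_)
  · rw [← AddChar.map_nsmul_eq_pow, hqΓ, AddChar.map_zero_eq_one]
  · rw [hT x, fj_ind, hF]
    exact Finset.sum_congr rfl fun χ _ => by rw [char_pol c χ M hM' x]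
  · field_simp

/-- A combination of characters. -/
private theorem fj_comb {Γ ι : Type*} [AddCommGroup Γ] [Fintype Γ] [Fintype ι] (b : ι → ℂ)
    (ψ : ι → AddChar Γ ℂ) : ∃ a : AddChar Γ ℂ → ℂ, (∑ χ, ‖a χ‖ ≤ ∑ i, ‖b i‖) ∧
      ∀ g, ∑ i, b i * ψ i g = ∑ χ, a χ * χ g := by
  classical
  refine ⟨fun χ => ∑ i ∈ univ.filter fun i => ψ i = χ, b i, ?_, fun g => ?_⟩
  · rw [← Finset.sum_fiberwise univ ψ fun i => ‖b i‖]
    exact Finset.sum_le_sum fun χ _ => norm_sum_le _ _
  · rw [← Finset.sum_fiberwise univ ψ fun i => b i * ψ i g]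
    refine Finset.sum_congr rfl fun χ _ => ?_
    rw [Finset.sum_mul]
    refine Finset.sum_congr rfl fun i hi => ?_
    rw [(Finset.mem_filter.1 hi).2]

/-- The expansion of an arbitrary function of bits in products of bits. -/
private theorem fj_expand {k : ℕ} (F : (Fin k → Bool) → Bool) :
    ∃ a : Finset (Fin k) → ℂ, (∀ U, ‖a U‖ ≤ 2 ^ k) ∧ ∀ b : Fin k → Bool,
      ((ind (F b) : ℝ) : ℂ) = ∑ U, a U * ∏ i ∈ U, ((ind (b i) : ℝ) : ℂ) := by
  classical
  refine ⟨fun U => ∑ c ∈ U.powerset, (-1 : ℂ) ^ (U \ c).card *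
    ((ind (F fun i => decide (i ∈ c)) : ℝ) : ℂ), fun U => ?_, fun b => ?_⟩
  · refine (norm_sum_le _ _).trans ?_
    have h1 : ∀ c ∈ U.powerset, ‖(-1 : ℂ) ^ (U \ c).card *
        ((ind (F fun i => decide (i ∈ c)) : ℝ) : ℂ)‖ ≤ 1 := by
      intro c _
      rw [norm_mul, norm_pow, norm_neg, norm_one, one_pow, one_mul, Complex.norm_real,
        Real.norm_of_nonneg (ind_nonneg _)]
      exact ind_le_one _
    refine (Finset.sum_le_sum h1).trans ?_
    rw [Finset.sum_const, Finset.card_powerset, nsmul_eq_mul, mul_one]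
    push_cast
    refine pow_le_pow_right₀ (by norm_num) ?_
    exact (Finset.card_le_univ U).trans (by simp)
  · set B : Finset (Fin k) := univ.filter fun i => b i = true with hB
    have hprod : ∀ U : Finset (Fin k), (∏ i ∈ U, ((ind (b i) : ℝ) : ℂ)) = if U ⊆ B then 1 else 0 := by
      intro U
      by_cases hU : U ⊆ B
      · rw [if_pos hU]
        refine Finset.prod_eq_one fun i hi => ?_
        have : b i = true := (Finset.mem_filter.1 (hU hi)).2
        rw [this]
        simp [ind]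
      · rw [if_neg hU]
        obtain ⟨i, hi, hi'⟩ := Finset.not_subset.1 hU
        refine Finset.prod_eq_zero hi ?_
        have : b i = false := by
          rw [← Bool.not_eq_true]
          exact fun h => hi' (Finset.mem_filter.2 ⟨Finset.mem_univ _, h⟩)
        rw [this]
        simp [ind]
    have hb : b = fun i => decide (i ∈ B) := by
      funext i
      rw [hB]
      cases h : b i <;> simp [h]
    simp only [hprod, mul_ite, mul_one, mul_zero]
    rw [← Finset.sum_filter]
    have e1 : (univ.filter fun U : Finset (Fin k) => U ⊆ B) = B.powerset := by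
      ext U
      simp
    rw [e1]
    -- swap the two sums
    have e2 : ∑ U ∈ B.powerset, ∑ c ∈ U.powerset, (-1 : ℂ) ^ (U \ c).card *
        ((ind (F fun i => decide (i ∈ c)) : ℝ) : ℂ) =
        ∑ c ∈ B.powerset, (∑ U ∈ (B \ c).powerset, (-1 : ℂ) ^ U.card) *
          ((ind (F fun i => decide (i ∈ c)) : ℝ) : ℂ) := by
      rw [Finset.sum_comm' (s := B.powerset) (t := fun U => U.powerset) (t' := B.powerset)
        (s' := fun c => B.powerset.filter fun U => c ⊆ U)]
      · refine Finset.sum_congr rfl fun c hc => ?_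
        rw [← Finset.sum_mul]
        congr 1
        rw [Finset.mem_powerset] at hc
        refine Finset.sum_bij (fun U _ => U \ c) ?_ ?_ ?_ ?_
        · intro U hU
          rw [Finset.mem_filter, Finset.mem_powerset] at hU
          rw [Finset.mem_powerset]
          exact Finset.sdiff_subset_sdiff hU.1 (le_refl c)
        · intro U hU U' hU' h
          rw [Finset.mem_filter] at hU hU'
          rw [← Finset.sdiff_union_of_subset hU.2, ← Finset.sdiff_union_of_subset hU'.2, h]
        · intro V hV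
          rw [Finset.mem_powerset] at hV
          refine ⟨V ∪ c, ?_, ?_⟩
          · rw [Finset.mem_filter, Finset.mem_powerset]
            exact ⟨Finset.union_subset (hV.trans Finset.sdiff_subset) hc,
              Finset.subset_union_right⟩
          · rw [Finset.union_sdiff_cancel_right]
            rw [Finset.disjoint_left]
            intro i hi
            exact (Finset.mem_sdiff.1 (hV hi)).2
        · intro U _
          rfl
      · intro U c
        rw [Finset.mem_powerset, Finset.mem_powerset, Finset.mem_filter, Finset.mem_powerset,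
          Finset.mem_powerset]
        constructor
        · rintro ⟨h1, h2⟩
          exact ⟨⟨h1, h2⟩, h2.trans h1⟩
        · rintro ⟨⟨h1, h2⟩, -⟩
          exact ⟨h1, h2⟩
    rw [e2]
    have e3 : ∀ c ∈ B.powerset, c ≠ B → (∑ U ∈ (B \ c).powerset, (-1 : ℂ) ^ U.card) *
        ((ind (F fun i => decide (i ∈ c)) : ℝ) : ℂ) = 0 := by
      intro c hc hne
      have h1 : (∑ U ∈ (B \ c).powerset, (-1 : ℂ) ^ U.card) = 0 := by
        have h2 : ((∑ U ∈ (B \ c).powerset, (-1 : ℤ) ^ U.card : ℤ) : ℂ) = 0 := by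
          rw [Finset.sum_powerset_neg_one_pow_card_of_nonempty]
          · simp
          · rw [Finset.sdiff_nonempty]
            exact fun h => hne (Finset.Subset.antisymm (Finset.mem_powerset.1 hc) h)
        push_cast at h2
        exact h2
      rw [h1, zero_mul]
    rw [Finset.sum_eq_single_of_mem B (Finset.mem_powerset_self B) e3]
    rw [Finset.sdiff_self, Finset.powerset_empty, Finset.sum_singleton, Finset.card_empty,
      pow_zero, one_mul, ← hb]

/-- Systems have small spectral norm. -/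
theorem ReadSysTest.spec {q r k n : ℕ} {T : (Fin n → Bool) → Bool} (h : ReadSysTest q r k n T) :
    SpecTest q (k * r) (4 ^ k) n T := by
  classical
  obtain ⟨Γ, _, hfin, c, F, hq, hc, hT⟩ := h
  have _ : ∀ j, Fintype (Γ j) := fun j => Fintype.ofFinite (Γ j)
  obtain ⟨a, ha, hF⟩ := fj_expand (k := k) (fun b => decide (F (fun i => b i = true)))
  let pj : Finset (Fin k) → (∀ j, Γ j) →+ (∀ j, Γ j) := fun U =>
    { toFun := fun g j => if j ∈ U then g j else 0
      map_zero' := by funext j; simp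
      map_add' := fun g g' => by
        funext j
        by_cases hj : j ∈ U <;> simp [hj] }
  have hcard : ((Fintype.card (∀ j, Γ j) : ℕ) : ℂ) ≠ 0 := by exact_mod_cast Fintype.card_ne_zero
  obtain ⟨a', ha', hF'⟩ := fj_comb (Γ := ∀ j, Γ j) (ι := Finset (Fin k) × AddChar (∀ j, Γ j) ℂ)
    (fun u => a u.1 / (Fintype.card (∀ j, Γ j) : ℂ)) (fun u => u.2.compAddMonoidHom (pj u.1))
  refine ⟨∀ j, Γ j, inferInstance, inferInstance, fun m j => c j m,
    fun g => decide (F fun j => g j = 0), a', fun g => funext fun j => hq j (g j), fun i => ?_,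
    ha'.trans ?_, fun g => ?_, fun x => ?_⟩
  · -- the read
    have h1 : {m : Finset (Fin n) | i ∈ m ∧ (fun j => c j m) ≠ 0} ⊆
        ⋃ j ∈ (univ : Finset (Fin k)), {m : Finset (Fin n) | i ∈ m ∧ c j m ≠ 0} := by
      rintro m ⟨hm, hne⟩
      obtain ⟨j, hj⟩ := Function.ne_iff.1 hne
      exact Set.mem_iUnion₂.2 ⟨j, Finset.mem_univ _, hm, hj⟩
    refine (Set.ncard_le_ncard h1 (Set.toFinite _)).trans ?_
    refine (Finset.set_ncard_biUnion_le _ _).trans ?_
    refine (Finset.sum_le_sum fun j _ => hc j i).trans ?_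
    rw [Finset.sum_const, Finset.card_univ, Fintype.card_fin, smul_eq_mul]
  · -- the norm
    have h1 : ∀ u : Finset (Fin k) × AddChar (∀ j, Γ j) ℂ,
        ‖a u.1 / (Fintype.card (∀ j, Γ j) : ℂ)‖ ≤ 2 ^ k / (Fintype.card (∀ j, Γ j) : ℝ) := by
      intro u
      rw [norm_div, Complex.norm_natCast]
      exact div_le_div_of_nonneg_right (ha _) (by positivity)
    refine (Finset.sum_le_sum fun u _ => h1 u).trans ?_
    rw [Finset.sum_const, Finset.card_univ, Fintype.card_prod, AddChar.card_eq,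
      Fintype.card_finset, Fintype.card_fin, nsmul_eq_mul]
    have h2 : ((Fintype.card (∀ j, Γ j) : ℕ) : ℝ) ≠ 0 := by exact_mod_cast Fintype.card_ne_zero
    push_cast
    have h3 : (4 : ℝ) ^ k = 2 ^ k * 2 ^ k := by rw [← mul_pow]; norm_num
    rw [h3]
    apply le_of_eq
    field_simp
  · -- the expansion
    rw [← hF', Fintype.sum_prod_type]
    have h1 : (if decide (F fun j => g j = 0) = true then 1 else 0 : ℂ) =
        ∑ U, a U * ∏ i ∈ U, ((ind (decide (g i = 0)) : ℝ) : ℂ) := by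
      rw [← fj_ind, ← hF]
      congr 2
      simp only [decide_eq_true_eq]
    rw [h1]
    refine Finset.sum_congr rfl fun U _ => ?_
    have h2 : ∑ ψ : AddChar (∀ j, Γ j) ℂ, ψ (pj U g) =
        if pj U g = 0 then (Fintype.card (∀ j, Γ j) : ℂ) else 0 := by
      rw [AddChar.sum_apply_eq_ite]
    have h3 : ∑ ψ : AddChar (∀ j, Γ j) ℂ, a U / (Fintype.card (∀ j, Γ j) : ℂ) *
        (ψ.compAddMonoidHom (pj U)) g = a U * if pj U g = 0 then 1 else 0 := by
      have : ∀ ψ : AddChar (∀ j, Γ j) ℂ, (ψ.compAddMonoidHom (pj U)) g = ψ (pj U g) :=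
        fun ψ => rfl
      simp only [this]
      rw [← Finset.mul_sum, h2]
      split_ifs
      · field_simp
      · simp
    show a U * _ = ∑ ψ : AddChar (∀ j, Γ j) ℂ, a U / (Fintype.card (∀ j, Γ j) : ℂ) *
        (ψ.compAddMonoidHom (pj U)) g
    rw [h3]
    congr 1
    by_cases hall : ∀ i ∈ U, g i = 0
    · have h4 : pj U g = 0 := by
        funext i
        show (if i ∈ U then g i else 0) = 0
        split_ifs with hi
        · exact hall i hi
        · rfl
      rw [if_pos h4]
      refine Finset.prod_eq_one fun i hi => ?_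
      rw [decide_eq_true (hall i hi)]
      simp [ind]
    · have h4 : pj U g ≠ 0 := by
        intro h
        apply hall
        intro i hi
        have h5 := congrFun h i
        have h6 : (if i ∈ U then g i else 0) = 0 := h5
        rwa [if_pos hi] at h6
      rw [if_neg h4]
      push Not at hall
      obtain ⟨i, hi, hix⟩ := hall
      refine Finset.prod_eq_zero hi ?_
      rw [decide_eq_false hix]
      simp [ind]
  · rw [Bool.eq_iff_iff, hT, decide_eq_true_eq]
    have h1 : ∀ j, (pol (fun m (j : Fin k) => c j m) x : ∀ j, Γ j) j = pol (c j) x := by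
      intro j
      unfold pol
      rw [Finset.sum_apply]
      refine Finset.sum_congr rfl fun m _ => ?_
      split_ifs <;> rfl
    simp only [h1]

/-- **Systems of polynomial equations of any size.** -/
theorem final_sys (q r k : ℕ) (hq : 0 < q) {ε : ℝ} (hε : 0 < ε) : LogGen (ReadSysTest q r k) ε :=
  LogGen.sub (final_spec q (k * r) hq (4 ^ k) hε) fun _ _ h => h.spec

/-- `T` is a function of `k` polynomials modulo `q`; in each of them every variable occurs in at
most `r` monomials. -/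
def PolyTest (q r k n : ℕ) (T : (Fin n → Bool) → Bool) : Prop :=
  ∃ (c : Fin k → Finset (Fin n) → ZMod q) (F : (Fin k → ZMod q) → Bool),
    (∀ j i, {m : Finset (Fin n) | i ∈ m ∧ c j m ≠ 0}.ncard ≤ r) ∧
    ∀ x, T x = F fun j => pol (c j) x

/-- Every Boolean function on a finite abelian group is a combination of characters. -/
private theorem fj_fourier {Γ : Type*} [AddCommGroup Γ] [Fintype Γ] (F : Γ → Bool) :
    ∃ a : AddChar Γ ℂ → ℂ, (∑ χ, ‖a χ‖ ≤ (Fintype.card Γ : ℝ)) ∧
      ∀ g, (if F g = true then 1 else 0 : ℂ) = ∑ χ : AddChar Γ ℂ, a χ * χ g := by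
  classical
  have hc : (Fintype.card Γ : ℂ) ≠ 0 := by exact_mod_cast Fintype.card_ne_zero
  have hc' : (0 : ℝ) < (Fintype.card Γ : ℝ) := by exact_mod_cast Fintype.card_pos
  refine ⟨fun χ => (∑ h : Γ, (if F h = true then 1 else 0 : ℂ) * χ (-h)) /
    (Fintype.card Γ : ℂ), ?_, fun g => ?_⟩
  · have h0 : ∀ χ : AddChar Γ ℂ, ‖(∑ h : Γ, (if F h = true then 1 else 0 : ℂ) * χ (-h)) /
        (Fintype.card Γ : ℂ)‖ ≤ 1 := by
      intro χ
      rw [norm_div, Complex.norm_natCast, div_le_one hc']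
      refine (norm_sum_le _ _).trans ?_
      have h1 : ∀ h ∈ (univ : Finset Γ), ‖(if F h = true then 1 else 0 : ℂ) * χ (-h)‖ ≤ 1 := by
        intro h _
        rw [norm_mul, AddChar.norm_apply, mul_one]
        split_ifs <;> simp
      refine (Finset.sum_le_sum h1).trans ?_
      rw [Finset.sum_const, Finset.card_univ, nsmul_eq_mul, mul_one]
    refine (Finset.sum_le_sum fun χ _ => h0 χ).trans ?_
    rw [Finset.sum_const, Finset.card_univ, AddChar.card_eq, nsmul_eq_mul, mul_one]
  · have e1 : ∑ χ : AddChar Γ ℂ, (∑ h : Γ, (if F h = true then 1 else 0 : ℂ) * χ (-h)) /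
        (Fintype.card Γ : ℂ) * χ g =
        ∑ h : Γ, (if F h = true then 1 else 0 : ℂ) / (Fintype.card Γ : ℂ) *
          ∑ χ : AddChar Γ ℂ, χ (g - h) := by
      simp_rw [Finset.sum_div, Finset.sum_mul, Finset.mul_sum]
      rw [Finset.sum_comm]
      refine Finset.sum_congr rfl fun h _ => Finset.sum_congr rfl fun χ _ => ?_
      rw [sub_eq_add_neg, AddChar.map_add_eq_mul]
      ring
    rw [e1]
    have e2 : ∀ h : Γ, (if F h = true then 1 else 0 : ℂ) / (Fintype.card Γ : ℂ) *
        ∑ χ : AddChar Γ ℂ, χ (g - h) = if h = g then (if F g = true then 1 else 0 : ℂ) else 0 := by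
      intro h
      rw [AddChar.sum_apply_eq_ite]
      by_cases hg : h = g
      · subst hg
        rw [if_pos rfl, if_pos (sub_self h)]
        field_simp
      · rw [if_neg hg, if_neg fun h' => hg (sub_eq_zero.1 h').symm, mul_zero]
    rw [Finset.sum_congr rfl fun h _ => e2 h, Finset.sum_ite_eq' univ g, if_pos (Finset.mem_univ _)]

theorem PolyTest.spec {q r k n : ℕ} (hq : 0 < q) {T : (Fin n → Bool) → Bool}
    (h : PolyTest q r k n T) : SpecTest q (k * r) (q ^ k) n T := by
  classical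
  obtain ⟨c, F, hc, hT⟩ := h
  have : NeZero q := ⟨hq.ne'⟩
  obtain ⟨a, ha, hF⟩ := fj_fourier F
  refine ⟨Fin k → ZMod q, inferInstance, inferInstance, fun m j => c j m, F, a,
    fun g => ?_, fun i => ?_, ha.trans ?_, hF, fun x => ?_⟩
  · funext j
    rw [Pi.smul_apply, nsmul_eq_mul, ZMod.natCast_self, zero_mul]
    rfl
  · have h1 : {m : Finset (Fin n) | i ∈ m ∧ (fun j => c j m) ≠ 0} ⊆
        ⋃ j ∈ (univ : Finset (Fin k)), {m : Finset (Fin n) | i ∈ m ∧ c j m ≠ 0} := by
      rintro m ⟨hm, hne⟩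
      obtain ⟨j, hj⟩ := Function.ne_iff.1 hne
      exact Set.mem_iUnion₂.2 ⟨j, Finset.mem_univ _, hm, hj⟩
    refine (Set.ncard_le_ncard h1 (Set.toFinite _)).trans ?_
    refine (Finset.set_ncard_biUnion_le _ _).trans ?_
    refine (Finset.sum_le_sum fun j _ => hc j i).trans ?_
    rw [Finset.sum_const, Finset.card_univ, Fintype.card_fin, smul_eq_mul]
  · rw [Fintype.card_fun, Fintype.card_fin, ZMod.card]
    push_cast
    exact le_refl _
  · rw [hT x]
    congr 1
    funext j
    unfold pol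
    rw [Finset.sum_apply]
    refine Finset.sum_congr rfl fun m _ => ?_
    split_ifs <;> rfl

theorem SpecTest.mono {q r r' : ℕ} {B B' : ℝ} (hr : r ≤ r') (hB : B ≤ B') {n : ℕ}
    {T : (Fin n → Bool) → Bool} (h : SpecTest q r B n T) : SpecTest q r' B' n T := by
  obtain ⟨Γ, i1, i2, c, F, a, hq, hc, ha, hF, hT⟩ := h
  exact ⟨Γ, i1, i2, c, F, a, hq, fun i => (hc i).trans hr, ha.trans hB, hF, hT⟩

/-- **One generator for all three classes.** -/
theorem final_union (q r k : ℕ) (hq : 0 < q) (B : ℝ) {ε : ℝ} (hε : 0 < ε) :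
    LogGen (fun n T => SpecTest q r B n T ∨ ReadSysTest q r k n T ∨ PolyTest q r k n T) ε := by
  refine LogGen.sub (final_spec q (max r (k * r)) hq (max B (max (4 ^ k) (q ^ k))) hε) ?_
  rintro n T (h | h | h)
  · exact h.mono (le_max_left _ _) (le_max_left _ _)
  · exact h.spec.mono (le_max_right _ _) ((le_max_left _ _).trans (le_max_right _ _))
  · exact (h.spec hq).mono (le_max_right _ _) ((le_max_right _ _).trans (le_max_right _ _))

end Pool.Agent.MP_ca1109_lc.Xp
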