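import Pool.Agent.MP_ca1109_lc.Hyb.E3
import Pool.Agent.MP_ca1109_lc.Agp.G3

/-!
# GN1: the generator is computable in polynomial time

Two independent strings of small bias: `y` (one bit for each coordinate `i`) and `w` (`L + s` bits for
each coordinate, `L = clog 2 n + r + 1`: the bits `e i t`, `t < L`, and `s` bits with value
`h i < 2 ^ s`).  The output is `x i = y i + ∑_{l < L} (∏_{t < l} e i t) * v l (h i)` with `L * 2 ^ s`
uniform bits `v`.
-/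

namespace Pool.Agent.MP_ca1109_lc.Xp

open Pool.Agent.H66 Pool.Agent.MP_ca1109_lc.Mpg Pool.Agent.MP_ca1109_lc.Agp Finset

/-- The number of levels. -/
def gnL (r n : ℕ) : ℕ := Nat.clog 2 n + r + 1

/-- The number of bits of the second string for one coordinate. -/
def gnW (r s n : ℕ) : ℕ := gnL r n + s

/-- The value of `s` bits. -/
def gnv : (s : ℕ) → (ℕ → Bool) → ℕ
  | 0, _ => 0
  | s + 1, b => (if b s then 2 ^ s else 0) + gnv s b

theorem gnv_lt (s : ℕ) (b : ℕ → Bool) : gnv s b < 2 ^ s := by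
  induction s with
  | zero => simp [gnv]
  | succ s ih =>
    unfold gnv
    rw [pow_succ]
    split_ifs <;> omega

theorem gnv_congr (s : ℕ) {b b' : ℕ → Bool} (h : ∀ t < s, b t = b' t) : gnv s b = gnv s b' := by
  induction s with
  | zero => rfl
  | succ s ih =>
    unfold gnv
    rw [h s (Nat.lt_succ_self s), ih fun t ht => h t (by omega)]

/-- The bit of level `l`. -/
def gnb (s L : ℕ) (Y : ℕ → Bool) (v : ℕ → ℕ → Bool) (l : ℕ) : Bool :=
  ((List.range l).all fun t => Y t) && v l (gnv s fun t => Y (L + t))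

/-- The sum of `z` and the first levels. -/
def gnx (s L : ℕ) (z : Bool) (Y : ℕ → Bool) (v : ℕ → ℕ → Bool) : ℕ → Bool
  | 0 => z
  | l + 1 => xor (gnx s L z Y v l) (gnb s L Y v l)

theorem gnx_eq (s L : ℕ) (z : Bool) (Y : ℕ → Bool) (v : ℕ → ℕ → Bool) (l : ℕ) :
    gnx s L z Y v l = (List.range l).foldl (fun a l => xor a (gnb s L Y v l)) z := by
  induction l with
  | zero => rfl
  | succ l ih => rw [List.range_succ, List.foldl_append, ← ih]; rfl

/-- The generator; `G₁` produces the first strings, `G₂` the second ones with seeds of length `E₂`. -/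
def gnG (r s : ℕ) (E₂ : ℕ → ℕ) (G₁ G₂ : ℕ → ℕ → ℕ → Bool) (n p i : ℕ) : Bool :=
  gnx s (gnL r n) (G₁ n (p / 2 ^ (gnL r n * 2 ^ s) / 2 ^ E₂ (n * gnW r s n)) i)
    (fun t => G₂ (n * gnW r s n) (p / 2 ^ (gnL r n * 2 ^ s) % 2 ^ E₂ (n * gnW r s n))
      (i * gnW r s n + t))
    (fun l c => decide (p / 2 ^ (l * 2 ^ s + c) % 2 = 1)) (gnL r n)

theorem polyTime_gnL (r : ℕ) {γ : Type} [Enc γ] {n : γ → ℕ} (hn : PolyTime n) :
    PolyTime fun c => gnL r (n c) :=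
  PolyTime.add (PolyTime.add (polyTime_clog.comp hn) (PolyTime.const r)) (PolyTime.const 1)

theorem polyTime_gnv (s : ℕ) {γ : Type} [Enc γ] {b : γ → ℕ → Bool}
    (hb : ∀ t, PolyTime fun c => b c t) : PolyTime fun c => gnv s (b c) := by
  induction s with
  | zero => exact PolyTime.const 0
  | succ s ih => exact PolyTime.add ((hb s).ite (PolyTime.const _) (PolyTime.const _)) ih

theorem polyTime_gnall {γ : Type} [Enc γ] {l : γ → ℕ} {f : γ → ℕ → Bool} (hl : PolyTime l)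
    (hf : PolyTime fun q : γ × ℕ => f q.1 q.2) :
    PolyTime fun c => (List.range (l c)).all (f c) := by
  have h1 : PolyTime fun c => ((List.range (l c)).filter fun t => !f c t).isEmpty :=
    PolyTime.isEmpty.comp (PolyTime.filter (f := fun c t => !f c t) (PolyTime.range hl) (PolyTime.not hf))
  refine h1.of_eq fun c => ?_
  rw [Bool.eq_iff_iff, List.isEmpty_iff, List.filter_eq_nil_iff, List.all_eq_true]
  refine forall_congr' fun t => ?_
  cases f c t <;> simp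

theorem polyTime_gnG (r s : ℕ) {E₁ E₂ : ℕ → ℕ} {G₁ G₂ : ℕ → ℕ → ℕ → Bool} (h₁ : NG E₁ G₁)
    (h₂ : NG E₂ G₂) : PolyTime fun q : ℕ × (ℕ × ℕ) => gnG r s E₂ G₁ G₂ q.1 q.2.1 q.2.2 := by
  have hn : PolyTime fun q : ℕ × (ℕ × ℕ) => q.1 := PolyTime.fst
  have hp : PolyTime fun q : ℕ × (ℕ × ℕ) => q.2.1 := PolyTime.fst.comp PolyTime.snd
  have hi : PolyTime fun q : ℕ × (ℕ × ℕ) => q.2.2 := PolyTime.snd.comp PolyTime.snd
  have hL := polyTime_gnL r hn
  have hw : PolyTime fun q : ℕ × (ℕ × ℕ) => gnW r s q.1 := PolyTime.add hL (PolyTime.const s)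
  have hN : PolyTime fun q : ℕ × (ℕ × ℕ) => q.1 * gnW r s q.1 := PolyTime.mul hn hw
  have hp1 : PolyTime fun q : ℕ × (ℕ × ℕ) => q.2.1 / 2 ^ (gnL r q.1 * 2 ^ s) :=
    g3_divpow hp (PolyTime.mul hL (PolyTime.const _))
  have hE : PolyTime fun q : ℕ × (ℕ × ℕ) => 2 ^ E₂ (q.1 * gnW r s q.1) := h₂.poly_M.comp hN
  have hiw : PolyTime fun q : ℕ × (ℕ × ℕ) => q.2.2 * gnW r s q.1 := PolyTime.mul hi hw
  have hz : PolyTime fun q : ℕ × (ℕ × ℕ) =>
      G₁ q.1 (q.2.1 / 2 ^ (gnL r q.1 * 2 ^ s) / 2 ^ E₂ (q.1 * gnW r s q.1)) q.2.2 :=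
    polyTime_out h₁ hn (d3_div hp1 hE) hi
  have hY : ∀ {γ : Type} [Enc γ] {q : γ → ℕ × (ℕ × ℕ)} {t : γ → ℕ}, PolyTime q → PolyTime t →
      PolyTime fun c => G₂ ((q c).1 * gnW r s (q c).1)
        ((q c).2.1 / 2 ^ (gnL r (q c).1 * 2 ^ s) % 2 ^ E₂ ((q c).1 * gnW r s (q c).1))
        ((q c).2.2 * gnW r s (q c).1 + t c) := fun {γ} _ {q t} hq ht =>
    polyTime_out h₂ (hN.comp hq) ((d3_mod hp1 hE).comp hq) (PolyTime.add (hiw.comp hq) ht)
  have hbody : PolyTime fun x : (ℕ × (ℕ × ℕ)) × (Bool × ℕ) => xor x.2.1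
      (gnb s (gnL r x.1.1) (fun t => G₂ (x.1.1 * gnW r s x.1.1)
        (x.1.2.1 / 2 ^ (gnL r x.1.1 * 2 ^ s) % 2 ^ E₂ (x.1.1 * gnW r s x.1.1))
        (x.1.2.2 * gnW r s x.1.1 + t)) (fun l c => decide (x.1.2.1 / 2 ^ (l * 2 ^ s + c) % 2 = 1))
          x.2.2) := by
    have hx1 : PolyTime fun x : (ℕ × (ℕ × ℕ)) × (Bool × ℕ) => x.1 := PolyTime.fst
    have hl : PolyTime fun x : (ℕ × (ℕ × ℕ)) × (Bool × ℕ) => x.2.2 := PolyTime.snd.comp PolyTime.snd
    refine polyTime_xor (PolyTime.fst.comp PolyTime.snd) (PolyTime.and ?_ ?_)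
    · exact polyTime_gnall (f := fun (x : (ℕ × (ℕ × ℕ)) × (Bool × ℕ)) t => G₂ (x.1.1 * gnW r s x.1.1)
        (x.1.2.1 / 2 ^ (gnL r x.1.1 * 2 ^ s) % 2 ^ E₂ (x.1.1 * gnW r s x.1.1))
          (x.1.2.2 * gnW r s x.1.1 + t))
        hl (hY (q := fun y : ((ℕ × (ℕ × ℕ)) × (Bool × ℕ)) × ℕ => y.1.1) (t := fun y => y.2)
          (PolyTime.fst.comp PolyTime.fst) PolyTime.snd)
    · refine PolyTime.eqb (d3_mod (g3_divpow (hp.comp hx1) (PolyTime.add
        (PolyTime.mul hl (PolyTime.const _)) ?_)) (PolyTime.const 2)) (PolyTime.const 1)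
      exact polyTime_gnv s fun t => hY hx1 (PolyTime.add (hL.comp hx1) (PolyTime.const t))
  have hfold := PolyTime.foldl (α := ℕ × (ℕ × ℕ)) (β := ℕ) (δ := Bool)
    (l := fun q => List.range (gnL r q.1))
    (ini := fun q => G₁ q.1 (q.2.1 / 2 ^ (gnL r q.1 * 2 ^ s) / 2 ^ E₂ (q.1 * gnW r s q.1)) q.2.2)
    (f := fun q a l => xor a (gnb s (gnL r q.1) (fun t => G₂ (q.1 * gnW r s q.1)
        (q.2.1 / 2 ^ (gnL r q.1 * 2 ^ s) % 2 ^ E₂ (q.1 * gnW r s q.1))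
        (q.2.2 * gnW r s q.1 + t)) (fun l c => decide (q.2.1 / 2 ^ (l * 2 ^ s + c) % 2 = 1)) l))
    (PolyTime.range hL) hz hbody
    (fun _ => max (enc true).length (enc false).length) (PB.const _) (fun a i => by
      generalize List.foldl _ _ _ = b
      cases b
      · exact le_max_right _ _
      · exact le_max_left _ _)
  refine hfold.of_eq fun q => ?_
  unfold gnG
  rw [gnx_eq]

theorem gn_bound (r s : ℕ) {f : ℕ → ℕ} (h : ∃ c : ℕ, ∀ n, f n ≤ c * (n + 1) ^ c) :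
    ∃ c : ℕ, ∀ n, f (n * gnW r s n) ≤ c * (n + 1) ^ c := by
  obtain ⟨c, hc⟩ := h
  obtain ⟨a, ha⟩ : ∃ a, a = r + s + 2 := ⟨_, rfl⟩
  refine ⟨(c + 1) * (a + 1) ^ c + 2 * c, fun n => ?_⟩
  have h1 := hc (n * gnW r s n)
  have h2 : n * gnW r s n + 1 ≤ (a + 1) * (n + 1) ^ 2 := by
    have h3 : gnW r s n ≤ a * (n + 1) := by
      unfold gnW gnL
      have : Nat.clog 2 n ≤ n := by
        rw [Nat.clog_le_iff_le_pow (by norm_num)]
        exact Nat.lt_two_pow_self.le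
      rw [ha]
      nlinarith [Nat.zero_le (r * n), Nat.zero_le (s * n)]
    have h4 : n * gnW r s n ≤ n * (a * (n + 1)) := Nat.mul_le_mul_left _ h3
    nlinarith [Nat.zero_le (a * n), Nat.zero_le (n * n), Nat.zero_le (a * n * n)]
  calc f (n * gnW r s n) ≤ c * (n * gnW r s n + 1) ^ c := h1
    _ ≤ c * ((a + 1) * (n + 1) ^ 2) ^ c := Nat.mul_le_mul_left _ (Nat.pow_le_pow_left h2 _)
    _ = (c * (a + 1) ^ c) * (n + 1) ^ (2 * c) := by rw [mul_pow, ← pow_mul]; ring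
    _ ≤ ((c + 1) * (a + 1) ^ c + 2 * c) * (n + 1) ^ ((c + 1) * (a + 1) ^ c + 2 * c) := by
      apply Nat.mul_le_mul
      · nlinarith [Nat.zero_le ((a + 1) ^ c)]
      · apply Nat.pow_le_pow_right (by omega)
        exact Nat.le_add_left _ _

theorem ng_gnG (r s : ℕ) {E₁ E₂ : ℕ → ℕ} {G₁ G₂ : ℕ → ℕ → ℕ → Bool} (h₁ : NG E₁ G₁) (h₂ : NG E₂ G₂) :
    NG (fun n => E₁ n + E₂ (n * gnW r s n) + gnL r n * 2 ^ s) (gnG r s E₂ G₁ G₂) := by
  have hN : PolyTime fun n : ℕ => n * gnW r s n :=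
    PolyTime.mul PolyTime.id (PolyTime.add (polyTime_gnL r PolyTime.id) (PolyTime.const s))
  have e1 : ∀ n, 2 ^ (gnL r n * 2 ^ s) = nseed (2 ^ s) n * 2 ^ ((r + 1) * 2 ^ s) := by
    intro n
    unfold gnL nseed
    rw [← pow_mul, ← pow_add]
    congr 1
    ring
  refine ⟨PolyTime.add (PolyTime.add h₁.poly_E (h₂.poly_E.comp hN))
    (PolyTime.mul (polyTime_gnL r PolyTime.id) (PolyTime.const _)), ?_, ?_, polyTime_gnG r s h₁ h₂⟩
  · exact (PolyTime.mul (PolyTime.mul h₁.poly_M (h₂.poly_M.comp hN))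
      (PolyTime.mul (polyTime_nseed (2 ^ s)) (PolyTime.const _))).of_eq fun n => by
        rw [pow_add, pow_add, e1]
  · have hb2 : ∃ c : ℕ, ∀ n, 2 ^ (gnL r n * 2 ^ s) ≤ c * (n + 1) ^ c := by
      obtain ⟨c, hc⟩ := pb_mul (pb_pow pb_clog (2 ^ s)) (pb_const (2 ^ ((r + 1) * 2 ^ s)))
      refine ⟨c, fun n => ?_⟩
      rw [e1]
      exact hc n
    obtain ⟨c, hc⟩ := pb_mul (pb_mul h₁.bound (gn_bound r s h₂.bound)) hb2
    exact ⟨c, fun n => by
      show 2 ^ (E₁ n + E₂ (n * gnW r s n) + gnL r n * 2 ^ s) ≤ _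
      rw [pow_add, pow_add]
      exact hc n⟩

end Pool.Agent.MP_ca1109_lc.Xp
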