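import Pool.Agent.MP_ca1109_lc.Hyb.E3
import Pool.Agent.MP_ca1109_lc.Agp.G3

/-!
# The generator with inner products: computable in polynomial time

Three independent strings of small bias: `y` (one bit for each coordinate `i`), `e` (`L = lev r n` bits
for each coordinate) and `h` (`m` bits for each coordinate, `m` constant), and `L * K` uniform bits `b`.
The output is `x i = y i + ∑_{l < L} (∏_{t ≤ l} e i t) * φ (b l) (h i)`.  Here `φ` is the inner product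
(`ip m`, `K = m`).
-/

namespace Pool.Agent.MP_ca1109_lc.Xp.Qgn

open Pool.Agent.H66 Pool.Agent.MP_ca1109_lc.Mpg Pool.Agent.MP_ca1109_lc.Agp Finset

/-- The number of levels. -/
def lev (r n : ℕ) : ℕ := Nat.clog 2 n + r + 1

/-- The inner product modulo two of `m` bits. -/
def ip : (m : ℕ) → (ℕ → Bool) → (ℕ → Bool) → Bool
  | 0, _, _ => false
  | m + 1, a, b => xor (a m && b m) (ip m a b)

/-- Admissible functions: they depend on `K` bits of `a` and `m` bits of `b`. -/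
structure Mix (K m : ℕ) (φ : (ℕ → Bool) → (ℕ → Bool) → Bool) : Prop where
  congr : ∀ a a' b b' : ℕ → Bool, (∀ t < K, a t = a' t) → (∀ t < m, b t = b' t) → φ a b = φ a' b'
  poly : ∀ {γ : Type} [Enc γ] {a b : γ → ℕ → Bool}, PolyTime (fun q : γ × ℕ => a q.1 q.2) →
    (∀ t, PolyTime fun c => b c t) → PolyTime fun c => φ (a c) (b c)

theorem mix_ip (m : ℕ) : Mix m m (ip m) := by
  constructor
  · induction m with
    | zero => intros; rfl
    | succ m ih =>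
      intro a a' b b' ha hb
      unfold ip
      rw [ha m (Nat.lt_succ_self m), hb m (Nat.lt_succ_self m), ih a a' b b' (fun t ht => ha t (by omega))
        fun t ht => hb t (by omega)]
  · intro γ _ a b ha hb
    induction m with
    | zero => exact PolyTime.const false
    | succ m ih =>
      exact polyTime_xor (PolyTime.and (ha.comp (PolyTime.id.pair (PolyTime.const m))) (hb m)) ih

/-- The bit of level `l`. -/
def lbit (φ : (ℕ → Bool) → (ℕ → Bool) → Bool) (e h : ℕ → Bool) (b : ℕ → ℕ → Bool) (l : ℕ) : Bool :=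
  ((List.range (l + 1)).all fun t => e t) && φ (b l) h

/-- The sum of `z` and the first levels. -/
def lvl (φ : (ℕ → Bool) → (ℕ → Bool) → Bool) (z : Bool) (e h : ℕ → Bool) (b : ℕ → ℕ → Bool) : ℕ → Bool
  | 0 => z
  | l + 1 => xor (lvl φ z e h b l) (lbit φ e h b l)

theorem lvl_eq (φ : (ℕ → Bool) → (ℕ → Bool) → Bool) (z : Bool) (e h : ℕ → Bool) (b : ℕ → ℕ → Bool)
    (l : ℕ) : lvl φ z e h b l = (List.range l).foldl (fun a l => xor a (lbit φ e h b l)) z := by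
  induction l with
  | zero => rfl
  | succ l ih => rw [List.range_succ, List.foldl_append, ← ih]; rfl

theorem lbit_congr {K m : ℕ} {φ : (ℕ → Bool) → (ℕ → Bool) → Bool} (hφ : Mix K m φ) {L : ℕ}
    {e e' h h' : ℕ → Bool} {b b' : ℕ → ℕ → Bool}
    (he : ∀ t < L, e t = e' t) (hh : ∀ t < m, h t = h' t) (hb : ∀ l < L, ∀ t < K, b l t = b' l t)
    {l : ℕ} (hl : l < L) : lbit φ e h b l = lbit φ e' h' b' l := by
  unfold lbit
  have h2 : ((List.range (l + 1)).all fun t => e t) = (List.range (l + 1)).all fun t => e' t := by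
    rw [Bool.eq_iff_iff, List.all_eq_true, List.all_eq_true]
    refine forall_congr' fun t => ?_
    constructor
    · intro h ht
      rw [← he _ (by have := List.mem_range.1 ht; omega)]
      exact h ht
    · intro h ht
      rw [he _ (by have := List.mem_range.1 ht; omega)]
      exact h ht
  rw [h2, hφ.congr _ _ _ _ (hb l hl) hh]

theorem lvl_congr {K m : ℕ} {φ : (ℕ → Bool) → (ℕ → Bool) → Bool} (hφ : Mix K m φ) {L : ℕ} {z z' : Bool}
    {e e' h h' : ℕ → Bool} {b b' : ℕ → ℕ → Bool}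
    (hz : z = z') (he : ∀ t < L, e t = e' t) (hh : ∀ t < m, h t = h' t)
    (hb : ∀ l < L, ∀ t < K, b l t = b' l t) : ∀ l ≤ L, lvl φ z e h b l = lvl φ z' e' h' b' l := by
  intro l
  induction l with
  | zero => intro _; exact hz
  | succ l ih =>
    intro hl
    unfold lvl
    rw [ih (by omega), lbit_congr hφ he hh hb hl]

/-- The generator; `G₁`, `G₂`, `G₃` produce the three strings with seeds of length `E₁`, `E₂`, `E₃`. -/
def xG (r : ℕ) (φ : (ℕ → Bool) → (ℕ → Bool) → Bool) (K m : ℕ) (E₂ E₃ : ℕ → ℕ) (G₁ G₂ G₃ : ℕ → ℕ → ℕ → Bool)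
    (n p i : ℕ) : Bool :=
  lvl φ (G₁ n (p / 2 ^ (lev r n * K) / 2 ^ E₃ (n * m) / 2 ^ E₂ (n * lev r n)) i)
    (fun t => G₂ (n * lev r n) (p / 2 ^ (lev r n * K) / 2 ^ E₃ (n * m) % 2 ^ E₂ (n * lev r n)) (i * lev r n + t))
    (fun t => G₃ (n * m) (p / 2 ^ (lev r n * K) % 2 ^ E₃ (n * m)) (i * m + t))
    (fun l t => decide (p / 2 ^ (l * K + t) % 2 = 1)) (lev r n)

theorem polyTime_lev (r : ℕ) {γ : Type} [Enc γ] {n : γ → ℕ} (hn : PolyTime n) : PolyTime fun c => lev r (n c) :=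
  PolyTime.add (PolyTime.add (polyTime_clog.comp hn) (PolyTime.const r)) (PolyTime.const 1)

theorem polyTime_all {γ : Type} [Enc γ] {l : γ → ℕ} {f : γ → ℕ → Bool} (hl : PolyTime l)
    (hf : PolyTime fun q : γ × ℕ => f q.1 q.2) :
    PolyTime fun c => (List.range (l c)).all (f c) := by
  have h1 : PolyTime fun c => ((List.range (l c)).filter fun t => !f c t).isEmpty :=
    PolyTime.isEmpty.comp (PolyTime.filter (f := fun c t => !f c t) (PolyTime.range hl) (PolyTime.not hf))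
  refine h1.of_eq fun c => ?_
  rw [Bool.eq_iff_iff, List.isEmpty_iff, List.filter_eq_nil_iff, List.all_eq_true]
  refine forall_congr' fun t => ?_
  cases f c t <;> simp

theorem polyTime_xG (r : ℕ) {K m : ℕ} {φ : (ℕ → Bool) → (ℕ → Bool) → Bool} (hφ : Mix K m φ)
    {E₁ E₂ E₃ : ℕ → ℕ} {G₁ G₂ G₃ : ℕ → ℕ → ℕ → Bool} (h₁ : NG E₁ G₁)
    (h₂ : NG E₂ G₂) (h₃ : NG E₃ G₃) :
    PolyTime fun q : ℕ × (ℕ × ℕ) => xG r φ K m E₂ E₃ G₁ G₂ G₃ q.1 q.2.1 q.2.2 := by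
  have hn : PolyTime fun q : ℕ × (ℕ × ℕ) => q.1 := PolyTime.fst
  have hp : PolyTime fun q : ℕ × (ℕ × ℕ) => q.2.1 := PolyTime.fst.comp PolyTime.snd
  have hi : PolyTime fun q : ℕ × (ℕ × ℕ) => q.2.2 := PolyTime.snd.comp PolyTime.snd
  have hL := polyTime_lev r hn
  have hN2 : PolyTime fun q : ℕ × (ℕ × ℕ) => q.1 * lev r q.1 := PolyTime.mul hn hL
  have hN3 : PolyTime fun q : ℕ × (ℕ × ℕ) => q.1 * m := PolyTime.mul hn (PolyTime.const _)
  have hp1 : PolyTime fun q : ℕ × (ℕ × ℕ) => q.2.1 / 2 ^ (lev r q.1 * K) :=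
    g3_divpow hp (PolyTime.mul hL (PolyTime.const _))
  have hM2 : PolyTime fun q : ℕ × (ℕ × ℕ) => 2 ^ E₂ (q.1 * lev r q.1) := h₂.poly_M.comp hN2
  have hM3 : PolyTime fun q : ℕ × (ℕ × ℕ) => 2 ^ E₃ (q.1 * m) := h₃.poly_M.comp hN3
  have hp2 : PolyTime fun q : ℕ × (ℕ × ℕ) => q.2.1 / 2 ^ (lev r q.1 * K) / 2 ^ E₃ (q.1 * m) :=
    d3_div hp1 hM3
  have hz : PolyTime fun q : ℕ × (ℕ × ℕ) =>
      G₁ q.1 (q.2.1 / 2 ^ (lev r q.1 * K) / 2 ^ E₃ (q.1 * m) / 2 ^ E₂ (q.1 * lev r q.1)) q.2.2 :=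
    polyTime_out h₁ hn (d3_div hp2 hM2) hi
  have hY2 : ∀ {γ : Type} [Enc γ] {q : γ → ℕ × (ℕ × ℕ)} {t : γ → ℕ}, PolyTime q → PolyTime t →
      PolyTime fun c => G₂ ((q c).1 * lev r (q c).1)
        ((q c).2.1 / 2 ^ (lev r (q c).1 * K) / 2 ^ E₃ ((q c).1 * m) % 2 ^ E₂ ((q c).1 * lev r (q c).1))
        ((q c).2.2 * lev r (q c).1 + t c) := fun {γ} _ {q t} hq ht =>
    polyTime_out h₂ (hN2.comp hq) ((d3_mod hp2 hM2).comp hq)
      (PolyTime.add ((PolyTime.mul hi hL).comp hq) ht)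
  have hY3 : ∀ {γ : Type} [Enc γ] {q : γ → ℕ × (ℕ × ℕ)} {t : γ → ℕ}, PolyTime q → PolyTime t →
      PolyTime fun c => G₃ ((q c).1 * m)
        ((q c).2.1 / 2 ^ (lev r (q c).1 * K) % 2 ^ E₃ ((q c).1 * m))
        ((q c).2.2 * m + t c) := fun {γ} _ {q t} hq ht =>
    polyTime_out h₃ (hN3.comp hq) ((d3_mod hp1 hM3).comp hq)
      (PolyTime.add ((PolyTime.mul hi (PolyTime.const m)).comp hq) ht)
  have hbody : PolyTime fun x : (ℕ × (ℕ × ℕ)) × (Bool × ℕ) => xor x.2.1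
      (lbit φ (fun t => G₂ (x.1.1 * lev r x.1.1)
        (x.1.2.1 / 2 ^ (lev r x.1.1 * K) / 2 ^ E₃ (x.1.1 * m) % 2 ^ E₂ (x.1.1 * lev r x.1.1))
        (x.1.2.2 * lev r x.1.1 + t))
        (fun t => G₃ (x.1.1 * m) (x.1.2.1 / 2 ^ (lev r x.1.1 * K) % 2 ^ E₃ (x.1.1 * m))
          (x.1.2.2 * m + t)) (fun l t => decide (x.1.2.1 / 2 ^ (l * K + t) % 2 = 1)) x.2.2) := by
    have hx1 : PolyTime fun x : (ℕ × (ℕ × ℕ)) × (Bool × ℕ) => x.1 := PolyTime.fst
    have hl : PolyTime fun x : (ℕ × (ℕ × ℕ)) × (Bool × ℕ) => x.2.2 := PolyTime.snd.comp PolyTime.snd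
    refine polyTime_xor (PolyTime.fst.comp PolyTime.snd) (PolyTime.and ?_ ?_)
    · exact polyTime_all (f := fun (x : (ℕ × (ℕ × ℕ)) × (Bool × ℕ)) t => G₂ (x.1.1 * lev r x.1.1)
        (x.1.2.1 / 2 ^ (lev r x.1.1 * K) / 2 ^ E₃ (x.1.1 * m) % 2 ^ E₂ (x.1.1 * lev r x.1.1))
        (x.1.2.2 * lev r x.1.1 + t)) (PolyTime.add hl (PolyTime.const 1))
        (hY2 (q := fun y : ((ℕ × (ℕ × ℕ)) × (Bool × ℕ)) × ℕ => y.1.1) (t := fun y => y.2)
          (PolyTime.fst.comp PolyTime.fst) PolyTime.snd)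
    · refine hφ.poly (a := fun (x : (ℕ × (ℕ × ℕ)) × (Bool × ℕ)) t =>
        decide (x.1.2.1 / 2 ^ (x.2.2 * K + t) % 2 = 1)) ?_ fun t => hY3 hx1 (PolyTime.const t)
      have hf : PolyTime fun y : ((ℕ × (ℕ × ℕ)) × (Bool × ℕ)) × ℕ => y.1 := PolyTime.fst
      exact PolyTime.eqb (d3_mod (g3_divpow ((hp.comp hx1).comp hf) (PolyTime.add
        (PolyTime.mul (hl.comp hf) (PolyTime.const _)) PolyTime.snd)) (PolyTime.const 2)) (PolyTime.const 1)
  have hfold := PolyTime.foldl (α := ℕ × (ℕ × ℕ)) (β := ℕ) (δ := Bool)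
    (l := fun q => List.range (lev r q.1))
    (ini := fun q => G₁ q.1 (q.2.1 / 2 ^ (lev r q.1 * K) / 2 ^ E₃ (q.1 * m) / 2 ^ E₂ (q.1 * lev r q.1)) q.2.2)
    (f := fun q a l => xor a (lbit φ (fun t => G₂ (q.1 * lev r q.1)
        (q.2.1 / 2 ^ (lev r q.1 * K) / 2 ^ E₃ (q.1 * m) % 2 ^ E₂ (q.1 * lev r q.1))
        (q.2.2 * lev r q.1 + t))
        (fun t => G₃ (q.1 * m) (q.2.1 / 2 ^ (lev r q.1 * K) % 2 ^ E₃ (q.1 * m))
          (q.2.2 * m + t)) (fun l t => decide (q.2.1 / 2 ^ (l * K + t) % 2 = 1)) l))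
    (PolyTime.range hL) hz hbody
    (fun _ => max (enc true).length (enc false).length) (PB.const _) (fun a i => by
      generalize List.foldl _ _ _ = b
      cases b
      · exact le_max_right _ _
      · exact le_max_left _ _)
  refine hfold.of_eq fun q => ?_
  unfold xG
  rw [lvl_eq]

theorem bound_mul {f g : ℕ → ℕ} (h : ∃ c : ℕ, ∀ n, f n ≤ c * (n + 1) ^ c)
    (hg : ∃ a : ℕ, ∀ n, g n ≤ a * (n + 1)) : ∃ c : ℕ, ∀ n, f (n * g n) ≤ c * (n + 1) ^ c := by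
  obtain ⟨c, hc⟩ := h
  obtain ⟨a, ha⟩ := hg
  refine ⟨(c + 1) * (a + 1) ^ c + 2 * c, fun n => ?_⟩
  have h1 := hc (n * g n)
  have h2 : n * g n + 1 ≤ (a + 1) * (n + 1) ^ 2 := by
    have h4 : n * g n ≤ n * (a * (n + 1)) := Nat.mul_le_mul_left _ (ha n)
    nlinarith [Nat.zero_le (a * n), Nat.zero_le (n * n), Nat.zero_le (a * n * n)]
  calc f (n * g n) ≤ c * (n * g n + 1) ^ c := h1
    _ ≤ c * ((a + 1) * (n + 1) ^ 2) ^ c := Nat.mul_le_mul_left _ (Nat.pow_le_pow_left h2 _)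
    _ = (c * (a + 1) ^ c) * (n + 1) ^ (2 * c) := by rw [mul_pow, ← pow_mul]; ring
    _ ≤ ((c + 1) * (a + 1) ^ c + 2 * c) * (n + 1) ^ ((c + 1) * (a + 1) ^ c + 2 * c) := by
      apply Nat.mul_le_mul
      · nlinarith [Nat.zero_le ((a + 1) ^ c)]
      · apply Nat.pow_le_pow_right (by omega)
        exact Nat.le_add_left _ _

theorem lev_le (r n : ℕ) : lev r n ≤ (r + 1) * (n + 1) := by
  unfold lev
  have : Nat.clog 2 n ≤ n := by
    rw [Nat.clog_le_iff_le_pow (by norm_num)]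
    exact Nat.lt_two_pow_self.le
  nlinarith [Nat.zero_le (r * n)]

theorem ng_xG (r : ℕ) {K m : ℕ} {φ : (ℕ → Bool) → (ℕ → Bool) → Bool} (hφ : Mix K m φ)
    {E₁ E₂ E₃ : ℕ → ℕ} {G₁ G₂ G₃ : ℕ → ℕ → ℕ → Bool} (h₁ : NG E₁ G₁) (h₂ : NG E₂ G₂) (h₃ : NG E₃ G₃) :
    NG (fun n => E₁ n + E₂ (n * lev r n) + E₃ (n * m) + lev r n * K) (xG r φ K m E₂ E₃ G₁ G₂ G₃) := by
  have hN2 : PolyTime fun n : ℕ => n * lev r n := PolyTime.mul PolyTime.id (polyTime_lev r PolyTime.id)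
  have hN3 : PolyTime fun n : ℕ => n * m := PolyTime.mul PolyTime.id (PolyTime.const m)
  have e1 : ∀ n, 2 ^ (lev r n * K) = nseed K n * 2 ^ ((r + 1) * K) := by
    intro n
    unfold lev nseed
    rw [← pow_mul, ← pow_add]
    congr 1
    ring
  refine ⟨PolyTime.add (PolyTime.add (PolyTime.add h₁.poly_E (h₂.poly_E.comp hN2))
    (h₃.poly_E.comp hN3)) (PolyTime.mul (polyTime_lev r PolyTime.id) (PolyTime.const _)), ?_, ?_,
    polyTime_xG r hφ h₁ h₂ h₃⟩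
  · exact (PolyTime.mul (PolyTime.mul (PolyTime.mul h₁.poly_M (h₂.poly_M.comp hN2))
      (h₃.poly_M.comp hN3)) (PolyTime.mul (polyTime_nseed K) (PolyTime.const _))).of_eq fun n => by rw [pow_add, pow_add, pow_add, e1]
  · have hb2 : ∃ c : ℕ, ∀ n, 2 ^ (lev r n * K) ≤ c * (n + 1) ^ c := by
      obtain ⟨c, hc⟩ := pb_mul (pb_pow pb_clog K) (pb_const (2 ^ ((r + 1) * K)))
      refine ⟨c, fun n => ?_⟩
      rw [e1]
      exact hc n
    have hb3 := bound_mul h₂.bound (g := lev r) ⟨r + 1, lev_le r⟩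
    have hb4 := bound_mul h₃.bound (g := fun _ => m) ⟨m, fun n => Nat.le_mul_of_pos_right _ (by omega)⟩
    obtain ⟨c, hc⟩ := pb_mul (pb_mul (pb_mul h₁.bound hb3) hb4) hb2
    exact ⟨c, fun n => by
      show 2 ^ (E₁ n + E₂ (n * lev r n) + E₃ (n * m) + lev r n * K) ≤ _
      rw [pow_add, pow_add, pow_add]
      exact hc n⟩

end Pool.Agent.MP_ca1109_lc.Xp.Qgn
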